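import Pool.Agent.N842.HS.Prm

/-!
# Sums over the prime ideals of bounded norm
-/

set_option autoImplicit false

namespace Pool.Agent.N842.HS

open Finset NumberField IsDedekindDomain
open Pool.Agent.TH894.NE (mean box mem_box)
open Pool.Agent.TH894.NF (pr pr_prime)
open Pool.Agent.Y57.FD (digit exceptions)

lemma lt_pr_pi (T : ℕ) : T < pr (Nat.primeCounting T) := by
  by_contra hcon
  push Not at hcon
  have h1 : Nat.count Nat.Prime (pr (Nat.primeCounting T)) < Nat.count Nat.Prime (T + 1) :=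
    Nat.count_strict_mono (pr_prime _) (by omega)
  have h2 : Nat.count Nat.Prime (pr (Nat.primeCounting T)) = Nat.primeCounting T := Nat.primeCounting'_nth_eq _
  have h3 : Nat.count Nat.Prime (T + 1) = Nat.primeCounting T := rfl
  omega

lemma pi_le (T : ℕ) : Nat.primeCounting T ≤ T := by
  by_contra hcon
  push Not at hcon
  have h1 : T < Nat.primeCounting T := hcon
  have h2 : pr T < T + 1 := Nat.nth_lt_of_lt_count (p := Nat.Prime) h1
  have h3 := pr_ge T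
  omega

section
variable {K : Type} [Field K] [NumberField K]

open Classical in
/-- the weights -/
noncomputable def wv (x : ℕ) (w : HeightOneSpectrum (𝓞 K) → ℝ) (k : ℕ) (φ : (e : Fin 1) → (𝓞 K →+* ZMod (Nat.nth Nat.Prime (k + e)))) : ℝ :=
  if k < x then w (hv (φ 0)) * (Real.log (Ideal.absNorm (hv (φ 0)).asIdeal) / Real.log (Nat.nth Nat.Prime x)) else 0

lemma log_nth (x : ℕ) : 0 < Real.log (Nat.nth Nat.Prime x) := Real.log_pos (by exact_mod_cast (Nat.prime_nth_prime x).one_lt)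

lemma wv_le (x : ℕ) (w : HeightOneSpectrum (𝓞 K) → ℝ) (hw : ∀ v, |w v| ≤ 1) (k : ℕ) (φ : (e : Fin 1) → (𝓞 K →+* ZMod (Nat.nth Nat.Prime (k + e)))) :
    |wv x w k φ| ≤ 1 := by
  unfold wv
  split_ifs with h
  · rw [absNorm_hv, abs_mul]
    have h1 : 0 ≤ Real.log ((Nat.nth Nat.Prime (k + ((0 : Fin 1) : ℕ)) : ℕ)) / Real.log (Nat.nth Nat.Prime x) := (div_pos (log_nth _) (log_nth x)).le
    have h2 : Real.log ((Nat.nth Nat.Prime (k + ((0 : Fin 1) : ℕ)) : ℕ)) / Real.log (Nat.nth Nat.Prime x) ≤ 1 := by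
      rw [div_le_one (log_nth x)]
      apply Real.log_le_log
      · exact_mod_cast (Nat.prime_nth_prime _).pos
      · have : Nat.nth Nat.Prime (k + ((0 : Fin 1) : ℕ)) ≤ Nat.nth Nat.Prime x := pr_mono.monotone (by simp; omega)
        exact_mod_cast this
    rw [abs_of_nonneg h1]
    calc |w (hv (φ 0))| * (Real.log ((Nat.nth Nat.Prime (k + ((0 : Fin 1) : ℕ)) : ℕ)) / Real.log (Nat.nth Nat.Prime x)) ≤ 1 * 1 :=
          mul_le_mul (hw _) h2 h1 zero_le_one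
      _ = 1 := one_mul 1
  · rw [abs_zero]
    exact zero_le_one

/-- the analytic part: the size of the error -/
lemma ev_err (n : ℕ) (η δ : ℝ) (hη : 0 ≤ η) (hδ : 0 < δ) : ∀ᶠ x : ℕ in Filter.atTop, ∀ T : ℕ, x ≤ T →
    Real.log (Nat.nth Nat.Prime x) * (Real.sqrt (max 1 (n * x)) * (x : ℝ) ^ (η + δ / 2)) ≤ (T : ℝ) ^ (1 / 2 + η + δ) := by
  have h1 := pr_bound 0 1 one_pos
  have h2 : ∀ᶠ x : ℕ in Filter.atTop, 2 * Real.log x * Real.sqrt (n + 1) ≤ (x : ℝ) ^ (δ / 2) := by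
    have h4 := (isLittleO_log_rpow_atTop (show (0 : ℝ) < δ / 2 by positivity)).bound (show (0 : ℝ) < 1 / (2 * Real.sqrt (n + 1)) by positivity)
    have h5 := tendsto_natCast_atTop_atTop.eventually h4
    filter_upwards [h5, Filter.eventually_ge_atTop 1] with x hx hx1
    rw [Real.norm_of_nonneg (Real.log_nonneg (by exact_mod_cast hx1)), Real.norm_of_nonneg (by positivity)] at hx
    have h6 : 0 < Real.sqrt ((n : ℝ) + 1) := Real.sqrt_pos.2 (by positivity)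
    rw [div_mul_eq_mul_div, one_mul, le_div_iff₀ (by positivity)] at hx
    linarith
  filter_upwards [h1, h2, Filter.eventually_ge_atTop 1] with x h1 h2 hx1 T hT
  have hx0 : (0 : ℝ) < x := by exact_mod_cast hx1
  have hx1' : (1 : ℝ) ≤ x := by exact_mod_cast hx1
  have h3 : Real.log (Nat.nth Nat.Prime x) ≤ 2 * Real.log x := by
    rw [add_zero] at h1
    have e1 : Real.log (pr x) ≤ Real.log ((x : ℝ) ^ ((1 : ℝ) + 1)) := Real.log_le_log (by exact_mod_cast (pr_prime _).pos) h1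
    rw [Real.log_rpow hx0] at e1
    have e2 : ((1 : ℝ) + 1) = 2 := by norm_num
    rw [e2] at e1
    exact e1
  have h4 : Real.sqrt (max 1 (n * x)) ≤ Real.sqrt (n + 1) * Real.sqrt x := by
    rw [← Real.sqrt_mul (by positivity)]
    apply Real.sqrt_le_sqrt
    apply max_le
    · nlinarith [Nat.cast_nonneg (α := ℝ) n]
    · nlinarith
  have hlog0 : 0 ≤ Real.log x := Real.log_nonneg hx1'
  calc Real.log (Nat.nth Nat.Prime x) * (Real.sqrt (max 1 (n * x)) * (x : ℝ) ^ (η + δ / 2)) ≤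
      (2 * Real.log x) * ((Real.sqrt (n + 1) * Real.sqrt x) * (x : ℝ) ^ (η + δ / 2)) := by
        apply mul_le_mul h3 _ (by positivity) (by positivity)
        exact mul_le_mul_of_nonneg_right h4 (by positivity)
    _ = (2 * Real.log x * Real.sqrt (n + 1)) * (Real.sqrt x * (x : ℝ) ^ (η + δ / 2)) := by ring
    _ ≤ (x : ℝ) ^ (δ / 2) * (Real.sqrt x * (x : ℝ) ^ (η + δ / 2)) := mul_le_mul_of_nonneg_right h2 (by positivity)
    _ = (x : ℝ) ^ (1 / 2 + η + δ) := by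
        rw [Real.sqrt_eq_rpow, ← Real.rpow_add hx0, ← Real.rpow_add hx0]
        congr 1
        ring
    _ ≤ (T : ℝ) ^ (1 / 2 + η + δ) := by
        apply Real.rpow_le_rpow hx0.le _ (by positivity)
        exact_mod_cast hT

open Classical in
/-- **Local functions at the prime ideals of bounded norm.** -/
theorem genV (b g D : ℕ) (ω : Fin g → 𝓞 K) (hω : (1 : 𝓞 K) ∈ Submodule.span ℤ (Set.range ω)) (hb : 2 ≤ b) (hD : 1 ≤ D * g)
    (δ : ℝ) (hδ : 0 < δ) (A B : ℕ) {Θ : Type} (Q : Finset Θ)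
    (G : Θ → ∀ (p : ℕ) [Fact p.Prime], (Fin D → ZMod p) → ℝ) (M : Θ → ℝ) (η : ℝ) (hη : 0 ≤ η)
    (hbd : ∀ θ ∈ Q, ∃ C : ℝ, 0 ≤ C ∧ ∀ (p : ℕ) [Fact p.Prime], (∀ u, |G θ p u| ≤ C * (p : ℝ) ^ η) ∧ |M θ| ≤ C * (p : ℝ) ^ η)
    (hmean : ∀ θ ∈ Q, ∃ C : ℝ, 0 ≤ C ∧ ∀ (p : ℕ) [Fact p.Prime], |(∑ u : Fin D → ZMod p, G θ p u) / (p : ℝ) ^ D - M θ| ≤ C / Real.sqrt p) :
    ∃ c : ℝ, 0 < c ∧ ∃ y₀ : ℕ, ∀ (L r : Fin (D * g) → ℕ) (y : ℕ), (∀ i, 2 * r i ≤ L i) → y₀ ≤ y →
    ∀ N' : Fin (D * g) → ℕ, (∀ i, N' i < b ^ L i) →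
    ∀ f : Fin (D * g) → ℕ → ℕ, (∀ i j, f i j < b ∧ f i j ≠ digit b j (N' i)) →
    ∀ W : ℕ → Set (HeightOneSpectrum (𝓞 K) → ℝ), (∀ T, (W T).Finite ∧ (W T).ncard ≤ T ^ B) → (∀ T, ∀ w ∈ W T, ∀ v, |w v| ≤ 1) →
    ∀ E : (Fin (D * g) → ℕ) → Prop,
    (∀ m : Fin (D * g) → ℕ, (∀ T : ℕ, y ≤ T → (∀ i, (T : ℝ) ≤ Real.exp (c * r i)) → ∀ w ∈ W T, ∀ θ ∈ Q,
      ∀ F : HeightOneSpectrum (𝓞 K) → ℝ, (∀ (p : ℕ) [Fact p.Prime] (φ : 𝓞 K →+* ZMod p), F (hv φ) = G θ p (fun j => φ (cf ω m j))) →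
      |∑ v ∈ (VT K T).filter (fun v => (Ideal.absNorm v.asIdeal).Prime), w v * ((F v - M θ) * Real.log (Ideal.absNorm v.asIdeal))| ≤
        (T : ℝ) ^ (1 / 2 + η + δ)) → E m) →
    (exceptions b L r N' f E : ℝ) ≤ 1 / (y : ℝ) ^ A * ∏ i, ((L i).choose (r i) : ℝ) := by
  obtain ⟨n, hn⟩ := hom_card (𝓞 K)
  obtain ⟨c, hc, y₀, hg⟩ := genRW b g D 1 ω hω hb hD le_rfl (δ / 2) (by positivity) (2 * A + 1) (2 * B + 2) Q G (fun θ _ => M θ) η hη hbd hmean
  obtain ⟨x₁, hx₁⟩ := Filter.eventually_atTop.1 (ev_err n η δ hη hδ)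
  obtain ⟨x₂, hx₂⟩ := Filter.eventually_atTop.1 (pr_bound 0 1 one_pos)
  obtain ⟨a4, ha4⟩ : ∃ a4 : ℕ, a4 = 4 ^ A := ⟨_, rfl⟩
  obtain ⟨Y, hY⟩ : ∃ Y : ℕ, Y = y₀ + x₁ + x₂ + a4 + 1 := ⟨_, rfl⟩
  -- the number `Y ^ 2` and its prime counting function
  refine ⟨c, hc, (pr (Y + 1)) ^ 2, fun L r y hrL hy N' hN' f hf W hW hW1 E hE => ?_⟩
  have hprY : Y + 2 ≤ pr (Y + 1) := pr_ge (Y + 1)
  have hysq : Y ≤ Nat.sqrt y := by
    rw [Nat.le_sqrt']
    refine le_trans ?_ hy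
    exact Nat.pow_le_pow_left (by omega) 2
  obtain ⟨W', hW'⟩ : ∃ W' : ℕ → Set ((k : ℕ) → ((e : Fin 1) → (𝓞 K →+* ZMod (Nat.nth Nat.Prime (k + e)))) → ℝ),
      W' = fun x => ↑(((range (x ^ 2)).sigma (fun T => (hW T).1.toFinset)).image (fun z => wv x z.2)) := ⟨_, rfl⟩
  have hWc : ∀ x, (W' x).Finite ∧ (W' x).ncard ≤ x ^ (2 * B + 2) := by
    intro x
    rw [hW']
    beta_reduce
    refine ⟨finite_toSet _, ?_⟩
    rw [Set.ncard_coe_finset]
    refine card_image_le.trans ?_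
    rw [card_sigma]
    refine (sum_le_sum (g := fun _ => x ^ (2 * B)) fun T hT => ?_).trans ?_
    · rw [← Set.ncard_eq_toFinset_card _ (hW T).1]
      refine (hW T).2.trans ?_
      rw [mem_range] at hT
      rw [pow_mul]
      exact Nat.pow_le_pow_left hT.le B
    · rw [sum_const, card_range, smul_eq_mul, ← pow_add, add_comm]
  have hmain := hg L r (Nat.sqrt y) hrL (by omega) N' hN' f hf W' hWc (fun x w' hw' k φ => ?_) E fun m hm => ?_
  · refine hmain.trans ?_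
    apply mul_le_mul_of_nonneg_right _ (prod_nonneg fun i _ => Nat.cast_nonneg _)
    have hy0 : 0 < y := by
      refine lt_of_lt_of_le ?_ hy
      exact pow_pos (pr_prime _).pos 2
    have hs1 : 1 ≤ Nat.sqrt y := by omega
    have h1 : y ≤ 4 * (Nat.sqrt y) ^ 2 := by
      have := Nat.lt_succ_sqrt y
      have h2 : Nat.sqrt y + 1 ≤ 2 * Nat.sqrt y := by omega
      nlinarith
    apply one_div_le_one_div_of_le (by positivity)
    have h2 : (y : ℝ) ≤ 4 * (Nat.sqrt y : ℝ) ^ 2 := by exact_mod_cast h1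
    have h3 : (4 : ℝ) ^ A ≤ Nat.sqrt y := by
      have : 4 ^ A ≤ Nat.sqrt y := by omega
      exact_mod_cast this
    calc (y : ℝ) ^ A ≤ (4 * (Nat.sqrt y : ℝ) ^ 2) ^ A := pow_le_pow_left₀ (Nat.cast_nonneg _) h2 A
      _ = 4 ^ A * (Nat.sqrt y : ℝ) ^ (2 * A) := by rw [mul_pow, ← pow_mul]
      _ ≤ (Nat.sqrt y : ℝ) * (Nat.sqrt y : ℝ) ^ (2 * A) := mul_le_mul_of_nonneg_right h3 (by positivity)
      _ = (Nat.sqrt y : ℝ) ^ (2 * A + 1) := by ring
  · rw [hW'] at hw'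
    beta_reduce at hw'
    rw [mem_coe, mem_image] at hw'
    obtain ⟨z, hz, rfl⟩ := hw'
    rw [mem_sigma, Set.Finite.mem_toFinset] at hz
    exact wv_le x z.2 (hW1 _ _ hz.2) k φ
  · refine hE m fun T hyT hTr w hw θ hθ F hF => ?_
    obtain ⟨x, hx⟩ : ∃ x : ℕ, x = Nat.primeCounting T := ⟨_, rfl⟩
    have hxT : x ≤ T := by rw [hx]; exact pi_le T
    have hYx : Y + 1 ≤ x := by
      rw [hx]
      have e1 : pr (Y + 1) ≤ T := by
        refine le_trans ?_ (hy.trans hyT)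
        exact Nat.le_self_pow two_ne_zero _
      have e2 : Nat.primeCounting (pr (Y + 1)) ≤ Nat.primeCounting T := Nat.monotone_primeCounting e1
      rw [pi_pr] at e2
      omega
    have hTx : T < x ^ 2 := by
      have e1 := hx₂ x (by omega)
      have e2 := lt_pr_pi T
      rw [← hx] at e2
      rw [add_zero] at e1
      have e3 : ((x : ℝ)) ^ ((1 : ℝ) + 1) = (x : ℝ) ^ 2 := by
        rw [show ((1 : ℝ) + 1) = ((2 : ℕ) : ℝ) by norm_num, Real.rpow_natCast]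
      rw [e3] at e1
      have e4 : pr x ≤ x ^ 2 := by exact_mod_cast e1
      omega
    have hsx : Nat.sqrt y ≤ x := by
      have e1 : Nat.sqrt y < x := by
        rw [Nat.sqrt_lt']
        omega
      omega
    have hw' : wv x w ∈ W' x := by
      rw [hW']
      beta_reduce
      rw [mem_coe, mem_image]
      exact ⟨⟨T, w⟩, by rw [mem_sigma, mem_range, Set.Finite.mem_toFinset]; exact ⟨hTx, hw⟩, rfl⟩
    have h1 := hm x hsx (fun i => le_trans (by exact_mod_cast hxT) (hTr i)) (wv x w) hw' (fun _ => θ) (fun _ => hθ)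
    rw [Nat.cast_one, one_mul] at h1
    -- the sum
    have h2 : ∑ v ∈ (VT K T).filter (fun v => (Ideal.absNorm v.asIdeal).Prime), w v * ((F v - M θ) * Real.log (Ideal.absNorm v.asIdeal)) =
        Real.log (Nat.nth Nat.Prime x) * ∑ k ∈ range x, ∑ᶠ φ : (e : Fin 1) → (𝓞 K →+* ZMod (Nat.nth Nat.Prime (k + e))),
          wv x w k φ * (∏ e : Fin 1, G θ (Nat.nth Nat.Prime (k + e)) (fun j => φ e (cf ω m j)) - ∏ e : Fin 1, M θ) := by
      rw [sum_deg1, ← hx, mul_sum]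
      refine sum_congr rfl fun k hk => ?_
      rw [mem_range] at hk
      have hfin : Finite ((e : Fin 1) → (𝓞 K →+* ZMod (Nat.nth Nat.Prime (k + e)))) := by
        have : ∀ e : Fin 1, Finite (𝓞 K →+* ZMod (Nat.nth Nat.Prime (k + e))) := fun e => hom_finite (𝓞 K) _
        exact Pi.finite
      have hft : Fintype ((e : Fin 1) → (𝓞 K →+* ZMod (Nat.nth Nat.Prime (k + e)))) := Fintype.ofFinite _
      rw [finsum_eq_sum_of_fintype, finsum_eq_sum_of_fintype, mul_sum]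
      refine sum_congr rfl fun φ _ => ?_
      rw [Fin.prod_univ_one, Fin.prod_univ_one, hF]
      unfold wv
      rw [if_pos hk]
      have hl := (log_nth x).ne'
      field_simp
    rw [h2, abs_mul, abs_of_pos (log_nth x)]
    refine (mul_le_mul_of_nonneg_left h1 (log_nth x).le).trans ?_
    refine le_trans ?_ (hx₁ x (by omega) T hxT)
    apply mul_le_mul_of_nonneg_left _ (log_nth x).le
    apply mul_le_mul_of_nonneg_right _ (by positivity)
    apply Real.sqrt_le_sqrt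
    apply max_le_max le_rfl
    -- the number of the prime ideals
    have h3 : ∀ k ∈ range x, ∑ᶠ φ : (e : Fin 1) → (𝓞 K →+* ZMod (Nat.nth Nat.Prime (k + e))), wv x w k φ ^ 2 ≤ n := by
      intro k _
      have hfin : Finite ((e : Fin 1) → (𝓞 K →+* ZMod (Nat.nth Nat.Prime (k + e)))) := by
        have : ∀ e : Fin 1, Finite (𝓞 K →+* ZMod (Nat.nth Nat.Prime (k + e))) := fun e => hom_finite (𝓞 K) _
        exact Pi.finite
      have hft : Fintype ((e : Fin 1) → (𝓞 K →+* ZMod (Nat.nth Nat.Prime (k + e)))) := Fintype.ofFinite _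
      rw [finsum_eq_sum_of_fintype]
      refine (sum_le_sum (g := fun _ => (1 : ℝ)) fun φ _ => ?_).trans ?_
      · rw [← sq_abs]
        exact pow_le_one₀ (abs_nonneg _) (wv_le x w (hW1 T w hw) k φ)
      · rw [sum_const, card_univ, nsmul_eq_mul, mul_one]
        have h4 := Fintype.card_le_of_injective _ (num_inj (R := 𝓞 K) (s := 1) hn k)
        rw [Fintype.card_fun, Fintype.card_fin, Fintype.card_fin, pow_one] at h4
        exact_mod_cast h4
    refine (sum_le_sum h3).trans ?_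
    rw [sum_const, card_range, nsmul_eq_mul, mul_comm]

end

end Pool.Agent.N842.HS
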