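import Pool.Agent.N842.HS.Pol

/-!
# The moments of the traces, truncated
-/

set_option autoImplicit false

namespace Pool.Agent.N842.HS

open Finset MvPolynomial
open Pool.Agent.Y57.FD.Mom (normal)
open Pool.Agent.N842.ST (gfFin card_gf normal_nonneg)

attribute [local instance] gfFin

section
variable {N d D : ℕ} {e : Fin D ≃ Mon N d}

/-- two functions which are close to each other -/
def Near (e : Fin D ≃ Mon N d) (K R : ℕ) (G H : ∀ (p : ℕ) [Fact p.Prime], (Fin D → ZMod p) → ℝ) : Prop :=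
  Cls e K R G ∧ Cls e K R H ∧ Cls e K R (fun p _ u => Real.sqrt p * (G p u - H p u))

lemma Near.mul {K R R' : ℕ} {G H G' H' : ∀ (p : ℕ) [Fact p.Prime], (Fin D → ZMod p) → ℝ} (h1 : Near e K R G H) (h2 : Near e K R' G' H') :
    Near e K (R + R') (fun p _ u => G p u * G' p u) (fun p _ u => H p u * H' p u) := by
  refine ⟨h1.1.mul h2.1, h1.2.1.mul h2.2.1, ?_⟩
  refine ((h1.2.2.mul h2.1).add (h1.2.1.mul h2.2.2)).congr fun p _ u => ?_
  ring

lemma Near.one {K : ℕ} : Near e K 0 (fun _ _ _ => 1) (fun _ _ _ => 1) := by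
  refine ⟨Cls.const (fun _ => 1) 1 (fun _ => by simp), Cls.const (fun _ => 1) 1 (fun _ => by simp), ?_⟩
  refine (Cls.const (e := e) (K := K) (fun _ => 0) 0 (fun _ => by simp)).congr fun p _ u => ?_
  ring

lemma Near.pow {K R : ℕ} {G H : ∀ (p : ℕ) [Fact p.Prime], (Fin D → ZMod p) → ℝ} (h : Near e K R G H) (n : ℕ) :
    Near e K (R * n) (fun p _ u => G p u ^ n) (fun p _ u => H p u ^ n) := by
  induction n with
  | zero =>
    simp only [pow_zero, Nat.mul_zero]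
    exact Near.one
  | succ n ih =>
    have := ih.mul h
    simp only [pow_succ, Nat.mul_succ]
    exact this

lemma Near.prod {K : ℕ} (s : Finset (Fin K)) (R : Fin K → ℕ) {G H : Fin K → ∀ (p : ℕ) [Fact p.Prime], (Fin D → ZMod p) → ℝ}
    (h : ∀ j ∈ s, Near e K (R j) (G j) (H j)) : Near e K (∑ j ∈ s, R j) (fun p _ u => ∏ j ∈ s, G j p u) (fun p _ u => ∏ j ∈ s, H j p u) := by
  classical
  induction s using Finset.induction_on with
  | empty =>
    simp only [prod_empty, sum_empty]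
    exact Near.one
  | insert a s ha ih =>
    simp only [prod_insert ha, sum_insert ha]
    exact (h a (mem_insert_self a s)).mul (ih fun j hj => h j (mem_insert_of_mem hj))

variable (e)

/-- the products of the traces -/
noncomputable def Yk {K : ℕ} (r : Fin K → ℕ) (p : ℕ) [Fact p.Prime] (u : Fin D → ZMod p) : ℝ := ∏ j : Fin K, trk e p (j + 1) u ^ r j

/-- the products of the leading parts -/
noncomputable def Y0 {K : ℕ} (r : Fin K → ℕ) (p : ℕ) [Fact p.Prime] (u : Fin D → ZMod p) : ℝ := ∏ j : Fin K, tr0 e p (j + 1) u ^ r j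

lemma near_Y (hN : 2 ≤ N) (hd : 0 < d) {K : ℕ} (r : Fin K → ℕ) :
    Near e K (∑ j : Fin K, (j + 1 : ℕ) * r j) (fun p _ u => Yk e r p u) (fun p _ u => Y0 e r p u) := by
  refine Near.prod univ (fun j => (j + 1 : ℕ) * r j) fun j _ => ?_
  refine Near.pow ?_ (r j)
  have h1 := trk_err e hN hd j
  have h2 := tr0_cls e j
  refine ⟨?_, h2, h1⟩
  have h3 := (h1.smul (fun p => 1 / Real.sqrt p) 1 (fun p => by
    rw [abs_of_nonneg (by positivity)]
    by_cases hp : p = 0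
    · rw [hp]
      simp
    · have : 1 ≤ Real.sqrt p := by
        rw [Real.one_le_sqrt]
        exact_mod_cast Nat.one_le_iff_ne_zero.2 hp
      exact (div_le_one (by linarith)).2 this)).add h2
  refine h3.congr fun p _ u => ?_
  have hs0 : 0 < Real.sqrt p := by have := sqp1 p; linarith
  field_simp
  ring

/-- the moments of a normal variable with variance `k` and mean `etak k`, with the sign -/
noncomputable def muk (N k r : ℕ) : ℝ := ((-1) ^ (N - 1)) ^ r * ∑ i ∈ range (r + 1), (r.choose i : ℝ) * etak k ^ (r - i) * (normal i * (k : ℝ) ^ (i / 2))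

/-- the means of the products of the leading parts -/
lemma mean_Y0 (hN : 2 ≤ N) (hd : 0 < d) {K : ℕ} (r : Fin K → ℕ) (hr : ∑ j : Fin K, (j + 1 : ℕ) * r j ≤ d) :
    ∃ C : ℝ, 0 ≤ C ∧ ∀ (p : ℕ) [Fact p.Prime], |(∑ u : Fin D → ZMod p, Y0 e r p u) / (p : ℝ) ^ D - ∏ j : Fin K, muk N (j + 1) (r j)| ≤ C / Real.sqrt p := by
  classical
  obtain ⟨I, hI⟩ : ∃ I : Finset (Fin K → ℕ), I = Fintype.piFinset (fun j => range (r j + 1)) := ⟨_, rfl⟩
  have hIm : ∀ i, i ∈ I → ∀ j, i j ≤ r j := by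
    intro i hi j
    rw [hI, Fintype.mem_piFinset] at hi
    have := hi j
    rw [mem_range] at this
    omega
  have hch2 : ∀ i : Fin K → ℕ, ∃ C : ℝ, 0 ≤ C ∧ (i ∈ I → ∀ (p : ℕ) [Fact p.Prime],
      |(∑ u : Fin D → ZMod p, ∏ j : Fin K, bk e p (j + 1) u ^ i j) / (p : ℝ) ^ D -
        ∏ j : Fin K, (normal (i j) * ((j + 1 : ℕ) : ℝ) ^ (i j / 2))| ≤ C / Real.sqrt p) := by
    intro i
    by_cases hi : i ∈ I
    · obtain ⟨C, hC0, hC⟩ := momk e hN hd i ((sum_le_sum fun j _ => Nat.mul_le_mul_left _ (hIm i hi j)).trans hr)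
      exact ⟨C, hC0, fun _ p _ => hC p⟩
    · exact ⟨0, le_rfl, fun h => absurd h hi⟩
  choose C hC0 hC using hch2
  obtain ⟨a, ha⟩ : ∃ a : (Fin K → ℕ) → ℝ, a = fun i => ∏ j : Fin K, (((-1) ^ (N - 1)) ^ r j * ((r j).choose (i j) : ℝ) * etak (j + 1) ^ (r j - i j)) := ⟨_, rfl⟩
  refine ⟨∑ i ∈ I, |a i| * C i, sum_nonneg fun i _ => mul_nonneg (abs_nonneg _) (hC0 i), fun p _ => ?_⟩
  have h1 : ∀ u : Fin D → ZMod p, Y0 e r p u = ∑ i ∈ I, a i * ∏ j : Fin K, bk e p (j + 1) u ^ i j := by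
    intro u
    have e2 : ∀ j : Fin K, tr0 e p (j + 1) u ^ r j =
        ∑ i ∈ range (r j + 1), (((-1) ^ (N - 1)) ^ r j * ((r j).choose i : ℝ) * etak (j + 1) ^ (r j - i)) * bk e p (j + 1) u ^ i := by
      intro j
      unfold tr0
      rw [mul_pow, add_pow, mul_sum]
      exact sum_congr rfl fun i _ => by ring
    unfold Y0
    rw [prod_congr rfl (fun j _ => e2 j), prod_univ_sum (fun j : Fin K => range (r j + 1))
      (fun j i => (((-1) ^ (N - 1)) ^ r j * ((r j).choose i : ℝ) * etak (j + 1) ^ (r j - i)) * bk e p (j + 1) u ^ i), ← hI]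
    refine sum_congr rfl fun i _ => ?_
    rw [ha]
    exact prod_mul_distrib
  have h2 : ∏ j : Fin K, muk N (j + 1) (r j) = ∑ i ∈ I, a i * ∏ j : Fin K, (normal (i j) * ((j + 1 : ℕ) : ℝ) ^ (i j / 2)) := by
    have e2 : ∀ j : Fin K, muk N (j + 1) (r j) =
        ∑ i ∈ range (r j + 1), (((-1) ^ (N - 1)) ^ r j * ((r j).choose i : ℝ) * etak (j + 1) ^ (r j - i)) * (normal i * ((j + 1 : ℕ) : ℝ) ^ (i / 2)) := by
      intro j
      unfold muk
      rw [mul_sum]
      exact sum_congr rfl fun i _ => by ring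
    rw [prod_congr rfl (fun j _ => e2 j), prod_univ_sum (fun j : Fin K => range (r j + 1))
      (fun j i => (((-1) ^ (N - 1)) ^ r j * ((r j).choose i : ℝ) * etak (j + 1) ^ (r j - i)) * (normal i * ((j + 1 : ℕ) : ℝ) ^ (i / 2))), ← hI]
    refine sum_congr rfl fun i _ => ?_
    rw [ha]
    exact prod_mul_distrib
  have h3 : (∑ u : Fin D → ZMod p, Y0 e r p u) / (p : ℝ) ^ D = ∑ i ∈ I, a i * ((∑ u : Fin D → ZMod p, ∏ j : Fin K, bk e p (j + 1) u ^ i j) / (p : ℝ) ^ D) := by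
    rw [sum_congr rfl (fun u _ => h1 u), sum_comm, sum_div]
    refine sum_congr rfl fun i _ => ?_
    rw [← mul_sum, mul_div_assoc]
  rw [h3, h2, ← sum_sub_distrib, sum_div]
  refine (abs_sum_le_sum_abs _ _).trans (sum_le_sum fun i hi => ?_)
  rw [← mul_sub, abs_mul, mul_div_assoc]
  exact mul_le_mul_of_nonneg_left (hC i hi p) (abs_nonneg _)

/-- **the moments of the traces** -/
theorem mean_Y (hN : 2 ≤ N) (hd : 0 < d) {K : ℕ} (r : Fin K → ℕ) (hr : ∑ j : Fin K, (j + 1 : ℕ) * r j ≤ d) :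
    ∃ C : ℝ, 0 ≤ C ∧ ∀ (p : ℕ) [Fact p.Prime], |(∑ u : Fin D → ZMod p, Yk e r p u) / (p : ℝ) ^ D - ∏ j : Fin K, muk N (j + 1) (r j)| ≤ C / Real.sqrt p := by
  obtain ⟨C, hC0, hC⟩ := mean_Y0 e hN hd r hr
  obtain ⟨B, hB0, hB⟩ := cls_mean e hN hd hr (near_Y e hN hd r).2.2
  refine ⟨C + B, by positivity, fun p _ => ?_⟩
  have hs0 : 0 < Real.sqrt p := by have := sqp1 p; linarith
  have h1 := hC p
  have h2 := hB p
  beta_reduce at h2
  rw [← mul_sum, sum_sub_distrib, mul_div_assoc, abs_mul, abs_of_pos hs0, sub_div] at h2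
  have h3 : |(∑ u : Fin D → ZMod p, Yk e r p u) / (p : ℝ) ^ D - (∑ u : Fin D → ZMod p, Y0 e r p u) / (p : ℝ) ^ D| ≤ B / Real.sqrt p := by
    rw [le_div_iff₀ hs0]
    linarith
  have h4 := abs_add_le ((∑ u : Fin D → ZMod p, Yk e r p u) / (p : ℝ) ^ D - (∑ u : Fin D → ZMod p, Y0 e r p u) / (p : ℝ) ^ D)
    ((∑ u : Fin D → ZMod p, Y0 e r p u) / (p : ℝ) ^ D - ∏ j : Fin K, muk N (j + 1) (r j))
  rw [sub_add_sub_cancel] at h4
  have h5 : (C + B) / Real.sqrt p = C / Real.sqrt p + B / Real.sqrt p := by ring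
  rw [h5]
  linarith

/-- **the higher moments** -/
theorem mean_pow (hN : 2 ≤ N) (hd : 0 < d) {K : ℕ} (r : Fin K → ℕ) (q : ℕ) (hr : q * ∑ j : Fin K, (j + 1 : ℕ) * r j ≤ d) :
    ∃ B : ℝ, 0 ≤ B ∧ ∀ (p : ℕ) [Fact p.Prime], |(∑ u : Fin D → ZMod p, Yk e r p u ^ q) / (p : ℝ) ^ D| ≤ B :=
  cls_mean e hN hd hr ((near_Y e hN hd r).1.pow q)

open Classical in
/-- the truncated products -/
noncomputable def Ft {K : ℕ} (r : Fin K → ℕ) (η : ℝ) (p : ℕ) [Fact p.Prime] (u : Fin D → ZMod p) : ℝ :=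
  if ¬ p ∣ d ∧ ¬ Sing e p u ∧ |Yk e r p u| ≤ (p : ℝ) ^ η then Yk e r p u else 0

lemma Ft_le {K : ℕ} (r : Fin K → ℕ) (η : ℝ) (p : ℕ) [Fact p.Prime] (u : Fin D → ZMod p) : |Ft e r η p u| ≤ (p : ℝ) ^ η := by
  unfold Ft
  split_ifs with h
  · exact h.2.2
  · rw [abs_zero]
    positivity

/-- **the means of the truncated products** -/
theorem mean_Ft (hN : 2 ≤ N) (hd : 2 ≤ d) {K : ℕ} (r : Fin K → ℕ) (q : ℕ) (hq : 2 ≤ q) (hq2 : Even q) (hr : q * ∑ j : Fin K, (j + 1 : ℕ) * r j ≤ d)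
    (η : ℝ) (hη : 1 / 2 ≤ η * (q - 1)) :
    ∃ C : ℝ, 0 ≤ C ∧ ∀ (p : ℕ) [Fact p.Prime], |(∑ u : Fin D → ZMod p, Ft e r η p u) / (p : ℝ) ^ D - ∏ j : Fin K, muk N (j + 1) (r j)| ≤ C / Real.sqrt p := by
  classical
  have hd0 : 0 < d := by omega
  have hr1 : ∑ j : Fin K, (j + 1 : ℕ) * r j ≤ d := by
    refine le_trans ?_ hr
    exact Nat.le_mul_of_pos_left _ (by omega)
  have hr2 : 2 * ∑ j : Fin K, (j + 1 : ℕ) * r j ≤ d := (Nat.mul_le_mul_right _ hq).trans hr
  obtain ⟨C1, hC10, hC1⟩ := mean_Y e hN hd0 r hr1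
  obtain ⟨B2, hB20, hB2⟩ := mean_pow e hN hd0 r 2 hr2
  obtain ⟨Bq, hBq0, hBq⟩ := mean_pow e hN hd0 r q hr
  obtain ⟨μ, hμ⟩ : ∃ μ : ℝ, μ = ∏ j : Fin K, muk N (j + 1) (r j) := ⟨_, rfl⟩
  refine ⟨|μ| * d + C1 + (B2 + (d - 1 : ℕ) ^ N) + Bq, by positivity, fun p hp => ?_⟩
  rw [← hμ]
  have hp0 : (0 : ℝ) < p := by exact_mod_cast hp.out.pos
  have hp1 : (1 : ℝ) ≤ p := by exact_mod_cast hp.out.one_lt.le
  have hs := sqp1 p
  have hs0 : 0 < Real.sqrt p := by linarith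
  have h2 : Real.sqrt p ^ 2 = p := Real.sq_sqrt (Nat.cast_nonneg p)
  have hpD : (0 : ℝ) < (p : ℝ) ^ D := by positivity
  have hsplit : (|μ| * d + C1 + (B2 + (d - 1 : ℕ) ^ N) + Bq) / Real.sqrt p =
      |μ| * d / Real.sqrt p + C1 / Real.sqrt p + (B2 + (d - 1 : ℕ) ^ N) / Real.sqrt p + Bq / Real.sqrt p := by ring
  rw [hsplit]
  have hn1 : (0 : ℝ) ≤ |μ| * d / Real.sqrt p := by positivity
  have hn2 : (0 : ℝ) ≤ C1 / Real.sqrt p := by positivity
  have hn3 : (0 : ℝ) ≤ (B2 + ((d - 1 : ℕ) : ℝ) ^ N) / Real.sqrt p := by positivity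
  have hn4 : (0 : ℝ) ≤ Bq / Real.sqrt p := by positivity
  by_cases hpd : p ∣ d
  · have h1 : ∀ u : Fin D → ZMod p, Ft e r η p u = 0 := by
      intro u
      unfold Ft
      rw [if_neg (fun hcon => hcon.1 hpd)]
    rw [sum_congr rfl (fun u _ => h1 u), sum_const_zero, zero_div, zero_sub, abs_neg]
    have h4 : |μ| ≤ |μ| * d / Real.sqrt p := by
      rw [le_div_iff₀ hs0]
      apply mul_le_mul_of_nonneg_left _ (abs_nonneg _)
      have e1 : Real.sqrt p ≤ p := by nlinarith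
      have e2 : (p : ℝ) ≤ d := by exact_mod_cast Nat.le_of_dvd hd0 hpd
      linarith
    linarith
  · -- the pointwise bound
    have hT : Real.sqrt p ≤ ((p : ℝ) ^ η) ^ (q - 1) := by
      rw [← Real.rpow_natCast, ← Real.rpow_mul hp0.le, Real.sqrt_eq_rpow]
      apply Real.rpow_le_rpow_of_exponent_le hp1
      rw [Nat.cast_sub (by omega)]
      push_cast
      exact hη
    have hTpos : 0 < (p : ℝ) ^ η := by positivity
    have hpt : ∀ u : Fin D → ZMod p, |Yk e r p u - Ft e r η p u| ≤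
        (Yk e r p u ^ 2 / Real.sqrt p + Real.sqrt p * (if Sing e p u then 1 else 0)) + Yk e r p u ^ q / Real.sqrt p := by
      intro u
      have hqn : 0 ≤ Yk e r p u ^ q := hq2.pow_nonneg _
      have hn5 : 0 ≤ Yk e r p u ^ q / Real.sqrt p := by positivity
      have hn6 : 0 ≤ Yk e r p u ^ 2 / Real.sqrt p := by positivity
      unfold Ft
      by_cases hsing : Sing e p u
      · rw [if_neg (fun hcon => hcon.2.1 hsing), sub_zero, if_pos hsing, mul_one]
        have e1 : |Yk e r p u| ≤ Yk e r p u ^ 2 / Real.sqrt p + Real.sqrt p := by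
          rw [div_add' _ _ _ hs0.ne', le_div_iff₀ hs0, ← sq_abs]
          nlinarith [sq_nonneg (|Yk e r p u| - Real.sqrt p), abs_nonneg (Yk e r p u)]
        linarith
      · rw [if_neg hsing, mul_zero, add_zero]
        by_cases hle : |Yk e r p u| ≤ (p : ℝ) ^ η
        · rw [if_pos ⟨hpd, hsing, hle⟩, sub_self, abs_zero]
          linarith
        · rw [if_neg (fun hcon => hle hcon.2.2), sub_zero]
          push Not at hle
          have e1 : |Yk e r p u| ≤ Yk e r p u ^ q / Real.sqrt p := by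
            rw [le_div_iff₀ hs0, ← hq2.pow_abs]
            have e2 : |Yk e r p u| ^ q = |Yk e r p u| * |Yk e r p u| ^ (q - 1) := by
              rw [← pow_succ']
              congr 1
              omega
            rw [e2]
            apply mul_le_mul_of_nonneg_left _ (abs_nonneg _)
            exact hT.trans (pow_le_pow_left₀ hTpos.le hle.le _)
          linarith
    have h3 : |(∑ u : Fin D → ZMod p, Yk e r p u) / (p : ℝ) ^ D - (∑ u : Fin D → ZMod p, Ft e r η p u) / (p : ℝ) ^ D| ≤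
        (B2 + (d - 1 : ℕ) ^ N) / Real.sqrt p + Bq / Real.sqrt p := by
      rw [← sub_div, ← sum_sub_distrib, abs_div, abs_of_pos hpD]
      have e1 : |∑ u : Fin D → ZMod p, (Yk e r p u - Ft e r η p u)| / (p : ℝ) ^ D ≤
          ((∑ u : Fin D → ZMod p, Yk e r p u ^ 2) / (p : ℝ) ^ D) / Real.sqrt p +
          Real.sqrt p * (((univ.filter (fun u : Fin D → ZMod p => Sing e p u)).card : ℝ) / (p : ℝ) ^ D) +
          ((∑ u : Fin D → ZMod p, Yk e r p u ^ q) / (p : ℝ) ^ D) / Real.sqrt p := by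
        have e2 : ((∑ u : Fin D → ZMod p, Yk e r p u ^ 2) / (p : ℝ) ^ D) / Real.sqrt p +
          Real.sqrt p * (((univ.filter (fun u : Fin D → ZMod p => Sing e p u)).card : ℝ) / (p : ℝ) ^ D) +
          ((∑ u : Fin D → ZMod p, Yk e r p u ^ q) / (p : ℝ) ^ D) / Real.sqrt p =
          (∑ u : Fin D → ZMod p, ((Yk e r p u ^ 2 / Real.sqrt p + Real.sqrt p * (if Sing e p u then 1 else 0)) + Yk e r p u ^ q / Real.sqrt p)) / (p : ℝ) ^ D := by
          rw [sum_add_distrib, sum_add_distrib, ← sum_div, ← sum_div, ← mul_sum, sum_boole]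
          field_simp
        rw [e2]
        apply div_le_div_of_nonneg_right _ hpD.le
        exact (abs_sum_le_sum_abs _ _).trans (sum_le_sum fun u _ => hpt u)
      refine e1.trans ?_
      have e3 := (abs_le.1 (hB2 p)).2
      have e4 := (abs_le.1 (hBq p)).2
      have e5 : Real.sqrt p * (((univ.filter (fun u : Fin D → ZMod p => Sing e p u)).card : ℝ) / (p : ℝ) ^ D) ≤ (d - 1 : ℕ) ^ N / Real.sqrt p := by
        have e6 := sing_card e p hd hpd
        have e7 : ((univ.filter (fun u : Fin D → ZMod p => Sing e p u)).card : ℝ) * p ≤ ((d - 1 : ℕ) : ℝ) ^ N * (p : ℝ) ^ D := by exact_mod_cast e6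
        rw [mul_div_assoc', div_le_div_iff₀ hpD hs0]
        calc Real.sqrt p * ((univ.filter (fun u : Fin D → ZMod p => Sing e p u)).card : ℝ) * Real.sqrt p =
            ((univ.filter (fun u : Fin D → ZMod p => Sing e p u)).card : ℝ) * Real.sqrt p ^ 2 := by ring
          _ = ((univ.filter (fun u : Fin D → ZMod p => Sing e p u)).card : ℝ) * p := by rw [h2]
          _ ≤ _ := e7
      have e8 : (∑ u : Fin D → ZMod p, Yk e r p u ^ 2) / (p : ℝ) ^ D / Real.sqrt p ≤ B2 / Real.sqrt p := div_le_div_of_nonneg_right e3 hs0.le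
      have e9 : (∑ u : Fin D → ZMod p, Yk e r p u ^ q) / (p : ℝ) ^ D / Real.sqrt p ≤ Bq / Real.sqrt p := div_le_div_of_nonneg_right e4 hs0.le
      rw [add_div]
      linarith
    have h5 := hC1 p
    rw [← hμ] at h5
    have h6 := abs_add_le ((∑ u : Fin D → ZMod p, Ft e r η p u) / (p : ℝ) ^ D - (∑ u : Fin D → ZMod p, Yk e r p u) / (p : ℝ) ^ D)
      ((∑ u : Fin D → ZMod p, Yk e r p u) / (p : ℝ) ^ D - μ)
    rw [sub_add_sub_cancel, abs_sub_comm ((∑ u : Fin D → ZMod p, Ft e r η p u) / (p : ℝ) ^ D) ((∑ u : Fin D → ZMod p, Yk e r p u) / (p : ℝ) ^ D)] at h6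
    linarith

end

end Pool.Agent.N842.HS
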