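import Pool.Agent.N842.HS.NFW
import Pool.Agent.N842.HS.Trc
import Pool.Agent.N842.ST.Gauss

/-!
# The moments of the traces of almost all hypersurfaces
-/

set_option autoImplicit false

namespace Pool.Agent.N842.HS

open Finset MeasureTheory ProbabilityTheory
open Pool.Agent.TH894.NE (mean box mem_box)
open Pool.Agent.TH894.NF (pr pr_prime)
open Pool.Agent.Y57.FD (digit exceptions)
open Pool.Agent.Y57.FD.Mom (normal)
open Pool.Agent.N842.ST (gfFin card_gf normal_nonneg)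
open scoped NNReal

lemma muk_gauss (N k r : ℕ) : muk N k r = ∫ x, x ^ r ∂(gaussianReal ((-1) ^ (N - 1) * etak k) (k : ℝ≥0)) := by
  rw [Pool.Agent.N842.ST.gauss_mom]
  unfold muk
  rw [mul_sum]
  refine sum_congr rfl fun i hi => ?_
  rw [mem_range] at hi
  rw [NNReal.coe_natCast]
  have h1 : ((-1 : ℝ) ^ (N - 1)) ^ r * normal i = ((-1 : ℝ) ^ (N - 1)) ^ (r - i) * normal i := by
    unfold Pool.Agent.Y57.FD.Mom.normal
    split_ifs with h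
    · congr 1
      have e1 : r = (r - i) + i := by omega
      conv_lhs => rw [e1]
      rw [pow_add, ← pow_mul, ← pow_mul, (Even.mul_left h _).neg_one_pow, mul_one]
    · ring
  rw [mul_pow]
  calc ((-1 : ℝ) ^ (N - 1)) ^ r * ((r.choose i : ℝ) * etak k ^ (r - i) * (normal i * (k : ℝ) ^ (i / 2))) =
      (((-1 : ℝ) ^ (N - 1)) ^ r * normal i) * ((r.choose i : ℝ) * etak k ^ (r - i) * (k : ℝ) ^ (i / 2)) := by ring
    _ = _ := by
      rw [h1]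
      ring

/-- the exponents of small weight -/
noncomputable def expq (d q : ℕ) : Finset (Fin d → ℕ) :=
  (Fintype.piFinset (fun _ => range (d + 1))).filter (fun ρ => q * ∑ j : Fin d, (j + 1 : ℕ) * ρ j ≤ d)

lemma mem_expq (d q : ℕ) (hq : 1 ≤ q) (ρ : Fin d → ℕ) : ρ ∈ expq d q ↔ q * ∑ j : Fin d, (j + 1 : ℕ) * ρ j ≤ d := by
  unfold expq
  rw [mem_filter, Fintype.mem_piFinset]
  refine ⟨fun h => h.2, fun h => ⟨fun j => ?_, h⟩⟩
  rw [mem_range]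
  have h1 : (j + 1 : ℕ) * ρ j ≤ ∑ j : Fin d, (j + 1 : ℕ) * ρ j := single_le_sum (f := fun j : Fin d => (j + 1 : ℕ) * ρ j) (fun _ _ => Nat.zero_le _) (mem_univ j)
  have h2 : ρ j ≤ (j + 1 : ℕ) * ρ j := Nat.le_mul_of_pos_left _ (by omega)
  have h3 : ∑ j : Fin d, (j + 1 : ℕ) * ρ j ≤ q * ∑ j : Fin d, (j + 1 : ℕ) * ρ j := Nat.le_mul_of_pos_left _ hq
  omega

section
variable {N d D : ℕ} (e : Fin D ≃ Mon N d)

lemma prod_muk_bd (K : ℕ) (ρ : Fin K → ℕ) (p : ℕ) [hp : Fact p.Prime] (η : ℝ) (hη : 0 ≤ η) :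
    |∏ j : Fin K, muk N (j + 1) (ρ j)| ≤ |∏ j : Fin K, muk N (j + 1) (ρ j)| * (p : ℝ) ^ η := by
  have h1 : (1 : ℝ) ≤ (p : ℝ) ^ η := Real.one_le_rpow (by exact_mod_cast hp.out.one_lt.le) hη
  exact le_mul_of_one_le_right (abs_nonneg _) h1

variable {R : Type} [CommRing R]

open Classical in
/-- **The moments over rings which are finite over the integers.** -/
theorem momR [Module.Finite ℤ R] (hN : 2 ≤ N) (hd : 2 ≤ d) (b g s q : ℕ) (ω : Fin g → R) (hω : (1 : R) ∈ Submodule.span ℤ (Set.range ω)) (hg : 1 ≤ g)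
    (hb : 2 ≤ b) (hs : 1 ≤ s) (hq : 2 ≤ q) (hq2 : Even q) (δ : ℝ) (hδ : 0 < δ) (A B : ℕ) :
    ∃ c : ℝ, 0 < c ∧ ∃ y₀ : ℕ, ∀ (K r : Fin (D * g) → ℕ) (y : ℕ), (∀ i, 2 * r i ≤ K i) → y₀ ≤ y →
    ∀ N' : Fin (D * g) → ℕ, (∀ i, N' i < b ^ K i) →
    ∀ f : Fin (D * g) → ℕ → ℕ, (∀ i j, f i j < b ∧ f i j ≠ digit b j (N' i)) →
    ∀ W : ℕ → Set ((k : ℕ) → ((e : Fin s) → (R →+* ZMod (Nat.nth Nat.Prime (k + e)))) → ℝ), (∀ x, (W x).Finite ∧ (W x).ncard ≤ x ^ B) →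
      (∀ x, ∀ w ∈ W x, ∀ k φ, |w k φ| ≤ 1) →
    ∀ E : (Fin (D * g) → ℕ) → Prop,
    (∀ m : Fin (D * g) → ℕ, (∀ x : ℕ, y ≤ x → (∀ i, (x : ℝ) ≤ Real.exp (c * r i)) → ∀ w ∈ W x,
      ∀ ρ : Fin s → Fin d → ℕ, (∀ i, q * ∑ j : Fin d, (j + 1 : ℕ) * ρ i j ≤ d) →
      |∑ k ∈ range x, ∑ᶠ φ : (i : Fin s) → (R →+* ZMod (Nat.nth Nat.Prime (k + i))),
          w k φ * (∏ i : Fin s, Ft e (ρ i) (1 / (2 * (q - 1))) (Nat.nth Nat.Prime (k + i)) (fun j => φ i (cf ω m j)) -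
            ∏ i : Fin s, ∏ j : Fin d, muk N (j + 1) (ρ i j))| ≤
        Real.sqrt (max 1 (∑ k ∈ range x, ∑ᶠ φ : (i : Fin s) → (R →+* ZMod (Nat.nth Nat.Prime (k + i))), w k φ ^ 2)) *
          (x : ℝ) ^ (s / (2 * (q - 1)) + δ)) → E m) →
    (exceptions b K r N' f E : ℝ) ≤ 1 / (y : ℝ) ^ A * ∏ i, ((K i).choose (r i) : ℝ) := by
  have hD := D_pos e (by omega : 0 < d)
  have hq1 : (0 : ℝ) < q - 1 := by
    have : (2 : ℝ) ≤ q := by exact_mod_cast hq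
    linarith
  have hη : (0 : ℝ) ≤ 1 / (2 * (q - 1)) := by positivity
  obtain ⟨c, hc, y₀, h⟩ := genRW b g D s ω hω hb (Nat.mul_pos hD hg) hs δ hδ A B (expq d q)
    (fun ρ p _ u => Ft e ρ (1 / (2 * (q - 1))) p u) (fun ρ _ => ∏ j : Fin d, muk N (j + 1) (ρ j)) (1 / (2 * (q - 1))) hη
    (fun ρ _ => ⟨1 + |∏ j : Fin d, muk N (j + 1) (ρ j)|, by positivity, fun p hp => by
      have h1 : (1 : ℝ) ≤ (p : ℝ) ^ ((1 : ℝ) / (2 * (q - 1))) := Real.one_le_rpow (by exact_mod_cast hp.out.one_lt.le) hη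
      constructor
      · intro u
        refine (Ft_le e ρ _ p u).trans ?_
        exact le_mul_of_one_le_left (by linarith) (le_add_of_nonneg_right (abs_nonneg _))
      · refine (prod_muk_bd d ρ p _ hη).trans ?_
        apply mul_le_mul_of_nonneg_right _ (by linarith)
        linarith⟩)
    (fun ρ hρ => mean_Ft e hN hd ρ q hq hq2 ((mem_expq d q (by omega) ρ).1 hρ) (1 / (2 * (q - 1))) (by
      rw [div_mul_eq_mul_div, one_mul, le_div_iff₀ (by positivity)]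
      linarith))
  refine ⟨c, hc, y₀, fun K r y hrK hy N' hN' f hf W hW hW1 E hE => ?_⟩
  refine h K r y hrK hy N' hN' f hf W hW hW1 E fun m hm => ?_
  refine hE m fun x hyx hxr w hw ρ hρ => ?_
  have h1 := hm x hyx hxr w hw ρ (fun i => (mem_expq d q (by omega) _).2 (hρ i))
  rw [mul_one_div] at h1
  exact h1

/-- the truncated products of the integral hypersurface at `p` -/
noncomputable def FZ {K : ℕ} (ρ : Fin K → ℕ) (η : ℝ) (p : ℕ) (m : Fin D → ℕ) : ℝ :=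
  if h : p.Prime then
    haveI : Fact p.Prime := ⟨h⟩
    Ft e ρ η p (fun k => (m k : ZMod p))
  else 0

lemma FZ_mod {K : ℕ} (ρ : Fin K → ℕ) (η : ℝ) (p : ℕ) (m : Fin D → ℕ) : FZ e ρ η p m = FZ e ρ η p (fun k => m k % p) := by
  unfold FZ
  by_cases h : p.Prime
  · rw [dif_pos h, dif_pos h]
    have e1 : (fun k => ((m k % p : ℕ) : ZMod p)) = fun k => ((m k : ℕ) : ZMod p) := by
      funext k
      rw [ZMod.natCast_mod]
    rw [e1]
  · rw [dif_neg h, dif_neg h]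

open Classical in
/-- **The moments over the rational numbers.** -/
theorem momZ (hN : 2 ≤ N) (hd : 2 ≤ d) (b s q : ℕ)
    (hb : 2 ≤ b) (hs : 1 ≤ s) (hq : 2 ≤ q) (hq2 : Even q) (δ : ℝ) (hδ : 0 < δ) (A B : ℕ) :
    ∃ c : ℝ, 0 < c ∧ ∃ y₀ : ℕ, ∀ (K r : Fin D → ℕ) (y : ℕ), (∀ i, 2 * r i ≤ K i) → y₀ ≤ y →
    ∀ N' : Fin D → ℕ, (∀ i, N' i < b ^ K i) →
    ∀ f : Fin D → ℕ → ℕ, (∀ i j, f i j < b ∧ f i j ≠ digit b j (N' i)) →
    ∀ W : ℕ → Set (ℕ → ℝ), (∀ x, (W x).Finite ∧ (W x).ncard ≤ x ^ B) → (∀ x, ∀ w ∈ W x, ∀ k, |w k| ≤ 1) →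
    ∀ E : (Fin D → ℕ) → Prop,
    (∀ m : Fin D → ℕ, (∀ x : ℕ, y ≤ x → (∀ i, (x : ℝ) ≤ Real.exp (c * r i)) → ∀ w ∈ W x,
      ∀ ρ : Fin s → Fin d → ℕ, (∀ i, q * ∑ j : Fin d, (j + 1 : ℕ) * ρ i j ≤ d) →
      |∑ k ∈ range x, w k * ∏ i : Fin s, FZ e (ρ i) (1 / (2 * (q - 1))) (pr (k + i)) m -
        ∑ k ∈ range x, w k * ∏ i : Fin s, ∏ j : Fin d, muk N (j + 1) (ρ i j)| ≤
        Real.sqrt (max 1 (∑ k ∈ range x, w k ^ 2)) * (x : ℝ) ^ (s / (2 * (q - 1)) + δ)) → E m) →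
    (exceptions b K r N' f E : ℝ) ≤ 1 / (y : ℝ) ^ A * ∏ i, ((K i).choose (r i) : ℝ) := by
  have hD := D_pos e (by omega : 0 < d)
  have hq1 : (0 : ℝ) < q - 1 := by
    have : (2 : ℝ) ≤ q := by exact_mod_cast hq
    linarith
  have hη : (0 : ℝ) ≤ 1 / (2 * (q - 1)) := by positivity
  obtain ⟨c, hc, y₀, h⟩ := genp b D s hb hD hs δ hδ A B (expq d q)
    (fun ρ p m => FZ e ρ (1 / (2 * (q - 1))) p m) (fun ρ _ => ∏ j : Fin d, muk N (j + 1) (ρ j)) (1 / (2 * (q - 1))) hη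
    (fun ρ _ p _ m => FZ_mod e ρ _ p m)
    (fun ρ _ => ⟨1 + |∏ j : Fin d, muk N (j + 1) (ρ j)|, fun p hp => by
      have : Fact p.Prime := ⟨hp⟩
      have h1 : (1 : ℝ) ≤ (p : ℝ) ^ ((1 : ℝ) / (2 * (q - 1))) := Real.one_le_rpow (by exact_mod_cast hp.one_lt.le) hη
      constructor
      · intro u
        unfold FZ
        rw [dif_pos hp]
        refine (Ft_le e ρ _ p _).trans ?_
        exact le_mul_of_one_le_left (by linarith) (le_add_of_nonneg_right (abs_nonneg _))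
      · refine (prod_muk_bd d ρ p _ hη).trans ?_
        apply mul_le_mul_of_nonneg_right _ (by linarith)
        linarith⟩)
    (fun ρ hρ => by
      obtain ⟨C, hC0, hC⟩ := mean_Ft e hN hd ρ q hq hq2 ((mem_expq d q (by omega) ρ).1 hρ) (1 / (2 * (q - 1))) (by
        rw [div_mul_eq_mul_div, one_mul, le_div_iff₀ (by positivity)]
        linarith)
      refine ⟨C, hC0, fun p hp => ?_⟩
      have : Fact p.Prime := ⟨hp⟩
      have h1 := hC p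
      have h2 : FZ e ρ (1 / (2 * (q - 1))) p = fun m : Fin D → ℕ => Ft e ρ (1 / (2 * (q - 1))) p (fun k => (m k : ZMod p)) := by
        funext m
        unfold FZ
        rw [dif_pos hp]
      rw [h2, Pool.Agent.N842.ST.mean_eq_av p (fun u => Ft e ρ (1 / (2 * (q - 1))) p u)]
      exact h1)
  refine ⟨c, hc, y₀, fun K r y hrK hy N' hN' f hf W hW hW1 E hE => ?_⟩
  refine h K r y hrK hy N' hN' f hf W hW hW1 E fun m hm => ?_
  refine hE m fun x hyx hxr w hw ρ hρ => ?_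
  have h1 := hm x hyx hxr w hw ρ (fun i => (mem_expq d q (by omega) _).2 (hρ i))
  rw [mul_one_div] at h1
  exact h1

end

end Pool.Agent.N842.HS
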