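import Pool.Agent.N842.HS.Srf
import Pool.Agent.N842.HS.MomR

/-!
# The first moment of the traces of almost all hypersurfaces over number fields, over all prime ideals
-/

set_option autoImplicit false

namespace Pool.Agent.N842.HS

open Finset NumberField IsDedekindDomain MvPolynomial
open Pool.Agent.Y57.FD (digit exceptions)

lemma ev_high (n : ℕ) (η δ : ℝ) (hη : 0 ≤ η) (hδ : 0 < δ) : ∀ᶠ T : ℕ in Filter.atTop,
    2 * (T : ℝ) ^ (1 / 2 + η + δ / 2) + n * (Real.sqrt T * (2 * (T : ℝ) ^ η * Real.log T)) ≤ (T : ℝ) ^ (1 / 2 + η + δ) := by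
  have h1 : ∀ᶠ x : ℝ in Filter.atTop, 4 ≤ x ^ (δ / 2) := (tendsto_rpow_atTop (by positivity)).eventually (Filter.eventually_ge_atTop _)
  have h2 := (isLittleO_log_rpow_atTop (show (0 : ℝ) < δ by positivity)).bound (show (0 : ℝ) < 1 / (4 * (n + 1)) by positivity)
  have h3 : ∀ᶠ x : ℝ in Filter.atTop, 2 * x ^ (1 / 2 + η + δ / 2) + n * (Real.sqrt x * (2 * x ^ η * Real.log x)) ≤ x ^ (1 / 2 + η + δ) := by
    filter_upwards [h1, h2, Filter.eventually_ge_atTop 1] with x h1 h2 h3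
    have hx0 : 0 < x := by linarith
    rw [Real.norm_of_nonneg (Real.log_nonneg h3), Real.norm_of_nonneg (by positivity), div_mul_eq_mul_div, one_mul, le_div_iff₀ (by positivity)] at h2
    have e1 : x ^ (1 / 2 + η + δ) = x ^ (1 / 2 + η + δ / 2) * x ^ (δ / 2) := by
      rw [← Real.rpow_add hx0]
      congr 1
      ring
    have e2 : x ^ (1 / 2 + η + δ) = Real.sqrt x * x ^ η * x ^ δ := by
      rw [Real.sqrt_eq_rpow, ← Real.rpow_add hx0, ← Real.rpow_add hx0]
    have e3 : 2 * x ^ (1 / 2 + η + δ / 2) ≤ x ^ (1 / 2 + η + δ) / 2 := by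
      rw [e1]
      have : 0 < x ^ (1 / 2 + η + δ / 2) := by positivity
      nlinarith
    have e4 : n * (Real.sqrt x * (2 * x ^ η * Real.log x)) ≤ x ^ (1 / 2 + η + δ) / 2 := by
      rw [e2]
      have hl : 0 ≤ Real.log x := Real.log_nonneg h3
      have e5 : n * Real.log x * 4 ≤ x ^ δ := by nlinarith
      have e6 : 0 ≤ Real.sqrt x * x ^ η := by positivity
      calc n * (Real.sqrt x * (2 * x ^ η * Real.log x)) = (Real.sqrt x * x ^ η) * (n * Real.log x * 4) / 2 := by ring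
        _ ≤ (Real.sqrt x * x ^ η) * x ^ δ / 2 := by
          apply div_le_div_of_nonneg_right _ (by norm_num)
          exact mul_le_mul_of_nonneg_left e5 e6
    linarith
  exact tendsto_natCast_atTop_atTop.eventually h3

section
variable {K : Type} [Field K] [NumberField K] {N d D : ℕ} (e : Fin D ≃ Mon N d)

lemma muk_zero (N k : ℕ) : muk N k 0 = 1 := by
  unfold muk Pool.Agent.Y57.FD.Mom.normal
  simp

lemma muk_one (N : ℕ) : muk N 1 1 = 0 := by
  unfold muk etak Pool.Agent.Y57.FD.Mom.normal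
  rw [sum_range_succ, sum_range_one]
  simp

lemma F0_le (v : HeightOneSpectrum (𝓞 K)) (c : Fin D → 𝓞 K) : 0 ≤ F0 e v c ∧ F0 e v c ≤ 1 := by
  unfold F0
  split_ifs <;> norm_num

lemma F1_le (η : ℝ) (v : HeightOneSpectrum (𝓞 K)) (c : Fin D → 𝓞 K) : |F1 e η v c| ≤ (Ideal.absNorm v.asIdeal : ℝ) ^ η := by
  unfold F1
  split_ifs with h
  · rw [← card_Res]
    exact h.2
  · rw [abs_zero]
    positivity

open Classical in
/-- **The first moment over all prime ideals.** -/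
theorem surf (hN : 2 ≤ N) (hd : 2 ≤ d) (b g q : ℕ) (ω : Fin g → 𝓞 K) (hω : (1 : 𝓞 K) ∈ Submodule.span ℤ (Set.range ω)) (hg : 1 ≤ g)
    (hb : 2 ≤ b) (hq : 2 ≤ q) (hq2 : Even q) (hqd : q ≤ d) (δ : ℝ) (hδ : 0 < δ) (A B : ℕ) :
    ∃ c : ℝ, 0 < c ∧ ∃ y₀ : ℕ, ∀ (L r : Fin (D * g) → ℕ) (y : ℕ), (∀ i, 2 * r i ≤ L i) → y₀ ≤ y →
    ∀ N' : Fin (D * g) → ℕ, (∀ i, N' i < b ^ L i) →
    ∀ f : Fin (D * g) → ℕ → ℕ, (∀ i j, f i j < b ∧ f i j ≠ digit b j (N' i)) →
    ∀ W : ℕ → Set (HeightOneSpectrum (𝓞 K) → ℝ), (∀ T, (W T).Finite ∧ (W T).ncard ≤ T ^ B) → (∀ T, ∀ w ∈ W T, ∀ v, |w v| ≤ 1) →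
    ∀ E : (Fin (D * g) → ℕ) → Prop,
    (∀ m : Fin (D * g) → ℕ, (∀ T : ℕ, y ≤ T → (∀ i, (T : ℝ) ≤ Real.exp (c * r i)) → ∀ w ∈ W T,
      |∑ v ∈ VT K T, w v * ((F0 e v (cf ω m) + F1 e (1 / (2 * (q - 1))) v (cf ω m) - 1) * Real.log (Ideal.absNorm v.asIdeal))| ≤
        (T : ℝ) ^ (1 / 2 + 1 / (2 * ((q : ℝ) - 1)) + δ)) → E m) →
    (exceptions b L r N' f E : ℝ) ≤ 1 / (y : ℝ) ^ A * ∏ i, ((L i).choose (r i) : ℝ) := by
  have hD := D_pos e (by omega : 0 < d)
  have hd0 : NeZero d := ⟨by omega⟩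
  have hq1 : (0 : ℝ) < q - 1 := by
    have : (2 : ℝ) ≤ q := by exact_mod_cast hq
    linarith
  obtain ⟨η, hηd⟩ : ∃ η : ℝ, η = 1 / (2 * ((q : ℝ) - 1)) := ⟨_, rfl⟩
  have hη : (0 : ℝ) ≤ η := by rw [hηd]; positivity
  have hηq : 1 / 2 ≤ η * ((q : ℝ) - 1) := by
    rw [hηd, div_mul_eq_mul_div, one_mul, le_div_iff₀ (by positivity)]
    linarith
  have hzero : q * ∑ j : Fin d, (j + 1 : ℕ) * (fun _ : Fin d => 0) j ≤ d := by simp
  have hone : q * ∑ j : Fin d, (j + 1 : ℕ) * one d j ≤ d := by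
    have e1 : ∑ j : Fin d, (j + 1 : ℕ) * one d j = 1 := by
      rw [sum_eq_single (0 : Fin d)]
      · unfold one
        simp
      · intro j _ hj
        unfold one
        rw [if_neg hj, mul_zero]
      · intro h
        exact absurd (mem_univ _) h
    rw [e1]
    omega
  have hm0 : ∏ j : Fin d, muk N (j + 1) ((fun _ : Fin d => 0) j) = 1 := by
    simp only [muk_zero, prod_const_one]
  have hm1 : ∏ j : Fin d, muk N (j + 1) (one d j) = 0 := by
    apply prod_eq_zero (mem_univ (0 : Fin d))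
    unfold one
    rw [if_pos rfl]
    exact muk_one N
  obtain ⟨c, hc, y₀, h⟩ := genV b g D ω hω hb (Nat.mul_pos hD hg) (δ / 2) (by positivity) A B
    ({(fun _ : Fin d => 0), one d} : Finset (Fin d → ℕ)) (fun ρ p _ u => Ft e ρ η p u) (fun ρ => ∏ j : Fin d, muk N (j + 1) (ρ j)) η hη
    (fun ρ _ => ⟨1 + |∏ j : Fin d, muk N (j + 1) (ρ j)|, by positivity, fun p hp => by
      have h1 : (1 : ℝ) ≤ (p : ℝ) ^ η := Real.one_le_rpow (by exact_mod_cast hp.out.one_lt.le) hη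
      constructor
      · intro u
        refine (Ft_le e ρ _ p u).trans ?_
        exact le_mul_of_one_le_left (by linarith) (le_add_of_nonneg_right (abs_nonneg _))
      · refine (prod_muk_bd d ρ p _ hη).trans ?_
        apply mul_le_mul_of_nonneg_right _ (by linarith)
        linarith⟩)
    (fun ρ hρ => by
      rw [mem_insert, mem_singleton] at hρ
      rcases hρ with rfl | rfl
      · exact mean_Ft e hN hd _ q hq hq2 hzero η hηq
      · exact mean_Ft e hN hd _ q hq hq2 hone η hηq)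
  obtain ⟨T₀, hT₀⟩ := Filter.eventually_atTop.1 (ev_high (Module.finrank ℤ (𝓞 K)) η δ hη hδ)
  refine ⟨c, hc, y₀ + T₀ + 1, fun L r y hrL hy N' hN' f hf W hW hW1 E hE => ?_⟩
  refine h L r y hrL (by omega) N' hN' f hf W hW hW1 E fun m hm => ?_
  refine hE m fun T hyT hTr w hw => ?_
  have h0 := hm T hyT hTr w hw (fun _ : Fin d => 0) (mem_insert_self _ _) (fun v => F0 e v (cf ω m)) (fun p _ φ => F0_hv e η hη φ _)
  have h1 := hm T hyT hTr w hw (one d) (mem_insert_of_mem (mem_singleton_self _)) (fun v => F1 e η v (cf ω m)) (fun p _ φ => F1_hv e η φ _)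
  rw [hm0] at h0
  rw [hm1] at h1
  rw [← hηd]
  have hT1 : (1 : ℝ) ≤ T := by exact_mod_cast (by omega : 1 ≤ T)
  have hsplit := sum_filter_add_sum_filter_not (VT K T) (fun v => (Ideal.absNorm v.asIdeal).Prime)
    (fun v => w v * ((F0 e v (cf ω m) + F1 e η v (cf ω m) - 1) * Real.log (Ideal.absNorm v.asIdeal)))
  rw [← hsplit]
  have hdeg1 : ∑ v ∈ (VT K T).filter (fun v => (Ideal.absNorm v.asIdeal).Prime), w v * ((F0 e v (cf ω m) + F1 e η v (cf ω m) - 1) * Real.log (Ideal.absNorm v.asIdeal)) =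
      ∑ v ∈ (VT K T).filter (fun v => (Ideal.absNorm v.asIdeal).Prime), w v * ((F0 e v (cf ω m) - 1) * Real.log (Ideal.absNorm v.asIdeal)) +
      ∑ v ∈ (VT K T).filter (fun v => (Ideal.absNorm v.asIdeal).Prime), w v * ((F1 e η v (cf ω m) - 0) * Real.log (Ideal.absNorm v.asIdeal)) := by
    rw [← sum_add_distrib]
    refine sum_congr rfl fun v _ => ?_
    ring
  have hhigh : |∑ v ∈ (VT K T).filter (fun v => ¬ (Ideal.absNorm v.asIdeal).Prime), w v * ((F0 e v (cf ω m) + F1 e η v (cf ω m) - 1) * Real.log (Ideal.absNorm v.asIdeal))| ≤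
      (Module.finrank ℤ (𝓞 K) : ℝ) * (Real.sqrt T * (2 * (T : ℝ) ^ η * Real.log T)) := by
    refine (abs_sum_le_sum_abs _ _).trans ((sum_le_sum (g := fun _ => 2 * (T : ℝ) ^ η * Real.log T) fun v hv1 => ?_).trans ?_)
    · rw [mem_filter, mem_VT] at hv1
      have hnT : (Ideal.absNorm v.asIdeal : ℝ) ≤ T := by exact_mod_cast hv1.1
      have hn1 : (1 : ℝ) ≤ Ideal.absNorm v.asIdeal := by
        have : Ideal.absNorm v.asIdeal ≠ 0 := by
          rw [Ne, Ideal.absNorm_eq_zero_iff]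
          exact v.ne_bot
        exact_mod_cast Nat.one_le_iff_ne_zero.2 this
      have e1 := F0_le e v (cf ω m)
      have e2 := F1_le e η v (cf ω m)
      have e3 : (Ideal.absNorm v.asIdeal : ℝ) ^ η ≤ (T : ℝ) ^ η := Real.rpow_le_rpow (by linarith) hnT hη
      have e4 : (1 : ℝ) ≤ (T : ℝ) ^ η := Real.one_le_rpow hT1 hη
      have e5 : |F0 e v (cf ω m) + F1 e η v (cf ω m) - 1| ≤ 2 * (T : ℝ) ^ η := by
        rw [abs_le] at e2 ⊢
        constructor <;> linarith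
      have e6 : |Real.log (Ideal.absNorm v.asIdeal)| ≤ Real.log T := by
        rw [abs_of_nonneg (Real.log_nonneg hn1)]
        exact Real.log_le_log (by linarith) hnT
      rw [abs_mul, abs_mul]
      calc |w v| * (|F0 e v (cf ω m) + F1 e η v (cf ω m) - 1| * |Real.log (Ideal.absNorm v.asIdeal)|) ≤ 1 * (2 * (T : ℝ) ^ η * Real.log T) := by
            apply mul_le_mul (hW1 T w hw v) _ (by positivity) zero_le_one
            exact mul_le_mul e5 e6 (abs_nonneg _) (by positivity)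
        _ = _ := one_mul _
    · rw [sum_const, nsmul_eq_mul]
      have e1 := card_high K T
      have e2 : (((VT K T).filter (fun v => ¬ (Ideal.absNorm v.asIdeal).Prime)).card : ℝ) ≤ (Module.finrank ℤ (𝓞 K) : ℝ) * Real.sqrt T := by
        have e3 : (((VT K T).filter (fun v => ¬ (Ideal.absNorm v.asIdeal).Prime)).card : ℝ) ≤ (Module.finrank ℤ (𝓞 K) : ℝ) * (Nat.sqrt T : ℝ) := by exact_mod_cast e1
        refine e3.trans ?_
        apply mul_le_mul_of_nonneg_left _ (Nat.cast_nonneg _)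
        exact Real.nat_sqrt_le_real_sqrt
      have hlog : 0 ≤ Real.log T := Real.log_nonneg hT1
      calc (((VT K T).filter (fun v => ¬ (Ideal.absNorm v.asIdeal).Prime)).card : ℝ) * (2 * (T : ℝ) ^ η * Real.log T) ≤
          ((Module.finrank ℤ (𝓞 K) : ℝ) * Real.sqrt T) * (2 * (T : ℝ) ^ η * Real.log T) := mul_le_mul_of_nonneg_right e2 (by positivity)
        _ = _ := by ring
  rw [hdeg1]
  have hfin := hT₀ T (by omega)
  have habs := abs_add_le (∑ v ∈ (VT K T).filter (fun v => (Ideal.absNorm v.asIdeal).Prime), w v * ((F0 e v (cf ω m) - 1) * Real.log (Ideal.absNorm v.asIdeal)))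
    (∑ v ∈ (VT K T).filter (fun v => (Ideal.absNorm v.asIdeal).Prime), w v * ((F1 e η v (cf ω m) - 0) * Real.log (Ideal.absNorm v.asIdeal)))
  have habs2 := abs_add_le (∑ v ∈ (VT K T).filter (fun v => (Ideal.absNorm v.asIdeal).Prime), w v * ((F0 e v (cf ω m) - 1) * Real.log (Ideal.absNorm v.asIdeal)) +
    ∑ v ∈ (VT K T).filter (fun v => (Ideal.absNorm v.asIdeal).Prime), w v * ((F1 e η v (cf ω m) - 0) * Real.log (Ideal.absNorm v.asIdeal)))
    (∑ v ∈ (VT K T).filter (fun v => ¬ (Ideal.absNorm v.asIdeal).Prime), w v * ((F0 e v (cf ω m) + F1 e η v (cf ω m) - 1) * Real.log (Ideal.absNorm v.asIdeal)))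
  linarith

end

end Pool.Agent.N842.HS
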