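import Pool.Agent.N842.ST.Gauss

/-!
# Approximation of the characteristic function by means of the moments
-/

set_option autoImplicit false

namespace Pool.Agent.N842.HS

open Finset MeasureTheory ProbabilityTheory
open Pool.Agent.Y57.FD.Mom (normal)
open Pool.Agent.N842.ST (gauss_integrable gauss_std normal_nonneg)
open scoped NNReal

/-- the Taylor polynomials of `exp (i x)` -/
noncomputable def ET (n : ℕ) (x : ℝ) : ℂ := ∑ r ∈ range n, (Complex.I * x) ^ r / (Nat.factorial r : ℂ)

lemma ET_succ_zero (n : ℕ) : ET (n + 1) 0 = 1 := by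
  unfold ET
  rw [sum_range_succ', Complex.ofReal_zero, mul_zero]
  simp

lemma ET_deriv (n : ℕ) (x : ℝ) : HasDerivAt (ET (n + 1)) (Complex.I * ET n x) x := by
  have h1 : ∀ r : ℕ, HasDerivAt (fun x : ℝ => (Complex.I * (x : ℂ)) ^ (r + 1) / (Nat.factorial (r + 1) : ℂ))
      (Complex.I * ((Complex.I * x) ^ r / (Nat.factorial r : ℂ))) x := by
    intro r
    have h2 : HasDerivAt (fun x : ℝ => Complex.I * (x : ℂ)) Complex.I x := by
      have := (Complex.ofRealCLM.hasDerivAt (x := x)).const_mul Complex.I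
      simpa using this
    have h3 := (h2.fun_pow (r + 1)).div_const (Nat.factorial (r + 1) : ℂ)
    refine h3.congr_deriv ?_
    have hf : (Nat.factorial (r + 1) : ℂ) = ((r : ℂ) + 1) * Nat.factorial r := by
      rw [Nat.factorial_succ]
      push_cast
      ring
    have hf0 : (Nat.factorial r : ℂ) ≠ 0 := by exact_mod_cast Nat.factorial_ne_zero r
    have hr0 : ((r : ℂ) + 1) ≠ 0 := by exact_mod_cast Nat.succ_ne_zero r
    rw [hf, Nat.add_sub_cancel]
    push_cast
    field_simp
  have h4 : ET (n + 1) = fun x : ℝ => ∑ r ∈ range n, (Complex.I * (x : ℂ)) ^ (r + 1) / (Nat.factorial (r + 1) : ℂ) + 1 := by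
    funext y
    unfold ET
    rw [sum_range_succ']
    simp
  rw [h4]
  have h5 := (HasDerivAt.fun_sum (u := range n) (fun r _ => h1 r)).add_const 1
  refine h5.congr_deriv ?_
  unfold ET
  rw [mul_sum]

lemma exp_deriv (x : ℝ) : HasDerivAt (fun x : ℝ => Complex.exp (Complex.I * x)) (Complex.I * Complex.exp (Complex.I * x)) x := by
  have h2 : HasDerivAt (fun x : ℝ => Complex.I * (x : ℂ)) Complex.I x := by
    have := (Complex.ofRealCLM.hasDerivAt (x := x)).const_mul Complex.I
    simpa using this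
  have h3 := h2.cexp
  rwa [mul_comm] at h3

lemma exp_tay_pos (n : ℕ) (x : ℝ) (hx : 0 ≤ x) : ‖Complex.exp (Complex.I * x) - ET n x‖ ≤ x ^ n / (Nat.factorial n : ℝ) := by
  induction n generalizing x with
  | zero =>
    unfold ET
    rw [range_zero, sum_empty, sub_zero, Complex.norm_exp_I_mul_ofReal]
    simp
  | succ n ih =>
    have hB : ∀ y : ℝ, HasDerivAt (fun y : ℝ => y ^ (n + 1) / (Nat.factorial (n + 1) : ℝ)) (y ^ n / (Nat.factorial n : ℝ)) y := by
      intro y
      have h1 := (hasDerivAt_pow (n + 1) y).div_const (Nat.factorial (n + 1) : ℝ)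
      refine h1.congr_deriv ?_
      rw [Nat.factorial_succ, Nat.add_sub_cancel]
      push_cast
      have : (Nat.factorial n : ℝ) ≠ 0 := by exact_mod_cast Nat.factorial_ne_zero n
      field_simp
    have hf : ∀ y : ℝ, HasDerivAt (fun y : ℝ => Complex.exp (Complex.I * y) - ET (n + 1) y)
        (Complex.I * (Complex.exp (Complex.I * y) - ET n y)) y := by
      intro y
      have := (exp_deriv y).sub (ET_deriv n y)
      rwa [← mul_sub] at this
    have := image_norm_le_of_norm_deriv_right_le_deriv_boundary (a := 0) (b := x)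
      (f := fun y : ℝ => Complex.exp (Complex.I * y) - ET (n + 1) y) (f' := fun y : ℝ => Complex.I * (Complex.exp (Complex.I * y) - ET n y))
      (B := fun y : ℝ => y ^ (n + 1) / (Nat.factorial (n + 1) : ℝ)) (B' := fun y => y ^ n / (Nat.factorial n : ℝ))
      (fun y _ => (hf y).continuousAt.continuousWithinAt) (fun y _ => (hf y).hasDerivWithinAt) (by
        show ‖Complex.exp (Complex.I * ((0 : ℝ) : ℂ)) - ET (n + 1) 0‖ ≤ _
        rw [ET_succ_zero, Complex.ofReal_zero, mul_zero, Complex.exp_zero, sub_self, norm_zero]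
        positivity) hB (fun y hy => by
        show ‖Complex.I * (Complex.exp (Complex.I * y) - ET n y)‖ ≤ _
        rw [norm_mul, Complex.norm_I, one_mul]
        exact ih y hy.1)
    exact this ⟨hx, le_rfl⟩

/-- the coefficients of the expansion of `cos (x + v)` -/
noncomputable def cc (v : ℝ) (r : ℕ) : ℝ := (Complex.exp (Complex.I * v) * Complex.I ^ r).re

lemma cc_le (v : ℝ) (r : ℕ) : |cc v r| ≤ 1 := by
  unfold cc
  refine (Complex.abs_re_le_norm _).trans ?_
  rw [norm_mul, norm_pow, Complex.norm_I, Complex.norm_exp_I_mul_ofReal]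
  simp

lemma cos_tay_pos (n : ℕ) (v x : ℝ) (hx : 0 ≤ x) :
    |Real.cos (x + v) - ∑ r ∈ range n, cc v r * x ^ r / (Nat.factorial r : ℝ)| ≤ x ^ n / (Nat.factorial n : ℝ) := by
  have h1 : Real.cos (x + v) - ∑ r ∈ range n, cc v r * x ^ r / (Nat.factorial r : ℝ) =
      (Complex.exp (Complex.I * v) * (Complex.exp (Complex.I * x) - ET n x)).re := by
    rw [mul_sub, Complex.sub_re]
    congr 1
    · rw [← Complex.exp_add, ← mul_add, mul_comm Complex.I, ← Complex.ofReal_add, Complex.exp_ofReal_mul_I_re, add_comm]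
    · unfold ET cc
      rw [mul_sum, Complex.re_sum]
      refine sum_congr rfl fun r _ => ?_
      have : Complex.exp (Complex.I * v) * ((Complex.I * x) ^ r / (Nat.factorial r : ℂ)) =
          ((x ^ r / (Nat.factorial r : ℝ) : ℝ) : ℂ) * (Complex.exp (Complex.I * v) * Complex.I ^ r) := by
        push_cast
        rw [mul_pow]
        ring
      rw [this, Complex.re_ofReal_mul]
      ring
  rw [h1]
  refine (Complex.abs_re_le_norm _).trans ?_
  rw [norm_mul, Complex.norm_exp_I_mul_ofReal, one_mul]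
  exact exp_tay_pos n x hx

lemma cc_neg (v : ℝ) (r : ℕ) : cc (-v) r = (-1) ^ r * cc v r := by
  unfold cc
  have h1 : Complex.exp (Complex.I * ((-v : ℝ) : ℂ)) * Complex.I ^ r = (starRingEnd ℂ) (Complex.exp (Complex.I * v) * ((-1) ^ r * Complex.I ^ r)) := by
    rw [map_mul, ← Complex.exp_conj, map_mul, map_mul, map_pow, map_pow, map_neg, map_one, Complex.conj_I, Complex.conj_ofReal,
      ← mul_pow]
    congr 1
    · congr 1
      push_cast
      ring
    · ring
  rw [h1, Complex.conj_re]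
  have h2 : Complex.exp (Complex.I * v) * ((-1) ^ r * Complex.I ^ r) = (((-1 : ℝ) ^ r : ℝ) : ℂ) * (Complex.exp (Complex.I * v) * Complex.I ^ r) := by
    push_cast
    ring
  rw [h2, Complex.re_ofReal_mul]

/-- **Taylor's formula** -/
theorem cos_tay (n : ℕ) (v x : ℝ) :
    |Real.cos (x + v) - ∑ r ∈ range n, cc v r * x ^ r / (Nat.factorial r : ℝ)| ≤ |x| ^ n / (Nat.factorial n : ℝ) := by
  rcases le_total 0 x with hx | hx
  · rw [abs_of_nonneg hx]
    exact cos_tay_pos n v x hx
  · have h := cos_tay_pos n (-v) (-x) (by linarith)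
    rw [abs_of_nonpos hx]
    have h1 : Real.cos (-x + -v) = Real.cos (x + v) := by
      rw [← neg_add, Real.cos_neg]
    rw [h1] at h
    have h2 : ∑ r ∈ range n, cc (-v) r * (-x) ^ r / (Nat.factorial r : ℝ) = ∑ r ∈ range n, cc v r * x ^ r / (Nat.factorial r : ℝ) := by
      refine sum_congr rfl fun r _ => ?_
      rw [cc_neg, neg_pow x]
      have : ((-1 : ℝ) ^ r) * (-1) ^ r = 1 := by rw [← mul_pow]; norm_num
      linear_combination (cc v r * x ^ r / (Nat.factorial r : ℝ)) * this
    rwa [h2] at h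

/-- the mean of `cos (t x + v)` for a normal variable -/
lemma gauss_cos (t v : ℝ) : ∫ x, Real.cos (t * x + v) ∂(gaussianReal 0 1) = Real.cos v * Real.exp (-t ^ 2 / 2) := by
  have h1 := charFun_gaussianReal (μ := 0) (v := 1) t
  rw [charFun_apply_real] at h1
  have hint : Integrable (fun x : ℝ => Complex.exp (t * x * Complex.I)) (gaussianReal 0 1) := by
    apply (integrable_const (1 : ℝ)).mono' (by fun_prop)
    filter_upwards with x
    rw [← Complex.ofReal_mul, Complex.norm_exp_ofReal_mul_I]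
  have h2 : ∀ x : ℝ, Real.cos (t * x + v) = (Complex.exp (v * Complex.I) * Complex.exp (t * x * Complex.I)).re := by
    intro x
    rw [← Complex.exp_add, ← add_mul, ← Complex.ofReal_mul, ← Complex.ofReal_add, Complex.exp_ofReal_mul_I_re, add_comm]
  have h3 : ∫ x, Real.cos (t * x + v) ∂(gaussianReal 0 1) =
      (∫ x, Complex.exp (v * Complex.I) * Complex.exp (t * x * Complex.I) ∂(gaussianReal 0 1)).re := by
    have h4 := Complex.reCLM.integral_comp_comm (hint.const_mul (Complex.exp (v * Complex.I)))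
    simp only [Complex.reCLM_apply] at h4
    rw [← h4]
    exact integral_congr_ae (Filter.Eventually.of_forall h2)
  rw [h3, integral_const_mul, h1]
  have h5 : Complex.exp (t * ((0 : ℝ) : ℂ) * Complex.I - ((1 : ℝ≥0) : ℂ) * t ^ 2 / 2) = ((Real.exp (-t ^ 2 / 2) : ℝ) : ℂ) := by
    rw [Complex.ofReal_exp]
    congr 1
    push_cast
    ring
  rw [h5, mul_comm, Complex.re_ofReal_mul, Complex.exp_ofReal_mul_I_re, mul_comm]

/-- the remainder for a normal variable -/
lemma gauss_tay (h : ℕ) (t v : ℝ) :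
    |Real.cos v * Real.exp (-t ^ 2 / 2) - ∑ r ∈ range (2 * h), cc v r * t ^ r * normal r / (Nat.factorial r : ℝ)| ≤
      t ^ (2 * h) * normal (2 * h) / (Nat.factorial (2 * h) : ℝ) := by
  rw [← gauss_cos t v]
  have h1 : ∑ r ∈ range (2 * h), cc v r * t ^ r * normal r / (Nat.factorial r : ℝ) =
      ∫ x, ∑ r ∈ range (2 * h), cc v r * (t * x) ^ r / (Nat.factorial r : ℝ) ∂(gaussianReal 0 1) := by
    rw [integral_finsetSum _ (fun r _ => ?_)]
    · refine sum_congr rfl fun r _ => ?_
      rw [← gauss_std r, ← integral_const_mul, ← integral_div]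
      congr 1
      funext x
      rw [mul_pow]
      ring
    · have : (fun x : ℝ => cc v r * (t * x) ^ r / (Nat.factorial r : ℝ)) = fun x => (cc v r * t ^ r / (Nat.factorial r : ℝ)) * x ^ r := by
        funext x
        rw [mul_pow]
        ring
      rw [this]
      exact (gauss_integrable 0 1 r).const_mul _
  have hi1 : Integrable (fun x : ℝ => Real.cos (t * x + v)) (gaussianReal 0 1) := by
    apply (integrable_const (1 : ℝ)).mono' (by fun_prop)
    filter_upwards with x
    exact Real.abs_cos_le_one _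
  have hi2 : Integrable (fun x : ℝ => ∑ r ∈ range (2 * h), cc v r * (t * x) ^ r / (Nat.factorial r : ℝ)) (gaussianReal 0 1) := by
    apply integrable_finsetSum
    intro r _
    have : (fun x : ℝ => cc v r * (t * x) ^ r / (Nat.factorial r : ℝ)) = fun x => (cc v r * t ^ r / (Nat.factorial r : ℝ)) * x ^ r := by
      funext x
      rw [mul_pow]
      ring
    rw [this]
    exact (gauss_integrable 0 1 r).const_mul _
  rw [h1, ← integral_sub hi1 hi2, ← Real.norm_eq_abs]
  have h2 : t ^ (2 * h) * normal (2 * h) / (Nat.factorial (2 * h) : ℝ) =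
      ∫ x, (t ^ (2 * h) / (Nat.factorial (2 * h) : ℝ)) * x ^ (2 * h) ∂(gaussianReal 0 1) := by
    rw [integral_const_mul, gauss_std]
    ring
  rw [h2]
  apply norm_integral_le_of_norm_le ((gauss_integrable 0 1 (2 * h)).const_mul _)
  filter_upwards with x
  rw [Real.norm_eq_abs]
  refine (cos_tay (2 * h) v (t * x)).trans (le_of_eq ?_)
  rw [pow_mul, sq_abs, ← pow_mul, mul_pow]
  ring

/-- `(2 h - 1)!! / (2 h)! = 1 / (2 ^ h h!)` -/
lemma normal_fact (h : ℕ) : normal (2 * h) / (Nat.factorial (2 * h) : ℝ) = 1 / (2 ^ h * Nat.factorial h) := by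
  have h1 : normal (2 * h) = (Nat.doubleFactorial (2 * h - 1) : ℝ) := by
    unfold Pool.Agent.Y57.FD.Mom.normal
    rw [if_pos (even_two_mul h)]
  rw [h1]
  have h2 : (Nat.factorial (2 * h) : ℝ) = (Nat.doubleFactorial (2 * h - 1) : ℝ) * (2 ^ h * Nat.factorial h) := by
    cases h with
    | zero => simp
    | succ k =>
      have e1 : Nat.factorial (2 * (k + 1)) = Nat.doubleFactorial (2 * (k + 1)) * Nat.doubleFactorial (2 * (k + 1) - 1) := by
        have := Nat.factorial_eq_mul_doubleFactorial (2 * k + 1)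
        rw [show 2 * (k + 1) = 2 * k + 1 + 1 by ring, this]
        rfl
      rw [e1, Nat.doubleFactorial_two_mul]
      push_cast
      ring
  have h3 : (Nat.doubleFactorial (2 * h - 1) : ℝ) ≠ 0 := by
    exact_mod_cast (Nat.doubleFactorial_pos _).ne'
  rw [h2]
  field_simp

/-- **the characteristic function** -/
theorem char_bound {U : Type} [Fintype U] (M : ℝ) (hM : 0 < M) (hU : (Fintype.card U : ℝ) = M) (b : U → ℝ) (h : ℕ) (ε : ℝ) (hε : 0 ≤ ε)
    (hb : ∀ r ≤ 2 * h, |(∑ u, b u ^ r) / M - normal r| ≤ ε) (t v : ℝ) :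
    |(∑ u, Real.cos (t * b u + v)) / M - Real.cos v * Real.exp (-t ^ 2 / 2)| ≤
      (∑ r ∈ range (2 * h + 1), |t| ^ r / (Nat.factorial r : ℝ)) * ε + 2 * (t ^ 2 / 2) ^ h / Nat.factorial h := by
  have hn0 := normal_nonneg (2 * h)
  have hfac : (0 : ℝ) < (Nat.factorial (2 * h) : ℝ) := by exact_mod_cast Nat.factorial_pos _
  -- the Taylor polynomial
  have h1 : |(∑ u, Real.cos (t * b u + v)) / M - ∑ r ∈ range (2 * h), cc v r * t ^ r * ((∑ u, b u ^ r) / M) / (Nat.factorial r : ℝ)| ≤
      t ^ (2 * h) * ((∑ u, b u ^ (2 * h)) / M) / (Nat.factorial (2 * h) : ℝ) := by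
    have e1 : (∑ u, Real.cos (t * b u + v)) / M - ∑ r ∈ range (2 * h), cc v r * t ^ r * ((∑ u, b u ^ r) / M) / (Nat.factorial r : ℝ) =
        (∑ u, (Real.cos (t * b u + v) - ∑ r ∈ range (2 * h), cc v r * (t * b u) ^ r / (Nat.factorial r : ℝ))) / M := by
      have e0 : ∑ r ∈ range (2 * h), cc v r * t ^ r * ((∑ u, b u ^ r) / M) / (Nat.factorial r : ℝ) =
          (∑ u, ∑ r ∈ range (2 * h), cc v r * (t * b u) ^ r / (Nat.factorial r : ℝ)) / M := by
        rw [sum_comm (s := (univ : Finset U)), sum_div]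
        refine sum_congr rfl fun r _ => ?_
        rw [sum_div, mul_sum, sum_div, sum_div]
        refine sum_congr rfl fun u _ => ?_
        rw [mul_pow]
        ring
      rw [e0, ← sub_div, ← sum_sub_distrib]
    rw [e1, abs_div, abs_of_pos hM, div_le_iff₀ hM]
    refine (abs_sum_le_sum_abs _ _).trans ?_
    have e2 : t ^ (2 * h) * ((∑ u, b u ^ (2 * h)) / M) / (Nat.factorial (2 * h) : ℝ) * M =
        ∑ u, |t * b u| ^ (2 * h) / (Nat.factorial (2 * h) : ℝ) := by
      have : ∀ u, |t * b u| ^ (2 * h) / (Nat.factorial (2 * h) : ℝ) = (t ^ (2 * h) / (Nat.factorial (2 * h) : ℝ)) * b u ^ (2 * h) := by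
        intro u
        rw [pow_mul, sq_abs, ← pow_mul, mul_pow]
        ring
      rw [sum_congr rfl (fun u _ => this u), ← mul_sum]
      field_simp
    rw [e2]
    exact sum_le_sum fun u _ => cos_tay (2 * h) v (t * b u)
  have h2 := gauss_tay h t v
  have h3 : |∑ r ∈ range (2 * h), cc v r * t ^ r * ((∑ u, b u ^ r) / M) / (Nat.factorial r : ℝ) -
      ∑ r ∈ range (2 * h), cc v r * t ^ r * normal r / (Nat.factorial r : ℝ)| ≤ (∑ r ∈ range (2 * h), |t| ^ r / (Nat.factorial r : ℝ)) * ε := by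
    rw [← sum_sub_distrib, sum_mul]
    refine (abs_sum_le_sum_abs _ _).trans (sum_le_sum fun r hr => ?_)
    rw [mem_range] at hr
    have e1 := hb r (by omega)
    have e2 := cc_le v r
    have e3 : (0 : ℝ) < (Nat.factorial r : ℝ) := by exact_mod_cast Nat.factorial_pos _
    have e4 : cc v r * t ^ r * ((∑ u, b u ^ r) / M) / (Nat.factorial r : ℝ) - cc v r * t ^ r * normal r / (Nat.factorial r : ℝ) =
        cc v r * (t ^ r / (Nat.factorial r : ℝ)) * ((∑ u, b u ^ r) / M - normal r) := by ring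
    rw [e4, abs_mul, abs_mul, abs_div, abs_pow, abs_of_pos e3]
    calc |cc v r| * (|t| ^ r / (Nat.factorial r : ℝ)) * |(∑ u, b u ^ r) / M - normal r| ≤ 1 * (|t| ^ r / (Nat.factorial r : ℝ)) * ε := by
          apply mul_le_mul _ e1 (abs_nonneg _) (by positivity)
          exact mul_le_mul_of_nonneg_right e2 (by positivity)
      _ = _ := by ring
  have h4 : t ^ (2 * h) * ((∑ u, b u ^ (2 * h)) / M) / (Nat.factorial (2 * h) : ℝ) ≤
      |t| ^ (2 * h) / (Nat.factorial (2 * h) : ℝ) * ε + t ^ (2 * h) * normal (2 * h) / (Nat.factorial (2 * h) : ℝ) := by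
    have e1 := (abs_le.1 (hb (2 * h) le_rfl)).2
    have e2 : |t| ^ (2 * h) = t ^ (2 * h) := by rw [pow_mul, sq_abs, ← pow_mul]
    have e3 : 0 ≤ t ^ (2 * h) := by rw [← e2]; positivity
    rw [e2]
    have e4 : t ^ (2 * h) / (Nat.factorial (2 * h) : ℝ) * ε + t ^ (2 * h) * normal (2 * h) / (Nat.factorial (2 * h) : ℝ) =
        t ^ (2 * h) * (ε + normal (2 * h)) / (Nat.factorial (2 * h) : ℝ) := by ring
    rw [e4]
    apply div_le_div_of_nonneg_right _ hfac.le
    apply mul_le_mul_of_nonneg_left _ e3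
    linarith
  have h5 : t ^ (2 * h) * normal (2 * h) / (Nat.factorial (2 * h) : ℝ) = (t ^ 2 / 2) ^ h / Nat.factorial h := by
    rw [mul_div_assoc, normal_fact, div_pow, ← pow_mul]
    have : (Nat.factorial h : ℝ) ≠ 0 := by exact_mod_cast Nat.factorial_ne_zero h
    field_simp
  rw [sum_range_succ, add_mul]
  rw [h5] at h2 h4
  have h6 : 2 * (t ^ 2 / 2) ^ h / (Nat.factorial h : ℝ) = (t ^ 2 / 2) ^ h / Nat.factorial h + (t ^ 2 / 2) ^ h / Nat.factorial h := by ring
  rw [h6]
  rw [abs_le] at h1 h2 h3 ⊢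
  constructor
  · linarith [h1.1, h2.2, h3.1]
  · linarith [h1.2, h2.1, h3.2]

end Pool.Agent.N842.HS
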