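import Mathlib

/-!
# The number of the solutions of `∑ x_i ^ d = 0` over a finite field
-/

set_option autoImplicit false

namespace Pool.Agent.N842.HS

open Finset

section
variable (F : Type) [Field F] [Fintype F] (d : ℕ)

/-- a nontrivial additive character -/
lemma exists_char : ∃ ψ : AddChar F ℂ, ψ.IsPrimitive := by
  obtain ⟨ψ, hψ⟩ := (AddChar.exists_apply_ne_zero (a := (1 : F))).2 one_ne_zero
  refine ⟨ψ, AddChar.IsPrimitive.of_ne_one ?_⟩
  intro h
  rw [h] at hψ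
  exact hψ rfl

open Classical in
lemma card_pow_le (hd : 0 < d) (a : F) : (univ.filter (fun x : F => x ^ d = a)).card ≤ d := by
  have h1 : univ.filter (fun x : F => x ^ d = a) ⊆ (Polynomial.nthRoots d a).toFinset := by
    intro x hx
    rw [mem_filter] at hx
    rw [Multiset.mem_toFinset, Polynomial.mem_nthRoots hd]
    exact hx.2
  exact (card_le_card h1).trans ((Multiset.toFinset_card_le _).trans (Polynomial.card_nthRoots d a))

variable {F}

/-- the exponential sum -/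
noncomputable def GG (ψ : AddChar F ℂ) (t : F) : ℂ := ∑ x : F, ψ (t * x ^ d)

lemma GG_zero (ψ : AddChar F ℂ) : GG d ψ 0 = (Fintype.card F : ℂ) := by
  unfold GG
  simp

lemma GG_scale (ψ : AddChar F ℂ) (t c : F) (hc : c ≠ 0) : GG d ψ (t * c ^ d) = GG d ψ t := by
  unfold GG
  refine Fintype.sum_equiv (Equiv.mulLeft₀ c hc) _ _ ?_
  intro x
  congr 1
  show t * c ^ d * x ^ d = t * (c * x) ^ d
  rw [mul_pow]
  ring

lemma char_sum {ι : Type} (ψ : AddChar F ℂ) (s : Finset ι) (f : ι → F) : ψ (∑ i ∈ s, f i) = ∏ i ∈ s, ψ (f i) := by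
  classical
  induction s using Finset.induction_on with
  | empty => simp
  | insert a s ha ih => rw [sum_insert ha, prod_insert ha, AddChar.map_add_eq_mul, ih]

lemma normSq_sum (ψ : AddChar F ℂ) (t : F) : ((‖GG d ψ t‖ ^ 2 : ℝ) : ℂ) = ∑ x : F, ∑ y : F, ψ (t * (x ^ d - y ^ d)) := by
  unfold GG
  rw [Complex.ofReal_pow, ← Complex.mul_conj', map_sum, sum_mul_sum]
  refine sum_congr rfl fun x _ => sum_congr rfl fun y _ => ?_
  rw [← AddChar.map_neg_eq_conj, ← AddChar.map_add_eq_mul]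
  congr 1
  ring

/-- the second moment -/
lemma GG_two (hd : 0 < d) (ψ : AddChar F ℂ) (hψ : ψ.IsPrimitive) :
    ∑ t : F, ‖GG d ψ t‖ ^ 2 ≤ (Fintype.card F : ℝ) * (1 + ((Fintype.card F : ℝ) - 1) * d) := by
  classical
  have h1 : ((∑ t : F, ‖GG d ψ t‖ ^ 2 : ℝ) : ℂ) = ((∑ y : F, (Fintype.card F : ℝ) * ((univ.filter (fun x : F => x ^ d = y ^ d)).card : ℝ) : ℝ) : ℂ) := by
    rw [Complex.ofReal_sum, Complex.ofReal_sum]
    simp only [normSq_sum]
    rw [sum_comm]
    have e1 : ∀ x : F, ∑ t : F, ∑ y : F, ψ (t * (x ^ d - y ^ d)) = ∑ y : F, if x ^ d = y ^ d then (Fintype.card F : ℂ) else 0 := by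
      intro x
      rw [sum_comm]
      refine sum_congr rfl fun y _ => ?_
      rw [AddChar.sum_mulShift (x ^ d - y ^ d) hψ]
      by_cases h : x ^ d = y ^ d
      · rw [if_pos h, if_pos (sub_eq_zero.2 h)]
      · rw [if_neg h, if_neg (sub_ne_zero.2 h)]
        simp
    rw [sum_congr rfl (fun x _ => e1 x), sum_comm]
    refine sum_congr rfl fun y _ => ?_
    rw [← sum_filter, sum_const, nsmul_eq_mul]
    push_cast
    ring
  have h2 : ∑ t : F, ‖GG d ψ t‖ ^ 2 = ∑ y : F, (Fintype.card F : ℝ) * ((univ.filter (fun x : F => x ^ d = y ^ d)).card : ℝ) := by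
    exact_mod_cast h1
  rw [h2, ← mul_sum]
  apply mul_le_mul_of_nonneg_left _ (Nat.cast_nonneg _)
  rw [← add_sum_erase univ _ (mem_univ (0 : F))]
  apply add_le_add
  · have h3 : univ.filter (fun x : F => x ^ d = 0 ^ d) = {0} := by
      ext x
      rw [mem_filter, mem_singleton, zero_pow hd.ne', pow_eq_zero_iff hd.ne']
      exact ⟨fun h => h.2, fun h => ⟨mem_univ _, h⟩⟩
    rw [h3, card_singleton, Nat.cast_one]
  · refine (sum_le_sum (g := fun _ => (d : ℝ)) fun y _ => ?_).trans (le_of_eq ?_)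
    · exact_mod_cast card_pow_le F d hd (y ^ d)
    · rw [sum_const, card_erase_of_mem (mem_univ _), card_univ, nsmul_eq_mul, Nat.cast_sub Fintype.card_pos, Nat.cast_one]

/-- the bound of the exponential sum -/
lemma GG_bound (hd : 0 < d) (ψ : AddChar F ℂ) (hψ : ψ.IsPrimitive) (t : F) (ht : t ≠ 0) :
    ‖GG d ψ t‖ ≤ d * Real.sqrt (Fintype.card F : ℝ) := by
  classical
  have hq1 : (1 : ℝ) < Fintype.card F := by exact_mod_cast Fintype.one_lt_card
  have h1 := GG_two d hd ψ hψ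
  rw [← add_sum_erase univ _ (mem_univ (0 : F)), GG_zero] at h1
  obtain ⟨q, hq⟩ : ∃ q : ℝ, q = (Fintype.card F : ℝ) := ⟨_, rfl⟩
  have h0 : ‖(Fintype.card F : ℂ)‖ = q := by
    rw [hq, Complex.norm_natCast]
  rw [h0, ← hq] at h1
  rw [← hq] at hq1 ⊢
  have h2 : ∑ t ∈ (univ : Finset F).erase 0, ‖GG d ψ t‖ ^ 2 ≤ q * ((q - 1) * (d - 1)) := by nlinarith
  have h3 : (q - 1) * ‖GG d ψ t‖ ^ 2 = ∑ c ∈ (univ : Finset F).erase 0, ‖GG d ψ (t * c ^ d)‖ ^ 2 := by
    have e1 : ∀ c ∈ (univ : Finset F).erase 0, ‖GG d ψ (t * c ^ d)‖ ^ 2 = ‖GG d ψ t‖ ^ 2 := by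
      intro c hc
      rw [GG_scale d ψ t c (ne_of_mem_erase hc)]
    rw [sum_congr rfl e1, sum_const, card_erase_of_mem (mem_univ _), card_univ, nsmul_eq_mul, Nat.cast_sub Fintype.card_pos, Nat.cast_one, ← hq]
  have h4 : ∑ c ∈ (univ : Finset F).erase 0, ‖GG d ψ (t * c ^ d)‖ ^ 2 ≤ d * ∑ t ∈ (univ : Finset F).erase 0, ‖GG d ψ t‖ ^ 2 := by
    rw [← sum_fiberwise_of_maps_to (s := (univ : Finset F).erase 0) (t := (univ : Finset F).erase 0) (g := fun c : F => t * c ^ d) (by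
      intro c hc
      exact mem_erase.2 ⟨mul_ne_zero ht (pow_ne_zero _ (ne_of_mem_erase hc)), mem_univ _⟩), mul_sum]
    refine sum_le_sum fun z _ => ?_
    rw [sum_congr rfl (g := fun _ => ‖GG d ψ z‖ ^ 2) (fun c hc => by rw [(mem_filter.1 hc).2]), sum_const, nsmul_eq_mul]
    apply mul_le_mul_of_nonneg_right _ (by positivity)
    have e1 : (((univ : Finset F).erase 0).filter (fun c => t * c ^ d = z)).card ≤ d := by
      refine le_trans (card_le_card ?_) (card_pow_le F d hd (z / t))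
      intro c hc
      rw [mem_filter] at hc ⊢
      refine ⟨mem_univ _, ?_⟩
      rw [eq_div_iff ht, ← hc.2]
      ring
    exact_mod_cast e1
  have h5 : (q - 1) * ‖GG d ψ t‖ ^ 2 ≤ (q - 1) * ((d * Real.sqrt q) ^ 2) := by
    rw [h3]
    refine h4.trans ?_
    have e1 : (d * Real.sqrt q) ^ 2 = d ^ 2 * q := by rw [mul_pow, Real.sq_sqrt (by linarith)]
    rw [e1]
    have e2 : (d : ℝ) * ∑ t ∈ (univ : Finset F).erase 0, ‖GG d ψ t‖ ^ 2 ≤ d * (q * ((q - 1) * (d - 1))) :=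
      mul_le_mul_of_nonneg_left h2 (Nat.cast_nonneg _)
    refine e2.trans ?_
    have e3 : (q - 1) * ((d : ℝ) ^ 2 * q) - d * (q * ((q - 1) * (d - 1))) = d * (q * (q - 1)) := by ring
    have e4 : 0 ≤ (d : ℝ) * (q * (q - 1)) := mul_nonneg (Nat.cast_nonneg _) (mul_nonneg (by linarith) (by linarith))
    linarith
  have h6 : ‖GG d ψ t‖ ^ 2 ≤ (d * Real.sqrt q) ^ 2 := le_of_mul_le_mul_left h5 (by linarith)
  exact abs_le_of_sq_le_sq' h6 (by positivity) |>.2

open Classical in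
/-- **the number of the solutions** -/
theorem fermat (hd : 0 < d) (N : ℕ) (hN : 1 ≤ N) :
    |((univ.filter (fun x : Fin N → F => ∑ i, x i ^ d = 0)).card : ℝ) - (Fintype.card F : ℝ) ^ (N - 1)| ≤
      (d : ℝ) ^ N * Real.sqrt (Fintype.card F : ℝ) ^ N := by
  obtain ⟨ψ, hψ⟩ := exists_char F
  have hq1 : (1 : ℝ) < Fintype.card F := by exact_mod_cast Fintype.one_lt_card
  obtain ⟨q, hq⟩ : ∃ q : ℝ, q = (Fintype.card F : ℝ) := ⟨_, rfl⟩
  have hqc : (Fintype.card F : ℂ) = (q : ℂ) := by rw [hq]; simp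
  rw [← hq] at hq1 ⊢
  obtain ⟨n, hn⟩ : ∃ n : ℝ, n = ((univ.filter (fun x : Fin N → F => ∑ i, x i ^ d = 0)).card : ℝ) := ⟨_, rfl⟩
  rw [← hn]
  have h1 : (q : ℂ) * n = ∑ t : F, GG d ψ t ^ N := by
    have e1 : ∀ t : F, GG d ψ t ^ N = ∑ x : Fin N → F, ψ (t * ∑ i, x i ^ d) := by
      intro t
      unfold GG
      rw [Fintype.sum_pow]
      refine sum_congr rfl fun x _ => ?_
      rw [mul_sum]
      exact (char_sum ψ univ (fun i => t * x i ^ d)).symm
    rw [sum_congr rfl (fun t _ => e1 t), sum_comm]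
    have e2 : ∀ x : Fin N → F, ∑ t : F, ψ (t * ∑ i, x i ^ d) = if ∑ i, x i ^ d = 0 then (q : ℂ) else 0 := by
      intro x
      rw [AddChar.sum_mulShift _ hψ]
      split_ifs
      · exact hqc
      · simp
    rw [sum_congr rfl (fun x _ => e2 x), ← sum_filter, sum_const, nsmul_eq_mul, hn]
    push_cast
    ring
  have h2 : (q : ℂ) * n - (q : ℂ) ^ N = ∑ t ∈ (univ : Finset F).erase 0, GG d ψ t ^ N := by
    rw [h1, ← add_sum_erase univ _ (mem_univ (0 : F)), GG_zero, hqc, add_sub_cancel_left]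
  have h3 : |q * n - q ^ N| ≤ q * ((d : ℝ) ^ N * Real.sqrt q ^ N) := by
    have e1 : |q * n - q ^ N| = ‖(q : ℂ) * n - (q : ℂ) ^ N‖ := by
      rw [← Complex.ofReal_mul, ← Complex.ofReal_pow, ← Complex.ofReal_sub, Complex.norm_real, Real.norm_eq_abs]
    rw [e1, h2]
    refine (norm_sum_le _ _).trans ?_
    refine (sum_le_sum (g := fun _ => (d : ℝ) ^ N * Real.sqrt q ^ N) fun t ht => ?_).trans ?_
    · rw [norm_pow, ← mul_pow]
      apply pow_le_pow_left₀ (norm_nonneg _)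
      rw [hq]
      exact GG_bound d hd ψ hψ t (ne_of_mem_erase ht)
    · rw [sum_const, card_erase_of_mem (mem_univ _), card_univ, nsmul_eq_mul]
      apply mul_le_mul_of_nonneg_right _ (by positivity)
      rw [hq]
      exact_mod_cast Nat.sub_le _ _
  have h4 : q * n - q ^ N = q * (n - q ^ (N - 1)) := by
    obtain ⟨m, rfl⟩ : ∃ m, N = m + 1 := ⟨N - 1, by omega⟩
    rw [Nat.add_sub_cancel, pow_succ]
    ring
  rw [h4, abs_mul, abs_of_pos (by linarith : (0 : ℝ) < q)] at h3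
  exact le_of_mul_le_mul_left h3 (by linarith)

end

end Pool.Agent.N842.HS
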