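import Pool.Agent.N842.HS.Momk
import Pool.Agent.N842.HS.Char

/-!
# The moments of the linear combinations
-/

set_option autoImplicit false

namespace Pool.Agent.N842.HS

open Finset
open Pool.Agent.Y57.FD.Mom (normal)
open Pool.Agent.N842.ST (normal_nonneg)

lemma normal_odd (m : ℕ) (hm : Odd m) : normal m = 0 := by
  unfold Pool.Agent.Y57.FD.Mom.normal
  rw [if_neg (Nat.not_even_iff_odd.2 hm)]

/-- **the moments of the sum of two independent normal variables** -/
theorem normal_add (r : ℕ) (α β : ℝ) :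
    ∑ x ∈ range (r + 1), (r.choose x : ℝ) * (normal x * α ^ (x / 2)) * (normal (r - x) * β ^ ((r - x) / 2)) = normal r * (α + β) ^ (r / 2) := by
  rcases Nat.even_or_odd r with hr | hr
  · obtain ⟨m, hm⟩ := hr
    have hm2 : r = 2 * m := by omega
    subst hm2
    clear hm
    have h1 : ∑ x ∈ range (2 * m + 1), ((2 * m).choose x : ℝ) * (normal x * α ^ (x / 2)) * (normal (2 * m - x) * β ^ ((2 * m - x) / 2)) =
        ∑ x ∈ (range (m + 1)).image (fun j => 2 * j), ((2 * m).choose x : ℝ) * (normal x * α ^ (x / 2)) * (normal (2 * m - x) * β ^ ((2 * m - x) / 2)) := by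
      symm
      apply sum_subset
      · intro x hx
        obtain ⟨j, hj, rfl⟩ := mem_image.1 hx
        rw [mem_range] at hj ⊢
        omega
      · intro x hx hx2
        have hodd : Odd x := by
          rw [← Nat.not_even_iff_odd]
          rintro ⟨j, hj⟩
          apply hx2
          rw [mem_range] at hx
          exact mem_image.2 ⟨j, mem_range.2 (by omega), by omega⟩
        rw [normal_odd x hodd]
        ring
    rw [h1, sum_image (fun a _ b _ h => by simpa using h), Nat.mul_div_cancel_left m (by norm_num), add_pow, mul_sum]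
    refine sum_congr rfl fun j hj => ?_
    rw [mem_range] at hj
    obtain ⟨l, hl⟩ : ∃ l, l = m - j := ⟨_, rfl⟩
    have e1 : 2 * m - 2 * j = 2 * l := by omega
    have e2 : m = j + l := by omega
    rw [e1, Nat.mul_div_cancel_left j (by norm_num), Nat.mul_div_cancel_left l (by norm_num), ← hl]
    have f1 := normal_fact m
    have f2 := normal_fact j
    have f3 := normal_fact l
    have c1 := Nat.choose_mul_factorial_mul_factorial (n := 2 * m) (k := 2 * j) (by omega)
    have c2 := Nat.choose_mul_factorial_mul_factorial (n := m) (k := j) (by omega)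
    rw [e1] at c1
    rw [← hl] at c2
    have c1' : ((2 * m).choose (2 * j) : ℝ) * (Nat.factorial (2 * j) : ℝ) * (Nat.factorial (2 * l) : ℝ) = (Nat.factorial (2 * m) : ℝ) := by exact_mod_cast c1
    have c2' : (m.choose j : ℝ) * (Nat.factorial j : ℝ) * (Nat.factorial l : ℝ) = (Nat.factorial m : ℝ) := by exact_mod_cast c2
    have p1 : (0 : ℝ) < Nat.factorial (2 * m) := by exact_mod_cast Nat.factorial_pos _
    have p2 : (0 : ℝ) < Nat.factorial (2 * j) := by exact_mod_cast Nat.factorial_pos _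
    have p3 : (0 : ℝ) < Nat.factorial (2 * l) := by exact_mod_cast Nat.factorial_pos _
    have p4 : (0 : ℝ) < Nat.factorial m := by exact_mod_cast Nat.factorial_pos _
    have p5 : (0 : ℝ) < Nat.factorial j := by exact_mod_cast Nat.factorial_pos _
    have p6 : (0 : ℝ) < Nat.factorial l := by exact_mod_cast Nat.factorial_pos _
    have g1 : normal (2 * m) = Nat.factorial (2 * m) / (2 ^ m * Nat.factorial m) := by
      rw [div_eq_iff p1.ne'] at f1
      rw [f1]
      ring
    have g2 : normal (2 * j) = Nat.factorial (2 * j) / (2 ^ j * Nat.factorial j) := by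
      rw [div_eq_iff p2.ne'] at f2
      rw [f2]
      ring
    have g3 : normal (2 * l) = Nat.factorial (2 * l) / (2 ^ l * Nat.factorial l) := by
      rw [div_eq_iff p3.ne'] at f3
      rw [f3]
      ring
    have key : ((2 * m).choose (2 * j) : ℝ) * normal (2 * j) * normal (2 * l) = normal (2 * m) * (m.choose j : ℝ) := by
      rw [g1, g2, g3, ← c1', ← c2', e2, pow_add]
      have q1 : ((j + l).choose j : ℝ) ≠ 0 := by
        have : 0 < (j + l).choose j := Nat.choose_pos (by omega)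
        exact_mod_cast this.ne'
      field_simp
    linear_combination (α ^ j * β ^ l) * key
  · rw [normal_odd r hr, zero_mul]
    apply sum_eq_zero
    intro x hx
    rw [mem_range] at hx
    rcases Nat.even_or_odd x with hx2 | hx2
    · have : Odd (r - x) := Nat.Odd.sub_even (by omega) hr hx2
      rw [normal_odd _ this]
      ring
    · rw [normal_odd _ hx2]
      ring

section
variable {N d D : ℕ} (e : Fin D ≃ Mon N d)

/-- **the mixed moments of the linear combinations** -/
theorem lin (hN : 2 ≤ N) (hd : 0 < d) {K : ℕ} (τ : Fin K → ℝ) (s : Finset (Fin K)) : ∀ (r : ℕ) (i : Fin K → ℕ),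
    K * r + ∑ j ∈ sᶜ, (j + 1 : ℕ) * i j ≤ d → ∃ C : ℝ, 0 ≤ C ∧ ∀ (p : ℕ) [Fact p.Prime],
      |(∑ u : Fin D → ZMod p, (∑ j ∈ s, τ j * bk e p (j + 1) u) ^ r * ∏ j ∈ sᶜ, bk e p (j + 1) u ^ i j) / (p : ℝ) ^ D -
        (normal r * (∑ j ∈ s, ((j + 1 : ℕ) : ℝ) * τ j ^ 2) ^ (r / 2)) * ∏ j ∈ sᶜ, (normal (i j) * ((j + 1 : ℕ) : ℝ) ^ (i j / 2))| ≤ C / Real.sqrt p := by
  classical
  induction s using Finset.induction_on with
  | empty =>
    intro r i hi
    rw [compl_empty] at hi
    by_cases hr : r = 0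
    · subst hr
      obtain ⟨C, hC0, hC⟩ := momk e hN hd i (by omega)
      refine ⟨C, hC0, fun p _ => ?_⟩
      have h1 := hC p
      simp only [sum_empty, pow_zero, one_mul, compl_empty, Nat.zero_div, mul_one, Pool.Agent.N842.ST.normal_zero]
      exact h1
    · refine ⟨0, le_rfl, fun p _ => ?_⟩
      have h1 : normal r * (0 : ℝ) ^ (r / 2) = 0 := by
        by_cases hr1 : r = 1
        · rw [hr1, normal_odd 1 (by decide), zero_mul]
        · rw [zero_pow (by omega), mul_zero]
      simp only [sum_empty]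
      rw [h1, zero_pow hr]
      simp
  | insert a s ha ih =>
    intro r i hi
    have hcompl : sᶜ = insert a (insert a s)ᶜ := by
      ext j
      simp only [mem_compl, mem_insert, not_or]
      constructor
      · intro hj
        by_cases h : j = a
        · exact Or.inl h
        · exact Or.inr ⟨h, hj⟩
      · rintro (h | h)
        · rw [h]
          exact ha
        · exact h.2
    have hna : a ∉ (insert a s)ᶜ := by simp
    have hne : ∀ j ∈ (insert a s)ᶜ, j ≠ a := by
      intro j hj h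
      rw [h] at hj
      exact hna hj
    have haK : (a : ℕ) + 1 ≤ K := a.2
    have hcond : ∀ x ∈ range (r + 1), K * (r - x) + ∑ j ∈ sᶜ, (j + 1 : ℕ) * (Function.update i a x) j ≤ d := by
      intro x hx
      rw [mem_range] at hx
      rw [hcompl, sum_insert hna, Function.update_self]
      have h1 : ∑ j ∈ (insert a s)ᶜ, (j + 1 : ℕ) * (Function.update i a x) j = ∑ j ∈ (insert a s)ᶜ, (j + 1 : ℕ) * i j := by
        refine sum_congr rfl fun j hj => ?_
        rw [Function.update_of_ne (hne j hj)]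
      rw [h1]
      have h2 : ((a : ℕ) + 1) * x ≤ K * x := Nat.mul_le_mul_right x haK
      have h3 : K * (r - x) + K * x = K * r := by
        rw [← Nat.mul_add]
        congr 1
        omega
      omega
    have hch : ∀ x : ℕ, ∃ C : ℝ, 0 ≤ C ∧ (x ∈ range (r + 1) → ∀ (p : ℕ) [Fact p.Prime],
        |(∑ u : Fin D → ZMod p, (∑ j ∈ s, τ j * bk e p (j + 1) u) ^ (r - x) * ∏ j ∈ sᶜ, bk e p (j + 1) u ^ (Function.update i a x) j) / (p : ℝ) ^ D -
        (normal (r - x) * (∑ j ∈ s, ((j + 1 : ℕ) : ℝ) * τ j ^ 2) ^ ((r - x) / 2)) *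
          ∏ j ∈ sᶜ, (normal ((Function.update i a x) j) * ((j + 1 : ℕ) : ℝ) ^ ((Function.update i a x) j / 2))| ≤ C / Real.sqrt p) := by
      intro x
      by_cases hx : x ∈ range (r + 1)
      · obtain ⟨C, hC0, hC⟩ := ih (r - x) (Function.update i a x) (hcond x hx)
        exact ⟨C, hC0, fun _ => hC⟩
      · exact ⟨0, le_rfl, fun h => absurd h hx⟩
    choose C hC0 hC using hch
    refine ⟨∑ x ∈ range (r + 1), (r.choose x : ℝ) * |τ a| ^ x * C x, sum_nonneg fun x _ => mul_nonneg (by positivity) (hC0 x), fun p _ => ?_⟩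
    obtain ⟨b, hb⟩ : ∃ b : Fin K → (Fin D → ZMod p) → ℝ, b = fun (j : Fin K) u => bk e p (j + 1) u := ⟨_, rfl⟩
    obtain ⟨V, hV⟩ : ∃ V : ℝ, V = ∑ j ∈ s, ((j + 1 : ℕ) : ℝ) * τ j ^ 2 := ⟨_, rfl⟩
    obtain ⟨Q, hQ⟩ : ∃ Q : ℝ, Q = ∏ j ∈ (insert a s)ᶜ, (normal (i j) * ((j + 1 : ℕ) : ℝ) ^ (i j / 2)) := ⟨_, rfl⟩
    obtain ⟨P, hP⟩ : ∃ P : (Fin D → ZMod p) → ℝ, P = fun u => ∏ j ∈ (insert a s)ᶜ, b j u ^ i j := ⟨_, rfl⟩
    obtain ⟨S, hS⟩ : ∃ S : (Fin D → ZMod p) → ℝ, S = fun u => ∑ j ∈ s, τ j * b j u := ⟨_, rfl⟩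
    have h1 : ∀ x ∈ range (r + 1), |(∑ u, S u ^ (r - x) * (b a u ^ x * P u)) / (p : ℝ) ^ D - (normal (r - x) * V ^ ((r - x) / 2)) *
        ((normal x * ((a + 1 : ℕ) : ℝ) ^ (x / 2)) * Q)| ≤ C x / Real.sqrt p := by
      intro x hx
      have h2 := hC x hx p
      rw [hcompl, prod_insert hna, Function.update_self] at h2
      have h3 : ∏ j ∈ (insert a s)ᶜ, (normal ((Function.update i a x) j) * ((j + 1 : ℕ) : ℝ) ^ ((Function.update i a x) j / 2)) = Q := by
        rw [hQ]
        refine prod_congr rfl fun j hj => ?_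
        rw [Function.update_of_ne (hne j hj)]
      have h4 : ∀ u : Fin D → ZMod p, ∏ j ∈ insert a (insert a s)ᶜ, bk e p (j + 1) u ^ (Function.update i a x) j = b a u ^ x * P u := by
        intro u
        rw [prod_insert hna, Function.update_self, hb, hP]
        congr 1
        refine prod_congr rfl fun j hj => ?_
        rw [Function.update_of_ne (hne j hj), hb]
      rw [h3, ← hV] at h2
      simp only [h4] at h2
      rw [hS, hb]
      rw [hb] at h2
      exact h2
    have h5 : (∑ u : Fin D → ZMod p, (∑ j ∈ insert a s, τ j * bk e p (j + 1) u) ^ r * ∏ j ∈ (insert a s)ᶜ, bk e p (j + 1) u ^ i j) / (p : ℝ) ^ D =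
        ∑ x ∈ range (r + 1), ((r.choose x : ℝ) * τ a ^ x) * ((∑ u, S u ^ (r - x) * (b a u ^ x * P u)) / (p : ℝ) ^ D) := by
      have h6 : ∀ u : Fin D → ZMod p, (∑ j ∈ insert a s, τ j * bk e p (j + 1) u) ^ r * ∏ j ∈ (insert a s)ᶜ, bk e p (j + 1) u ^ i j =
          ∑ x ∈ range (r + 1), ((r.choose x : ℝ) * τ a ^ x) * (S u ^ (r - x) * (b a u ^ x * P u)) := by
        intro u
        rw [sum_insert ha, add_pow, sum_mul]
        refine sum_congr rfl fun x _ => ?_
        rw [hS, hP, hb]
        ring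
      rw [sum_congr rfl (fun u _ => h6 u), sum_comm, sum_div]
      refine sum_congr rfl fun x _ => ?_
      rw [← mul_sum]
      ring
    have h7 : (normal r * (∑ j ∈ insert a s, ((j + 1 : ℕ) : ℝ) * τ j ^ 2) ^ (r / 2)) * ∏ j ∈ (insert a s)ᶜ, (normal (i j) * ((j + 1 : ℕ) : ℝ) ^ (i j / 2)) =
        ∑ x ∈ range (r + 1), ((r.choose x : ℝ) * τ a ^ x) * ((normal (r - x) * V ^ ((r - x) / 2)) * ((normal x * ((a + 1 : ℕ) : ℝ) ^ (x / 2)) * Q)) := by
      rw [sum_insert ha, ← hV, ← hQ, ← normal_add, sum_mul]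
      refine sum_congr rfl fun x _ => ?_
      rcases Nat.even_or_odd x with hx | hx
      · obtain ⟨y, hy⟩ := hx
        have hy2 : x / 2 = y := by omega
        rw [hy2, hy, mul_pow, ← pow_mul, ← two_mul]
        ring
      · rw [normal_odd x hx]
        ring
    rw [h5, h7, ← sum_sub_distrib, sum_div]
    refine (abs_sum_le_sum_abs _ _).trans (sum_le_sum fun x hx => ?_)
    rw [← mul_sub, abs_mul, mul_div_assoc]
    apply mul_le_mul _ (h1 x hx) (abs_nonneg _) (by positivity)
    rw [abs_mul, abs_pow, Nat.abs_cast]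

/-- **the moments of the linear combinations** -/
theorem lin_univ (hN : 2 ≤ N) (hd : 0 < d) {K : ℕ} (τ : Fin K → ℝ) (r : ℕ) (hr : K * r ≤ d) : ∃ C : ℝ, 0 ≤ C ∧ ∀ (p : ℕ) [Fact p.Prime],
      |(∑ u : Fin D → ZMod p, (∑ j : Fin K, τ j * bk e p (j + 1) u) ^ r) / (p : ℝ) ^ D -
        normal r * (∑ j : Fin K, ((j + 1 : ℕ) : ℝ) * τ j ^ 2) ^ (r / 2)| ≤ C / Real.sqrt p := by
  obtain ⟨C, hC0, hC⟩ := lin e hN hd τ univ r (fun _ => 0) (by simpa using hr)
  refine ⟨C, hC0, fun p _ => ?_⟩
  have h := hC p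
  simp only [compl_univ, prod_empty, mul_one] at h
  exact h

end

end Pool.Agent.N842.HS
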