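import Pool.Agent.N842.HS.Mom2

/-!
# The number of the singular members of the family
-/

set_option autoImplicit false

namespace Pool.Agent.N842.HS

open Finset MvPolynomial

section
variable {K : Type} [Field K] {N : ℕ}

lemma pderiv_deg (i : Fin N) (H : MvPolynomial (Fin N) K) (n : ℕ) (hH : H.totalDegree ≤ n + 1) : (pderiv i H).totalDegree ≤ n := by
  classical
  unfold totalDegree
  apply Finset.sup_le
  intro m hm
  rw [mem_support_iff, coeff_pderiv] at hm
  have h1 : coeff (m + Finsupp.single i 1) H ≠ 0 := left_ne_zero_of_mul hm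
  have h2 := le_totalDegree (mem_support_iff.2 h1)
  rw [Finsupp.sum_add_index' (fun _ => rfl) (fun _ _ _ => rfl), Finsupp.sum_single_index rfl] at h2
  omega

/-- restriction to a finite set -/
noncomputable def restr (S : Finset (Fin N → K)) : MvPolynomial (Fin N) K →ₗ[K] (S → K) where
  toFun P x := eval x.1 P
  map_add' P Q := by
    funext x
    simp
  map_smul' c P := by
    funext x
    simp [smul_eval]

/-- **the number of the critical points** -/
theorem crit_card (d : ℕ) (hd : 2 ≤ d) (hdK : (d : K) ≠ 0) (H : MvPolynomial (Fin N) K) (hH : H.totalDegree < d) (S : Finset (Fin N → K))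
    (hS : ∀ x ∈ S, ∀ i, eval x (pderiv i (∑ j, X j ^ d + H)) = 0) : S.card ≤ (d - 1) ^ N := by
  classical
  obtain ⟨g, hg⟩ : ∃ g : (Fin N → Fin (d - 1)) → (S → K), g = fun β => restr S (monomial (Finsupp.equivFunOnFinite.symm (fun i => (β i : ℕ))) 1) :=
    ⟨_, rfl⟩
  have hpd : ∀ i : Fin N, pderiv i (∑ j, X j ^ d + H) = C (d : K) * X i ^ (d - 1) + pderiv i H := by
    intro i
    rw [map_add, map_sum, sum_eq_single i]
    · rw [pderiv_pow, pderiv_X_self, mul_one, map_natCast]
    · intro j _ hj
      rw [pderiv_pow, pderiv_X_of_ne hj, mul_zero]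
    · intro h
      exact absurd (mem_univ i) h
  have hx : ∀ x ∈ S, ∀ i, x i ^ (d - 1) = -(d : K)⁻¹ * eval x (pderiv i H) := by
    intro x hx i
    have h1 := hS x hx i
    rw [hpd, map_add, map_mul, eval_C, map_pow, eval_X] at h1
    field_simp
    linear_combination h1
  -- every polynomial
  have hspan : ∀ n : ℕ, ∀ P : MvPolynomial (Fin N) K, P.totalDegree ≤ n → restr S P ∈ Submodule.span K (Set.range g) := by
    intro n
    induction n using Nat.strong_induction_on with
    | _ n ih =>
      intro P hP
      rw [P.as_sum, map_sum]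
      apply Submodule.sum_mem
      intro α hα
      have hdeg := (le_totalDegree hα).trans hP
      rw [Finsupp.sum_fintype _ _ (fun _ => rfl)] at hdeg
      have h1 : monomial α (coeff α P) = (coeff α P) • (monomial α (1 : K)) := by
        rw [smul_monomial, smul_eq_mul, mul_one]
      rw [h1, map_smul]
      apply Submodule.smul_mem
      by_cases hsm : ∀ i, α i < d - 1
      · apply Submodule.subset_span
        refine ⟨fun i => ⟨α i, hsm i⟩, ?_⟩
        rw [hg]
        have e1 : Finsupp.equivFunOnFinite.symm (fun i => (α i : ℕ)) = α := by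
          ext i
          rfl
        show restr S (monomial (Finsupp.equivFunOnFinite.symm (fun i => (α i : ℕ))) 1) = _
        rw [e1]
      · push Not at hsm
        obtain ⟨i, hi⟩ := hsm
        obtain ⟨β, hβ⟩ : ∃ β : Fin N →₀ ℕ, β = α - Finsupp.single i (d - 1) := ⟨_, rfl⟩
        have hαβ : α = β + Finsupp.single i (d - 1) := by
          rw [hβ, tsub_add_cancel_of_le]
          rw [Finsupp.single_le_iff]
          exact hi
        have hβdeg : ∑ j, β j + (d - 1) = ∑ j, α j := by
          conv_rhs => rw [hαβ]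
          simp only [Finsupp.add_apply]
          rw [sum_add_distrib]
          congr 1
          rw [sum_eq_single i]
          · rw [Finsupp.single_eq_same]
          · intro j _ hj
            exact Finsupp.single_eq_of_ne hj
          · intro h
            exact absurd (mem_univ i) h
        have h2 : restr S (monomial α (1 : K)) = restr S (C (-(d : K)⁻¹) * (monomial β 1 * pderiv i H)) := by
          funext x
          show eval x.1 (monomial α (1 : K)) = eval x.1 (C (-(d : K)⁻¹) * (monomial β 1 * pderiv i H))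
          have h3 : monomial α (1 : K) = monomial β 1 * X i ^ (d - 1) := by
            rw [hαβ, X_pow_eq_monomial, monomial_mul, mul_one]
          rw [h3, map_mul, map_mul, map_mul, map_pow, eval_X, eval_C, hx x.1 x.2 i]
          ring
        rw [h2]
        have hdeg2 : (C (-(d : K)⁻¹) * (monomial β 1 * pderiv i H)).totalDegree ≤ n - 1 := by
          refine (totalDegree_mul _ _).trans ?_
          rw [totalDegree_C, zero_add]
          refine (totalDegree_mul _ _).trans ?_
          have e1 : (monomial β (1 : K)).totalDegree ≤ ∑ j, β j := by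
            refine (totalDegree_monomial_le _ _).trans (le_of_eq ?_)
            rw [Finsupp.sum_fintype _ _ (fun _ => rfl)]
            rfl
          have e2 : (pderiv i H).totalDegree ≤ d - 2 := pderiv_deg i H (d - 2) (by omega)
          omega
        exact ih (n - 1) (by omega) _ hdeg2
  -- surjectivity
  have htop : Submodule.span K (Set.range g) = ⊤ := by
    rw [eq_top_iff]
    intro v _
    obtain ⟨P, _, hP⟩ := interp S (fun x => if hx : x ∈ S then v ⟨x, hx⟩ else 0) (d := S.card + 1) (by omega) (by omega)
    have h1 := hspan P.totalDegree P le_rfl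
    have h2 : restr S P = v := by
      funext x
      show eval x.1 P = v x
      rw [hP x.1 x.2, dif_pos x.2]
    rwa [h2] at h1
  have h3 := finrank_range_le_card (R := K) g
  unfold Set.finrank at h3
  rw [htop, finrank_top, Module.finrank_fintype_fun_eq_card, Fintype.card_coe, Fintype.card_fun, Fintype.card_fin, Fintype.card_fin] at h3
  exact h3

end

section
variable {N d D : ℕ} (e : Fin D ≃ Mon N d)

/-- the polynomial over the algebraic closure -/
noncomputable def PF (p : ℕ) [Fact p.Prime] (u : Fin D → ZMod p) : MvPolynomial (Fin N) (AlgebraicClosure (ZMod p)) :=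
  ∑ i, X i ^ d + ∑ k, C (algebraMap (ZMod p) (AlgebraicClosure (ZMod p)) (u k)) * ∏ i, X i ^ ((e k).1 i : ℕ)

/-- there is a singular point -/
def Sing (p : ℕ) [Fact p.Prime] (u : Fin D → ZMod p) : Prop :=
  ∃ x : Fin N → AlgebraicClosure (ZMod p), eval x (PF e p u) = 0 ∧ ∀ i, eval x (pderiv i (PF e p u)) = 0

lemma low_deg (p : ℕ) [Fact p.Prime] (hd : 0 < d) (u : Fin D → ZMod p) :
    (∑ k, C (algebraMap (ZMod p) (AlgebraicClosure (ZMod p)) (u k)) * ∏ i, X i ^ ((e k).1 i : ℕ) :
      MvPolynomial (Fin N) (AlgebraicClosure (ZMod p))).totalDegree < d := by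
  refine lt_of_le_of_lt (totalDegree_finsetSum_le (d := d - 1) fun k _ => ?_) (by omega)
  refine (totalDegree_mul _ _).trans ?_
  rw [totalDegree_C, zero_add]
  refine (totalDegree_finsetProd _ _).trans ?_
  have h1 : ∑ i, (X i ^ ((e k).1 i : ℕ) : MvPolynomial (Fin N) (AlgebraicClosure (ZMod p))).totalDegree ≤ ∑ i, ((e k).1 i : ℕ) := by
    refine sum_le_sum fun i _ => ?_
    rw [totalDegree_X_pow]
  have h2 := (e k).2
  omega

open Classical in
/-- **the proportion of the singular members** -/
theorem sing_card (p : ℕ) [hp : Fact p.Prime] (hd : 2 ≤ d) (hpd : ¬ p ∣ d) :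
    (univ.filter (fun u : Fin D → ZMod p => Sing e p u)).card * p ≤ (d - 1) ^ N * p ^ D := by
  -- the constant coefficient
  obtain ⟨k₀, hk₀⟩ := expo_surj e (0 : Fin N →₀ ℕ) (by simp; omega)
  have hk0 : ∀ i, ((e k₀).1 i : ℕ) = 0 := by
    intro i
    rw [← expo_apply, hk₀]
    rfl
  have hD : 0 < D := Nat.pos_of_ne_zero (fun h => by subst h; exact k₀.elim0)
  have hdK : ((d : ℕ) : AlgebraicClosure (ZMod p)) ≠ 0 := by
    intro h
    apply hpd
    have h1 : ((d : ℕ) : ZMod p) = 0 := by
      apply (algebraMap (ZMod p) (AlgebraicClosure (ZMod p))).injective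
      rw [map_natCast, map_zero]
      exact h
    exact (ZMod.natCast_eq_zero_iff d p).1 h1
  -- the fibres
  obtain ⟨B, hB⟩ : ∃ B : Finset (Fin D → ZMod p), B = univ.filter (fun u : Fin D → ZMod p => Sing e p u) := ⟨_, rfl⟩
  obtain ⟨π, hπ⟩ : ∃ π : (Fin D → ZMod p) → (Fin D → ZMod p), π = fun u => Function.update u k₀ 0 := ⟨_, rfl⟩
  have hPF : ∀ u : Fin D → ZMod p, PF e p u = PF e p (π u) + C (algebraMap (ZMod p) (AlgebraicClosure (ZMod p)) (u k₀)) := by
    intro u
    unfold PF
    rw [add_assoc]
    congr 1
    rw [← add_sum_erase univ _ (mem_univ k₀), ← add_sum_erase univ (fun k => C (algebraMap (ZMod p) (AlgebraicClosure (ZMod p)) (π u k)) *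
      ∏ i, X i ^ ((e k).1 i : ℕ)) (mem_univ k₀)]
    have h1 : (∏ i, X i ^ ((e k₀).1 i : ℕ) : MvPolynomial (Fin N) (AlgebraicClosure (ZMod p))) = 1 := by
      apply prod_eq_one
      intro i _
      rw [hk0, pow_zero]
    have h2 : π u k₀ = 0 := by rw [hπ]; exact Function.update_self k₀ 0 u
    rw [h1, h2, map_zero, map_zero, zero_mul, zero_add, mul_one, add_comm]
    congr 1
    refine sum_congr rfl fun k hk => ?_
    have h3 : π u k = u k := by rw [hπ]; exact Function.update_of_ne (ne_of_mem_erase hk) 0 u
    rw [h3]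
  have hfib : ∀ w ∈ univ.filter (fun w : Fin D → ZMod p => w k₀ = 0), (B.filter (fun u => π u = w)).card ≤ (d - 1) ^ N := by
    intro w _
    -- choose a singular point
    have hch : ∀ u : Fin D → ZMod p, ∃ x : Fin N → AlgebraicClosure (ZMod p), Sing e p u →
        (eval x (PF e p u) = 0 ∧ ∀ i, eval x (pderiv i (PF e p u)) = 0) := by
      intro u
      by_cases hu : Sing e p u
      · obtain ⟨x, hx⟩ := hu
        exact ⟨x, fun _ => hx⟩
      · exact ⟨fun _ => 0, fun h => absurd h hu⟩
    choose x hx using hch
    have hmem : ∀ u ∈ B.filter (fun u => π u = w), eval (x u) (PF e p u) = 0 ∧ ∀ i, eval (x u) (pderiv i (PF e p u)) = 0 := by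
      intro u hu
      rw [mem_filter, hB, mem_filter] at hu
      exact hx u hu.1.2
    have hinj : Set.InjOn x (B.filter (fun u => π u = w) : Set (Fin D → ZMod p)) := by
      intro u hu u' hu' h
      have h1 := (hmem u hu).1
      have h2 := (hmem u' hu').1
      rw [mem_coe, mem_filter] at hu hu'
      rw [hPF u, hu.2, map_add, eval_C] at h1
      rw [hPF u', hu'.2, map_add, eval_C, ← h] at h2
      have h3 : algebraMap (ZMod p) (AlgebraicClosure (ZMod p)) (u k₀) = algebraMap (ZMod p) (AlgebraicClosure (ZMod p)) (u' k₀) := by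
        linear_combination h1 - h2
      have h4 := (algebraMap (ZMod p) (AlgebraicClosure (ZMod p))).injective h3
      have h5 : π u = π u' := hu.2.trans hu'.2.symm
      funext k
      by_cases hk : k = k₀
      · rw [hk, h4]
      · have h6 := congrFun h5 k
        rw [hπ] at h6
        simp only [Function.update_of_ne hk] at h6
        exact h6
    rw [← card_image_of_injOn hinj]
    refine crit_card d hd hdK (∑ k, C (algebraMap (ZMod p) (AlgebraicClosure (ZMod p)) (w k)) * ∏ i, X i ^ ((e k).1 i : ℕ))
      (low_deg e p (by omega) w) _ ?_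
    intro y hy i
    obtain ⟨u, hu, rfl⟩ := mem_image.1 hy
    have h1 := (hmem u hu).2 i
    rw [mem_filter] at hu
    rw [hPF u, hu.2, map_add, pderiv_C, add_zero] at h1
    exact h1
  have h1 : B.card ≤ (univ.filter (fun w : Fin D → ZMod p => w k₀ = 0)).card * (d - 1) ^ N := by
    rw [card_eq_sum_card_fiberwise (f := π) (t := univ.filter (fun w : Fin D → ZMod p => w k₀ = 0)) (fun u _ => by
      rw [mem_coe, mem_filter]
      exact ⟨mem_univ _, by rw [hπ]; exact Function.update_self k₀ 0 u⟩)]
    refine (sum_le_sum hfib).trans (le_of_eq ?_)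
    rw [sum_const, smul_eq_mul]
  have h2 : (univ.filter (fun w : Fin D → ZMod p => w k₀ = 0)).card * p = p ^ D := by
    have h3 := Pool.Agent.Y57.FD.Mom.mean_hom (Pi.evalAddMonoidHom (fun _ : Fin D => ZMod p) k₀) (fun z => ⟨fun _ => z, rfl⟩)
      (fun z => if z = 0 then 1 else 0)
    simp only [Pi.evalAddMonoidHom_apply, sum_boole, Fintype.card_pi_const, ZMod.card] at h3
    have h4 : ((univ.filter (fun z : ZMod p => z = 0)).card : ℝ) = 1 := by
      rw [filter_eq' univ (0 : ZMod p), if_pos (mem_univ _), card_singleton, Nat.cast_one]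
    rw [h4] at h3
    have hp0 : (p : ℝ) ≠ 0 := by exact_mod_cast hp.out.ne_zero
    push_cast at h3
    rw [div_eq_div_iff (by positivity) hp0, one_mul] at h3
    exact_mod_cast h3
  rw [← hB]
  calc B.card * p ≤ (univ.filter (fun w : Fin D → ZMod p => w k₀ = 0)).card * (d - 1) ^ N * p := Nat.mul_le_mul_right _ h1
    _ = (d - 1) ^ N * ((univ.filter (fun w : Fin D → ZMod p => w k₀ = 0)).card * p) := by ring
    _ = _ := by rw [h2]

end

end Pool.Agent.N842.HS
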