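import Pool.Agent.N842.HS.Rem
import Pool.Agent.N842.HS.Lin
import Pool.Agent.N842.HS.Ferm
import Pool.Agent.N842.HS.Sing

/-!
# The characteristic function of the traces
-/

set_option autoImplicit false

namespace Pool.Agent.N842.HS

open Finset MvPolynomial
open Pool.Agent.Y57.FD.Mom (normal)
open Pool.Agent.N842.ST (gfFin card_gf normal_nonneg)

attribute [local instance] gfFin

/-- the number of the points at infinity over the field with `p ^ k` elements -/
noncomputable def infp (N d p : ℕ) [Fact p.Prime] (k : ℕ) : ℝ :=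
  ((Nat.card {y : Fin N → GaloisField p k // ∑ i, y i ^ d = 0} : ℝ) - 1) / ((p : ℝ) ^ k - 1)

/-- the variance -/
def vark {K : ℕ} (τ : Fin K → ℝ) : ℝ := ∑ j : Fin K, ((j + 1 : ℕ) : ℝ) * τ j ^ 2

/-- the error term -/
noncomputable def errk {K : ℕ} (h : ℕ) (τ : Fin K → ℝ) : ℝ := 2 * (vark τ / 2) ^ h / Nat.factorial h

/-- the main term -/
noncomputable def mnk (N : ℕ) {K : ℕ} (τ : Fin K → ℝ) (v : ℝ) : ℝ :=
  Real.cos (v + (-1) ^ (N - 1) * ∑ j : Fin K, τ j * etak (j + 1)) * Real.exp (-vark τ / 2)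

lemma vark_nonneg {K : ℕ} (τ : Fin K → ℝ) : 0 ≤ vark τ := sum_nonneg fun j _ => by positivity

lemma mnk_le (N : ℕ) {K : ℕ} (τ : Fin K → ℝ) (v : ℝ) : |mnk N τ v| ≤ 1 := by
  unfold mnk
  rw [abs_mul, abs_of_nonneg (Real.exp_nonneg _)]
  have h1 := Real.abs_cos_le_one (v + (-1) ^ (N - 1) * ∑ j : Fin K, τ j * etak (j + 1))
  have h2 : Real.exp (-vark τ / 2) ≤ 1 := by
    rw [Real.exp_le_one_iff]
    have := vark_nonneg τ
    linarith
  calc |Real.cos (v + (-1) ^ (N - 1) * ∑ j : Fin K, τ j * etak (j + 1))| * Real.exp (-vark τ / 2) ≤ 1 * 1 :=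
        mul_le_mul h1 h2 (Real.exp_nonneg _) (by norm_num)
    _ = 1 := by norm_num

section
variable {N d D : ℕ} (e : Fin D ≃ Mon N d)

/-- the trace of the Frobenius of the field with `p ^ k` elements -/
noncomputable def trk (p : ℕ) [Fact p.Prime] (k : ℕ) (u : Fin D → ZMod p) : ℝ :=
  (-1) ^ (N - 1) * (((Nat.card {y : Fin N → GaloisField p k // aeval y (fpl p e u) = 0} : ℝ) + infp N d p k - ∑ i ∈ range N, ((p : ℝ) ^ k) ^ i) /
    (Real.sqrt p ^ k) ^ (N - 1))

open Classical in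
/-- the test function -/
noncomputable def Tk (p : ℕ) [Fact p.Prime] {K : ℕ} (τ : Fin K → ℝ) (v : ℝ) (u : Fin D → ZMod p) : ℝ :=
  if ¬ p ∣ d ∧ ¬ Sing e p u then Real.cos (∑ j : Fin K, τ j * trk e p (j + 1) u + v) else 0

lemma Tk_le (p : ℕ) [Fact p.Prime] {K : ℕ} (τ : Fin K → ℝ) (v : ℝ) (u : Fin D → ZMod p) : |Tk e p τ v u| ≤ 1 := by
  unfold Tk
  split_ifs
  · exact Real.abs_cos_le_one _
  · rw [abs_zero]
    norm_num

/-- the points at infinity -/
lemma inf_err (p : ℕ) [hp : Fact p.Prime] (hd : 0 < d) (hN : 2 ≤ N) (k : ℕ) (hk : k ≠ 0) :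
    |(infp N d p k - ∑ i ∈ range (N - 1), ((p : ℝ) ^ k) ^ i) / (Real.sqrt p ^ k) ^ (N - 1)| ≤ 2 * (d : ℝ) ^ N / Real.sqrt p := by
  classical
  have hp0 : (0 : ℝ) < p := by exact_mod_cast hp.out.pos
  have hs := sqp1 p
  have hs0 : 0 < Real.sqrt p := by linarith
  have h2 : Real.sqrt p ^ 2 = p := Real.sq_sqrt (Nat.cast_nonneg p)
  obtain ⟨t, ht⟩ : ∃ t : ℝ, t = Real.sqrt p ^ k := ⟨_, rfl⟩
  have htp : Real.sqrt p ≤ t := by rw [ht]; exact le_self_pow₀ hs hk
  have ht1 : 1 ≤ t := by linarith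
  have ht0 : 0 < t := by linarith
  have hpt : (p : ℝ) ^ k = t ^ 2 := by rw [ht, ← pow_mul, mul_comm, pow_mul, h2]
  have hq2 : 2 ≤ t ^ 2 := by
    rw [← hpt]
    have e1 : (2 : ℝ) ≤ p := by exact_mod_cast hp.out.two_le
    have e2 : (1 : ℝ) ≤ p := by linarith
    exact e1.trans (le_self_pow₀ e2 hk)
  have h3 := fermat (F := GaloisField p k) d hd N (by omega)
  have hcard : (Fintype.card (GaloisField p k) : ℝ) = t ^ 2 := by
    rw [card_gf p k hk, ← hpt]
    push_cast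
    rfl
  have hsqc := sqrt_card p k hk
  rw [hsqc, hcard, ← ht] at h3
  unfold infp
  rw [Nat.card_eq_fintype_card, Fintype.card_subtype, hpt, ← ht]
  obtain ⟨m, hm⟩ : ∃ m, N = m + 2 := ⟨N - 2, by omega⟩
  obtain ⟨n, hn⟩ : ∃ n : ℝ, n = ((univ.filter (fun x : Fin N → GaloisField p k => ∑ i, x i ^ d = 0)).card : ℝ) := ⟨_, rfl⟩
  rw [← hn] at h3 ⊢
  have h4 : (n - 1) / (t ^ 2 - 1) - ∑ i ∈ range (N - 1), (t ^ 2) ^ i = (n - (t ^ 2) ^ (N - 1)) / (t ^ 2 - 1) := by
    rw [geom_sum_eq (by linarith)]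
    rw [← sub_div]
    congr 1
    ring
  rw [h4, abs_div, abs_div, abs_of_pos (by positivity : 0 < t ^ (N - 1)), abs_of_pos (by linarith : (0 : ℝ) < t ^ 2 - 1)]
  have h5 : |n - (t ^ 2) ^ (N - 1)| / (t ^ 2 - 1) ≤ (d : ℝ) ^ N * t ^ N * (2 / t ^ 2) := by
    rw [div_le_iff₀ (by linarith)]
    refine h3.trans ?_
    have e1 : 1 ≤ 2 / t ^ 2 * (t ^ 2 - 1) := by
      rw [div_mul_eq_mul_div, le_div_iff₀ (by positivity)]
      linarith
    calc (d : ℝ) ^ N * t ^ N = (d : ℝ) ^ N * t ^ N * 1 := by ring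
      _ ≤ (d : ℝ) ^ N * t ^ N * (2 / t ^ 2 * (t ^ 2 - 1)) := mul_le_mul_of_nonneg_left e1 (by positivity)
      _ = _ := by ring
  calc |n - (t ^ 2) ^ (N - 1)| / (t ^ 2 - 1) / t ^ (N - 1) ≤ (d : ℝ) ^ N * t ^ N * (2 / t ^ 2) / t ^ (N - 1) :=
        div_le_div_of_nonneg_right h5 (by positivity)
    _ = 2 * (d : ℝ) ^ N / t := by
        rw [hm]
        have e1 : t ^ (m + 2) = t ^ (m + 1) * t := by ring
        have e2 : m + 2 - 1 = m + 1 := by omega
        rw [e2, e1]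
        field_simp
    _ ≤ 2 * (d : ℝ) ^ N / Real.sqrt p := div_le_div_of_nonneg_left (by positivity) hs0 htp

lemma trk_eq (p : ℕ) [hp : Fact p.Prime] (hN : 2 ≤ N) (k : ℕ) (hk : k ≠ 0) (u : Fin D → ZMod p) :
    trk e p k u = (-1) ^ (N - 1) * (Sk e p k u + (infp N d p k - ∑ i ∈ range (N - 1), ((p : ℝ) ^ k) ^ i) / (Real.sqrt p ^ k) ^ (N - 1)) := by
  unfold trk
  rw [Sk_count e p (by omega) k hk u]
  obtain ⟨m, hm⟩ : ∃ m, N = m + 1 := ⟨N - 1, by omega⟩
  congr 1
  rw [← add_div]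
  congr 1
  have h1 : range N = range (N - 1 + 1) := by congr 1; omega
  rw [h1, sum_range_succ]
  ring

/-- **the characteristic function of the traces** -/
theorem chr (hN : 2 ≤ N) (hd : 2 ≤ d) (h K : ℕ) (hh : 1 ≤ h) (hK : 2 * h * K ≤ d) (τ : Fin K → ℝ) (v : ℝ) :
    ∃ C : ℝ, 0 ≤ C ∧ ∀ (p : ℕ) [Fact p.Prime], |(∑ u : Fin D → ZMod p, Tk e p τ v u) / (p : ℝ) ^ D - mnk N τ v| ≤ errk h τ + C / Real.sqrt p := by
  classical
  have hd0 : 0 < d := by omega
  have hKd : K ≤ d := by nlinarith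
  -- the constants
  have hch1 : ∀ j : Fin K, ∃ C : ℝ, 0 ≤ C ∧ ∀ (p : ℕ) [Fact p.Prime],
      (∑ u : Fin D → ZMod p, |Sk e p (j + 1) u - (bk e p (j + 1) u + etak (j + 1))|) / (p : ℝ) ^ D ≤ C / Real.sqrt p :=
    fun j => rem e hN hd0 (j + 1) (by omega) (by have := j.2; omega)
  choose C1 hC10 hC1 using hch1
  obtain ⟨τ', hτ'⟩ : ∃ τ' : Fin K → ℝ, τ' = fun j => (-1) ^ (N - 1) * τ j := ⟨_, rfl⟩
  have hsgn : ((-1 : ℝ) ^ (N - 1)) ^ 2 = 1 := by
    rw [← pow_mul, mul_comm, pow_mul]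
    norm_num
  have hsgn2 : |(-1 : ℝ) ^ (N - 1)| = 1 := by simp
  have hvar : ∑ j : Fin K, ((j + 1 : ℕ) : ℝ) * τ' j ^ 2 = vark τ := by
    unfold vark
    refine sum_congr rfl fun j _ => ?_
    rw [hτ']
    simp only [mul_pow, hsgn, one_mul]
  have hch2 : ∀ r : ℕ, ∃ C : ℝ, 0 ≤ C ∧ (r ≤ 2 * h → ∀ (p : ℕ) [Fact p.Prime],
      |(∑ u : Fin D → ZMod p, (∑ j : Fin K, τ' j * bk e p (j + 1) u) ^ r) / (p : ℝ) ^ D - normal r * (vark τ) ^ (r / 2)| ≤ C / Real.sqrt p) := by
    intro r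
    by_cases hr : r ≤ 2 * h
    · obtain ⟨C, hC0, hC⟩ := lin_univ e hN hd0 τ' r (by
        calc K * r ≤ K * (2 * h) := Nat.mul_le_mul_left K hr
          _ = 2 * h * K := by ring
          _ ≤ d := hK)
      refine ⟨C, hC0, fun _ p _ => ?_⟩
      have := hC p
      rwa [hvar] at this
    · exact ⟨0, le_rfl, fun h' => absurd h' hr⟩
  choose C2 hC20 hC2 using hch2
  obtain ⟨σ, hσ⟩ : ∃ σ : ℝ, σ = Real.sqrt (vark τ) := ⟨_, rfl⟩
  have hσ0 : 0 ≤ σ := by rw [hσ]; exact Real.sqrt_nonneg _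
  have hσ2 : σ ^ 2 = vark τ := by rw [hσ]; exact Real.sq_sqrt (vark_nonneg τ)
  obtain ⟨v', hv'⟩ : ∃ v' : ℝ, v' = v + (-1) ^ (N - 1) * ∑ j : Fin K, τ j * etak (j + 1) := ⟨_, rfl⟩
  have hv'2 : v' = v + ∑ j : Fin K, τ' j * etak (j + 1) := by
    rw [hv', mul_sum, hτ']
    congr 1
    refine sum_congr rfl fun j _ => ?_
    ring
  -- the characteristic function of the linear combination
  have hmain : ∃ C : ℝ, 0 ≤ C ∧ ∀ (p : ℕ) [Fact p.Prime],
      |(∑ u : Fin D → ZMod p, Real.cos (∑ j : Fin K, τ' j * bk e p (j + 1) u + v')) / (p : ℝ) ^ D - mnk N τ v| ≤ C / Real.sqrt p + errk h τ := by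
    by_cases hσz : σ = 0
    · refine ⟨0, le_rfl, fun p hp => ?_⟩
      have hp0 : (0 : ℝ) < p := by exact_mod_cast hp.out.pos
      have hv0 : vark τ = 0 := by rw [← hσ2, hσz]; norm_num
      have hτ0 : ∀ j, τ j = 0 := by
        intro j
        have h1 := (sum_eq_zero_iff_of_nonneg (fun (j : Fin K) _ => by positivity : ∀ j ∈ (univ : Finset (Fin K)), 0 ≤ ((j + 1 : ℕ) : ℝ) * τ j ^ 2)).1 hv0 j (mem_univ j)
        have h2 : (((j + 1 : ℕ) : ℕ) : ℝ) ≠ 0 := by positivity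
        have h3 := (mul_eq_zero.1 h1).resolve_left h2
        exact pow_eq_zero_iff (by norm_num) |>.1 h3
      have h1 : ∀ u : Fin D → ZMod p, Real.cos (∑ j : Fin K, τ' j * bk e p (j + 1) u + v') = Real.cos v' := by
        intro u
        congr 1
        rw [hτ']
        simp [hτ0]
      have h2 : mnk N τ v = Real.cos v' := by
        unfold mnk
        rw [← hv', hv0]
        simp
      rw [sum_congr rfl (fun u _ => h1 u), h2, sum_const, card_univ, Fintype.card_fun, Fintype.card_fin, ZMod.card, nsmul_eq_mul]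
      have h3 : ((p ^ D : ℕ) : ℝ) * Real.cos v' / (p : ℝ) ^ D - Real.cos v' = 0 := by
        push_cast
        field_simp
        ring
      rw [h3, abs_zero, zero_div, zero_add]
      unfold errk
      have := vark_nonneg τ
      positivity
    · have hσp : 0 < σ := lt_of_le_of_ne hσ0 (Ne.symm hσz)
      obtain ⟨C3, hC3⟩ : ∃ C3 : ℝ, C3 = ∑ r ∈ range (2 * h + 1), C2 r / σ ^ r := ⟨_, rfl⟩
      have hC30 : 0 ≤ C3 := by
        rw [hC3]
        exact sum_nonneg fun r _ => div_nonneg (hC20 r) (by positivity)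
      have hC3r : ∀ r ≤ 2 * h, C2 r / σ ^ r ≤ C3 := by
        intro r hr
        rw [hC3]
        exact single_le_sum (f := fun r => C2 r / σ ^ r) (fun r _ => div_nonneg (hC20 r) (by positivity)) (mem_range.2 (by omega))
      refine ⟨(∑ r ∈ range (2 * h + 1), |σ| ^ r / (Nat.factorial r : ℝ)) * C3, mul_nonneg (sum_nonneg fun r _ => by positivity) hC30, fun p hp => ?_⟩
      have hp0 : (0 : ℝ) < p := by exact_mod_cast hp.out.pos
      have hs := sqp1 p
      have hs0 : 0 < Real.sqrt p := by linarith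
      have h1 := char_bound (U := Fin D → ZMod p) ((p : ℝ) ^ D) (by positivity) (by
        rw [Fintype.card_fun, Fintype.card_fin, ZMod.card]
        push_cast
        rfl) (fun u => (∑ j : Fin K, τ' j * bk e p (j + 1) u) / σ) h (C3 / Real.sqrt p) (by positivity) (by
          intro r hr
          have e1 := hC2 r hr p
          have e2 : normal r * (vark τ) ^ (r / 2) = normal r * σ ^ r := by
            rcases Nat.even_or_odd r with hr2 | hr2
            · obtain ⟨i, hi⟩ := hr2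
              have : r / 2 = i := by omega
              rw [this, ← hσ2, ← pow_mul, hi, ← two_mul]
            · rw [normal_odd r hr2]
              ring
          rw [e2] at e1
          have hσr : 0 < σ ^ r := by positivity
          have e3 : (∑ u : Fin D → ZMod p, ((∑ j : Fin K, τ' j * bk e p (j + 1) u) / σ) ^ r) / (p : ℝ) ^ D - normal r =
              ((∑ u : Fin D → ZMod p, (∑ j : Fin K, τ' j * bk e p (j + 1) u) ^ r) / (p : ℝ) ^ D - normal r * σ ^ r) / σ ^ r := by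
            simp only [div_pow]
            rw [← sum_div]
            field_simp
          rw [e3, abs_div, abs_of_pos hσr]
          calc |(∑ u : Fin D → ZMod p, (∑ j : Fin K, τ' j * bk e p (j + 1) u) ^ r) / (p : ℝ) ^ D - normal r * σ ^ r| / σ ^ r ≤
              (C2 r / Real.sqrt p) / σ ^ r := div_le_div_of_nonneg_right e1 hσr.le
            _ = (C2 r / σ ^ r) / Real.sqrt p := by ring
            _ ≤ C3 / Real.sqrt p := div_le_div_of_nonneg_right (hC3r r hr) hs0.le) σ v'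
      have h2 : mnk N τ v = Real.cos v' * Real.exp (-σ ^ 2 / 2) := by
        unfold mnk
        rw [← hv', hσ2]
      have h3 : errk h τ = 2 * (σ ^ 2 / 2) ^ h / Nat.factorial h := by
        unfold errk
        rw [hσ2]
      have h4 : ∀ u : Fin D → ZMod p, σ * ((∑ j : Fin K, τ' j * bk e p (j + 1) u) / σ) = ∑ j : Fin K, τ' j * bk e p (j + 1) u := by
        intro u
        field_simp
      simp only [h4] at h1
      rw [h2, h3]
      refine h1.trans (le_of_eq ?_)
      ring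
  obtain ⟨C4, hC40, hC4⟩ := hmain
  refine ⟨(d : ℝ) + (d - 1 : ℕ) ^ N + C4 + ∑ j : Fin K, |τ j| * (C1 j + 2 * (d : ℝ) ^ N), ?_, fun p hp => ?_⟩
  · have : 0 ≤ ∑ j : Fin K, |τ j| * (C1 j + 2 * (d : ℝ) ^ N) := sum_nonneg fun j _ => mul_nonneg (abs_nonneg _) (add_nonneg (hC10 j) (by positivity))
    positivity
  have hp0 : (0 : ℝ) < p := by exact_mod_cast hp.out.pos
  have hp1 : (1 : ℝ) ≤ p := by exact_mod_cast hp.out.one_lt.le
  have hs := sqp1 p
  have hs0 : 0 < Real.sqrt p := by linarith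
  have h2 : Real.sqrt p ^ 2 = p := Real.sq_sqrt (Nat.cast_nonneg p)
  have hpD : (0 : ℝ) < (p : ℝ) ^ D := by positivity
  have herr0 : 0 ≤ errk h τ := by
    unfold errk
    have := vark_nonneg τ
    positivity
  obtain ⟨S1, hS1⟩ : ∃ S1 : ℝ, S1 = ∑ j : Fin K, |τ j| * (C1 j + 2 * (d : ℝ) ^ N) := ⟨_, rfl⟩
  have hS10 : 0 ≤ S1 := by
    rw [hS1]
    exact sum_nonneg fun j _ => mul_nonneg (abs_nonneg _) (add_nonneg (hC10 j) (by positivity))
  rw [← hS1]
  have hsplit : ((d : ℝ) + (d - 1 : ℕ) ^ N + C4 + S1) / Real.sqrt p =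
      d / Real.sqrt p + (d - 1 : ℕ) ^ N / Real.sqrt p + C4 / Real.sqrt p + S1 / Real.sqrt p := by ring
  rw [hsplit]
  have hn1 : (0 : ℝ) ≤ (d : ℝ) / Real.sqrt p := by positivity
  have hn2 : (0 : ℝ) ≤ ((d - 1 : ℕ) : ℝ) ^ N / Real.sqrt p := by positivity
  have hn3 : (0 : ℝ) ≤ C4 / Real.sqrt p := by positivity
  have hn4 : (0 : ℝ) ≤ S1 / Real.sqrt p := by positivity
  by_cases hpd : p ∣ d
  · -- the finitely many primes which divide the degree
    have h1 : ∀ u : Fin D → ZMod p, Tk e p τ v u = 0 := by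
      intro u
      unfold Tk
      rw [if_neg (fun hcon => hcon.1 hpd)]
    rw [sum_congr rfl (fun u _ => h1 u), sum_const_zero, zero_div, zero_sub, abs_neg]
    have h3 := mnk_le N τ v
    have h4 : (1 : ℝ) ≤ d / Real.sqrt p := by
      rw [le_div_iff₀ hs0, one_mul]
      have e1 : Real.sqrt p ≤ p := by nlinarith
      have e2 : (p : ℝ) ≤ d := by exact_mod_cast Nat.le_of_dvd hd0 hpd
      linarith
    linarith
  · -- the smooth members
    obtain ⟨g, hg⟩ : ∃ g : (Fin D → ZMod p) → ℝ, g = fun u => Real.cos (∑ j : Fin K, τ' j * bk e p (j + 1) u + v') := ⟨_, rfl⟩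
    have hpt : ∀ u : Fin D → ZMod p, |Tk e p τ v u - g u| ≤ (if Sing e p u then 1 else 0) +
        ∑ j : Fin K, |τ j| * (|Sk e p (j + 1) u - (bk e p (j + 1) u + etak (j + 1))| + 2 * (d : ℝ) ^ N / Real.sqrt p) := by
      intro u
      have hnn : 0 ≤ ∑ j : Fin K, |τ j| * (|Sk e p (j + 1) u - (bk e p (j + 1) u + etak (j + 1))| + 2 * (d : ℝ) ^ N / Real.sqrt p) :=
        sum_nonneg fun j _ => by positivity
      unfold Tk
      by_cases hsing : Sing e p u
      · rw [if_neg (fun hcon => hcon.2 hsing), if_pos hsing, zero_sub, abs_neg]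
        have : |g u| ≤ 1 := by
          rw [hg]
          exact Real.abs_cos_le_one _
        linarith
      · rw [if_pos ⟨hpd, hsing⟩, if_neg hsing, zero_add, hg]
        show |Real.cos (∑ j : Fin K, τ j * trk e p (j + 1) u + v) - Real.cos (∑ j : Fin K, τ' j * bk e p (j + 1) u + v')| ≤ _
        refine (Real.abs_cos_sub_cos_le _ _).trans ?_
        have e1 : (∑ j : Fin K, τ j * trk e p (j + 1) u + v) - (∑ j : Fin K, τ' j * bk e p (j + 1) u + v') =
            ∑ j : Fin K, τ' j * ((Sk e p (j + 1) u - (bk e p (j + 1) u + etak (j + 1))) +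
              (infp N d p (j + 1) - ∑ i ∈ range (N - 1), ((p : ℝ) ^ ((j : ℕ) + 1)) ^ i) / (Real.sqrt p ^ ((j : ℕ) + 1)) ^ (N - 1)) := by
          rw [hv'2]
          have e2 : ∀ j : Fin K, τ j * trk e p (j + 1) u = τ' j * (Sk e p (j + 1) u +
              (infp N d p (j + 1) - ∑ i ∈ range (N - 1), ((p : ℝ) ^ ((j : ℕ) + 1)) ^ i) / (Real.sqrt p ^ ((j : ℕ) + 1)) ^ (N - 1)) := by
            intro j
            rw [trk_eq e p hN (j + 1) (by omega) u, hτ']
            ring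
          rw [sum_congr rfl (fun j _ => e2 j)]
          have e3 : ∀ j : Fin K, τ' j * ((Sk e p (j + 1) u - (bk e p (j + 1) u + etak (j + 1))) +
              (infp N d p (j + 1) - ∑ i ∈ range (N - 1), ((p : ℝ) ^ ((j : ℕ) + 1)) ^ i) / (Real.sqrt p ^ ((j : ℕ) + 1)) ^ (N - 1)) =
              τ' j * (Sk e p (j + 1) u + (infp N d p (j + 1) - ∑ i ∈ range (N - 1), ((p : ℝ) ^ ((j : ℕ) + 1)) ^ i) / (Real.sqrt p ^ ((j : ℕ) + 1)) ^ (N - 1)) -
                τ' j * bk e p (j + 1) u - τ' j * etak (j + 1) := by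
            intro j
            ring
          rw [sum_congr rfl (fun j _ => e3 j), sum_sub_distrib, sum_sub_distrib]
          ring
        rw [e1]
        refine (abs_sum_le_sum_abs _ _).trans (sum_le_sum fun j _ => ?_)
        rw [abs_mul]
        have e4 : |τ' j| = |τ j| := by
          rw [hτ', abs_mul, hsgn2, one_mul]
        rw [e4]
        apply mul_le_mul_of_nonneg_left _ (abs_nonneg _)
        refine (abs_add_le _ _).trans (add_le_add le_rfl ?_)
        exact inf_err p hd0 hN (j + 1) (by omega)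
    have h3 : |(∑ u : Fin D → ZMod p, Tk e p τ v u) / (p : ℝ) ^ D - (∑ u : Fin D → ZMod p, g u) / (p : ℝ) ^ D| ≤
        (d - 1 : ℕ) ^ N / Real.sqrt p + S1 / Real.sqrt p := by
      rw [← sub_div, ← sum_sub_distrib, abs_div, abs_of_pos hpD]
      have e1 : |∑ u : Fin D → ZMod p, (Tk e p τ v u - g u)| ≤ ((univ.filter (fun u : Fin D → ZMod p => Sing e p u)).card : ℝ) +
          ∑ j : Fin K, |τ j| * ((∑ u : Fin D → ZMod p, |Sk e p (j + 1) u - (bk e p (j + 1) u + etak (j + 1))|) +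
            (p : ℝ) ^ D * (2 * (d : ℝ) ^ N / Real.sqrt p)) := by
        refine (abs_sum_le_sum_abs _ _).trans ((sum_le_sum fun u _ => hpt u).trans (le_of_eq ?_))
        rw [sum_add_distrib, sum_boole, sum_comm]
        congr 1
        refine sum_congr rfl fun j _ => ?_
        rw [← mul_sum, sum_add_distrib, sum_const, card_univ, Fintype.card_fun, Fintype.card_fin, ZMod.card, nsmul_eq_mul]
        push_cast
        ring
      have e2 : ((univ.filter (fun u : Fin D → ZMod p => Sing e p u)).card : ℝ) / (p : ℝ) ^ D ≤ (d - 1 : ℕ) ^ N / Real.sqrt p := by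
        have e3 := sing_card e p hd hpd
        have e4 : ((univ.filter (fun u : Fin D → ZMod p => Sing e p u)).card : ℝ) * p ≤ ((d - 1 : ℕ) : ℝ) ^ N * (p : ℝ) ^ D := by exact_mod_cast e3
        rw [div_le_div_iff₀ hpD hs0]
        have e5 : Real.sqrt p ≤ p := by nlinarith
        calc ((univ.filter (fun u : Fin D → ZMod p => Sing e p u)).card : ℝ) * Real.sqrt p ≤
            ((univ.filter (fun u : Fin D → ZMod p => Sing e p u)).card : ℝ) * p := mul_le_mul_of_nonneg_left e5 (Nat.cast_nonneg _)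
          _ ≤ _ := e4
      have e6 : (∑ j : Fin K, |τ j| * ((∑ u : Fin D → ZMod p, |Sk e p (j + 1) u - (bk e p (j + 1) u + etak (j + 1))|) +
            (p : ℝ) ^ D * (2 * (d : ℝ) ^ N / Real.sqrt p))) / (p : ℝ) ^ D ≤ S1 / Real.sqrt p := by
        rw [hS1, sum_div, sum_div]
        refine sum_le_sum fun j _ => ?_
        have e7 := hC1 j p
        have e8 : |τ j| * ((∑ u : Fin D → ZMod p, |Sk e p (j + 1) u - (bk e p (j + 1) u + etak (j + 1))|) +
            (p : ℝ) ^ D * (2 * (d : ℝ) ^ N / Real.sqrt p)) / (p : ℝ) ^ D =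
            |τ j| * ((∑ u : Fin D → ZMod p, |Sk e p (j + 1) u - (bk e p (j + 1) u + etak (j + 1))|) / (p : ℝ) ^ D + 2 * (d : ℝ) ^ N / Real.sqrt p) := by
          field_simp
        rw [e8]
        calc |τ j| * ((∑ u : Fin D → ZMod p, |Sk e p (j + 1) u - (bk e p (j + 1) u + etak (j + 1))|) / (p : ℝ) ^ D + 2 * (d : ℝ) ^ N / Real.sqrt p) ≤
            |τ j| * (C1 j / Real.sqrt p + 2 * (d : ℝ) ^ N / Real.sqrt p) := mul_le_mul_of_nonneg_left (by linarith) (abs_nonneg _)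
          _ = _ := by ring
      calc |∑ u : Fin D → ZMod p, (Tk e p τ v u - g u)| / (p : ℝ) ^ D ≤
          (((univ.filter (fun u : Fin D → ZMod p => Sing e p u)).card : ℝ) +
          ∑ j : Fin K, |τ j| * ((∑ u : Fin D → ZMod p, |Sk e p (j + 1) u - (bk e p (j + 1) u + etak (j + 1))|) +
            (p : ℝ) ^ D * (2 * (d : ℝ) ^ N / Real.sqrt p))) / (p : ℝ) ^ D := div_le_div_of_nonneg_right e1 hpD.le
        _ ≤ _ := by
            rw [add_div]
            exact add_le_add e2 e6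
    have h5 := hC4 p
    have h6 := abs_add_le ((∑ u : Fin D → ZMod p, Tk e p τ v u) / (p : ℝ) ^ D - (∑ u : Fin D → ZMod p, g u) / (p : ℝ) ^ D)
      ((∑ u : Fin D → ZMod p, g u) / (p : ℝ) ^ D - mnk N τ v)
    rw [sub_add_sub_cancel] at h6
    rw [hg] at h6 h3
    linarith

end

end Pool.Agent.N842.HS
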