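import Pool.Agent.N842.ST.Pts

/-!
# The closed points of the affine space over the field with `p` elements
-/

set_option autoImplicit false

namespace Pool.Agent.N842.HS

open Finset MvPolynomial
open Pool.Agent.N842.ST (gfFin card_gf)

attribute [local instance] gfFin

section
variable (p : ℕ) [hp : Fact p.Prime] (N : ℕ)

/-- the ideal of the point `y` -/
noncomputable def kr (k : ℕ) (y : Fin N → GaloisField p k) : Ideal (MvPolynomial (Fin N) (ZMod p)) :=
  RingHom.ker (aeval y : MvPolynomial (Fin N) (ZMod p) →ₐ[ZMod p] GaloisField p k)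

lemma mem_kr (k : ℕ) (y : Fin N → GaloisField p k) (Q : MvPolynomial (Fin N) (ZMod p)) : Q ∈ kr p N k y ↔ aeval y Q = 0 := RingHom.mem_ker

open Classical in
/-- the closed points of degree `k` -/
noncomputable def CP (k : ℕ) : Finset (Ideal (MvPolynomial (Fin N) (ZMod p))) :=
  ((univ : Finset (Fin N → GaloisField p k)).filter (fun y =>
    Function.Surjective (aeval y : MvPolynomial (Fin N) (ZMod p) →ₐ[ZMod p] GaloisField p k))).image (kr p N k)

lemma mem_CP (k : ℕ) (P : Ideal (MvPolynomial (Fin N) (ZMod p))) : P ∈ CP p N k ↔ ∃ y : Fin N → GaloisField p k,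
    Function.Surjective (aeval y : MvPolynomial (Fin N) (ZMod p) →ₐ[ZMod p] GaloisField p k) ∧ kr p N k y = P := by
  classical
  unfold CP
  rw [mem_image]
  constructor
  · rintro ⟨y, hy, h⟩
    exact ⟨y, (mem_filter.1 hy).2, h⟩
  · rintro ⟨y, hy, h⟩
    exact ⟨y, mem_filter.2 ⟨mem_univ _, hy⟩, h⟩

open Classical in
/-- a point with the ideal `P` -/
noncomputable def rp (k : ℕ) (P : Ideal (MvPolynomial (Fin N) (ZMod p))) : Fin N → GaloisField p k :=
  if h : ∃ y : Fin N → GaloisField p k,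
    Function.Surjective (aeval y : MvPolynomial (Fin N) (ZMod p) →ₐ[ZMod p] GaloisField p k) ∧ kr p N k y = P then h.choose else 0

lemma rp_surj (k : ℕ) (P : Ideal (MvPolynomial (Fin N) (ZMod p))) (hP : P ∈ CP p N k) :
    Function.Surjective (aeval (rp p N k P) : MvPolynomial (Fin N) (ZMod p) →ₐ[ZMod p] GaloisField p k) := by
  have h := (mem_CP p N k P).1 hP
  unfold rp
  rw [dif_pos h]
  exact h.choose_spec.1

lemma kr_rp (k : ℕ) (P : Ideal (MvPolynomial (Fin N) (ZMod p))) (hP : P ∈ CP p N k) : kr p N k (rp p N k P) = P := by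
  have h := (mem_CP p N k P).1 hP
  unfold rp
  rw [dif_pos h]
  exact h.choose_spec.2

/-- the residue field -/
lemma card_quot (k : ℕ) (hk : k ≠ 0) (P : Ideal (MvPolynomial (Fin N) (ZMod p))) (hP : P ∈ CP p N k) :
    Nat.card (MvPolynomial (Fin N) (ZMod p) ⧸ P) = p ^ k := by
  obtain ⟨y, hy, rfl⟩ := (mem_CP p N k P).1 hP
  exact (Nat.card_congr (RingHom.quotientKerEquivOfSurjective (f := (aeval y : MvPolynomial (Fin N) (ZMod p) →ₐ[ZMod p] GaloisField p k).toRingHom) hy).toEquiv).trans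
    (GaloisField.card p k hk)

lemma deg_unique (k k' : ℕ) (hk : k ≠ 0) (hk' : k' ≠ 0) (P : Ideal (MvPolynomial (Fin N) (ZMod p))) (hP : P ∈ CP p N k) (hP' : P ∈ CP p N k') :
    k = k' := by
  have h1 := card_quot p N k hk P hP
  rw [card_quot p N k' hk' P hP'] at h1
  exact (Nat.pow_right_injective hp.out.two_le h1).symm

/-- the point is maximal -/
lemma CP_max (k : ℕ) (P : Ideal (MvPolynomial (Fin N) (ZMod p))) (hP : P ∈ CP p N k) : P.IsMaximal := by
  obtain ⟨y, hy, rfl⟩ := (mem_CP p N k P).1 hP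
  exact RingHom.ker_isMaximal_of_surjective (aeval y : MvPolynomial (Fin N) (ZMod p) →ₐ[ZMod p] GaloisField p k).toRingHom hy

/-- the degree of the point `y` -/
lemma exists_deg (k : ℕ) (hk : k ≠ 0) (y : Fin N → GaloisField p k) : ∃ d ∈ k.divisors, kr p N k y ∈ CP p N d := by
  obtain ⟨L, hL⟩ : ∃ L : IntermediateField (ZMod p) (GaloisField p k), L = IntermediateField.adjoin (ZMod p) (Set.range y) := ⟨_, rfl⟩
  obtain ⟨d, hd⟩ : ∃ d : ℕ, d = Module.finrank (ZMod p) L := ⟨_, rfl⟩
  have hdk : d ∣ k := by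
    have h1 := Module.finrank_mul_finrank (ZMod p) L (GaloisField p k)
    rw [GaloisField.finrank p hk] at h1
    rw [hd]
    exact ⟨_, h1.symm⟩
  have hcard : Nat.card L = p ^ d := by
    rw [Module.natCard_eq_pow_finrank (K := ZMod p), Nat.card_zmod, hd]
  have eqv : L ≃ₐ[ZMod p] GaloisField p d := GaloisField.algEquivGaloisField p d hcard
  have hyL : ∀ i, y i ∈ L := by
    intro i
    rw [hL]
    exact IntermediateField.subset_adjoin _ _ ⟨i, rfl⟩
  obtain ⟨z, hz⟩ : ∃ z : Fin N → L, z = fun i => ⟨y i, hyL i⟩ := ⟨_, rfl⟩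
  have hLv : ∀ Q : MvPolynomial (Fin N) (ZMod p), L.val (aeval z Q) = aeval y Q := by
    intro Q
    rw [comp_aeval_apply]
    congr 1
    rw [hz]
    rfl
  have hzs : Function.Surjective (aeval z : MvPolynomial (Fin N) (ZMod p) →ₐ[ZMod p] L) := by
    intro w
    have h1 : (w : GaloisField p k) ∈ (IntermediateField.adjoin (ZMod p) (Set.range y)).toSubalgebra := by
      rw [← hL]
      exact w.2
    rw [IntermediateField.adjoin_toSubalgebra] at h1
    rw [Algebra.adjoin_range_eq_range_aeval] at h1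
    obtain ⟨Q, hQ⟩ := h1
    refine ⟨Q, ?_⟩
    apply Subtype.ext
    exact (hLv Q).trans hQ
  refine ⟨d, Nat.mem_divisors.2 ⟨hdk, hk⟩, ?_⟩
  rw [mem_CP]
  have hcomp : ∀ Q : MvPolynomial (Fin N) (ZMod p), aeval (fun i => eqv (z i)) Q = eqv (aeval z Q) := by
    intro Q
    exact (comp_aeval_apply z (eqv : L →ₐ[ZMod p] GaloisField p d) Q).symm
  refine ⟨fun i => eqv (z i), ?_, ?_⟩
  · intro w
    obtain ⟨Q, hQ⟩ := hzs (eqv.symm w)
    refine ⟨Q, ?_⟩
    rw [hcomp, hQ, AlgEquiv.apply_symm_apply]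
  · ext Q
    rw [mem_kr, mem_kr, hcomp]
    constructor
    · intro h
      have h1 : aeval z Q = 0 := (map_eq_zero_iff eqv eqv.injective).1 h
      rw [← hLv, h1, map_zero]
    · intro h
      rw [← hLv] at h
      have h1 : aeval z Q = 0 := (map_eq_zero_iff L.val L.val.injective).1 h
      rw [h1, map_zero]

open Classical in
/-- the number of the points with the ideal `P` -/
lemma card_fib (k d : ℕ) (hk : k ≠ 0) (hd : d ∣ k) (P : Ideal (MvPolynomial (Fin N) (ZMod p))) (hP : P ∈ CP p N d) :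
    ((univ : Finset (Fin N → GaloisField p k)).filter (fun y => kr p N k y = P)).card = d := by
  have hd0 : d ≠ 0 := fun h => hk (by rw [h] at hd; exact Nat.eq_zero_of_zero_dvd hd)
  have h1 : Nat.card (GaloisField p d →ₐ[ZMod p] GaloisField p k) = d := by
    rw [FiniteField.natCard_algHom_of_finrank_dvd, GaloisField.finrank p hd0]
    rw [GaloisField.finrank p hd0, GaloisField.finrank p hk]
    exact hd
  have hs := rp_surj p N d P hP
  have hkr := kr_rp p N d P hP
  have h2 : Nat.card (GaloisField p d →ₐ[ZMod p] GaloisField p k) = Nat.card {y : Fin N → GaloisField p k // kr p N k y = P} := by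
    apply Nat.card_congr
    refine Equiv.ofBijective (fun φ => ⟨fun i => φ (rp p N d P i), ?_⟩) ⟨?_, ?_⟩
    · refine Eq.trans ?_ hkr
      ext Q
      rw [mem_kr, mem_kr, ← comp_aeval_apply]
      exact map_eq_zero_iff φ φ.injective
    · intro φ ψ h
      have h3 : ∀ i, φ (rp p N d P i) = ψ (rp p N d P i) := congrFun (Subtype.ext_iff.1 h)
      ext w
      obtain ⟨Q, rfl⟩ := hs w
      rw [comp_aeval_apply, comp_aeval_apply]
      congr 2
      funext i
      exact h3 i
    · rintro ⟨y, hy⟩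
      have h3 : ∀ a : MvPolynomial (Fin N) (ZMod p), a ∈ P → aeval y a = 0 := by
        intro a ha
        rw [← hy, mem_kr] at ha
        exact ha
      have h4 : RingHom.ker (aeval (rp p N d P) : MvPolynomial (Fin N) (ZMod p) →ₐ[ZMod p] GaloisField p d) = P := hkr
      have h5 : ∀ a : MvPolynomial (Fin N) (ZMod p), a ∈ RingHom.ker (aeval (rp p N d P) : MvPolynomial (Fin N) (ZMod p) →ₐ[ZMod p] GaloisField p d) →
          aeval y a = 0 := by
        intro a ha
        rw [h4] at ha
        exact h3 a ha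
      obtain ⟨φ, hφ⟩ : ∃ φ : GaloisField p d →ₐ[ZMod p] GaloisField p k, ∀ Q : MvPolynomial (Fin N) (ZMod p), φ (aeval (rp p N d P) Q) = aeval y Q := by
        refine ⟨(Ideal.Quotient.liftₐ (RingHom.ker (aeval (rp p N d P) : MvPolynomial (Fin N) (ZMod p) →ₐ[ZMod p] GaloisField p d)) (aeval y) h5).comp
          ((Ideal.quotientKerAlgEquivOfSurjective hs).symm : GaloisField p d →ₐ[ZMod p] _), fun Q => ?_⟩
        have h6 : (Ideal.quotientKerAlgEquivOfSurjective hs).symm (aeval (rp p N d P) Q) = Ideal.Quotient.mk _ Q := by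
          rw [AlgEquiv.symm_apply_eq]
          rfl
        show Ideal.Quotient.liftₐ (RingHom.ker (aeval (rp p N d P) : MvPolynomial (Fin N) (ZMod p) →ₐ[ZMod p] GaloisField p d)) (aeval y) h5
          ((Ideal.quotientKerAlgEquivOfSurjective hs).symm (aeval (rp p N d P) Q)) = _
        rw [h6]
        rfl
      refine ⟨φ, ?_⟩
      apply Subtype.ext
      funext i
      have h7 := hφ (X i)
      rw [aeval_X, aeval_X] at h7
      exact h7
  rw [← Fintype.card_subtype, ← Nat.card_eq_fintype_card, ← h2, h1]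

/-- **sums over the points as sums over the closed points** -/
theorem sum_pts (k : ℕ) (hk : k ≠ 0) (ψ : (Fin N → GaloisField p k) → ℝ) (Ψ : ℕ → Ideal (MvPolynomial (Fin N) (ZMod p)) → ℝ)
    (h : ∀ d ∈ k.divisors, ∀ P ∈ CP p N d, ∀ y : Fin N → GaloisField p k, kr p N k y = P → ψ y = Ψ d P) :
    ∑ y : Fin N → GaloisField p k, ψ y = ∑ d ∈ k.divisors, (d : ℝ) * ∑ P ∈ CP p N d, Ψ d P := by
  classical
  have hch : ∀ y : Fin N → GaloisField p k, ∃ d ∈ k.divisors, kr p N k y ∈ CP p N d := exists_deg p N k hk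
  choose dg hdg1 hdg2 using hch
  rw [← sum_fiberwise_of_maps_to (s := univ) (t := k.divisors) (g := dg) (fun y _ => hdg1 y)]
  refine sum_congr rfl fun d hd => ?_
  have hd' := (Nat.mem_divisors.1 hd).1
  have hd0 : d ≠ 0 := fun h => hk (by rw [h] at hd'; exact Nat.eq_zero_of_zero_dvd hd')
  rw [← sum_fiberwise_of_maps_to (t := CP p N d) (g := fun y : Fin N → GaloisField p k => kr p N k y) (by
    intro y hy
    rw [mem_filter] at hy
    rw [← hy.2]
    exact hdg2 y), mul_sum]
  refine sum_congr rfl fun P hP => ?_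
  rw [sum_congr rfl (g := fun _ => Ψ d P) (fun y hy => h d hd P hP y (mem_filter.1 hy).2), sum_const, nsmul_eq_mul]
  have e : (((univ : Finset (Fin N → GaloisField p k)).filter (fun y => dg y = d)).filter
      (fun y => kr p N k y = P)).card = d := by
    refine Eq.trans ?_ (card_fib p N k d hk hd' P hP)
    congr 1
    ext y
    simp only [mem_filter, mem_univ, true_and]
    constructor
    · exact fun h => h.2
    · intro h
      refine ⟨?_, h⟩
      have h1 := hdg2 y
      have h2 := (Nat.mem_divisors.1 (hdg1 y)).1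
      have h3 : dg y ≠ 0 := fun h => hk (by rw [h] at h2; exact Nat.eq_zero_of_zero_dvd h2)
      rw [h] at h1
      exact deg_unique p N (dg y) d h3 hd0 P h1 hP
  rw [e]

/-- the number of the closed points of degree `k` -/
theorem sum_cp (k : ℕ) (hk : k ≠ 0) : ∑ d ∈ k.divisors, (d : ℝ) * ((CP p N d).card : ℝ) = ((p : ℝ) ^ k) ^ N := by
  have h := sum_pts p N k hk (fun _ => 1) (fun _ _ => 1) (fun _ _ _ _ _ _ => rfl)
  simp only [sum_const, nsmul_eq_mul, mul_one, card_univ] at h
  rw [← h, Fintype.card_fun, Fintype.card_fin, card_gf p k hk]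
  push_cast
  rfl

lemma card_cp_le (k : ℕ) (hk : k ≠ 0) : (k : ℝ) * ((CP p N k).card : ℝ) ≤ ((p : ℝ) ^ k) ^ N := by
  rw [← sum_cp p N k hk]
  exact single_le_sum (f := fun d : ℕ => (d : ℝ) * ((CP p N d).card : ℝ)) (fun d _ => by positivity)
    (Nat.mem_divisors.2 ⟨dvd_rfl, hk⟩)

lemma card_cp_le' (k : ℕ) (hk : k ≠ 0) : ((CP p N k).card : ℝ) ≤ ((p : ℝ) ^ k) ^ N := by
  have h := card_cp_le p N k hk
  have h1 : (1 : ℝ) ≤ k := by exact_mod_cast Nat.one_le_iff_ne_zero.2 hk
  have h2 : ((CP p N k).card : ℝ) ≤ (k : ℝ) * ((CP p N k).card : ℝ) := le_mul_of_one_le_left (by positivity) h1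
  exact h2.trans h

/-- the number of the closed points of degree `d` -/
lemma card_cp_err (d : ℕ) (hd : d ≠ 0) :
    |(d : ℝ) * ((CP p N d).card : ℝ) - ((p : ℝ) ^ d) ^ N| ≤ d * (Real.sqrt p ^ d) ^ N := by
  have hs : (1 : ℝ) ≤ Real.sqrt p := by
    rw [Real.one_le_sqrt]
    exact_mod_cast hp.out.one_lt.le
  have hs2 : Real.sqrt p ^ 2 = p := Real.sq_sqrt (Nat.cast_nonneg p)
  have h1 := sum_cp p N d hd
  rw [← Nat.insert_self_properDivisors hd, sum_insert (by simp)] at h1
  have h2 : (d : ℝ) * ((CP p N d).card : ℝ) - ((p : ℝ) ^ d) ^ N = - ∑ e ∈ d.properDivisors, (e : ℝ) * ((CP p N e).card : ℝ) := by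
    linarith
  rw [h2, abs_neg, abs_of_nonneg (sum_nonneg fun e _ => by positivity)]
  have h3 : ∀ e ∈ d.properDivisors, (e : ℝ) * ((CP p N e).card : ℝ) ≤ (Real.sqrt p ^ d) ^ N := by
    intro e he
    rw [Nat.mem_properDivisors] at he
    have he0 : e ≠ 0 := fun h => hd (by rw [h] at he; exact Nat.eq_zero_of_zero_dvd he.1)
    refine (card_cp_le p N e he0).trans ?_
    apply pow_le_pow_left₀ (by positivity)
    have e1 : (p : ℝ) ^ e = Real.sqrt p ^ (2 * e) := by rw [pow_mul, hs2]
    rw [e1]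
    apply pow_le_pow_right₀ hs
    obtain ⟨c, hc⟩ := he.1
    have hc2 : 2 ≤ c := by
      by_contra hcon
      have : c ≤ 1 := by omega
      have : e * c ≤ e * 1 := Nat.mul_le_mul_left e this
      omega
    calc 2 * e = e * 2 := mul_comm _ _
      _ ≤ e * c := Nat.mul_le_mul_left e hc2
      _ = d := hc.symm
  refine (sum_le_sum h3).trans ?_
  rw [sum_const, nsmul_eq_mul]
  apply mul_le_mul_of_nonneg_right _ (by positivity)
  have h4 : d.properDivisors.card ≤ d := by
    calc d.properDivisors.card ≤ (Finset.Ico 1 d).card := by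
          apply card_le_card
          exact filter_subset _ _
      _ ≤ d := by rw [Nat.card_Ico]; omega
  exact_mod_cast h4

end

end Pool.Agent.N842.HS
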