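import Pool.Agent.N842.ST.Ind

/-!
# The values of the polynomials of degree less than `d` in `N` variables at `d` points
-/

set_option autoImplicit false

namespace Pool.Agent.N842.HS

open Finset MvPolynomial

/-- the exponents of the monomials of degree less than `d` in `N` variables -/
abbrev Mon (N d : ℕ) : Type := {α : Fin N → Fin d // ∑ i, (α i : ℕ) < d}

section
variable {F : Type} [Field F] {N d D : ℕ} (e : Fin D ≃ Mon N d)

/-- the value of the polynomial with the coefficients `u` -/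
def lowv (u : Fin D → F) (x : Fin N → F) : F := ∑ k, u k * ∏ i, x i ^ ((e k).1 i : ℕ)

/-- the exponent as a finitely supported function -/
noncomputable def expo (k : Fin D) : Fin N →₀ ℕ := Finsupp.equivFunOnFinite.symm (fun i => ((e k).1 i : ℕ))

lemma expo_apply (k : Fin D) (i : Fin N) : expo e k i = ((e k).1 i : ℕ) := rfl

lemma expo_inj : Function.Injective (expo e) := by
  intro k k' h
  apply e.injective
  apply Subtype.ext
  funext i
  apply Fin.ext
  have := DFunLike.congr_fun h i
  rwa [expo_apply, expo_apply] at this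

lemma expo_surj (α : Fin N →₀ ℕ) (h : ∑ i, α i < d) : ∃ k, expo e k = α := by
  have hα : ∀ i, α i < d := by
    intro i
    exact (single_le_sum (f := fun i => α i) (fun _ _ => Nat.zero_le _) (mem_univ i)).trans_lt h
  refine ⟨e.symm ⟨fun i => ⟨α i, hα i⟩, h⟩, ?_⟩
  ext i
  rw [expo_apply, Equiv.apply_symm_apply]

lemma repr (P : MvPolynomial (Fin N) F) (hP : P.totalDegree < d) : ∀ x : Fin N → F,
    eval x P = lowv e (fun k => P.coeff (expo e k)) x := by
  classical
  intro x
  rw [eval_eq']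
  unfold lowv
  have h1 : ∑ k, P.coeff (expo e k) * ∏ i, x i ^ ((e k).1 i : ℕ) = ∑ β ∈ univ.image (expo e), P.coeff β * ∏ i, x i ^ β i := by
    rw [sum_image (fun a _ b _ h => expo_inj e h)]
    rfl
  rw [h1]
  apply sum_subset
  · intro α hα
    have h2 := le_totalDegree hα
    rw [Finsupp.sum_fintype _ _ (fun _ => rfl)] at h2
    obtain ⟨k, hk⟩ := expo_surj e α (h2.trans_lt hP)
    rw [mem_image]
    exact ⟨k, mem_univ _, hk⟩
  · intro α _ hα
    rw [notMem_support_iff.1 hα, zero_mul]

/-- interpolation -/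
lemma interp [DecidableEq F] (s : Finset (Fin N → F)) (v : (Fin N → F) → F) (hs : s.card ≤ d) (hd : 0 < d) :
    ∃ P : MvPolynomial (Fin N) F, P.totalDegree < d ∧ ∀ x ∈ s, eval x P = v x := by
  classical
  have hne : ∀ x y : Fin N → F, ∃ i : Option (Fin N), x ≠ y → ∃ j, i = some j ∧ x j ≠ y j := by
    intro x y
    by_cases h : x = y
    · exact ⟨none, fun h' => absurd h h'⟩
    · obtain ⟨j, hj⟩ := Function.ne_iff.1 h
      exact ⟨some j, fun _ => ⟨j, rfl, hj⟩⟩
  choose io hio using hne
  obtain ⟨L, hL⟩ : ∃ L : (Fin N → F) → (Fin N → F) → MvPolynomial (Fin N) F, L = fun x y =>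
    match io x y with
    | none => 0
    | some j => C ((x j - y j)⁻¹) * (X j - C (y j)) := ⟨_, rfl⟩
  have hLd : ∀ x y, (L x y).totalDegree ≤ 1 := by
    intro x y
    rw [hL]
    show (match io x y with
    | none => 0
    | some j => C ((x j - y j)⁻¹) * (X j - C (y j)) : MvPolynomial (Fin N) F).totalDegree ≤ 1
    cases io x y with
    | none => simp
    | some j =>
      refine (totalDegree_mul _ _).trans ?_
      rw [totalDegree_C, zero_add]
      refine (totalDegree_sub _ _).trans ?_
      rw [totalDegree_C, totalDegree_X]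
      simp
  have hLx : ∀ x y, x ≠ y → eval x (L x y) = 1 := by
    intro x y hxy
    obtain ⟨j, hj1, hj2⟩ := hio x y hxy
    rw [hL]
    show eval x (match io x y with
    | none => 0
    | some j => C ((x j - y j)⁻¹) * (X j - C (y j)) : MvPolynomial (Fin N) F) = 1
    rw [hj1]
    simp only [map_mul, eval_C, map_sub, eval_X]
    exact inv_mul_cancel₀ (sub_ne_zero.2 hj2)
  have hLy : ∀ x y, x ≠ y → eval y (L x y) = 0 := by
    intro x y hxy
    obtain ⟨j, hj1, hj2⟩ := hio x y hxy
    rw [hL]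
    show eval y (match io x y with
    | none => 0
    | some j => C ((x j - y j)⁻¹) * (X j - C (y j)) : MvPolynomial (Fin N) F) = 0
    rw [hj1]
    simp only [map_mul, eval_C, map_sub, eval_X, sub_self, mul_zero]
  refine ⟨∑ x ∈ s, C (v x) * ∏ y ∈ s.erase x, L x y, ?_, ?_⟩
  · refine lt_of_le_of_lt (totalDegree_finsetSum_le (d := d - 1) fun x hx => ?_) (by omega)
    refine (totalDegree_mul _ _).trans ?_
    rw [totalDegree_C, zero_add]
    refine (totalDegree_finsetProd _ _).trans ?_
    refine (sum_le_sum fun y _ => hLd x y).trans ?_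
    rw [sum_const, smul_eq_mul, mul_one, card_erase_of_mem hx]
    omega
  · intro z hz
    rw [map_sum, sum_eq_single_of_mem z hz]
    · rw [map_mul, eval_C, map_prod, prod_eq_one, mul_one]
      intro y hy
      exact hLx z y (ne_of_mem_erase hy).symm
    · intro x hx hxz
      rw [map_mul, map_prod]
      have : z ∈ s.erase x := mem_erase.2 ⟨hxz.symm, hz⟩
      rw [prod_eq_zero this (hLy x z hxz), mul_zero]

/-- the values at the points of `s` -/
def evs (s : Finset (Fin N → F)) : (Fin D → F) →+ (s → F) where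
  toFun u x := lowv e u x
  map_zero' := by
    funext x
    simp [lowv]
  map_add' u v := by
    funext x
    simp [lowv, add_mul, sum_add_distrib]

theorem evs_surj (s : Finset (Fin N → F)) (hs : s.card ≤ d) (hd : 0 < d) : Function.Surjective (evs e s) := by
  classical
  intro v
  obtain ⟨P, hP, h⟩ := interp s (fun x => if hx : x ∈ s then v ⟨x, hx⟩ else 0) hs hd
  refine ⟨fun k => P.coeff (expo e k), ?_⟩
  funext x
  show lowv e _ x.1 = v x
  rw [← repr e P hP, h x x.2, dif_pos x.2]

end

section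
variable (p : ℕ) [hp : Fact p.Prime] {N d D : ℕ} (e : Fin D ≃ Mon N d)

/-- the value of the polynomial `∑ x_i ^ d + ...` with the coefficients `u` -/
def fv (u : Fin D → ZMod p) (x : Fin N → ZMod p) : ZMod p := ∑ i, x i ^ d + lowv e u x

/-- **the moments** of the sums over all points -/
theorem joint2 (ν : ZMod p → ℝ) (r : ℕ) (hr : r ≤ d) (hd : 0 < d) :
    (∑ u : Fin D → ZMod p, (∑ x : Fin N → ZMod p, ν (fv p e u x)) ^ r) / (p : ℝ) ^ D =
      Pool.Agent.N842.ST.Mg (ZMod p) ν r (p ^ N) := by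
  classical
  have hcard : (univ : Finset (Fin N → ZMod p)).card = p ^ N := by
    rw [card_univ, Fintype.card_fun, Fintype.card_fin, ZMod.card]
  rw [← hcard, ← Pool.Agent.N842.ST.Mg_eq ν r (univ : Finset (Fin N → ZMod p))]
  have hL : ∀ u : Fin D → ZMod p, (∑ x : Fin N → ZMod p, ν (fv p e u x)) ^ r =
      ∑ y : Fin r → (Fin N → ZMod p), ∏ i, ν (fv p e u (y i)) := by
    intro u
    exact Fintype.sum_pow _ _
  have hR : ∀ h : ↥(univ : Finset (Fin N → ZMod p)) → ZMod p, (∑ P, ν (h P)) ^ r =
      ∑ y : Fin r → (Fin N → ZMod p), ∏ i, ν (h ⟨y i, mem_univ _⟩) := by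
    intro h
    have e1 : ∑ P, ν (h P) = ∑ x : Fin N → ZMod p, ν (h ⟨x, mem_univ _⟩) :=
      Fintype.sum_equiv (Equiv.subtypeUnivEquiv (fun x => mem_univ x)) _ _ (fun P => rfl)
    rw [e1]
    exact Fintype.sum_pow _ _
  rw [sum_congr rfl (fun u _ => hL u), sum_congr rfl (fun h _ => hR h), sum_comm, sum_div, sum_comm, sum_div]
  refine sum_congr rfl fun y _ => ?_
  obtain ⟨s, hs⟩ : ∃ s : Finset (Fin N → ZMod p), s = univ.image y := ⟨_, rfl⟩
  have hmem : ∀ i, y i ∈ s := by
    intro i
    rw [hs]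
    exact mem_image_of_mem _ (mem_univ i)
  have hsc : s.card ≤ d := by
    rw [hs]
    refine card_image_le.trans ?_
    rw [card_univ, Fintype.card_fin]
    exact hr
  have h1 := Pool.Agent.Y57.FD.Mom.mean_hom (evs e s) (evs_surj e s hsc hd)
    (fun v => ∏ i, ν (∑ j, y i j ^ d + v ⟨y i, hmem i⟩))
  have h2 := Pool.Agent.Y57.FD.Mom.mean_hom (Pool.Agent.N842.ST.resF (E := ZMod p) s univ (subset_univ s))
    (Pool.Agent.N842.ST.resF_surj s univ (subset_univ s)) (fun v => ∏ i, ν (v ⟨y i, hmem i⟩))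
  have h3 : ∑ v : s → ZMod p, ∏ i, ν (∑ j, y i j ^ d + v ⟨y i, hmem i⟩) = ∑ v : s → ZMod p, ∏ i, ν (v ⟨y i, hmem i⟩) := by
    refine Fintype.sum_equiv (Equiv.addLeft (fun x : s => ∑ j, (x : Fin N → ZMod p) j ^ d)) _ _ ?_
    intro v
    rfl
  have c1 : (Fintype.card (Fin D → ZMod p) : ℝ) = (p : ℝ) ^ D := by
    rw [Fintype.card_pi_const, ZMod.card]
    push_cast
    rfl
  rw [c1] at h1
  refine Eq.trans h1 ?_
  rw [h3, ← h2]
  rfl

end

end Pool.Agent.N842.HS
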