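import Pool.Agent.N842.HS.Cp
import Pool.Agent.N842.HS.Eval

/-!
# The values of the polynomials of degree less than `d` at closed points of total degree at most `d`
-/

set_option autoImplicit false

namespace Pool.Agent.N842.HS

open Finset MvPolynomial
open Pool.Agent.N842.ST (gfFin card_gf)

attribute [local instance] gfFin

section
variable {K W : Type} [Field K] [CommRing W] [Algebra K W] [Module.Finite K W] {N : ℕ}

/-- the images of the polynomials of bounded degree -/
noncomputable def Vm (φ : MvPolynomial (Fin N) K →ₐ[K] W) (m : ℕ) : Submodule K W := (restrictTotalDegree (Fin N) K m).map φ.toLinearMap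

omit [Module.Finite K W] in
lemma mem_Vm (φ : MvPolynomial (Fin N) K →ₐ[K] W) (m : ℕ) (w : W) : w ∈ Vm φ m ↔ ∃ P : MvPolynomial (Fin N) K, P.totalDegree ≤ m ∧ φ P = w := by
  unfold Vm
  rw [Submodule.mem_map]
  simp only [mem_restrictTotalDegree]
  rfl

/-- **the polynomials of degree less than the dimension suffice** -/
theorem filt (φ : MvPolynomial (Fin N) K →ₐ[K] W) (hφ : Function.Surjective φ) (d : ℕ) (hd : 0 < d) (hW : Module.finrank K W ≤ d) (w : W) :
    ∃ P : MvPolynomial (Fin N) K, P.totalDegree < d ∧ φ P = w := by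
  have hmono : ∀ m, Vm φ m ≤ Vm φ (m + 1) := by
    intro m x hx
    rw [mem_Vm] at hx ⊢
    obtain ⟨P, hP, h⟩ := hx
    exact ⟨P, by omega, h⟩
  have hstop : ∀ m, Vm φ m = Vm φ (m + 1) → Vm φ m = ⊤ := by
    intro m hm
    rw [eq_top_iff]
    intro x hx
    obtain ⟨Q, rfl⟩ := hφ x
    clear hx
    induction Q using MvPolynomial.induction_on with
    | C a =>
      rw [mem_Vm]
      exact ⟨C a, by rw [totalDegree_C]; omega, rfl⟩
    | add P Q hP hQ =>
      rw [map_add]
      exact Submodule.add_mem _ hP hQ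
    | mul_X P i hP =>
      rw [mem_Vm] at hP
      obtain ⟨Q, hQ, h⟩ := hP
      rw [hm, mem_Vm]
      refine ⟨Q * X i, ?_, ?_⟩
      · refine (totalDegree_mul _ _).trans ?_
        rw [totalDegree_X]
        omega
      · rw [map_mul, map_mul, h]
  have hgrow : ∀ m, Vm φ m = ⊤ ∨ m + 1 ≤ Module.finrank K (Vm φ m) := by
    intro m
    induction m with
    | zero =>
      by_cases hn : (1 : W) = 0
      · left
        rw [eq_top_iff]
        intro x _
        have : x = 0 := by rw [← mul_one x, hn, mul_zero]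
        rw [this]
        exact Submodule.zero_mem _
      · right
        have h1 : (1 : W) ∈ Vm φ 0 := by
          rw [mem_Vm]
          exact ⟨1, by simp, map_one φ⟩
        have h2 : Nontrivial (Vm φ 0) := by
          refine ⟨⟨⟨1, h1⟩, 0, ?_⟩⟩
          intro h
          exact hn (Subtype.ext_iff.1 h)
        have := Module.finrank_pos (R := K) (M := Vm φ 0)
        omega
    | succ m ih =>
      rcases ih with h | h
      · left
        rw [eq_top_iff, ← h]
        exact hmono m
      · by_cases hm : Vm φ m = Vm φ (m + 1)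
        · left
          rw [← hm]
          exact hstop m hm
        · right
          have h1 : Vm φ m < Vm φ (m + 1) := lt_of_le_of_ne (hmono m) hm
          have h2 := Submodule.finrank_lt_finrank_of_lt h1
          omega
  have htop : Vm φ (d - 1) = ⊤ := by
    rcases hgrow (d - 1) with h | h
    · exact h
    · apply Submodule.eq_top_of_finrank_eq
      have := Submodule.finrank_le (Vm φ (d - 1))
      omega
  have h1 : w ∈ Vm φ (d - 1) := by
    rw [htop]
    exact Submodule.mem_top
  rw [mem_Vm] at h1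
  obtain ⟨P, hP, h⟩ := h1
  exact ⟨P, by omega, h⟩

end

section
variable (p : ℕ) [hp : Fact p.Prime] {N d D : ℕ} (e : Fin D ≃ Mon N d)

/-- the polynomial of degree less than `d` with the coefficients `u` -/
noncomputable def lowp (u : Fin D → ZMod p) : MvPolynomial (Fin N) (ZMod p) := ∑ k, monomial (expo e k) (u k)

/-- the polynomial `∑ X_i ^ d + ...` with the coefficients `u` -/
noncomputable def fpl (u : Fin D → ZMod p) : MvPolynomial (Fin N) (ZMod p) := ∑ i, X i ^ d + lowp p e u

lemma lowp_repr (P : MvPolynomial (Fin N) (ZMod p)) (hP : P.totalDegree < d) : lowp p e (fun k => P.coeff (expo e k)) = P := by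
  classical
  unfold lowp
  conv_rhs => rw [P.as_sum]
  have h1 : ∑ k, monomial (expo e k) (P.coeff (expo e k)) = ∑ β ∈ univ.image (expo e), monomial β (P.coeff β) := by
    rw [sum_image (fun a _ b _ h => expo_inj e h)]
  rw [h1]
  symm
  apply sum_subset
  · intro α hα
    have h2 := le_totalDegree hα
    rw [Finsupp.sum_fintype _ _ (fun _ => rfl)] at h2
    obtain ⟨k, hk⟩ := expo_surj e α (h2.trans_lt hP)
    rw [mem_image]
    exact ⟨k, mem_univ _, hk⟩
  · intro α _ hα
    rw [notMem_support_iff.1 hα, monomial_zero]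

/-- the values at the closed points in `s` -/
noncomputable def valk {n : ℕ} (s : Fin n → Finset (Ideal (MvPolynomial (Fin N) (ZMod p)))) :
    (Fin D → ZMod p) →+ ((j : Fin n) → (s j) → GaloisField p (j + 1)) where
  toFun u j P := aeval (rp p N (j + 1) P) (lowp p e u)
  map_zero' := by
    funext j P
    simp [lowp]
  map_add' u v := by
    funext j P
    simp [lowp, sum_add_distrib]

/-- the algebra homomorphism to the product of the residue fields -/
noncomputable def phi {n : ℕ} (s : Fin n → Finset (Ideal (MvPolynomial (Fin N) (ZMod p)))) :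
    MvPolynomial (Fin N) (ZMod p) →ₐ[ZMod p] ((i : Σ j : Fin n, s j) → GaloisField p (i.1 + 1)) :=
  AlgHom.pi (fun i => aeval (rp p N (i.1 + 1) i.2))

theorem phi_surj {n : ℕ} (s : Fin n → Finset (Ideal (MvPolynomial (Fin N) (ZMod p)))) (hs : ∀ j : Fin n, s j ⊆ CP p N (j + 1)) :
    Function.Surjective (phi p s) := by
  classical
  intro v
  have hcop : Pairwise (Function.onFun IsCoprime (fun i : (Σ j : Fin n, s j) => (i.2 : Ideal (MvPolynomial (Fin N) (ZMod p))))) := by
    intro i i' hii
    show IsCoprime (i.2 : Ideal (MvPolynomial (Fin N) (ZMod p))) (i'.2 : Ideal (MvPolynomial (Fin N) (ZMod p)))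
    have m1 := CP_max p N (i.1 + 1) _ (hs i.1 i.2.2)
    have m2 := CP_max p N (i'.1 + 1) _ (hs i'.1 i'.2.2)
    apply Ideal.isCoprime_of_isMaximal
    intro h1
    apply hii
    have h2 : i.1 = i'.1 := by
      have e1 := hs i.1 i.2.2
      rw [h1] at e1
      have e2 := deg_unique p N (i.1 + 1) (i'.1 + 1) (by omega) (by omega) _ e1 (hs i'.1 i'.2.2)
      exact Fin.ext (by omega)
    obtain ⟨j, P, hP⟩ := i
    obtain ⟨j', P', hP'⟩ := i'
    simp only at h1 h2
    subst h2
    subst h1
    rfl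
  have hx : ∀ i : (Σ j : Fin n, s j), ∃ h : MvPolynomial (Fin N) (ZMod p), aeval (rp p N (i.1 + 1) i.2) h = v i := by
    intro i
    exact rp_surj p N (i.1 + 1) _ (hs i.1 i.2.2) _
  choose x hx using hx
  obtain ⟨h, hh⟩ := Ideal.exists_forall_sub_mem_ideal hcop x
  refine ⟨h, ?_⟩
  funext i
  show aeval (rp p N (i.1 + 1) i.2) h = v i
  have h0 : ∀ Q : MvPolynomial (Fin N) (ZMod p), Q ∈ (i.2 : Ideal (MvPolynomial (Fin N) (ZMod p))) → aeval (rp p N (i.1 + 1) i.2) Q = 0 := by
    intro Q hQ
    rw [← mem_kr, kr_rp p N (i.1 + 1) _ (hs i.1 i.2.2)]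
    exact hQ
  have h1 := h0 _ (hh i)
  rw [map_sub, sub_eq_zero] at h1
  rw [h1, hx]

theorem valk_surj {n : ℕ} (s : Fin n → Finset (Ideal (MvPolynomial (Fin N) (ZMod p)))) (hs : ∀ j : Fin n, s j ⊆ CP p N (j + 1))
    (hd0 : 0 < d) (hd : ∑ j : Fin n, (j + 1 : ℕ) * (s j).card ≤ d) : Function.Surjective (valk p e s) := by
  classical
  intro v
  have hfin : Module.finrank (ZMod p) ((i : Σ j : Fin n, s j) → GaloisField p (i.1 + 1)) ≤ d := by
    rw [Module.finrank_pi_fintype, Fintype.sum_sigma]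
    refine le_trans (le_of_eq ?_) hd
    refine sum_congr rfl fun j _ => ?_
    rw [sum_congr rfl (g := fun _ => (j + 1 : ℕ)) (fun P _ => GaloisField.finrank p (by omega)), sum_const, card_univ, Fintype.card_coe,
      smul_eq_mul, mul_comm]
  obtain ⟨P, hP, h⟩ := filt (phi p s) (phi_surj p s hs) d hd0 hfin (fun i => v i.1 i.2)
  refine ⟨fun k => P.coeff (expo e k), ?_⟩
  funext j Q
  show aeval (rp p N (j + 1) Q) (lowp p e _) = v j Q
  rw [lowp_repr p e P hP]
  exact congrFun h ⟨j, Q⟩

/-- **independence** -/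
theorem indepk {n : ℕ} (s : Fin n → Finset (Ideal (MvPolynomial (Fin N) (ZMod p)))) (hs : ∀ j : Fin n, s j ⊆ CP p N (j + 1))
    (hd0 : 0 < d) (hd : ∑ j : Fin n, (j + 1 : ℕ) * (s j).card ≤ d) (F : (j : Fin n) → (s j → GaloisField p (j + 1)) → ℝ) :
    (∑ u : Fin D → ZMod p, ∏ j, F j (fun P => aeval (rp p N (j + 1) P) (fpl p e u))) / (p : ℝ) ^ D =
      ∏ j, (∑ v : s j → GaloisField p (j + 1), F j v) / (Fintype.card (s j → GaloisField p (j + 1)) : ℝ) := by
  classical
  have h1 := Pool.Agent.Y57.FD.Mom.mean_hom (valk p e s) (valk_surj p e s hs hd0 hd)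
    (fun v => ∏ j, F j (fun P => ∑ i, rp p N (j + 1) P i ^ d + v j P))
  have c1 : (Fintype.card (Fin D → ZMod p) : ℝ) = (p : ℝ) ^ D := by
    rw [Fintype.card_pi_const, ZMod.card]
    push_cast
    rfl
  rw [c1] at h1
  have h2 : ∀ u : Fin D → ZMod p, (∏ j, F j (fun P => aeval (rp p N (j + 1) P) (fpl p e u))) =
      (fun v : (j : Fin n) → (s j) → GaloisField p (j + 1) => ∏ j, F j (fun P => ∑ i, rp p N (j + 1) P i ^ d + v j P)) (valk p e s u) := by
    intro u
    refine prod_congr rfl fun j _ => ?_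
    congr 1
    funext P
    show aeval (rp p N (j + 1) P) (fpl p e u) = ∑ i, rp p N (j + 1) P i ^ d + aeval (rp p N (j + 1) P) (lowp p e u)
    unfold fpl
    rw [map_add, map_sum]
    simp only [map_pow, aeval_X]
  rw [sum_congr rfl (fun u _ => h2 u), h1, prod_div_distrib, Fintype.card_pi]
  push_cast
  congr 1
  have h3 := prod_univ_sum (fun j : Fin n => (univ : Finset (s j → GaloisField p (j + 1))))
    (fun j v => F j (fun P => ∑ i, rp p N (j + 1) P i ^ d + v P))
  rw [Fintype.piFinset_univ] at h3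
  rw [← h3]
  refine prod_congr rfl fun j _ => ?_
  refine Fintype.sum_equiv (Equiv.addLeft (fun P : s j => ∑ i, rp p N (j + 1) P i ^ d)) _ _ ?_
  intro v
  rfl

/-- the sum over the closed points of degree `k` -/
noncomputable def Gk (k : ℕ) (ν : GaloisField p k → ℝ) (u : Fin D → ZMod p) : ℝ := ∑ P ∈ CP p N k, ν (aeval (rp p N k P) (fpl p e u))

/-- **the joint moments of the sums over the closed points** -/
theorem jointk {n : ℕ} (ν : (j : Fin n) → GaloisField p (j + 1) → ℝ) (r : Fin n → ℕ) (hd0 : 0 < d) (hd : ∑ j : Fin n, (j + 1 : ℕ) * r j ≤ d) :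
    (∑ u : Fin D → ZMod p, ∏ j : Fin n, Gk p e (j + 1) (ν j) u ^ r j) / (p : ℝ) ^ D =
      ∏ j : Fin n, Pool.Agent.N842.ST.Mg (GaloisField p (j + 1)) (ν j) (r j) (CP p N (j + 1)).card := by
  classical
  -- both sides as sums over the tuples of closed points
  have h1 : ∀ u : Fin D → ZMod p, ∏ j : Fin n, Gk p e (j + 1) (ν j) u ^ r j =
      ∑ x : (j : Fin n) → (Fin (r j) → CP p N (j + 1)), ∏ j : Fin n, ∏ i, ν j (aeval (rp p N (j + 1) (x j i)) (fpl p e u)) := by
    intro u
    have e1 : ∀ j : Fin n, Gk p e (j + 1) (ν j) u ^ r j =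
        ∑ y : Fin (r j) → CP p N (j + 1), ∏ i, ν j (aeval (rp p N (j + 1) (y i)) (fpl p e u)) := by
      intro j
      unfold Gk
      rw [← sum_coe_sort (CP p N (j + 1)) (fun P => ν j (aeval (rp p N (j + 1) P) (fpl p e u))), Fintype.sum_pow]
    rw [prod_congr rfl (fun j _ => e1 j)]
    have e2 := prod_univ_sum (fun j : Fin n => (univ : Finset (Fin (r j) → CP p N (j + 1))))
      (fun j y => ∏ i, ν j (aeval (rp p N (j + 1) (y i)) (fpl p e u)))
    rw [Fintype.piFinset_univ] at e2
    exact e2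
  have h2 : ∀ j : Fin n, Pool.Agent.N842.ST.Mg (GaloisField p (j + 1)) (ν j) (r j) (CP p N (j + 1)).card =
      ∑ y : Fin (r j) → CP p N (j + 1), (∑ h : CP p N (j + 1) → GaloisField p (j + 1), ∏ i, ν j (h (y i))) /
        (Fintype.card (CP p N (j + 1) → GaloisField p (j + 1)) : ℝ) := by
    intro j
    rw [← Pool.Agent.N842.ST.Mg_eq, ← sum_div, sum_comm]
    congr 1
    refine sum_congr rfl fun h _ => ?_
    exact Fintype.sum_pow _ _
  have h3 : ∏ j : Fin n, Pool.Agent.N842.ST.Mg (GaloisField p (j + 1)) (ν j) (r j) (CP p N (j + 1)).card =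
      ∑ x : (j : Fin n) → (Fin (r j) → CP p N (j + 1)), ∏ j : Fin n, (∑ h : CP p N (j + 1) → GaloisField p (j + 1), ∏ i, ν j (h (x j i))) /
        (Fintype.card (CP p N (j + 1) → GaloisField p (j + 1)) : ℝ) := by
    rw [prod_congr rfl (fun j _ => h2 j)]
    have e2 := prod_univ_sum (fun j : Fin n => (univ : Finset (Fin (r j) → CP p N (j + 1))))
      (fun j y => (∑ h : CP p N (j + 1) → GaloisField p (j + 1), ∏ i, ν j (h (y i))) /
        (Fintype.card (CP p N (j + 1) → GaloisField p (j + 1)) : ℝ))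
    rw [Fintype.piFinset_univ] at e2
    exact e2
  rw [sum_congr rfl (fun u _ => h1 u), sum_comm, sum_div, h3]
  refine sum_congr rfl fun x _ => ?_
  -- the points which occur
  obtain ⟨s, hs⟩ : ∃ s : Fin n → Finset (Ideal (MvPolynomial (Fin N) (ZMod p))), s = fun j => univ.image (fun i => (x j i : Ideal (MvPolynomial (Fin N) (ZMod p)))) :=
    ⟨_, rfl⟩
  have hmem : ∀ j i, (x j i : Ideal (MvPolynomial (Fin N) (ZMod p))) ∈ s j := by
    intro j i
    rw [hs]
    exact mem_image_of_mem _ (mem_univ i)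
  have hsub : ∀ j : Fin n, s j ⊆ CP p N (j + 1) := by
    intro j P hP
    rw [hs] at hP
    obtain ⟨i, _, rfl⟩ := mem_image.1 hP
    exact (x j i).2
  have hc : ∀ j, (s j).card ≤ r j := by
    intro j
    rw [hs]
    refine card_image_le.trans ?_
    rw [card_univ, Fintype.card_fin]
  have hD' : ∑ j : Fin n, (j + 1 : ℕ) * (s j).card ≤ d :=
    (sum_le_sum fun j _ => Nat.mul_le_mul_left _ (hc j)).trans hd
  have h4 := indepk p e s hsub hd0 hD' (fun j v => ∏ i, ν j (v ⟨x j i, hmem j i⟩))
  refine Eq.trans h4 (prod_congr rfl fun j _ => ?_)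
  have h5 := Pool.Agent.Y57.FD.Mom.mean_hom (Pool.Agent.N842.ST.resF (E := GaloisField p (j + 1)) (s j) (CP p N (j + 1)) (hsub j))
    (Pool.Agent.N842.ST.resF_surj _ _ (hsub j)) (fun v => ∏ i, ν j (v ⟨x j i, hmem j i⟩))
  exact h5.symm

end

end Pool.Agent.N842.HS
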