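import Pool.Agent.N842.ST.Grow

/-!
# The moments of the sums of independent values of a function with small mean and growing moments
-/

set_option autoImplicit false

namespace Pool.Agent.N842.HS

open Finset
open Pool.Agent.Y57.FD.Mom (normal pow_err choose_dfac)
open Pool.Agent.N842.ST (mn mn_odd mn_even mn_step normal_zero normal_nonneg)

/-- the moments are asymptotically the moments of a normal variable -/
theorem grow2 (L : ℝ) (hL : 1 ≤ L) (m : ℕ) : ∃ C : ℝ, 0 ≤ C ∧ ∀ s : ℝ, 1 ≤ s → ∀ u : ℝ, 1 ≤ u → u ≤ s → ∀ κ : ℝ, 0 ≤ κ → κ ≤ L →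
    ∀ (A : ℕ → ℕ → ℝ) (e : ℕ → ℝ), (∀ N, A 0 N = 1) → (∀ m, 1 ≤ m → A m 0 = 0) →
    (∀ m N, A m (N + 1) = ∑ j ∈ range (m + 1), (m.choose j : ℝ) * e j * A (m - j) N) →
    e 0 = 1 → e 1 = 0 → e 2 = κ → (∀ j, |e (j + 2)| ≤ L ^ (j + 2) * u ^ j) →
    ∀ N : ℕ, (N : ℝ) ≤ s ^ 2 → |A m N - mn m κ N| ≤ C * (s ^ m * (u / s)) := by
  induction m using Nat.strong_induction_on with
  | _ m ih =>
    have hL0 : 0 ≤ L := by linarith
    rcases (by omega : m = 0 ∨ m = 1 ∨ 2 ≤ m) with h0 | h1 | h2
    · refine ⟨0, le_rfl, fun s hs u hu hus κ hκ0 hκ A e hA0 _ _ _ _ _ _ N _ => ?_⟩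
      rw [h0, hA0]
      unfold mn
      rw [normal_zero]
      simp
    · refine ⟨0, le_rfl, fun s hs u hu hus κ hκ0 hκ A e hA0 hA00 hrec he0 he1 _ _ N _ => ?_⟩
      have h2 : ∀ N, A 1 N = 0 := by
        intro N
        induction N with
        | zero => exact hA00 1 le_rfl
        | succ N ihN =>
          rw [hrec, sum_range_succ, sum_range_succ, range_zero, sum_empty, he1, he0]
          simp [ihN]
      rw [h1, h2, mn_odd 1 (by decide)]
      simp
    · obtain ⟨m, rfl⟩ : ∃ j, m = j + 2 := ⟨m - 2, by omega⟩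
      have hch : ∀ j : ℕ, ∃ C : ℝ, 0 ≤ C ∧ (j < m + 2 → ∀ s : ℝ, 1 ≤ s → ∀ u : ℝ, 1 ≤ u → u ≤ s → ∀ κ : ℝ, 0 ≤ κ → κ ≤ L →
          ∀ (A : ℕ → ℕ → ℝ) (e : ℕ → ℝ), (∀ N, A 0 N = 1) → (∀ m, 1 ≤ m → A m 0 = 0) →
          (∀ m N, A m (N + 1) = ∑ j ∈ range (m + 1), (m.choose j : ℝ) * e j * A (m - j) N) →
          e 0 = 1 → e 1 = 0 → e 2 = κ → (∀ j, |e (j + 2)| ≤ L ^ (j + 2) * u ^ j) →
          ∀ N : ℕ, (N : ℝ) ≤ s ^ 2 → |A j N - mn j κ N| ≤ C * (s ^ j * (u / s))) := by
        intro j
        by_cases hj : j < m + 2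
        · obtain ⟨C, hC, h⟩ := ih j hj
          exact ⟨C, hC, fun _ => h⟩
        · exact ⟨0, le_rfl, fun h => absurd h hj⟩
      choose C hC0 hC using hch
      obtain ⟨B, hB0, hB⟩ := mn_step m L hL0
      obtain ⟨D, hD⟩ : ∃ D : ℕ → ℝ, D = fun j => normal j * L ^ (j / 2) + C j := ⟨_, rfl⟩
      have hD0 : ∀ j, 0 ≤ D j := by
        intro j
        rw [hD]
        have := hC0 j
        have := normal_nonneg j
        positivity
      obtain ⟨E, hE⟩ : ∃ E : ℝ, E = ∑ i ∈ range m, ((m + 2).choose (i + 3) : ℝ) * L ^ (i + 3) * D (m + 2 - (i + 3)) +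
        ((m + 2).choose 2 : ℝ) * L * C m + B := ⟨_, rfl⟩
      have hS0 : 0 ≤ ∑ i ∈ range m, ((m + 2).choose (i + 3) : ℝ) * L ^ (i + 3) * D (m + 2 - (i + 3)) :=
        sum_nonneg fun i _ => mul_nonneg (by positivity) (hD0 _)
      have hE0 : 0 ≤ E := by
        rw [hE]
        have h1 := hC0 m
        have h2 := hD0 m
        positivity
      refine ⟨E, hE0, fun s hs u hu hus κ hκ0 hκ A e hA0 hA00 hrec he0 he1 he2 heb => ?_⟩
      have hs0 : 0 < s := by linarith
      have hu0 : 0 < u := by linarith
      have hs1 : 1 ≤ s ^ 2 := by nlinarith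
      have hus1 : u / s ≤ 1 := (div_le_one hs0).2 hus
      have hus0 : 0 < u / s := by positivity
      have hAb : ∀ j, j < m + 2 → ∀ N : ℕ, (N : ℝ) ≤ s ^ 2 → |A j N| ≤ D j * s ^ j := by
        intro j hj N hN
        have h1 := hC j hj s hs u hu hus κ hκ0 hκ A e hA0 hA00 hrec he0 he1 he2 heb N hN
        have h2 : |mn j κ N| ≤ normal j * L ^ (j / 2) * s ^ j := by
          have hn := normal_nonneg j
          unfold mn
          rw [abs_of_nonneg (by positivity), mul_assoc]
          apply mul_le_mul_of_nonneg_left _ hn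
          calc (κ * (N : ℝ)) ^ (j / 2) ≤ (L * s ^ 2) ^ (j / 2) := by
                apply pow_le_pow_left₀ (by positivity)
                exact mul_le_mul hκ hN (by positivity) hL0
            _ = L ^ (j / 2) * s ^ (2 * (j / 2)) := by rw [mul_pow, ← pow_mul]
            _ ≤ L ^ (j / 2) * s ^ j := by
                apply mul_le_mul_of_nonneg_left _ (by positivity)
                exact pow_le_pow_right₀ hs (by omega)
        have h3 : C j * (s ^ j * (u / s)) ≤ C j * s ^ j := by
          apply mul_le_mul_of_nonneg_left _ (hC0 j)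
          exact mul_le_of_le_one_right (by positivity) hus1
        have h4 : |A j N| ≤ |A j N - mn j κ N| + |mn j κ N| := by
          have := abs_add_le (A j N - mn j κ N) (mn j κ N)
          rwa [sub_add_cancel] at this
        rw [hD]
        show |A j N| ≤ (normal j * L ^ (j / 2) + C j) * s ^ j
        rw [add_mul]
        linarith
      obtain ⟨T, hT⟩ : ∃ T : ℝ, T = s ^ m * (u / s) := ⟨_, rfl⟩
      have hT0 : 0 ≤ T := by rw [hT]; positivity
      -- the increments
      have hinc : ∀ N : ℕ, (N : ℝ) ≤ s ^ 2 → |A (m + 2) (N + 1) - A (m + 2) N - (mn (m + 2) κ (N + 1) - mn (m + 2) κ N)| ≤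
          E * T := by
        intro N hN
        have h1 : A (m + 2) (N + 1) - A (m + 2) N - (mn (m + 2) κ (N + 1) - mn (m + 2) κ N) =
            ∑ i ∈ range m, ((m + 2).choose (i + 3) : ℝ) * e (i + 3) * A (m + 2 - (i + 3)) N +
            ((m + 2).choose 2 : ℝ) * κ * (A m N - mn m κ N) +
            (((m + 2).choose 2 : ℝ) * κ * mn m κ N - (mn (m + 2) κ (N + 1) - mn (m + 2) κ N)) := by
          rw [hrec, sum_range_succ', sum_range_succ', sum_range_succ']
          simp only [zero_add, Nat.choose_zero_right, Nat.cast_one, he0, he1, he2, mul_zero, zero_mul, add_zero, Nat.sub_zero, one_mul,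
            Nat.reduceAdd, Nat.add_sub_cancel]
          ring
        have h2 : |∑ i ∈ range m, ((m + 2).choose (i + 3) : ℝ) * e (i + 3) * A (m + 2 - (i + 3)) N| ≤
            (∑ i ∈ range m, ((m + 2).choose (i + 3) : ℝ) * L ^ (i + 3) * D (m + 2 - (i + 3))) * T := by
          rw [sum_mul]
          refine (abs_sum_le_sum_abs _ _).trans (sum_le_sum fun i hi => ?_)
          rw [mem_range] at hi
          rw [abs_mul, abs_mul, Nat.abs_cast]
          have e1 := heb (i + 1)
          have e2 := hAb (m + 2 - (i + 3)) (by omega) N hN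
          have e3 : u ^ (i + 1) * s ^ (m + 2 - (i + 3)) ≤ T := by
            obtain ⟨j, rfl⟩ : ∃ j, m = i + 1 + j := ⟨m - (i + 1), by omega⟩
            have e4 : i + 1 + j + 2 - (i + 3) = j := by omega
            rw [e4, hT]
            have e5 : u ^ (i + 1) * s ^ j = s ^ (i + 1 + j) * (u / s) ^ (i + 1) := by
              rw [div_pow, pow_add]
              field_simp
              ring
            rw [e5]
            apply mul_le_mul_of_nonneg_left _ (by positivity)
            exact pow_le_of_le_one hus0.le hus1 (by omega)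
          calc ((m + 2).choose (i + 3) : ℝ) * |e (i + 3)| * |A (m + 2 - (i + 3)) N| ≤
              ((m + 2).choose (i + 3) : ℝ) * (L ^ (i + 3) * u ^ (i + 1)) * (D (m + 2 - (i + 3)) * s ^ (m + 2 - (i + 3))) := by
                apply mul_le_mul _ e2 (abs_nonneg _) (by positivity)
                exact mul_le_mul_of_nonneg_left e1 (by positivity)
            _ = (((m + 2).choose (i + 3) : ℝ) * L ^ (i + 3) * D (m + 2 - (i + 3))) * (u ^ (i + 1) * s ^ (m + 2 - (i + 3))) := by ring
            _ ≤ _ := by
                apply mul_le_mul_of_nonneg_left e3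
                exact mul_nonneg (by positivity) (hD0 _)
        have h3 : |((m + 2).choose 2 : ℝ) * κ * (A m N - mn m κ N)| ≤ ((m + 2).choose 2 : ℝ) * L * C m * T := by
          rw [abs_mul, abs_of_nonneg (by positivity : (0 : ℝ) ≤ ((m + 2).choose 2 : ℝ) * κ), mul_assoc (((m + 2).choose 2 : ℝ) * L)]
          apply mul_le_mul
          · exact mul_le_mul_of_nonneg_left hκ (by positivity)
          · rw [hT]
            exact hC m (by omega) s hs u hu hus κ hκ0 hκ A e hA0 hA00 hrec he0 he1 he2 heb N hN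
          · exact abs_nonneg _
          · positivity
        have h5 : |((m + 2).choose 2 : ℝ) * κ * mn m κ N - (mn (m + 2) κ (N + 1) - mn (m + 2) κ N)| ≤ B * T := by
          refine (hB s hs κ hκ0 hκ N (Nat.cast_nonneg N) hN).trans ?_
          apply mul_le_mul_of_nonneg_left _ hB0
          rw [hT]
          have e1 : s ^ (m + 2) / s ^ 4 = s ^ m * (1 / s ^ 2) := by
            rw [pow_add]
            field_simp
          rw [e1]
          apply mul_le_mul_of_nonneg_left _ (by positivity)
          rw [div_le_div_iff₀ (by positivity) hs0]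
          nlinarith
        rw [h1, hE]
        refine (abs_add_le _ _).trans ?_
        refine (add_le_add (abs_add_le _ _) le_rfl).trans ?_
        rw [add_mul, add_mul]
        linarith
      -- sum up
      have hsum : ∀ N : ℕ, (N : ℝ) ≤ s ^ 2 → |A (m + 2) N - mn (m + 2) κ N| ≤ N * (E * T) := by
        intro N
        induction N with
        | zero =>
          intro _
          rw [hA00 _ (by omega)]
          unfold mn
          rw [Nat.cast_zero, mul_zero, zero_pow (by omega)]
          simp
        | succ N ihN =>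
          intro hN
          push_cast at hN ⊢
          have h1 := ihN (by linarith)
          have h2 := hinc N (by linarith)
          have h3 : A (m + 2) (N + 1) - mn (m + 2) κ (N + 1) =
              (A (m + 2) N - mn (m + 2) κ N) + (A (m + 2) (N + 1) - A (m + 2) N - (mn (m + 2) κ (N + 1) - mn (m + 2) κ N)) := by ring
          rw [h3]
          refine (abs_add_le _ _).trans ((add_le_add h1 h2).trans (le_of_eq ?_))
          ring
      intro N hN
      refine (hsum N hN).trans ?_
      calc (N : ℝ) * (E * T) ≤ s ^ 2 * (E * T) :=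
            mul_le_mul_of_nonneg_right hN (by positivity)
        _ = E * (s ^ (m + 2) * (u / s)) := by
            rw [hT, pow_add]
            ring

end Pool.Agent.N842.HS
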