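import Pool.Agent.N842.HS.Chr
import Pool.Agent.N842.ST.Gen

/-!
# The law of the traces of almost all hypersurfaces
-/

set_option autoImplicit false

namespace Pool.Agent.N842.HS

open Finset
open Pool.Agent.TH894.NE (mean box mem_box)
open Pool.Agent.TH894.NF (pr pr_prime)
open Pool.Agent.Y57.FD (digit exceptions)

section
variable {N d D : ℕ} (e : Fin D ≃ Mon N d)

open Classical in
/-- the test function of the integral hypersurface at `p` -/
noncomputable def TT {K : ℕ} (θ : (Fin K → ℝ) × ℝ) (p : ℕ) (m : Fin D → ℕ) : ℝ :=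
  if h : p.Prime then
    haveI : Fact p.Prime := ⟨h⟩
    Tk e p θ.1 θ.2 (fun k => (m k : ZMod p))
  else 0

lemma TT_le {K : ℕ} (θ : (Fin K → ℝ) × ℝ) (p : ℕ) (m : Fin D → ℕ) : |TT e θ p m| ≤ 1 := by
  unfold TT
  split_ifs with h
  · have : Fact p.Prime := ⟨h⟩
    exact Tk_le e p θ.1 θ.2 _
  · rw [abs_zero]
    norm_num

lemma TT_mod {K : ℕ} (θ : (Fin K → ℝ) × ℝ) (p : ℕ) (m : Fin D → ℕ) : TT e θ p m = TT e θ p (fun k => m k % p) := by
  unfold TT
  by_cases h : p.Prime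
  · rw [dif_pos h, dif_pos h]
    have e1 : (fun k => ((m k % p : ℕ) : ZMod p)) = fun k => ((m k : ℕ) : ZMod p) := by
      funext k
      rw [ZMod.natCast_mod]
    rw [e1]
  · rw [dif_neg h, dif_neg h]

/-- the local means -/
theorem TT_mean (hN : 2 ≤ N) (hd : 2 ≤ d) (h K : ℕ) (hh : 1 ≤ h) (hK : 2 * h * K ≤ d) (θ : (Fin K → ℝ) × ℝ) :
    ∃ C : ℝ, 0 ≤ C ∧ ∀ p : ℕ, p.Prime → |mean D p (TT e θ p) - mnk N θ.1 θ.2| ≤ errk h θ.1 + C / Real.sqrt p := by
  obtain ⟨C, hC0, hC⟩ := chr e hN hd h K hh hK θ.1 θ.2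
  refine ⟨C, hC0, fun p hp => ?_⟩
  have : Fact p.Prime := ⟨hp⟩
  have h1 := hC p
  have h2 : TT e θ p = fun m : Fin D → ℕ => Tk e p θ.1 θ.2 (fun k => (m k : ZMod p)) := by
    funext m
    unfold TT
    rw [dif_pos hp]
  rw [h2, Pool.Agent.N842.ST.mean_eq_av p (fun u => Tk e p θ.1 θ.2 u)]
  exact h1

include e in
lemma D_pos (hd : 0 < d) : 0 < D := by
  obtain ⟨k₀, _⟩ := expo_surj e (0 : Fin N →₀ ℕ) (by simp; omega)
  exact Nat.pos_of_ne_zero (fun h => by subst h; exact k₀.elim0)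

lemma harm (x : ℕ) : ∑ j ∈ range x, 1 / ((j : ℝ) + 1) ≤ 1 + Real.log x := by
  have h := harmonic_le_one_add_log x
  unfold harmonic at h
  push_cast at h
  refine le_trans (le_of_eq ?_) h
  refine sum_congr rfl fun j _ => ?_
  rw [one_div]

lemma pr_ge (j : ℕ) : j + 1 ≤ pr j := by
  have h1 : StrictMono pr := Nat.nth_strictMono Nat.infinite_setOfPred_prime
  induction j with
  | zero => exact (pr_prime 0).pos
  | succ j ih =>
    have h2 : pr j < pr (j + 1) := h1 (Nat.lt_succ_self j)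
    omega

open Classical in
/-- **The law of the traces of almost all hypersurfaces.** -/
theorem law (hN : 2 ≤ N) (hd : 2 ≤ d) (h K : ℕ) (hh : 1 ≤ h) (hK : 2 * h * K ≤ d) (b s : ℕ) (hb : 2 ≤ b) (hs : 1 ≤ s) (δ : ℝ) (hδ : 0 < δ)
    (A B : ℕ) (Q : Finset ((Fin K → ℝ) × ℝ)) :
    ∃ c : ℝ, 0 < c ∧ ∃ y₀ : ℕ, ∀ (K' r : Fin D → ℕ) (y : ℕ), (∀ i, 2 * r i ≤ K' i) → y₀ ≤ y →
    ∀ N' : Fin D → ℕ, (∀ i, N' i < b ^ K' i) →
    ∀ f : Fin D → ℕ → ℕ, (∀ i j, f i j < b ∧ f i j ≠ digit b j (N' i)) →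
    ∀ W : ℕ → Set (ℕ → ℝ), (∀ x, (W x).Finite ∧ (W x).ncard ≤ x ^ B) → (∀ x, ∀ w ∈ W x, ∀ k, |w k| ≤ 1) →
    ∀ E : (Fin D → ℕ) → Prop,
    (∀ m : Fin D → ℕ, (∀ x : ℕ, y ≤ x → (∀ i, (x : ℝ) ≤ Real.exp (c * r i)) → ∀ w ∈ W x, ∀ θ : Fin s → (Fin K → ℝ) × ℝ, (∀ i, θ i ∈ Q) →
      |∑ j ∈ range x, w j * (∏ i : Fin s, TT e (θ i) (pr (j + i)) m - ∏ i : Fin s, mnk N (θ i).1 (θ i).2)| ≤
        Real.sqrt (max 1 (∑ j ∈ range x, w j ^ 2)) * (x : ℝ) ^ δ + (∑ i : Fin s, errk h (θ i).1) * ∑ j ∈ range x, |w j|) → E m) →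
    (exceptions b K' r N' f E : ℝ) ≤ 1 / (y : ℝ) ^ A * ∏ i, ((K' i).choose (r i) : ℝ) := by
  have hD := D_pos e (by omega : 0 < d)
  have hch : ∀ θ : (Fin K → ℝ) × ℝ, ∃ C : ℝ, 0 ≤ C ∧ ∀ p : ℕ, p.Prime → |mean D p (TT e θ p) - mnk N θ.1 θ.2| ≤ errk h θ.1 + C / Real.sqrt p :=
    TT_mean e hN hd h K hh hK
  choose C hC0 hC using hch
  obtain ⟨C', hC'⟩ : ∃ C' : ℝ, C' = ∑ θ ∈ Q, C θ := ⟨_, rfl⟩
  have hC'0 : 0 ≤ C' := by
    rw [hC']
    exact sum_nonneg fun θ _ => hC0 θ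
  have hCC' : ∀ θ ∈ Q, C θ ≤ C' := by
    intro θ hθ
    rw [hC']
    exact single_le_sum (f := C) (fun θ _ => hC0 θ) hθ
  obtain ⟨c, hc, y₀, hg⟩ := Pool.Agent.N842.ST.gen b D s hb hD hs (δ / 2) (by positivity) A B Q
    (fun θ p m => TT e θ p m) (fun θ p => mean D p (TT e θ p))
    (fun θ _ p _ m => TT_mod e θ p m)
    (fun θ _ => ⟨1, fun p hp => ⟨fun m => TT_le e θ p m, Pool.Agent.N842.ST.mean_abs_le' hp.one_lt.le 1 _ (fun m => TT_le e θ p m)⟩⟩)
    (fun θ _ => ⟨0, le_rfl, fun p _ => by rw [sub_self, abs_zero, zero_div]⟩)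
  have hev : ∀ᶠ x : ℕ in Filter.atTop, (x : ℝ) ^ (δ / 2) + (s * C') * Real.sqrt (1 + Real.log x) ≤ (x : ℝ) ^ δ := by
    have h1 : Filter.Tendsto (fun x : ℝ => x ^ (δ / 4)) Filter.atTop Filter.atTop := tendsto_rpow_atTop (by positivity)
    have h2 : ∀ᶠ x : ℝ in Filter.atTop, 1 + s * C' ≤ x ^ (δ / 4) := h1.eventually (Filter.eventually_ge_atTop _)
    have h3 : ∀ᶠ x : ℝ in Filter.atTop, Real.log x ≤ x ^ (δ / 4) := by
      have h4 := (isLittleO_log_rpow_atTop (show (0 : ℝ) < δ / 4 by positivity)).bound (show (0 : ℝ) < 1 by norm_num)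
      filter_upwards [h4, Filter.eventually_ge_atTop 1] with x hx hx1
      rw [Real.norm_of_nonneg (Real.log_nonneg hx1), Real.norm_of_nonneg (by positivity), one_mul] at hx
      exact hx
    have h5 : ∀ᶠ x : ℝ in Filter.atTop, (3 : ℝ) ≤ x ^ (δ / 4) := h1.eventually (Filter.eventually_ge_atTop _)
    have h6 : ∀ᶠ x : ℝ in Filter.atTop, x ^ (δ / 2) + (s * C') * Real.sqrt (1 + Real.log x) ≤ x ^ δ := by
      filter_upwards [h2, h3, h5, Filter.eventually_ge_atTop 1] with x hx1 hx2 hx3 hx4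
      have hl : 0 ≤ Real.log x := Real.log_nonneg hx4
      have hx0 : 0 < x := by linarith
      obtain ⟨z, hz⟩ : ∃ z : ℝ, z = x ^ (δ / 4) := ⟨_, rfl⟩
      have e1 : x ^ (δ / 2) = z * z := by
        rw [hz, ← Real.rpow_add hx0]
        congr 1
        ring
      have e2 : x ^ δ = (z * z) * (z * z) := by
        rw [← e1, ← Real.rpow_add hx0]
        congr 1
        ring
      rw [← hz] at hx1 hx2 hx3
      have h7 : Real.sqrt (1 + Real.log x) ≤ z := by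
        apply Real.sqrt_le_iff.2
        constructor
        · linarith
        · nlinarith
      have h8 : (s * C') * Real.sqrt (1 + Real.log x) ≤ (s * C') * z := mul_le_mul_of_nonneg_left h7 (by positivity)
      rw [e1, e2]
      have h9 : (s * C') * z ≤ z * z := by nlinarith
      have h10 : z * z + z * z ≤ (z * z) * (z * z) := by nlinarith [mul_self_nonneg (z * z - 2), mul_pos (by linarith : 0 < z) (by linarith : 0 < z)]
      linarith
    exact tendsto_natCast_atTop_atTop.eventually h6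
  obtain ⟨x₀, hx₀⟩ := Filter.eventually_atTop.1 hev
  refine ⟨c, hc, y₀ + x₀, fun K' r y hrK hy N' hN' f hf W hW hW1 E hE => ?_⟩
  refine hg K' r y hrK (by omega) N' hN' f hf W hW hW1 E fun m hm => ?_
  refine hE m fun x hyx hxr w hw θ hθ => ?_
  have h1 := hm x hyx hxr w hw θ hθ
  obtain ⟨S, hS⟩ : ∃ S : ℝ, S = ∑ j ∈ range x, w j ^ 2 := ⟨_, rfl⟩
  obtain ⟨R, hR⟩ : ∃ R : ℝ, R = Real.sqrt (max 1 S) := ⟨_, rfl⟩
  have hR0 : 0 ≤ R := by rw [hR]; exact Real.sqrt_nonneg _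
  rw [← hS, ← hR] at h1 ⊢
  -- the difference of the main terms
  have h2 : ∀ j : ℕ, |∏ i : Fin s, mean D (pr (j + i)) (TT e (θ i) (pr (j + i))) - ∏ i : Fin s, mnk N (θ i).1 (θ i).2| ≤
      (∑ i : Fin s, errk h (θ i).1) + s * C' * (1 / Real.sqrt ((j : ℝ) + 1)) := by
    intro j
    have e1 := Pool.Agent.N842.ST.prod_diff (univ : Finset (Fin s)) (fun i => mean D (pr (j + i)) (TT e (θ i) (pr (j + i))))
      (fun i => mnk N (θ i).1 (θ i).2) 1 le_rfl (fun i _ => Pool.Agent.N842.ST.mean_abs_le' (pr_prime _).one_lt.le 1 _ (fun m => TT_le e _ _ m))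
      (fun i _ => mnk_le N _ _)
    rw [one_pow, one_mul] at e1
    refine e1.trans ?_
    have e2 : ∀ i : Fin s, |mean D (pr (j + i)) (TT e (θ i) (pr (j + i))) - mnk N (θ i).1 (θ i).2| ≤
        errk h (θ i).1 + C' * (1 / Real.sqrt ((j : ℝ) + 1)) := by
      intro i
      refine (hC (θ i) (pr (j + i)) (pr_prime _)).trans ?_
      have e3 := hCC' (θ i) (hθ i)
      have e4 : Real.sqrt ((j : ℝ) + 1) ≤ Real.sqrt (pr (j + i)) := by
        apply Real.sqrt_le_sqrt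
        have e5 := pr_ge (j + i)
        have e6 : j + 1 ≤ pr (j + i) := by omega
        exact_mod_cast e6
      have e5 : 0 < Real.sqrt ((j : ℝ) + 1) := Real.sqrt_pos.2 (by positivity)
      have e6 : C (θ i) / Real.sqrt (pr (j + i)) ≤ C' * (1 / Real.sqrt ((j : ℝ) + 1)) := by
        rw [mul_one_div]
        exact div_le_div₀ hC'0 e3 e5 e4
      linarith
    refine (sum_le_sum fun i _ => e2 i).trans (le_of_eq ?_)
    rw [sum_add_distrib, sum_const, card_univ, Fintype.card_fin, nsmul_eq_mul]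
    ring
  have h3 : |∑ j ∈ range x, w j * (∏ i : Fin s, mean D (pr (j + i)) (TT e (θ i) (pr (j + i))) - ∏ i : Fin s, mnk N (θ i).1 (θ i).2)| ≤
      (∑ i : Fin s, errk h (θ i).1) * (∑ j ∈ range x, |w j|) + (s * C') * ∑ j ∈ range x, |w j| * (1 / Real.sqrt ((j : ℝ) + 1)) := by
    rw [mul_sum, mul_sum, ← sum_add_distrib]
    refine (abs_sum_le_sum_abs _ _).trans (sum_le_sum fun j _ => ?_)
    rw [abs_mul]
    refine (mul_le_mul_of_nonneg_left (h2 j) (abs_nonneg _)).trans (le_of_eq ?_)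
    ring
  have h4 : ∑ j ∈ range x, |w j| * (1 / Real.sqrt ((j : ℝ) + 1)) ≤ R * Real.sqrt (1 + Real.log x) := by
    have e1 := Real.sum_mul_le_sqrt_mul_sqrt (range x) (fun j => |w j|) (fun j => 1 / Real.sqrt ((j : ℝ) + 1))
    refine e1.trans ?_
    apply mul_le_mul _ _ (Real.sqrt_nonneg _) hR0
    · rw [hR, hS]
      apply Real.sqrt_le_sqrt
      simp only [sq_abs]
      exact le_max_right _ _
    · apply Real.sqrt_le_sqrt
      refine le_trans (le_of_eq ?_) (harm x)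
      refine sum_congr rfl fun j _ => ?_
      rw [div_pow, one_pow, Real.sq_sqrt (by positivity)]
  have h5 : ∑ j ∈ range x, w j * (∏ i : Fin s, TT e (θ i) (pr (j + i)) m - ∏ i : Fin s, mnk N (θ i).1 (θ i).2) =
      (∑ j ∈ range x, w j * ∏ i : Fin s, TT e (θ i) (pr (j + i)) m - ∑ j ∈ range x, w j * ∏ i : Fin s, mean D (pr (j + i)) (TT e (θ i) (pr (j + i)))) +
      ∑ j ∈ range x, w j * (∏ i : Fin s, mean D (pr (j + i)) (TT e (θ i) (pr (j + i))) - ∏ i : Fin s, mnk N (θ i).1 (θ i).2) := by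
    rw [← sum_sub_distrib, ← sum_add_distrib]
    refine sum_congr rfl fun j _ => ?_
    ring
  rw [h5]
  refine (abs_add_le _ _).trans ((add_le_add h1 h3).trans ?_)
  have h6 : (s * C') * ∑ j ∈ range x, |w j| * (1 / Real.sqrt ((j : ℝ) + 1)) ≤ R * ((s * C') * Real.sqrt (1 + Real.log x)) := by
    calc (s * C') * ∑ j ∈ range x, |w j| * (1 / Real.sqrt ((j : ℝ) + 1)) ≤ (s * C') * (R * Real.sqrt (1 + Real.log x)) :=
          mul_le_mul_of_nonneg_left h4 (by positivity)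
      _ = _ := by ring
  have h7 : R * (x : ℝ) ^ (δ / 2) + R * ((s * C') * Real.sqrt (1 + Real.log x)) ≤ R * (x : ℝ) ^ δ := by
    rw [← mul_add]
    exact mul_le_mul_of_nonneg_left (hx₀ x (by omega)) hR0
  linarith

end

end Pool.Agent.N842.HS
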