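import Pool.Agent.N842.HS.Eval
import Pool.Agent.N842.HS.Grow2
import Pool.Agent.N842.ST.Bmom

/-!
# The moments of the normalised numbers of points of the affine hypersurfaces
-/

set_option autoImplicit false

namespace Pool.Agent.N842.HS

open Finset
open Pool.Agent.Y57.FD.Mom (normal)
open Pool.Agent.N842.ST (mn mn_odd mn_even normal_zero normal_nonneg eg Mg Mg_zero Mg_N_zero Mg_succ eg_zero)

/-- the centred indicator function of zero -/
noncomputable def nuz (p : ℕ) (v : ZMod p) : ℝ := Real.sqrt p * ((if v = 0 then 1 else 0) - 1 / p)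

section
variable (p : ℕ) [hp : Fact p.Prime]

lemma one_le_sq : 1 ≤ Real.sqrt p := by
  rw [Real.one_le_sqrt]
  exact_mod_cast hp.out.one_lt.le

lemma sq_mul : Real.sqrt p * Real.sqrt p = p := Real.mul_self_sqrt (Nat.cast_nonneg p)

lemma sum_nuz (j : ℕ) : ∑ v : ZMod p, nuz p v ^ j = (Real.sqrt p * (1 - 1 / p)) ^ j + ((p : ℝ) - 1) * (-(1 / Real.sqrt p)) ^ j := by
  classical
  have hp0 : (0 : ℝ) < p := by exact_mod_cast hp.out.pos
  have hs0 : 0 < Real.sqrt p := by have := one_le_sq p; linarith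
  rw [← add_sum_erase univ _ (mem_univ (0 : ZMod p))]
  congr 1
  · unfold nuz
    rw [if_pos rfl]
  · have h1 : ∀ v ∈ (univ : Finset (ZMod p)).erase 0, nuz p v ^ j = (-(1 / Real.sqrt p)) ^ j := by
      intro v hv
      unfold nuz
      rw [if_neg (ne_of_mem_erase hv)]
      congr 1
      have := sq_mul p
      field_simp
      nlinarith
    rw [sum_congr rfl h1, sum_const, card_erase_of_mem (mem_univ _), card_univ, ZMod.card, nsmul_eq_mul,
      Nat.cast_sub hp.out.one_lt.le, Nat.cast_one]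

lemma eg1 : eg (ZMod p) (nuz p) 1 = 0 := by
  have hp0 : (0 : ℝ) < p := by exact_mod_cast hp.out.pos
  have hs0 : 0 < Real.sqrt p := by have := one_le_sq p; linarith
  unfold eg
  rw [sum_nuz p 1, ZMod.card]
  have h := sq_mul p
  have h2 : Real.sqrt p ^ 2 = p := by rw [sq, h]
  have : (Real.sqrt p * (1 - 1 / p)) ^ 1 + ((p : ℝ) - 1) * (-(1 / Real.sqrt p)) ^ 1 = 0 := by
    field_simp
    rw [h2]
    ring
  rw [this, zero_div]

lemma eg2 : eg (ZMod p) (nuz p) 2 = 1 - 1 / p := by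
  have hp0 : (0 : ℝ) < p := by exact_mod_cast hp.out.pos
  have hs0 : 0 < Real.sqrt p := by have := one_le_sq p; linarith
  unfold eg
  rw [sum_nuz p 2, ZMod.card]
  have h2 : Real.sqrt p ^ 2 = p := by rw [sq, sq_mul p]
  have : (Real.sqrt p * (1 - 1 / p)) ^ 2 + ((p : ℝ) - 1) * (-(1 / Real.sqrt p)) ^ 2 = p - 1 := by
    rw [mul_pow, neg_sq, div_pow, h2]
    field_simp
    ring
  rw [this]
  field_simp

lemma egj (j : ℕ) : |eg (ZMod p) (nuz p) (j + 2)| ≤ 2 ^ (j + 2) * Real.sqrt p ^ j := by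
  have hp0 : (0 : ℝ) < p := by exact_mod_cast hp.out.pos
  have hp1 : (1 : ℝ) < p := by exact_mod_cast hp.out.one_lt
  have hs1 := one_le_sq p
  have hs0 : 0 < Real.sqrt p := by linarith
  have h2 : Real.sqrt p ^ 2 = p := by rw [sq, sq_mul p]
  unfold eg
  rw [sum_nuz p (j + 2), ZMod.card, abs_div, abs_of_pos hp0, div_le_iff₀ hp0]
  have hinv : 1 / (p : ℝ) ≤ 1 := (div_le_one hp0).2 hp1.le
  have hinv0 : 0 ≤ 1 / (p : ℝ) := by positivity
  have e1 : |(Real.sqrt p * (1 - 1 / p)) ^ (j + 2)| ≤ Real.sqrt p ^ (j + 2) := by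
    rw [abs_pow]
    apply pow_le_pow_left₀ (abs_nonneg _)
    rw [abs_of_nonneg (mul_nonneg hs0.le (by linarith))]
    exact mul_le_of_le_one_right hs0.le (by linarith)
  have e2 : |((p : ℝ) - 1) * (-(1 / Real.sqrt p)) ^ (j + 2)| ≤ p := by
    rw [abs_mul, abs_pow, abs_neg, abs_of_nonneg (by linarith : (0 : ℝ) ≤ (p : ℝ) - 1), abs_of_nonneg (by positivity : 0 ≤ 1 / Real.sqrt p)]
    have : (1 / Real.sqrt p) ^ (j + 2) ≤ 1 := pow_le_one₀ (by positivity) ((div_le_one hs0).2 hs1)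
    calc ((p : ℝ) - 1) * (1 / Real.sqrt p) ^ (j + 2) ≤ ((p : ℝ) - 1) * 1 := mul_le_mul_of_nonneg_left this (by linarith)
      _ ≤ p := by linarith
  have e3 : Real.sqrt p ^ (j + 2) = Real.sqrt p ^ j * p := by rw [pow_add, h2]
  have e4 : (1 : ℝ) ≤ Real.sqrt p ^ j := one_le_pow₀ hs1
  have e5 : (2 : ℝ) ≤ 2 ^ (j + 2) := by
    calc (2 : ℝ) = 2 ^ 1 := by norm_num
      _ ≤ 2 ^ (j + 2) := pow_le_pow_right₀ (by norm_num) (by omega)
  refine (abs_add_le _ _).trans ((add_le_add e1 e2).trans ?_)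
  rw [e3]
  calc Real.sqrt p ^ j * p + p ≤ Real.sqrt p ^ j * p + Real.sqrt p ^ j * p := by nlinarith
    _ = 2 * (Real.sqrt p ^ j * p) := by ring
    _ ≤ 2 ^ (j + 2) * (Real.sqrt p ^ j * p) := mul_le_mul_of_nonneg_right e5 (by positivity)
    _ = _ := by ring

end

section
variable {N d D : ℕ} (e : Fin D ≃ Mon N d)

/-- the normalised number of the points of the affine hypersurface -/
noncomputable def nb (p : ℕ) [Fact p.Prime] (u : Fin D → ZMod p) : ℝ := (∑ x : Fin N → ZMod p, nuz p (fv p e u x)) / Real.sqrt p ^ N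

/-- **the moments of the normalised numbers of points** -/
theorem mom2 (hN : 2 ≤ N) (hd : 0 < d) (r : ℕ) (hr : r ≤ d) : ∃ C : ℝ, 0 ≤ C ∧ ∀ (p : ℕ) [hp : Fact p.Prime],
    |(∑ u : Fin D → ZMod p, nb e p u ^ r) / (p : ℝ) ^ D - normal r| ≤ C / Real.sqrt p := by
  obtain ⟨C, hC0, hC⟩ := grow2 2 (by norm_num) r
  have hn0 := normal_nonneg r
  refine ⟨C + normal r * r, by positivity, fun p hp => ?_⟩
  have hp0 : (0 : ℝ) < p := by exact_mod_cast hp.out.pos
  have hp1 : (1 : ℝ) < p := by exact_mod_cast hp.out.one_lt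
  have hs1 := one_le_sq p
  have hs0 : 0 < Real.sqrt p := by linarith
  have h2 : Real.sqrt p ^ 2 = p := by rw [sq, sq_mul p]
  obtain ⟨s, hs⟩ : ∃ s : ℝ, s = Real.sqrt p ^ N := ⟨_, rfl⟩
  have hss : s ^ 2 = (p : ℝ) ^ N := by rw [hs, ← pow_mul, mul_comm, pow_mul, h2]
  have hsp : Real.sqrt p * Real.sqrt p ≤ s := by
    rw [hs, ← sq]
    exact pow_le_pow_right₀ hs1 hN
  have hsle : Real.sqrt p ≤ s := by nlinarith
  have hspos : 0 < s := by linarith
  have hinv : 1 / (p : ℝ) ≤ 1 := (div_le_one hp0).2 hp1.le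
  have hinv0 : 0 ≤ 1 / (p : ℝ) := by positivity
  have h1 := hC s (by linarith) (Real.sqrt p) hs1 hsle (1 - 1 / p) (by linarith) (by linarith)
    (Mg (ZMod p) (nuz p)) (eg (ZMod p) (nuz p)) (Mg_zero _ _) (Mg_N_zero _ _) (Mg_succ _ _) (eg_zero _ _) (eg1 p) (eg2 p)
    (egj p) (p ^ N) (by rw [hss]; push_cast; exact le_rfl)
  have h3 : (∑ u : Fin D → ZMod p, nb e p u ^ r) / (p : ℝ) ^ D = Mg (ZMod p) (nuz p) r (p ^ N) / s ^ r := by
    rw [← joint2 p e (nuz p) r hr hd]
    have : ∀ u : Fin D → ZMod p, nb e p u ^ r = (∑ x : Fin N → ZMod p, nuz p (fv p e u x)) ^ r / s ^ r := by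
      intro u
      unfold nb
      rw [div_pow, hs]
    rw [sum_congr rfl (fun u _ => this u), ← sum_div]
    ring
  have h4 : |Mg (ZMod p) (nuz p) r (p ^ N) / s ^ r - mn r (1 - 1 / p) ((p ^ N : ℕ) : ℝ) / s ^ r| ≤ C / Real.sqrt p := by
    rw [← sub_div, abs_div, abs_of_pos (by positivity : 0 < s ^ r), div_le_iff₀ (by positivity)]
    refine h1.trans ?_
    have e1 : Real.sqrt p / s ≤ 1 / Real.sqrt p := by
      rw [div_le_div_iff₀ hspos hs0, one_mul]
      exact hsp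
    calc C * (s ^ r * (Real.sqrt p / s)) ≤ C * (s ^ r * (1 / Real.sqrt p)) := by
          apply mul_le_mul_of_nonneg_left _ hC0
          exact mul_le_mul_of_nonneg_left e1 (by positivity)
      _ = C / Real.sqrt p * s ^ r := by ring
  have h5 : |mn r (1 - 1 / p) ((p ^ N : ℕ) : ℝ) / s ^ r - normal r| ≤ normal r * r / Real.sqrt p := by
    rcases Nat.even_or_odd r with hm | hm
    · obtain ⟨i, hi⟩ := hm
      have hi2 : r / 2 = i := by omega
      have e1 : mn r (1 - 1 / p) ((p ^ N : ℕ) : ℝ) / s ^ r = normal r * (1 - 1 / p) ^ i := by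
        unfold mn
        rw [hi2]
        push_cast
        rw [← hss, mul_pow, ← pow_mul, hi, ← two_mul]
        field_simp
      have e2 := one_add_mul_le_pow (a := -(1 / (p : ℝ))) (by linarith) i
      have e3 : (1 - 1 / (p : ℝ)) ^ i ≤ 1 := pow_le_one₀ (by linarith) (by linarith)
      rw [← sub_eq_add_neg] at e2
      rw [e1, abs_sub_comm, abs_of_nonneg (by nlinarith)]
      have e4 : 1 / (p : ℝ) ≤ 1 / Real.sqrt p := by
        apply one_div_le_one_div_of_le hs0
        nlinarith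
      have e5 : (i : ℝ) ≤ r := by exact_mod_cast (by omega : i ≤ r)
      calc normal r - normal r * (1 - 1 / (p : ℝ)) ^ i = normal r * (1 - (1 - 1 / (p : ℝ)) ^ i) := by ring
        _ ≤ normal r * (r * (1 / Real.sqrt p)) := by
            apply mul_le_mul_of_nonneg_left _ hn0
            have : (i : ℝ) * (1 / p) ≤ r * (1 / Real.sqrt p) := mul_le_mul e5 e4 hinv0 (by positivity)
            linarith
        _ = _ := by ring
    · have e1 : normal r = 0 := by
        unfold Pool.Agent.Y57.FD.Mom.normal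
        rw [if_neg (Nat.not_even_iff_odd.2 hm)]
      unfold mn
      rw [e1]
      simp
  rw [h3]
  have h6 := abs_add_le (Mg (ZMod p) (nuz p) r (p ^ N) / s ^ r - mn r (1 - 1 / p) ((p ^ N : ℕ) : ℝ) / s ^ r)
    (mn r (1 - 1 / p) ((p ^ N : ℕ) : ℝ) / s ^ r - normal r)
  rw [sub_add_sub_cancel] at h6
  have h7 : (C + normal r * r) / Real.sqrt p = C / Real.sqrt p + normal r * r / Real.sqrt p := by ring
  rw [h7]
  linarith

end

end Pool.Agent.N842.HS
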