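import Pool.Agent.N842.HS.Evk
import Pool.Agent.N842.HS.Grow2
import Pool.Agent.N842.ST.Bmom

/-!
# The joint moments of the normalised sums over the closed points of the affine space
-/

set_option autoImplicit false

namespace Pool.Agent.N842.HS

open Finset
open Pool.Agent.Y57.FD.Mom (normal)
open Pool.Agent.N842.ST (gfFin card_gf mn mn_odd mn_even normal_zero normal_nonneg eg Mg Mg_zero Mg_N_zero Mg_succ eg_zero prod_diff)

attribute [local instance] gfFin

section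
variable (E : Type) [Fintype E] [Zero E]

open Classical in
/-- the centred indicator function of zero -/
noncomputable def nux (v : E) : ℝ := Real.sqrt (Fintype.card E : ℝ) * ((if v = 0 then 1 else 0) - 1 / (Fintype.card E : ℝ))

variable (hE : 1 < Fintype.card E)
include hE

omit [Zero E] in
lemma qpos : (0 : ℝ) < Fintype.card E := by
  have : 0 < Fintype.card E := by omega
  exact_mod_cast this

omit [Zero E] in
lemma sqpos : 0 < Real.sqrt (Fintype.card E : ℝ) := Real.sqrt_pos.2 (qpos E hE)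

omit [Zero E] in
lemma one_le_sqE : 1 ≤ Real.sqrt (Fintype.card E : ℝ) := by
  rw [Real.one_le_sqrt]
  exact_mod_cast hE.le

lemma sum_nux (j : ℕ) : ∑ v : E, nux E v ^ j = (Real.sqrt (Fintype.card E : ℝ) * (1 - 1 / (Fintype.card E : ℝ))) ^ j +
    ((Fintype.card E : ℝ) - 1) * (-(1 / Real.sqrt (Fintype.card E : ℝ))) ^ j := by
  classical
  have hp0 := qpos E hE
  have hs0 := sqpos E hE
  rw [← add_sum_erase univ _ (mem_univ (0 : E))]
  congr 1
  · unfold nux
    rw [if_pos rfl]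
  · have h1 : ∀ v ∈ (univ : Finset E).erase 0, nux E v ^ j = (-(1 / Real.sqrt (Fintype.card E : ℝ))) ^ j := by
      intro v hv
      unfold nux
      rw [if_neg (ne_of_mem_erase hv)]
      congr 1
      have := Real.mul_self_sqrt hp0.le
      field_simp
      nlinarith
    rw [sum_congr rfl h1, sum_const, card_erase_of_mem (mem_univ _), card_univ, nsmul_eq_mul,
      Nat.cast_sub hE.le, Nat.cast_one]

lemma egx1 : eg E (nux E) 1 = 0 := by
  have hp0 := qpos E hE
  have hs0 := sqpos E hE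
  unfold eg
  rw [sum_nux E hE 1]
  obtain ⟨s, hs⟩ : ∃ s : ℝ, s = Real.sqrt (Fintype.card E : ℝ) := ⟨_, rfl⟩
  obtain ⟨q, hq⟩ : ∃ q : ℝ, q = (Fintype.card E : ℝ) := ⟨_, rfl⟩
  have h2 : s ^ 2 = q := by rw [hs, hq, Real.sq_sqrt hp0.le]
  rw [← hs, ← hq]
  rw [← hs] at hs0
  rw [← hq] at hp0
  have : (s * (1 - 1 / q)) ^ 1 + (q - 1) * (-(1 / s)) ^ 1 = 0 := by
    rw [← h2]
    field_simp
    ring
  rw [this, zero_div]

lemma egx2 : eg E (nux E) 2 = 1 - 1 / (Fintype.card E : ℝ) := by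
  have hp0 := qpos E hE
  have hs0 := sqpos E hE
  unfold eg
  rw [sum_nux E hE 2]
  obtain ⟨s, hs⟩ : ∃ s : ℝ, s = Real.sqrt (Fintype.card E : ℝ) := ⟨_, rfl⟩
  obtain ⟨q, hq⟩ : ∃ q : ℝ, q = (Fintype.card E : ℝ) := ⟨_, rfl⟩
  have h2 : s ^ 2 = q := by rw [hs, hq, Real.sq_sqrt hp0.le]
  rw [← hs, ← hq]
  rw [← hs] at hs0
  rw [← hq] at hp0
  have : (s * (1 - 1 / q)) ^ 2 + (q - 1) * (-(1 / s)) ^ 2 = q - 1 := by
    rw [mul_pow, neg_sq, div_pow, h2]
    field_simp
    ring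
  rw [this]
  field_simp

lemma egxj (j : ℕ) : |eg E (nux E) (j + 2)| ≤ 2 ^ (j + 2) * Real.sqrt (Fintype.card E : ℝ) ^ j := by
  have hp0 := qpos E hE
  have hp1 : (1 : ℝ) < Fintype.card E := by exact_mod_cast hE
  have hs1 := one_le_sqE E hE
  have hs0 := sqpos E hE
  have h2 : Real.sqrt (Fintype.card E : ℝ) ^ 2 = Fintype.card E := Real.sq_sqrt hp0.le
  unfold eg
  rw [sum_nux E hE (j + 2), abs_div, abs_of_pos hp0, div_le_iff₀ hp0]
  have hinv : 1 / (Fintype.card E : ℝ) ≤ 1 := (div_le_one hp0).2 hp1.le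
  have hinv0 : 0 ≤ 1 / (Fintype.card E : ℝ) := by positivity
  have e1 : |(Real.sqrt (Fintype.card E : ℝ) * (1 - 1 / (Fintype.card E : ℝ))) ^ (j + 2)| ≤ Real.sqrt (Fintype.card E : ℝ) ^ (j + 2) := by
    rw [abs_pow]
    apply pow_le_pow_left₀ (abs_nonneg _)
    rw [abs_of_nonneg (mul_nonneg hs0.le (by linarith))]
    exact mul_le_of_le_one_right hs0.le (by linarith)
  have e2 : |((Fintype.card E : ℝ) - 1) * (-(1 / Real.sqrt (Fintype.card E : ℝ))) ^ (j + 2)| ≤ Fintype.card E := by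
    rw [abs_mul, abs_pow, abs_neg, abs_of_nonneg (by linarith : (0 : ℝ) ≤ (Fintype.card E : ℝ) - 1),
      abs_of_nonneg (by positivity : 0 ≤ 1 / Real.sqrt (Fintype.card E : ℝ))]
    have : (1 / Real.sqrt (Fintype.card E : ℝ)) ^ (j + 2) ≤ 1 := pow_le_one₀ (by positivity) ((div_le_one hs0).2 hs1)
    calc ((Fintype.card E : ℝ) - 1) * (1 / Real.sqrt (Fintype.card E : ℝ)) ^ (j + 2) ≤ ((Fintype.card E : ℝ) - 1) * 1 :=
          mul_le_mul_of_nonneg_left this (by linarith)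
      _ ≤ Fintype.card E := by linarith
  have e3 : Real.sqrt (Fintype.card E : ℝ) ^ (j + 2) = Real.sqrt (Fintype.card E : ℝ) ^ j * Fintype.card E := by rw [pow_add, h2]
  have e4 : (1 : ℝ) ≤ Real.sqrt (Fintype.card E : ℝ) ^ j := one_le_pow₀ hs1
  have e5 : (2 : ℝ) ≤ 2 ^ (j + 2) := by
    calc (2 : ℝ) = 2 ^ 1 := by norm_num
      _ ≤ 2 ^ (j + 2) := pow_le_pow_right₀ (by norm_num) (by omega)
  refine (abs_add_le _ _).trans ((add_le_add e1 e2).trans ?_)
  rw [e3]
  calc Real.sqrt (Fintype.card E : ℝ) ^ j * Fintype.card E + Fintype.card E ≤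
      Real.sqrt (Fintype.card E : ℝ) ^ j * Fintype.card E + Real.sqrt (Fintype.card E : ℝ) ^ j * Fintype.card E := by nlinarith
    _ = 2 * (Real.sqrt (Fintype.card E : ℝ) ^ j * Fintype.card E) := by ring
    _ ≤ 2 ^ (j + 2) * (Real.sqrt (Fintype.card E : ℝ) ^ j * Fintype.card E) := mul_le_mul_of_nonneg_right e5 (by positivity)
    _ = _ := by ring

end

section
variable (p : ℕ) [hp : Fact p.Prime]

lemma card_gf_lt (k : ℕ) (hk : k ≠ 0) : 1 < Fintype.card (GaloisField p k) := by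
  rw [card_gf p k hk]
  exact Nat.one_lt_pow hk hp.out.one_lt

lemma sqrt_card (k : ℕ) (hk : k ≠ 0) : Real.sqrt (Fintype.card (GaloisField p k) : ℝ) = Real.sqrt p ^ k := by
  rw [card_gf p k hk]
  push_cast
  rw [Real.sqrt_eq_iff_mul_self_eq (by positivity) (by positivity), ← mul_pow, Real.mul_self_sqrt (Nat.cast_nonneg p)]

end

lemma sqp1 (p : ℕ) [hp : Fact p.Prime] : (1 : ℝ) ≤ Real.sqrt p := by
  rw [Real.one_le_sqrt]
  exact_mod_cast hp.out.one_lt.le

/-- **the moments of the sum over the closed points of degree `k`** -/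
theorem fack (N : ℕ) (hN : 2 ≤ N) (k : ℕ) (hk : k ≠ 0) (m : ℕ) : ∃ C : ℝ, 0 ≤ C ∧ ∀ (p : ℕ) [hp : Fact p.Prime],
    |((k : ℝ) / (Real.sqrt p ^ k) ^ N) ^ m * Mg (GaloisField p k) (nux (GaloisField p k)) m (CP p N k).card - normal m * (k : ℝ) ^ (m / 2)| ≤
      C / Real.sqrt p := by
  obtain ⟨C, hC0, hC⟩ := grow2 2 (by norm_num) m
  have hn0 := normal_nonneg m
  refine ⟨(k : ℝ) ^ m * C + normal m * ((k : ℝ) ^ (m / 2) * (m * (1 + k))), by positivity, fun p hp => ?_⟩
  have hs := sqp1 p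
  have hs0 : 0 < Real.sqrt p := by linarith
  have h2 : Real.sqrt p ^ 2 = p := Real.sq_sqrt (Nat.cast_nonneg p)
  obtain ⟨t, ht⟩ : ∃ t : ℝ, t = Real.sqrt p ^ k := ⟨_, rfl⟩
  have htk : Real.sqrt p ≤ t := by rw [ht]; exact le_self_pow₀ hs hk
  have ht1 : 1 ≤ t := by linarith
  have ht0 : 0 < t := by linarith
  obtain ⟨s, hss⟩ : ∃ s : ℝ, s = t ^ N := ⟨_, rfl⟩
  have hts : t * t ≤ s := by
    rw [hss, ← sq]
    exact pow_le_pow_right₀ ht1 hN
  have hts' : t ≤ s := by nlinarith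
  have hs1 : 1 ≤ s := by linarith
  have hspos : 0 < s := by linarith
  have hs2 : s ^ 2 = ((p : ℝ) ^ k) ^ N := by
    have e1 : (p : ℝ) ^ k = t ^ 2 := by rw [ht, ← pow_mul, mul_comm, pow_mul, h2]
    rw [hss, e1]
    ring
  have hq : (Fintype.card (GaloisField p k) : ℝ) = t ^ 2 := by
    rw [card_gf p k hk, ht, ← pow_mul, mul_comm, pow_mul, h2]
    push_cast
    rfl
  have hqE := card_gf_lt p k hk
  have hsq := sqrt_card p k hk
  rw [← ht] at hsq
  obtain ⟨n, hn⟩ : ∃ n : ℕ, n = (CP p N k).card := ⟨_, rfl⟩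
  have hnle := card_cp_le' p N k hk
  have hkn := card_cp_le p N k hk
  have hnerr := card_cp_err p N k hk
  rw [← hn] at hnle hkn hnerr
  rw [← hs2] at hnle hkn hnerr
  rw [← ht, ← hss] at hnerr
  have hinv0 : 0 < 1 / t ^ 2 := by positivity
  have hinv1 : 1 / t ^ 2 ≤ 1 := by
    rw [div_le_one (by positivity)]
    nlinarith
  have h1 := hC s hs1 t ht1 hts' (1 - 1 / t ^ 2) (by linarith) (by linarith)
    (Mg (GaloisField p k) (nux (GaloisField p k))) (eg (GaloisField p k) (nux (GaloisField p k))) (Mg_zero _ _) (Mg_N_zero _ _) (Mg_succ _ _) (eg_zero _ _)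
    (egx1 _ hqE) (by rw [egx2 _ hqE, hq]) (by
      intro j
      have := egxj _ hqE j
      rwa [hsq] at this) n hnle
  rw [← ht, ← hss, ← hn]
  -- the first difference
  have h3 : |((k : ℝ) / s) ^ m * Mg (GaloisField p k) (nux (GaloisField p k)) m n - ((k : ℝ) / s) ^ m * mn m (1 - 1 / t ^ 2) n| ≤
      (k : ℝ) ^ m * C / Real.sqrt p := by
    rw [← mul_sub, abs_mul, abs_of_nonneg (by positivity : 0 ≤ ((k : ℝ) / s) ^ m), div_pow]
    have e1 : t / s ≤ 1 / Real.sqrt p := by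
      rw [div_le_div_iff₀ hspos hs0, one_mul]
      exact (mul_le_mul_of_nonneg_left htk ht0.le).trans hts
    calc (k : ℝ) ^ m / s ^ m * |Mg (GaloisField p k) (nux (GaloisField p k)) m n - mn m (1 - 1 / t ^ 2) n| ≤
        (k : ℝ) ^ m / s ^ m * (C * (s ^ m * (t / s))) := mul_le_mul_of_nonneg_left h1 (by positivity)
      _ = (k : ℝ) ^ m * C * (t / s) := by field_simp
      _ ≤ (k : ℝ) ^ m * C * (1 / Real.sqrt p) := mul_le_mul_of_nonneg_left e1 (by positivity)
      _ = _ := by ring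
  -- the second difference
  have h4 : |((k : ℝ) / s) ^ m * mn m (1 - 1 / t ^ 2) n - normal m * (k : ℝ) ^ (m / 2)| ≤
      normal m * ((k : ℝ) ^ (m / 2) * (m * (1 + k))) / Real.sqrt p := by
    rcases Nat.even_or_odd m with hm | hm
    · obtain ⟨i, hi⟩ := hm
      have hi2 : m / 2 = i := by omega
      obtain ⟨x, hx⟩ : ∃ x : ℝ, x = (k : ℝ) * n / s ^ 2 := ⟨_, rfl⟩
      have hx0 : 0 ≤ x := by rw [hx]; positivity
      have hx1 : x ≤ 1 := by
        rw [hx, div_le_one (by positivity)]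
        exact hkn
      have hx2 : 1 - x ≤ k / Real.sqrt p := by
        have e1 : 1 - x = -((k : ℝ) * n - s ^ 2) / s ^ 2 := by
          rw [hx]
          field_simp
          ring
        have e2 : -((k : ℝ) * n - s ^ 2) ≤ k * s := (neg_le_abs _).trans hnerr
        rw [e1, div_le_div_iff₀ (by positivity) hs0]
        calc -((k : ℝ) * n - s ^ 2) * Real.sqrt p ≤ (k * s) * Real.sqrt p := mul_le_mul_of_nonneg_right e2 hs0.le
          _ ≤ (k * s) * s := mul_le_mul_of_nonneg_left (htk.trans hts') (by positivity)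
          _ = k * s ^ 2 := by ring
      obtain ⟨z, hz⟩ : ∃ z : ℝ, z = (1 - 1 / t ^ 2) * x := ⟨_, rfl⟩
      have hz0 : 0 ≤ z := by rw [hz]; exact mul_nonneg (by linarith) hx0
      have hz1 : z ≤ 1 := by rw [hz]; nlinarith
      have hz2 : 1 - z ≤ (1 + k) / Real.sqrt p := by
        have e1 : 1 - z ≤ 1 / t ^ 2 + (1 - x) := by
          rw [hz]
          nlinarith
        have e2 : 1 / t ^ 2 ≤ 1 / Real.sqrt p := by
          apply one_div_le_one_div_of_le hs0
          nlinarith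
        have e3 : (1 + (k : ℝ)) / Real.sqrt p = 1 / Real.sqrt p + k / Real.sqrt p := by ring
        rw [e3]
        linarith
      have h5 : ((k : ℝ) / s) ^ m * mn m (1 - 1 / t ^ 2) n - normal m * (k : ℝ) ^ (m / 2) = - (normal m * (k : ℝ) ^ i * (1 - z ^ i)) := by
        unfold mn
        rw [hi2, hz, hx]
        have e3 : ((k : ℝ) / s) ^ m = ((k : ℝ) / s) ^ i * ((k : ℝ) / s) ^ i := by rw [← pow_add, ← hi]
        rw [e3]
        have e5 : ((k : ℝ) / s) ^ i * ((k : ℝ) / s) ^ i * ((1 - 1 / t ^ 2) * n) ^ i = (k : ℝ) ^ i * ((1 - 1 / t ^ 2) * (k * n / s ^ 2)) ^ i := by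
          rw [← mul_pow, ← mul_pow, ← mul_pow]
          congr 1
          field_simp
        linear_combination (normal m) * e5
      have h6 : 1 - z ^ i ≤ i * (1 - z) := by
        have e5 := one_add_mul_le_pow (a := z - 1) (by linarith) i
        rw [add_sub_cancel] at e5
        linarith
      have h7 : 0 ≤ 1 - z ^ i := by
        have := pow_le_one₀ hz0 hz1 (n := i)
        linarith
      rw [h5, abs_neg, abs_of_nonneg (by positivity), hi2]
      have e6 : (i : ℝ) ≤ m := by exact_mod_cast (by omega : i ≤ m)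
      calc normal m * (k : ℝ) ^ i * (1 - z ^ i) ≤ normal m * (k : ℝ) ^ i * (m * ((1 + k) / Real.sqrt p)) := by
            apply mul_le_mul_of_nonneg_left _ (by positivity)
            refine h6.trans ?_
            exact mul_le_mul e6 hz2 (by linarith) (by positivity)
        _ = _ := by ring
    · have e1 : normal m = 0 := by
        unfold Pool.Agent.Y57.FD.Mom.normal
        rw [if_neg (Nat.not_even_iff_odd.2 hm)]
      unfold mn
      rw [e1]
      simp
  have h7 : ((k : ℝ) ^ m * C + normal m * ((k : ℝ) ^ (m / 2) * (m * (1 + k)))) / Real.sqrt p =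
      (k : ℝ) ^ m * C / Real.sqrt p + normal m * ((k : ℝ) ^ (m / 2) * (m * (1 + k))) / Real.sqrt p := by ring
  rw [h7]
  have h8 := abs_add_le (((k : ℝ) / s) ^ m * Mg (GaloisField p k) (nux (GaloisField p k)) m n - ((k : ℝ) / s) ^ m * mn m (1 - 1 / t ^ 2) n)
    (((k : ℝ) / s) ^ m * mn m (1 - 1 / t ^ 2) n - normal m * (k : ℝ) ^ (m / 2))
  rw [sub_add_sub_cancel] at h8
  linarith

section
variable {N d D : ℕ} (e : Fin D ≃ Mon N d)

/-- the normalised sum over the closed points of degree `k` -/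
noncomputable def bk (p : ℕ) [Fact p.Prime] (k : ℕ) (u : Fin D → ZMod p) : ℝ :=
  (k : ℝ) / (Real.sqrt p ^ k) ^ N * Gk p e k (nux (GaloisField p k)) u

/-- **the joint moments** -/
theorem momk (hN : 2 ≤ N) (hd : 0 < d) {n : ℕ} (r : Fin n → ℕ) (hr : ∑ j : Fin n, (j + 1 : ℕ) * r j ≤ d) :
    ∃ C : ℝ, 0 ≤ C ∧ ∀ (p : ℕ) [hp : Fact p.Prime],
      |(∑ u : Fin D → ZMod p, ∏ j : Fin n, bk e p (j + 1) u ^ r j) / (p : ℝ) ^ D -
        ∏ j : Fin n, (normal (r j) * ((j + 1 : ℕ) : ℝ) ^ (r j / 2))| ≤ C / Real.sqrt p := by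
  have hch : ∀ j : Fin n, ∃ C : ℝ, 0 ≤ C ∧ ∀ (p : ℕ) [hp : Fact p.Prime],
    |(((j + 1 : ℕ) : ℝ) / (Real.sqrt p ^ ((j : ℕ) + 1)) ^ N) ^ r j * Mg (GaloisField p (j + 1)) (nux (GaloisField p (j + 1))) (r j) (CP p N (j + 1)).card -
      normal (r j) * ((j + 1 : ℕ) : ℝ) ^ (r j / 2)| ≤ C / Real.sqrt p := fun j => fack N hN (j + 1) (by omega) (r j)
  choose C hC0 hC using hch
  obtain ⟨T, hT⟩ : ∃ T : Fin n → ℝ, T = fun j : Fin n => normal (r j) * ((j + 1 : ℕ) : ℝ) ^ (r j / 2) := ⟨_, rfl⟩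
  have hT0 : ∀ j, 0 ≤ T j := by
    intro j
    rw [hT]
    have := normal_nonneg (r j)
    positivity
  obtain ⟨M, hM⟩ : ∃ M : ℝ, M = 1 + ∑ j : Fin n, (T j + C j) := ⟨_, rfl⟩
  have hpos : ∀ j : Fin n, 0 ≤ T j + C j := fun j => add_nonneg (hT0 j) (hC0 j)
  have hM1 : 1 ≤ M := by
    rw [hM]
    have := sum_nonneg (fun j (_ : j ∈ (univ : Finset (Fin n))) => hpos j)
    linarith
  have h3 : ∀ j : Fin n, T j + C j ≤ M := by
    intro j
    rw [hM]
    have := single_le_sum (f := fun j : Fin n => T j + C j) (fun j _ => hpos j) (mem_univ j)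
    linarith
  refine ⟨M ^ n * ∑ j : Fin n, C j, mul_nonneg (by positivity) (sum_nonneg fun j _ => hC0 j), fun p hp => ?_⟩
  have hs := sqp1 p
  have hs0 : 0 < Real.sqrt p := by linarith
  have h1 : (∑ u : Fin D → ZMod p, ∏ j : Fin n, bk e p (j + 1) u ^ r j) / (p : ℝ) ^ D =
      ∏ j : Fin n, ((((j + 1 : ℕ) : ℝ) / (Real.sqrt p ^ ((j : ℕ) + 1)) ^ N) ^ r j *
        Mg (GaloisField p (j + 1)) (nux (GaloisField p (j + 1))) (r j) (CP p N (j + 1)).card) := by
    rw [prod_mul_distrib, ← jointk p e (fun j : Fin n => nux (GaloisField p (j + 1))) r hd hr, mul_div_assoc', mul_sum]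
    congr 1
    refine sum_congr rfl fun u _ => ?_
    rw [← prod_mul_distrib]
    refine prod_congr rfl fun j _ => ?_
    rw [← mul_pow]
    rfl
  have h1' : ∏ j : Fin n, (normal (r j) * ((j + 1 : ℕ) : ℝ) ^ (r j / 2)) = ∏ j, T j := by rw [hT]
  have hC' : ∀ j : Fin n, |(((j + 1 : ℕ) : ℝ) / (Real.sqrt p ^ ((j : ℕ) + 1)) ^ N) ^ r j *
        Mg (GaloisField p (j + 1)) (nux (GaloisField p (j + 1))) (r j) (CP p N (j + 1)).card - T j| ≤ C j / Real.sqrt p := by
    intro j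
    rw [hT]
    exact hC j p
  rw [h1, h1']
  have h4 := prod_diff univ (fun j : Fin n => (((j + 1 : ℕ) : ℝ) / (Real.sqrt p ^ ((j : ℕ) + 1)) ^ N) ^ r j *
        Mg (GaloisField p (j + 1)) (nux (GaloisField p (j + 1))) (r j) (CP p N (j + 1)).card) T M hM1 (by
      intro j _
      have e1 := hC' j
      have e2 : C j / Real.sqrt p ≤ C j := div_le_self (hC0 j) hs
      have e3 := abs_add_le ((((j + 1 : ℕ) : ℝ) / (Real.sqrt p ^ ((j : ℕ) + 1)) ^ N) ^ r j *
        Mg (GaloisField p (j + 1)) (nux (GaloisField p (j + 1))) (r j) (CP p N (j + 1)).card - T j) (T j)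
      rw [sub_add_cancel, abs_of_nonneg (hT0 j)] at e3
      have e5 := h3 j
      show |(((j + 1 : ℕ) : ℝ) / (Real.sqrt p ^ ((j : ℕ) + 1)) ^ N) ^ r j *
        Mg (GaloisField p (j + 1)) (nux (GaloisField p (j + 1))) (r j) (CP p N (j + 1)).card| ≤ M
      linarith) (by
      intro j _
      have e5 := h3 j
      have e6 := hC0 j
      rw [abs_of_nonneg (hT0 j)]
      linarith)
  refine h4.trans ?_
  rw [card_univ, Fintype.card_fin, mul_div_assoc, sum_div]
  apply mul_le_mul_of_nonneg_left _ (by positivity)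
  exact sum_le_sum fun j _ => hC' j

end

end Pool.Agent.N842.HS
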