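import Pool.Agent.N842.HS.GenP

/-!
# Local functions over number fields
-/

set_option autoImplicit false

namespace Pool.Agent.N842.HS

open Finset
open Pool.Agent.TH894.NE (mean box mem_box)
open Pool.Agent.TH894.NF (pr pr_prime)
open Pool.Agent.Y57.FD (digit exceptions)

section
variable (R : Type) [CommRing R]

/-- the homomorphisms to the field with `p` elements are linearly independent on a set of generators -/
lemma hom_indep {n : ℕ} (β : Fin n → R) (hβ : Submodule.span ℤ (Set.range β) = ⊤) (p : ℕ) [hp : Fact p.Prime] :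
    LinearIndependent (ZMod p) (fun (φ : R →+* ZMod p) (j : Fin n) => φ (β j)) := by
  have h1 : LinearIndependent (ZMod p) (fun (φ : R →+* ZMod p) (x : R) => φ x) := by
    have h2 := linearIndependent_monoidHom R (ZMod p)
    exact h2.comp (fun φ : R →+* ZMod p => (φ : R →* ZMod p)) (fun φ ψ h => by
      ext x
      exact DFunLike.congr_fun h x)
  rw [linearIndependent_iff'] at h1 ⊢
  intro s c hc
  apply h1 s c
  funext x
  have h3 : ∀ j, ∑ φ ∈ s, c φ * φ (β j) = 0 := by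
    intro j
    have := congrFun hc j
    rw [Finset.sum_apply] at this
    simpa using this
  have h4 : ∀ y ∈ Submodule.span ℤ (Set.range β), ∑ φ ∈ s, c φ * φ y = 0 := by
    intro y hy
    induction hy using Submodule.span_induction with
    | mem y hy =>
      obtain ⟨j, rfl⟩ := hy
      exact h3 j
    | zero => simp
    | add y z _ _ hy hz =>
      simp only [map_add, mul_add, sum_add_distrib]
      rw [hy, hz, add_zero]
    | smul a y _ hy =>
      simp only [zsmul_eq_mul, map_mul, map_intCast]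
      have : ∑ φ ∈ s, c φ * ((a : ZMod p) * φ y) = (a : ZMod p) * ∑ φ ∈ s, c φ * φ y := by
        rw [mul_sum]
        exact sum_congr rfl fun φ _ => by ring
      rw [this, hy, mul_zero]
  have h5 := h4 x (by rw [hβ]; exact Submodule.mem_top)
  rw [Finset.sum_apply]
  simpa using h5

lemma hom_finite [Module.Finite ℤ R] (p : ℕ) [hp : Fact p.Prime] : Finite (R →+* ZMod p) := by
  obtain ⟨n, β, hβ⟩ := Module.Finite.exists_fin (R := ℤ) (M := R)
  have h := hom_indep R β hβ p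
  exact Finite.of_injective _ h.injective

lemma hom_card [Module.Finite ℤ R] : ∃ n : ℕ, ∀ (p : ℕ) [hp : Fact p.Prime], Nat.card (R →+* ZMod p) ≤ n := by
  obtain ⟨n, β, hβ⟩ := Module.Finite.exists_fin (R := ℤ) (M := R)
  refine ⟨n, fun p hp => ?_⟩
  have h := hom_indep R β hβ p
  have : Finite (R →+* ZMod p) := hom_finite R p
  have : Fintype (R →+* ZMod p) := Fintype.ofFinite _
  have h2 := h.fintype_card_le_finrank
  rw [Nat.card_eq_fintype_card]
  refine h2.trans ?_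
  rw [Module.finrank_fintype_fun_eq_card, Fintype.card_fin]

variable {R}

/-- the reduction of the coefficients -/
def red {g D : ℕ} (ω : Fin g → R) {p : ℕ} (φ : R →+* ZMod p) : (Fin (D * g) → ZMod p) →+ (Fin D → ZMod p) where
  toFun u i := ∑ j, u (finProdFinEquiv (i, j)) * φ (ω j)
  map_zero' := by
    funext i
    simp
  map_add' u v := by
    funext i
    simp [add_mul, sum_add_distrib]

lemma red_surj {g D : ℕ} (ω : Fin g → R) (hω : (1 : R) ∈ Submodule.span ℤ (Set.range ω)) {p : ℕ} (φ : R →+* ZMod p) :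
    Function.Surjective (red (D := D) ω φ) := by
  obtain ⟨c, hc⟩ := (Submodule.mem_span_range_iff_exists_fun ℤ).1 hω
  have h1 : ∑ j, (c j : ZMod p) * φ (ω j) = 1 := by
    have := congrArg φ hc
    rw [map_sum, map_one] at this
    rw [← this]
    refine sum_congr rfl fun j _ => ?_
    rw [map_zsmul, zsmul_eq_mul]
  intro v
  refine ⟨fun k => (c (finProdFinEquiv.symm k).2 : ZMod p) * v (finProdFinEquiv.symm k).1, ?_⟩
  funext i
  show ∑ j, (c (finProdFinEquiv.symm (finProdFinEquiv (i, j))).2 : ZMod p) * v (finProdFinEquiv.symm (finProdFinEquiv (i, j))).1 * φ (ω j) = v i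
  simp only [Equiv.symm_apply_apply]
  calc ∑ j, (c j : ZMod p) * v i * φ (ω j) = (∑ j, (c j : ZMod p) * φ (ω j)) * v i := by
        rw [sum_mul]
        exact sum_congr rfl fun j _ => by ring
    _ = v i := by rw [h1, one_mul]

/-- the sum over the prime ideals of degree one above `p` -/
noncomputable def SF {g D : ℕ} (ω : Fin g → R) (G : ∀ (p : ℕ) [Fact p.Prime], (Fin D → ZMod p) → ℝ) (p : ℕ) (m : Fin (D * g) → ℕ) : ℝ :=
  if h : p.Prime then
    haveI : Fact p.Prime := ⟨h⟩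
    ∑ᶠ φ : R →+* ZMod p, G p (fun i => ∑ j, (m (finProdFinEquiv (i, j)) : ZMod p) * φ (ω j))
  else 0

lemma SF_mod {g D : ℕ} (ω : Fin g → R) (G : ∀ (p : ℕ) [Fact p.Prime], (Fin D → ZMod p) → ℝ) (p : ℕ) (m : Fin (D * g) → ℕ) :
    SF ω G p m = SF ω G p (fun k => m k % p) := by
  unfold SF
  by_cases h : p.Prime
  · rw [dif_pos h, dif_pos h]
    simp only [ZMod.natCast_mod]
  · rw [dif_neg h, dif_neg h]

lemma SF_eq [Module.Finite ℤ R] {g D : ℕ} (ω : Fin g → R) (G : ∀ (p : ℕ) [Fact p.Prime], (Fin D → ZMod p) → ℝ) (p : ℕ) [hp : Fact p.Prime]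
    [Fintype (R →+* ZMod p)] (m : Fin (D * g) → ℕ) :
    SF ω G p m = ∑ φ : R →+* ZMod p, G p (red ω φ (fun k => (m k : ZMod p))) := by
  unfold SF
  rw [dif_pos hp.out, finsum_eq_sum_of_fintype]
  rfl

/-- the local means -/
theorem SF_mean [Module.Finite ℤ R] {g D : ℕ} (ω : Fin g → R) (hω : (1 : R) ∈ Submodule.span ℤ (Set.range ω))
    (G : ∀ (p : ℕ) [Fact p.Prime], (Fin D → ZMod p) → ℝ) (p : ℕ) [hp : Fact p.Prime] :
    mean (D * g) p (SF ω G p) = (Nat.card (R →+* ZMod p) : ℝ) * ((∑ u : Fin D → ZMod p, G p u) / (p : ℝ) ^ D) := by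
  have : Finite (R →+* ZMod p) := hom_finite R p
  have : Fintype (R →+* ZMod p) := Fintype.ofFinite _
  have h1 : SF ω G p = fun m : Fin (D * g) → ℕ => (fun u : Fin (D * g) → ZMod p => ∑ φ : R →+* ZMod p, G p (red ω φ u)) (fun k => (m k : ZMod p)) := by
    funext m
    exact SF_eq ω G p m
  rw [h1, Pool.Agent.N842.ST.mean_eq_av p (fun u : Fin (D * g) → ZMod p => ∑ φ : R →+* ZMod p, G p (red ω φ u))]
  unfold Pool.Agent.N842.ST.av
  rw [sum_comm, sum_div]
  have h2 : ∀ φ : R →+* ZMod p, (∑ u : Fin (D * g) → ZMod p, G p (red ω φ u)) / (p : ℝ) ^ (D * g) = (∑ u : Fin D → ZMod p, G p u) / (p : ℝ) ^ D := by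
    intro φ
    have h3 := Pool.Agent.Y57.FD.Mom.mean_hom (red (D := D) ω φ) (red_surj ω hω φ) (fun u => G p u)
    rw [Fintype.card_fun, Fintype.card_fun, Fintype.card_fin, Fintype.card_fin, ZMod.card] at h3
    push_cast at h3
    exact h3
  rw [sum_congr rfl (fun φ _ => h2 φ), sum_const, card_univ, nsmul_eq_mul, Nat.card_eq_fintype_card]

open Classical in
/-- **Local functions over number fields at several consecutive primes.** -/
theorem genR [Module.Finite ℤ R] (b g D s : ℕ) (ω : Fin g → R) (hω : (1 : R) ∈ Submodule.span ℤ (Set.range ω)) (hb : 2 ≤ b) (hD : 1 ≤ D * g) (hs : 1 ≤ s)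
    (δ : ℝ) (hδ : 0 < δ) (A B : ℕ) {Θ : Type} (Q : Finset Θ)
    (G : Θ → ∀ (p : ℕ) [Fact p.Prime], (Fin D → ZMod p) → ℝ) (M : Θ → ℕ → ℝ) (η : ℝ) (hη : 0 ≤ η)
    (hbd : ∀ θ ∈ Q, ∃ C : ℝ, 0 ≤ C ∧ ∀ (p : ℕ) [Fact p.Prime], (∀ u, |G θ p u| ≤ C * (p : ℝ) ^ η) ∧ |M θ p| ≤ C * (p : ℝ) ^ η)
    (hmean : ∀ θ ∈ Q, ∃ C : ℝ, 0 ≤ C ∧ ∀ (p : ℕ) [Fact p.Prime], |(∑ u : Fin D → ZMod p, G θ p u) / (p : ℝ) ^ D - M θ p| ≤ C / Real.sqrt p) :
    ∃ c : ℝ, 0 < c ∧ ∃ y₀ : ℕ, ∀ (K r : Fin (D * g) → ℕ) (y : ℕ), (∀ i, 2 * r i ≤ K i) → y₀ ≤ y →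
    ∀ N' : Fin (D * g) → ℕ, (∀ i, N' i < b ^ K i) →
    ∀ f : Fin (D * g) → ℕ → ℕ, (∀ i j, f i j < b ∧ f i j ≠ digit b j (N' i)) →
    ∀ W : ℕ → Set (ℕ → ℝ), (∀ x, (W x).Finite ∧ (W x).ncard ≤ x ^ B) → (∀ x, ∀ w ∈ W x, ∀ k, |w k| ≤ 1) →
    ∀ E : (Fin (D * g) → ℕ) → Prop,
    (∀ m : Fin (D * g) → ℕ, (∀ x : ℕ, y ≤ x → (∀ i, (x : ℝ) ≤ Real.exp (c * r i)) → ∀ w ∈ W x, ∀ q : Fin s → Θ, (∀ e, q e ∈ Q) →
      |∑ k ∈ range x, w k * ∏ e : Fin s, SF ω (G (q e)) (pr (k + e)) m -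
        ∑ k ∈ range x, w k * ∏ e : Fin s, ((Nat.card (R →+* ZMod (pr (k + e))) : ℝ) * M (q e) (pr (k + e)))| ≤
        Real.sqrt (max 1 (∑ k ∈ range x, w k ^ 2)) * (x : ℝ) ^ (s * η + δ)) → E m) →
    (exceptions b K r N' f E : ℝ) ≤ 1 / (y : ℝ) ^ A * ∏ i, ((K i).choose (r i) : ℝ) := by
  obtain ⟨n, hn⟩ := hom_card R
  refine genp b (D * g) s hb hD hs δ hδ A B Q (fun θ p m => SF ω (G θ) p m) (fun θ p => (Nat.card (R →+* ZMod p) : ℝ) * M θ p) η hη
    (fun θ _ p _ m => SF_mod ω (G θ) p m) (fun θ hθ => ?_) (fun θ hθ => ?_)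
  · obtain ⟨C, hC0, hC⟩ := hbd θ hθ
    refine ⟨n * C, fun p hp => ?_⟩
    have : Fact p.Prime := ⟨hp⟩
    have : Finite (R →+* ZMod p) := hom_finite R p
    have : Fintype (R →+* ZMod p) := Fintype.ofFinite _
    have hc : (Nat.card (R →+* ZMod p) : ℝ) ≤ n := by exact_mod_cast hn p
    have hpη : 0 ≤ (p : ℝ) ^ η := by positivity
    constructor
    · intro m
      rw [SF_eq]
      refine (abs_sum_le_sum_abs _ _).trans ((sum_le_sum (g := fun _ => C * (p : ℝ) ^ η) fun φ _ => (hC p).1 _).trans ?_)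
      rw [sum_const, card_univ, nsmul_eq_mul, ← Nat.card_eq_fintype_card, mul_assoc]
      exact mul_le_mul_of_nonneg_right hc (by positivity)
    · rw [abs_mul, Nat.abs_cast, mul_assoc]
      exact mul_le_mul hc (hC p).2 (abs_nonneg _) (Nat.cast_nonneg _)
  · obtain ⟨C, hC0, hC⟩ := hmean θ hθ
    refine ⟨n * C, by positivity, fun p hp => ?_⟩
    have : Fact p.Prime := ⟨hp⟩
    have hc : (Nat.card (R →+* ZMod p) : ℝ) ≤ n := by exact_mod_cast hn p
    rw [SF_mean ω hω (G θ) p, ← mul_sub, abs_mul, Nat.abs_cast, mul_div_assoc]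
    exact mul_le_mul hc (hC p) (abs_nonneg _) (Nat.cast_nonneg _)

end

end Pool.Agent.N842.HS
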