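import Pool.Agent.N842.HS.NF
import Pool.Agent.N842.HS.Law

/-!
# Local functions over number fields whose means are known up to a defect
-/

set_option autoImplicit false

namespace Pool.Agent.N842.HS

open Finset
open Pool.Agent.TH894.NE (mean box mem_box)
open Pool.Agent.TH894.NF (pr pr_prime)
open Pool.Agent.Y57.FD (digit exceptions)

/-- a small error -/
lemma ev_sqrt_log (C δ : ℝ) (hC : 0 ≤ C) (hδ : 0 < δ) :
    ∀ᶠ x : ℕ in Filter.atTop, (x : ℝ) ^ (δ / 2) + C * Real.sqrt (1 + Real.log x) ≤ (x : ℝ) ^ δ := by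
  have h1 : Filter.Tendsto (fun x : ℝ => x ^ (δ / 4)) Filter.atTop Filter.atTop := tendsto_rpow_atTop (by positivity)
  have h2 : ∀ᶠ x : ℝ in Filter.atTop, 1 + C ≤ x ^ (δ / 4) := h1.eventually (Filter.eventually_ge_atTop _)
  have h3 : ∀ᶠ x : ℝ in Filter.atTop, Real.log x ≤ x ^ (δ / 4) := by
    have h4 := (isLittleO_log_rpow_atTop (show (0 : ℝ) < δ / 4 by positivity)).bound (show (0 : ℝ) < 1 by norm_num)
    filter_upwards [h4, Filter.eventually_ge_atTop 1] with x hx hx1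
    rw [Real.norm_of_nonneg (Real.log_nonneg hx1), Real.norm_of_nonneg (by positivity), one_mul] at hx
    exact hx
  have h5 : ∀ᶠ x : ℝ in Filter.atTop, (3 : ℝ) ≤ x ^ (δ / 4) := h1.eventually (Filter.eventually_ge_atTop _)
  have h6 : ∀ᶠ x : ℝ in Filter.atTop, x ^ (δ / 2) + C * Real.sqrt (1 + Real.log x) ≤ x ^ δ := by
    filter_upwards [h2, h3, h5, Filter.eventually_ge_atTop 1] with x hx1 hx2 hx3 hx4
    have hl : 0 ≤ Real.log x := Real.log_nonneg hx4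
    have hx0 : 0 < x := by linarith
    obtain ⟨z, hz⟩ : ∃ z : ℝ, z = x ^ (δ / 4) := ⟨_, rfl⟩
    have e1 : x ^ (δ / 2) = z * z := by
      rw [hz, ← Real.rpow_add hx0]
      congr 1
      ring
    have e2 : x ^ δ = (z * z) * (z * z) := by
      rw [← e1, ← Real.rpow_add hx0]
      congr 1
      ring
    rw [← hz] at hx1 hx2 hx3
    have h7 : Real.sqrt (1 + Real.log x) ≤ z := by
      apply Real.sqrt_le_iff.2
      constructor
      · linarith
      · nlinarith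
    have h8 : C * Real.sqrt (1 + Real.log x) ≤ C * z := mul_le_mul_of_nonneg_left h7 hC
    rw [e1, e2]
    have h9 : C * z ≤ z * z := by nlinarith
    have h10 : z * z + z * z ≤ (z * z) * (z * z) := by nlinarith [mul_self_nonneg (z * z - 2), mul_pos (by linarith : 0 < z) (by linarith : 0 < z)]
    linarith
  exact tendsto_natCast_atTop_atTop.eventually h6

section
variable {R : Type} [CommRing R]

open Classical in
/-- **Local functions over number fields at several consecutive primes, with a defect.** -/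
theorem genE [Module.Finite ℤ R] (b g D s : ℕ) (ω : Fin g → R) (hω : (1 : R) ∈ Submodule.span ℤ (Set.range ω)) (hb : 2 ≤ b) (hD : 1 ≤ D * g) (hs : 1 ≤ s)
    (δ : ℝ) (hδ : 0 < δ) (A B : ℕ) {Θ : Type} (Q : Finset Θ)
    (G : Θ → ∀ (p : ℕ) [Fact p.Prime], (Fin D → ZMod p) → ℝ) (M ε : Θ → ℝ)
    (hbd : ∀ θ, |M θ| ≤ 1 ∧ ∀ (p : ℕ) [Fact p.Prime], ∀ u, |G θ p u| ≤ 1)
    (hmean : ∀ θ, ∃ C : ℝ, 0 ≤ C ∧ ∀ (p : ℕ) [Fact p.Prime], |(∑ u : Fin D → ZMod p, G θ p u) / (p : ℝ) ^ D - M θ| ≤ ε θ + C / Real.sqrt p) :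
    ∃ c : ℝ, 0 < c ∧ ∃ y₀ : ℕ, ∀ (K r : Fin (D * g) → ℕ) (y : ℕ), (∀ i, 2 * r i ≤ K i) → y₀ ≤ y →
    ∀ N' : Fin (D * g) → ℕ, (∀ i, N' i < b ^ K i) →
    ∀ f : Fin (D * g) → ℕ → ℕ, (∀ i j, f i j < b ∧ f i j ≠ digit b j (N' i)) →
    ∀ W : ℕ → Set (ℕ → ℝ), (∀ x, (W x).Finite ∧ (W x).ncard ≤ x ^ B) → (∀ x, ∀ w ∈ W x, ∀ k, |w k| ≤ 1) →
    ∀ E : (Fin (D * g) → ℕ) → Prop,
    (∀ m : Fin (D * g) → ℕ, (∀ x : ℕ, y ≤ x → (∀ i, (x : ℝ) ≤ Real.exp (c * r i)) → ∀ w ∈ W x, ∀ q : Fin s → Θ, (∀ e, q e ∈ Q) →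
      |∑ k ∈ range x, w k * (∏ e : Fin s, SF ω (G (q e)) (pr (k + e)) m - ∏ e : Fin s, ((Nat.card (R →+* ZMod (pr (k + e))) : ℝ) * M (q e)))| ≤
        Real.sqrt (max 1 (∑ k ∈ range x, w k ^ 2)) * (x : ℝ) ^ δ +
          (∑ e : Fin s, ε (q e)) * ∑ k ∈ range x, |w k| * ∏ e : Fin s, (Nat.card (R →+* ZMod (pr (k + e))) : ℝ)) → E m) →
    (exceptions b K r N' f E : ℝ) ≤ 1 / (y : ℝ) ^ A * ∏ i, ((K i).choose (r i) : ℝ) := by
  obtain ⟨n, hn⟩ := hom_card R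
  choose C hC0 hC using hmean
  obtain ⟨C', hC'⟩ : ∃ C' : ℝ, C' = ∑ θ ∈ Q, C θ := ⟨_, rfl⟩
  have hC'0 : 0 ≤ C' := by
    rw [hC']
    exact sum_nonneg fun θ _ => hC0 θ
  have hCC' : ∀ θ ∈ Q, C θ ≤ C' := by
    intro θ hθ
    rw [hC']
    exact single_le_sum (f := C) (fun θ _ => hC0 θ) hθ
  -- the local means
  obtain ⟨μ, hμ⟩ : ∃ μ : Θ → ℕ → ℝ, μ = fun θ p => if h : p.Prime then (haveI : Fact p.Prime := ⟨h⟩; (∑ u : Fin D → ZMod p, G θ p u) / (p : ℝ) ^ D) else 0 := ⟨_, rfl⟩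
  have hμp : ∀ θ (p : ℕ) [Fact p.Prime], μ θ p = (∑ u : Fin D → ZMod p, G θ p u) / (p : ℝ) ^ D := by
    intro θ p hp
    rw [hμ]
    beta_reduce
    rw [dif_pos hp.out]
  have hμ1 : ∀ θ (p : ℕ) [Fact p.Prime], |μ θ p| ≤ 1 := by
    intro θ p hp
    rw [hμp]
    have hpD : (0 : ℝ) < (p : ℝ) ^ D := by
      have : (0 : ℝ) < p := by exact_mod_cast hp.out.pos
      positivity
    rw [abs_div, abs_of_pos hpD, div_le_one hpD]
    refine (abs_sum_le_sum_abs _ _).trans ((sum_le_sum (g := fun _ => (1 : ℝ)) fun u _ => (hbd θ).2 p u).trans ?_)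
    rw [sum_const, card_univ, Fintype.card_fun, Fintype.card_fin, ZMod.card, nsmul_eq_mul, mul_one]
    push_cast
    exact le_rfl
  obtain ⟨c, hc, y₀, hg⟩ := genR b g D s ω hω hb hD hs (δ / 2) (by positivity) A B Q G μ 0 le_rfl
    (fun θ _ => ⟨1, zero_le_one, fun p hp => by
      rw [Real.rpow_zero, one_mul]
      exact ⟨fun u => (hbd θ).2 p u, hμ1 θ p⟩⟩)
    (fun θ _ => ⟨0, le_rfl, fun p hp => by rw [hμp, sub_self, abs_zero, zero_div]⟩)
  obtain ⟨x₀, hx₀⟩ := Filter.eventually_atTop.1 (ev_sqrt_log ((n : ℝ) ^ s * (s * C')) δ (by positivity) hδ)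
  refine ⟨c, hc, y₀ + x₀, fun K r y hrK hy N' hN' f hf W hW hW1 E hE => ?_⟩
  refine hg K r y hrK (by omega) N' hN' f hf W hW hW1 E fun m hm => ?_
  refine hE m fun x hyx hxr w hw q hq => ?_
  have h1 := hm x hyx hxr w hw q hq
  rw [mul_zero, zero_add] at h1
  obtain ⟨S, hS⟩ : ∃ S : ℝ, S = ∑ j ∈ range x, w j ^ 2 := ⟨_, rfl⟩
  obtain ⟨T, hT⟩ : ∃ T : ℝ, T = Real.sqrt (max 1 S) := ⟨_, rfl⟩
  have hT0 : 0 ≤ T := by rw [hT]; exact Real.sqrt_nonneg _
  rw [← hS, ← hT] at h1 ⊢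
  obtain ⟨ν, hν⟩ : ∃ ν : ℕ → ℝ, ν = fun k => ∏ e : Fin s, (Nat.card (R →+* ZMod (pr (k + e))) : ℝ) := ⟨_, rfl⟩
  have hνk : ∀ k, ∏ e : Fin s, (Nat.card (R →+* ZMod (pr (k + e))) : ℝ) = ν k := fun k => by rw [hν]
  have hν0 : ∀ k, 0 ≤ ν k := by
    intro k
    rw [← hνk]
    exact prod_nonneg fun e _ => Nat.cast_nonneg _
  have hνn : ∀ k, ν k ≤ (n : ℝ) ^ s := by
    intro k
    rw [← hνk]
    refine (prod_le_prod (fun e _ => Nat.cast_nonneg _) (g := fun _ => (n : ℝ)) fun e _ => ?_).trans ?_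
    · have : Fact (pr (k + e)).Prime := ⟨pr_prime _⟩
      exact_mod_cast hn (pr (k + e))
    · rw [prod_const, card_univ, Fintype.card_fin]
  -- the difference of the main terms
  have h2 : ∀ j : ℕ, |∏ i : Fin s, μ (q i) (pr (j + i)) - ∏ i : Fin s, M (q i)| ≤
      (∑ i : Fin s, ε (q i)) + s * C' * (1 / Real.sqrt ((j : ℝ) + 1)) := by
    intro j
    have e1 := Pool.Agent.N842.ST.prod_diff (univ : Finset (Fin s)) (fun i => μ (q i) (pr (j + i)))
      (fun i => M (q i)) 1 le_rfl (fun i _ => haveI : Fact (pr (j + i)).Prime := ⟨pr_prime _⟩; hμ1 _ _)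
      (fun i _ => (hbd _).1)
    rw [one_pow, one_mul] at e1
    refine e1.trans ?_
    have e2 : ∀ i : Fin s, |μ (q i) (pr (j + i)) - M (q i)| ≤
        ε (q i) + C' * (1 / Real.sqrt ((j : ℝ) + 1)) := by
      intro i
      have : Fact (pr (j + i)).Prime := ⟨pr_prime _⟩
      rw [hμp]
      refine (hC (q i) (pr (j + i))).trans ?_
      have e3 := hCC' (q i) (hq i)
      have e4 : Real.sqrt ((j : ℝ) + 1) ≤ Real.sqrt (pr (j + i)) := by
        apply Real.sqrt_le_sqrt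
        have e5 := pr_ge (j + i)
        have e6 : j + 1 ≤ pr (j + i) := by omega
        exact_mod_cast e6
      have e5 : 0 < Real.sqrt ((j : ℝ) + 1) := Real.sqrt_pos.2 (by positivity)
      have e6 : C (q i) / Real.sqrt (pr (j + i)) ≤ C' * (1 / Real.sqrt ((j : ℝ) + 1)) := by
        rw [mul_one_div]
        exact div_le_div₀ hC'0 e3 e5 e4
      linarith
    refine (sum_le_sum fun i _ => e2 i).trans (le_of_eq ?_)
    rw [sum_add_distrib, sum_const, card_univ, Fintype.card_fin, nsmul_eq_mul]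
    ring
  have h3 : |∑ j ∈ range x, w j * (∏ i : Fin s, ((Nat.card (R →+* ZMod (pr (j + i))) : ℝ) * μ (q i) (pr (j + i))) - ∏ i : Fin s, ((Nat.card (R →+* ZMod (pr (j + i))) : ℝ) * M (q i)))| ≤
      (∑ i : Fin s, ε (q i)) * (∑ j ∈ range x, |w j| * ν j) + ((n : ℝ) ^ s * (s * C')) * ∑ j ∈ range x, |w j| * (1 / Real.sqrt ((j : ℝ) + 1)) := by
    rw [mul_sum, mul_sum, ← sum_add_distrib]
    refine (abs_sum_le_sum_abs _ _).trans (sum_le_sum fun j _ => ?_)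
    rw [prod_mul_distrib, prod_mul_distrib, hνk, ← mul_sub, abs_mul, abs_mul, abs_of_nonneg (hν0 j)]
    have e1 : ν j * |∏ i : Fin s, μ (q i) (pr (j + i)) - ∏ i : Fin s, M (q i)| ≤
        ν j * (∑ i : Fin s, ε (q i)) + (n : ℝ) ^ s * (s * C' * (1 / Real.sqrt ((j : ℝ) + 1))) := by
      refine (mul_le_mul_of_nonneg_left (h2 j) (hν0 j)).trans ?_
      rw [mul_add]
      have e2 := mul_le_mul_of_nonneg_right (hνn j) (by positivity : 0 ≤ s * C' * (1 / Real.sqrt ((j : ℝ) + 1)))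
      linarith
    refine (mul_le_mul_of_nonneg_left e1 (abs_nonneg _)).trans (le_of_eq ?_)
    ring
  have h4 : ∑ j ∈ range x, |w j| * (1 / Real.sqrt ((j : ℝ) + 1)) ≤ T * Real.sqrt (1 + Real.log x) := by
    have e1 := Real.sum_mul_le_sqrt_mul_sqrt (range x) (fun j => |w j|) (fun j => 1 / Real.sqrt ((j : ℝ) + 1))
    refine e1.trans ?_
    apply mul_le_mul _ _ (Real.sqrt_nonneg _) hT0
    · rw [hT, hS]
      apply Real.sqrt_le_sqrt
      simp only [sq_abs]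
      exact le_max_right _ _
    · apply Real.sqrt_le_sqrt
      refine le_trans (le_of_eq ?_) (harm x)
      refine sum_congr rfl fun j _ => ?_
      rw [div_pow, one_pow, Real.sq_sqrt (by positivity)]
  have h5 : ∑ j ∈ range x, w j * (∏ i : Fin s, SF ω (G (q i)) (pr (j + i)) m - ∏ i : Fin s, ((Nat.card (R →+* ZMod (pr (j + i))) : ℝ) * M (q i))) =
      (∑ j ∈ range x, w j * ∏ i : Fin s, SF ω (G (q i)) (pr (j + i)) m - ∑ j ∈ range x, w j * ∏ i : Fin s, ((Nat.card (R →+* ZMod (pr (j + i))) : ℝ) * μ (q i) (pr (j + i)))) +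
      ∑ j ∈ range x, w j * (∏ i : Fin s, ((Nat.card (R →+* ZMod (pr (j + i))) : ℝ) * μ (q i) (pr (j + i))) - ∏ i : Fin s, ((Nat.card (R →+* ZMod (pr (j + i))) : ℝ) * M (q i))) := by
    rw [← sum_sub_distrib, ← sum_add_distrib]
    refine sum_congr rfl fun j _ => ?_
    ring
  rw [h5]
  refine (abs_add_le _ _).trans ((add_le_add h1 h3).trans ?_)
  simp only [hνk]
  have h6 : ((n : ℝ) ^ s * (s * C')) * ∑ j ∈ range x, |w j| * (1 / Real.sqrt ((j : ℝ) + 1)) ≤ T * (((n : ℝ) ^ s * (s * C')) * Real.sqrt (1 + Real.log x)) := by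
    calc ((n : ℝ) ^ s * (s * C')) * ∑ j ∈ range x, |w j| * (1 / Real.sqrt ((j : ℝ) + 1)) ≤ ((n : ℝ) ^ s * (s * C')) * (T * Real.sqrt (1 + Real.log x)) :=
          mul_le_mul_of_nonneg_left h4 (by positivity)
      _ = _ := by ring
  have h7 : T * (x : ℝ) ^ (δ / 2) + T * (((n : ℝ) ^ s * (s * C')) * Real.sqrt (1 + Real.log x)) ≤ T * (x : ℝ) ^ δ := by
    rw [← mul_add]
    exact mul_le_mul_of_nonneg_left (hx₀ x (by omega)) hT0
  linarith

end

end Pool.Agent.N842.HS
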