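import Pool.Agent.N842.HS.NFW

/-!
# Local functions over number fields, with weights of the prime ideals of degree one and with a defect
-/

set_option autoImplicit false

namespace Pool.Agent.N842.HS

open Finset
open Pool.Agent.TH894.NE (mean box mem_box)
open Pool.Agent.TH894.NF (pr pr_prime)
open Pool.Agent.Y57.FD (digit exceptions)

section
variable {R : Type} [CommRing R]

lemma card_tup [Module.Finite ℤ R] {n : ℕ} (hn : ∀ (p : ℕ) [Fact p.Prime], Nat.card (R →+* ZMod p) ≤ n) {s : ℕ} (k : ℕ)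
    [Fintype ((e : Fin s) → (R →+* ZMod (Nat.nth Nat.Prime (k + e))))] :
    Fintype.card ((e : Fin s) → (R →+* ZMod (Nat.nth Nat.Prime (k + e)))) ≤ n ^ s := by
  have h := Fintype.card_le_of_injective _ (num_inj (R := R) (s := s) hn k)
  rw [Fintype.card_fun, Fintype.card_fin, Fintype.card_fin] at h
  exact h

open Classical in
/-- **Local functions over number fields at several consecutive primes, with weights of the tuples of prime ideals and a defect.** -/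
theorem genEW [Module.Finite ℤ R] (b g D s : ℕ) (ω : Fin g → R) (hω : (1 : R) ∈ Submodule.span ℤ (Set.range ω)) (hb : 2 ≤ b) (hD : 1 ≤ D * g) (hs : 1 ≤ s)
    (δ : ℝ) (hδ : 0 < δ) (A B : ℕ) {Θ : Type} (Q : Finset Θ)
    (G : Θ → ∀ (p : ℕ) [Fact p.Prime], (Fin D → ZMod p) → ℝ) (M ε : Θ → ℝ)
    (hbd : ∀ θ, |M θ| ≤ 1 ∧ ∀ (p : ℕ) [Fact p.Prime], ∀ u, |G θ p u| ≤ 1)
    (hmean : ∀ θ, ∃ C : ℝ, 0 ≤ C ∧ ∀ (p : ℕ) [Fact p.Prime], |(∑ u : Fin D → ZMod p, G θ p u) / (p : ℝ) ^ D - M θ| ≤ ε θ + C / Real.sqrt p) :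
    ∃ c : ℝ, 0 < c ∧ ∃ y₀ : ℕ, ∀ (K r : Fin (D * g) → ℕ) (y : ℕ), (∀ i, 2 * r i ≤ K i) → y₀ ≤ y →
    ∀ N' : Fin (D * g) → ℕ, (∀ i, N' i < b ^ K i) →
    ∀ f : Fin (D * g) → ℕ → ℕ, (∀ i j, f i j < b ∧ f i j ≠ digit b j (N' i)) →
    ∀ W : ℕ → Set ((k : ℕ) → ((e : Fin s) → (R →+* ZMod (Nat.nth Nat.Prime (k + e)))) → ℝ), (∀ x, (W x).Finite ∧ (W x).ncard ≤ x ^ B) →
      (∀ x, ∀ w ∈ W x, ∀ k φ, |w k φ| ≤ 1) →
    ∀ E : (Fin (D * g) → ℕ) → Prop,
    (∀ m : Fin (D * g) → ℕ, (∀ x : ℕ, y ≤ x → (∀ i, (x : ℝ) ≤ Real.exp (c * r i)) → ∀ w ∈ W x, ∀ q : Fin s → Θ, (∀ e, q e ∈ Q) →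
      |∑ k ∈ range x, ∑ᶠ φ : (e : Fin s) → (R →+* ZMod (Nat.nth Nat.Prime (k + e))),
          w k φ * (∏ e : Fin s, G (q e) (Nat.nth Nat.Prime (k + e)) (fun j => φ e (cf ω m j)) - ∏ e : Fin s, M (q e))| ≤
        Real.sqrt (max 1 (∑ k ∈ range x, ∑ᶠ φ : (e : Fin s) → (R →+* ZMod (Nat.nth Nat.Prime (k + e))), w k φ ^ 2)) * (x : ℝ) ^ δ +
          (∑ e : Fin s, ε (q e)) * ∑ k ∈ range x, ∑ᶠ φ : (e : Fin s) → (R →+* ZMod (Nat.nth Nat.Prime (k + e))), |w k φ|) → E m) →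
    (exceptions b K r N' f E : ℝ) ≤ 1 / (y : ℝ) ^ A * ∏ i, ((K i).choose (r i) : ℝ) := by
  obtain ⟨n, hn⟩ := hom_card R
  choose C hC0 hC using hmean
  obtain ⟨C', hC'⟩ : ∃ C' : ℝ, C' = ∑ θ ∈ Q, C θ := ⟨_, rfl⟩
  have hC'0 : 0 ≤ C' := by
    rw [hC']
    exact sum_nonneg fun θ _ => hC0 θ
  have hCC' : ∀ θ ∈ Q, C θ ≤ C' := by
    intro θ hθ
    rw [hC']
    exact single_le_sum (f := C) (fun θ _ => hC0 θ) hθ
  -- the local means
  obtain ⟨μ, hμ⟩ : ∃ μ : Θ → ℕ → ℝ, μ = fun θ p => if h : p.Prime then (haveI : Fact p.Prime := ⟨h⟩; (∑ u : Fin D → ZMod p, G θ p u) / (p : ℝ) ^ D) else 0 := ⟨_, rfl⟩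
  have hμp : ∀ θ (p : ℕ) [Fact p.Prime], μ θ p = (∑ u : Fin D → ZMod p, G θ p u) / (p : ℝ) ^ D := by
    intro θ p hp
    rw [hμ]
    beta_reduce
    rw [dif_pos hp.out]
  have hμ1 : ∀ θ (p : ℕ) [Fact p.Prime], |μ θ p| ≤ 1 := by
    intro θ p hp
    rw [hμp]
    have hpD : (0 : ℝ) < (p : ℝ) ^ D := by
      have : (0 : ℝ) < p := by exact_mod_cast hp.out.pos
      positivity
    rw [abs_div, abs_of_pos hpD, div_le_one hpD]
    refine (abs_sum_le_sum_abs _ _).trans ((sum_le_sum (g := fun _ => (1 : ℝ)) fun u _ => (hbd θ).2 p u).trans ?_)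
    rw [sum_const, card_univ, Fintype.card_fun, Fintype.card_fin, ZMod.card, nsmul_eq_mul, mul_one]
    push_cast
    exact le_rfl
  obtain ⟨c, hc, y₀, hg⟩ := genRW b g D s ω hω hb hD hs (δ / 2) (by positivity) A B Q G μ 0 le_rfl
    (fun θ _ => ⟨1, zero_le_one, fun p hp => by
      rw [Real.rpow_zero, one_mul]
      exact ⟨fun u => (hbd θ).2 p u, hμ1 θ p⟩⟩)
    (fun θ _ => ⟨0, le_rfl, fun p hp => by rw [hμp, sub_self, abs_zero, zero_div]⟩)
  obtain ⟨x₀, hx₀⟩ := Filter.eventually_atTop.1 (ev_sqrt_log ((n : ℝ) ^ s * (s * C')) δ (by positivity) hδ)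
  refine ⟨c, hc, y₀ + x₀, fun K r y hrK hy N' hN' f hf W hW hW1 E hE => ?_⟩
  refine hg K r y hrK (by omega) N' hN' f hf W hW hW1 E fun m hm => ?_
  refine hE m fun x hyx hxr w hw q hq => ?_
  have h1 := hm x hyx hxr w hw q hq
  rw [mul_zero, zero_add] at h1
  have hfin : ∀ k : ℕ, Finite ((e : Fin s) → (R →+* ZMod (Nat.nth Nat.Prime (k + e)))) := by
    intro k
    have : ∀ e : Fin s, Finite (R →+* ZMod (Nat.nth Nat.Prime (k + e))) := fun e => hom_finite R _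
    exact Pi.finite
  have hft : ∀ k : ℕ, Nonempty (Fintype ((e : Fin s) → (R →+* ZMod (Nat.nth Nat.Prime (k + e))))) := fun k => ⟨Fintype.ofFinite _⟩
  have hft2 : ∀ k : ℕ, Fintype ((e : Fin s) → (R →+* ZMod (Nat.nth Nat.Prime (k + e)))) := fun k => (hft k).some
  simp only [finsum_eq_sum_of_fintype] at h1 ⊢
  obtain ⟨S, hS⟩ : ∃ S : ℝ, S = ∑ k ∈ range x, ∑ φ : (e : Fin s) → (R →+* ZMod (Nat.nth Nat.Prime (k + e))), w k φ ^ 2 := ⟨_, rfl⟩
  obtain ⟨T, hT⟩ : ∃ T : ℝ, T = Real.sqrt (max 1 S) := ⟨_, rfl⟩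
  have hT0 : 0 ≤ T := by rw [hT]; exact Real.sqrt_nonneg _
  rw [← hS, ← hT] at h1 ⊢
  -- the difference of the main terms
  have h2 : ∀ j : ℕ, |∏ i : Fin s, μ (q i) (Nat.nth Nat.Prime (j + i)) - ∏ i : Fin s, M (q i)| ≤
      (∑ i : Fin s, ε (q i)) + s * C' * (1 / Real.sqrt ((j : ℝ) + 1)) := by
    intro j
    have e1 := Pool.Agent.N842.ST.prod_diff (univ : Finset (Fin s)) (fun i => μ (q i) (Nat.nth Nat.Prime (j + i)))
      (fun i => M (q i)) 1 le_rfl (fun i _ => hμ1 _ _) (fun i _ => (hbd _).1)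
    rw [one_pow, one_mul] at e1
    refine e1.trans ?_
    have e2 : ∀ i : Fin s, |μ (q i) (Nat.nth Nat.Prime (j + i)) - M (q i)| ≤
        ε (q i) + C' * (1 / Real.sqrt ((j : ℝ) + 1)) := by
      intro i
      rw [hμp]
      refine (hC (q i) (Nat.nth Nat.Prime (j + i))).trans ?_
      have e3 := hCC' (q i) (hq i)
      have e4 : Real.sqrt ((j : ℝ) + 1) ≤ Real.sqrt (Nat.nth Nat.Prime (j + i)) := by
        apply Real.sqrt_le_sqrt
        have e5 : j + i + 1 ≤ Nat.nth Nat.Prime (j + i) := pr_ge (j + i)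
        have e6 : j + 1 ≤ Nat.nth Nat.Prime (j + i) := by omega
        exact_mod_cast e6
      have e5 : 0 < Real.sqrt ((j : ℝ) + 1) := Real.sqrt_pos.2 (by positivity)
      have e6 : C (q i) / Real.sqrt (Nat.nth Nat.Prime (j + i)) ≤ C' * (1 / Real.sqrt ((j : ℝ) + 1)) := by
        rw [mul_one_div]
        exact div_le_div₀ hC'0 e3 e5 e4
      linarith
    refine (sum_le_sum fun i _ => e2 i).trans (le_of_eq ?_)
    rw [sum_add_distrib, sum_const, card_univ, Fintype.card_fin, nsmul_eq_mul]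
    ring
  obtain ⟨Ab, hAb⟩ : ∃ Ab : ℕ → ℝ, Ab = fun k => ∑ φ : (e : Fin s) → (R →+* ZMod (Nat.nth Nat.Prime (k + e))), |w k φ| := ⟨_, rfl⟩
  have hAbk : ∀ k, ∑ φ : (e : Fin s) → (R →+* ZMod (Nat.nth Nat.Prime (k + e))), |w k φ| = Ab k := fun k => by rw [hAb]
  have hAb0 : ∀ k, 0 ≤ Ab k := by
    intro k
    rw [← hAbk]
    exact sum_nonneg fun φ _ => abs_nonneg _
  have h3 : |∑ j ∈ range x, ∑ φ : (e : Fin s) → (R →+* ZMod (Nat.nth Nat.Prime (j + e))), w j φ * (∏ i : Fin s, μ (q i) (Nat.nth Nat.Prime (j + i)) - ∏ i : Fin s, M (q i))| ≤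
      (∑ i : Fin s, ε (q i)) * (∑ j ∈ range x, Ab j) + (s * C') * ∑ j ∈ range x, Ab j * (1 / Real.sqrt ((j : ℝ) + 1)) := by
    rw [mul_sum, mul_sum, ← sum_add_distrib]
    refine (abs_sum_le_sum_abs _ _).trans (sum_le_sum fun j _ => ?_)
    rw [← sum_mul, abs_mul]
    have e1 : |∑ φ : (e : Fin s) → (R →+* ZMod (Nat.nth Nat.Prime (j + e))), w j φ| ≤ Ab j := by
      rw [← hAbk]
      exact abs_sum_le_sum_abs _ _
    refine (mul_le_mul e1 (h2 j) (abs_nonneg _) (hAb0 j)).trans (le_of_eq ?_)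
    ring
  have hAbS : ∑ j ∈ range x, Ab j ^ 2 ≤ (n : ℝ) ^ s * S := by
    rw [hS, mul_sum]
    refine sum_le_sum fun j _ => ?_
    rw [← hAbk]
    have e1 := sq_sum_le_card_mul_sum_sq (s := (univ : Finset ((e : Fin s) → (R →+* ZMod (Nat.nth Nat.Prime (j + e)))))) (f := fun φ => |w j φ|)
    simp only [sq_abs] at e1
    refine e1.trans ?_
    apply mul_le_mul_of_nonneg_right _ (sum_nonneg fun φ _ => sq_nonneg _)
    rw [card_univ]
    exact_mod_cast card_tup hn j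
  have h4 : ∑ j ∈ range x, Ab j * (1 / Real.sqrt ((j : ℝ) + 1)) ≤ (n : ℝ) ^ s * T * Real.sqrt (1 + Real.log x) := by
    have e1 := Real.sum_mul_le_sqrt_mul_sqrt (range x) (fun j => Ab j) (fun j => 1 / Real.sqrt ((j : ℝ) + 1))
    refine e1.trans ?_
    apply mul_le_mul _ _ (Real.sqrt_nonneg _) (by positivity)
    · refine (Real.sqrt_le_sqrt hAbS).trans ?_
      rw [Real.sqrt_mul (by positivity)]
      apply mul_le_mul _ _ (Real.sqrt_nonneg _) (by positivity)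
      · rcases Nat.eq_zero_or_pos (n ^ s) with h0 | h0
        · have h0' : (n : ℝ) ^ s = 0 := by exact_mod_cast h0
          rw [h0', Real.sqrt_zero]
        · have h0' : (1 : ℝ) ≤ (n : ℝ) ^ s := by exact_mod_cast h0
          rw [Real.sqrt_le_left (by positivity)]
          nlinarith
      · rw [hT]
        exact Real.sqrt_le_sqrt (le_max_right _ _)
    · apply Real.sqrt_le_sqrt
      refine le_trans (le_of_eq ?_) (harm x)
      refine sum_congr rfl fun j _ => ?_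
      rw [div_pow, one_pow, Real.sq_sqrt (by positivity)]
  have h5 : ∑ j ∈ range x, ∑ φ : (e : Fin s) → (R →+* ZMod (Nat.nth Nat.Prime (j + e))),
      w j φ * (∏ i : Fin s, G (q i) (Nat.nth Nat.Prime (j + i)) (fun t => φ i (cf ω m t)) - ∏ i : Fin s, M (q i)) =
      ∑ j ∈ range x, ∑ φ : (e : Fin s) → (R →+* ZMod (Nat.nth Nat.Prime (j + e))),
        w j φ * (∏ i : Fin s, G (q i) (Nat.nth Nat.Prime (j + i)) (fun t => φ i (cf ω m t)) - ∏ i : Fin s, μ (q i) (Nat.nth Nat.Prime (j + i))) +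
      ∑ j ∈ range x, ∑ φ : (e : Fin s) → (R →+* ZMod (Nat.nth Nat.Prime (j + e))), w j φ * (∏ i : Fin s, μ (q i) (Nat.nth Nat.Prime (j + i)) - ∏ i : Fin s, M (q i)) := by
    rw [← sum_add_distrib]
    refine sum_congr rfl fun j _ => ?_
    rw [← sum_add_distrib]
    refine sum_congr rfl fun φ _ => ?_
    ring
  rw [h5]
  refine (abs_add_le _ _).trans ((add_le_add h1 h3).trans ?_)
  simp only [hAbk]
  have h6 : (s * C') * ∑ j ∈ range x, Ab j * (1 / Real.sqrt ((j : ℝ) + 1)) ≤ T * (((n : ℝ) ^ s * (s * C')) * Real.sqrt (1 + Real.log x)) := by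
    calc (s * C') * ∑ j ∈ range x, Ab j * (1 / Real.sqrt ((j : ℝ) + 1)) ≤ (s * C') * ((n : ℝ) ^ s * T * Real.sqrt (1 + Real.log x)) :=
          mul_le_mul_of_nonneg_left h4 (by positivity)
      _ = _ := by ring
  have h7 : T * (x : ℝ) ^ (δ / 2) + T * (((n : ℝ) ^ s * (s * C')) * Real.sqrt (1 + Real.log x)) ≤ T * (x : ℝ) ^ δ := by
    rw [← mul_add]
    exact mul_le_mul_of_nonneg_left (hx₀ x (by omega)) hT0
  linarith

end

end Pool.Agent.N842.HS
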