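import Pool.Agent.N842.HS.Chr

/-!
# Polynomials in the normalised sums over the closed points
-/

set_option autoImplicit false

namespace Pool.Agent.N842.HS

open Finset MvPolynomial
open Pool.Agent.Y57.FD.Mom (normal)
open Pool.Agent.N842.ST (gfFin card_gf normal_nonneg)

attribute [local instance] gfFin

/-- the exponents of weight at most `R` -/
def Idx (K R : ℕ) : Finset (Fin K → ℕ) := (Fintype.piFinset (fun _ => range (R + 1))).filter (fun i => ∑ j : Fin K, (j + 1 : ℕ) * i j ≤ R)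

lemma mem_Idx (K R : ℕ) (i : Fin K → ℕ) : i ∈ Idx K R ↔ ∑ j : Fin K, (j + 1 : ℕ) * i j ≤ R := by
  unfold Idx
  rw [mem_filter]
  constructor
  · exact fun h => h.2
  · intro h
    refine ⟨?_, h⟩
    rw [Fintype.mem_piFinset]
    intro j
    rw [mem_range]
    have h2 : (j + 1 : ℕ) * i j ≤ ∑ j : Fin K, (j + 1 : ℕ) * i j :=
      single_le_sum (f := fun j : Fin K => (j + 1 : ℕ) * i j) (fun _ _ => Nat.zero_le _) (mem_univ j)
    have h3 : i j ≤ (j + 1 : ℕ) * i j := Nat.le_mul_of_pos_left _ (by omega)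
    omega

section
variable {N d D : ℕ} (e : Fin D ≃ Mon N d)

/-- the monomials -/
noncomputable def mono (p : ℕ) [Fact p.Prime] {K : ℕ} (i : Fin K → ℕ) (u : Fin D → ZMod p) : ℝ := ∏ j : Fin K, bk e p (j + 1) u ^ i j

/-- the functions which are polynomials of weight at most `R` with bounded coefficients -/
def Cls (K R : ℕ) (G : ∀ (p : ℕ) [Fact p.Prime], (Fin D → ZMod p) → ℝ) : Prop :=
  ∃ (C : ℝ) (c : (Fin K → ℕ) → ℕ → ℝ), 0 ≤ C ∧ (∀ i p, |c i p| ≤ C) ∧
    ∀ (p : ℕ) [Fact p.Prime] (u : Fin D → ZMod p), G p u = ∑ i ∈ Idx K R, c i p * mono e p i u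

variable {e}

lemma Cls.congr {K R : ℕ} {G H : ∀ (p : ℕ) [Fact p.Prime], (Fin D → ZMod p) → ℝ} (hG : Cls e K R G)
    (h : ∀ (p : ℕ) [Fact p.Prime] (u : Fin D → ZMod p), H p u = G p u) : Cls e K R H := by
  obtain ⟨C, c, hC, hc, hG⟩ := hG
  exact ⟨C, c, hC, hc, fun p _ u => (h p u).trans (hG p u)⟩

lemma Cls.add {K R : ℕ} {G H : ∀ (p : ℕ) [Fact p.Prime], (Fin D → ZMod p) → ℝ} (hG : Cls e K R G) (hH : Cls e K R H) :
    Cls e K R (fun p _ u => G p u + H p u) := by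
  obtain ⟨C, c, hC, hc, hG⟩ := hG
  obtain ⟨C', c', hC', hc', hH⟩ := hH
  refine ⟨C + C', fun i p => c i p + c' i p, by positivity, fun i p => (abs_add_le _ _).trans (add_le_add (hc i p) (hc' i p)), fun p _ u => ?_⟩
  beta_reduce
  rw [hG p u, hH p u, ← sum_add_distrib]
  exact sum_congr rfl fun i _ => by ring

lemma Cls.mul {K R R' : ℕ} {G H : ∀ (p : ℕ) [Fact p.Prime], (Fin D → ZMod p) → ℝ} (hG : Cls e K R G) (hH : Cls e K R' H) :
    Cls e K (R + R') (fun p _ u => G p u * H p u) := by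
  classical
  obtain ⟨C, c, hC, hc, hG⟩ := hG
  obtain ⟨C', c', hC', hc', hH⟩ := hH
  refine ⟨((Idx K R ×ˢ Idx K R').card : ℝ) * (C * C'),
    fun i p => ∑ x ∈ (Idx K R ×ˢ Idx K R').filter (fun x => x.1 + x.2 = i), c x.1 p * c' x.2 p, by positivity, fun i p => ?_, fun p _ u => ?_⟩
  · refine (abs_sum_le_sum_abs _ _).trans ((sum_le_sum (g := fun _ => C * C') fun x _ => ?_).trans ?_)
    · rw [abs_mul]
      exact mul_le_mul (hc _ _) (hc' _ _) (abs_nonneg _) hC
    · rw [sum_const, nsmul_eq_mul]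
      apply mul_le_mul_of_nonneg_right _ (by positivity)
      exact_mod_cast card_filter_le _ _
  · beta_reduce
    rw [hG p u, hH p u, sum_mul_sum, ← sum_product']
    rw [← sum_fiberwise_of_maps_to (s := Idx K R ×ˢ Idx K R') (t := Idx K (R + R')) (g := fun x => x.1 + x.2) (by
      intro x hx
      rw [mem_product, mem_Idx, mem_Idx] at hx
      rw [mem_Idx]
      have : ∑ j : Fin K, (j + 1 : ℕ) * (x.1 + x.2) j = ∑ j : Fin K, (j + 1 : ℕ) * x.1 j + ∑ j : Fin K, (j + 1 : ℕ) * x.2 j := by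
        rw [← sum_add_distrib]
        exact sum_congr rfl fun j _ => by simp only [Pi.add_apply]; ring
      rw [this]
      omega)]
    refine sum_congr rfl fun i _ => ?_
    rw [sum_mul]
    refine sum_congr rfl fun x hx => ?_
    rw [mem_filter] at hx
    rw [← hx.2]
    have : mono e p (x.1 + x.2) u = mono e p x.1 u * mono e p x.2 u := by
      unfold mono
      rw [← prod_mul_distrib]
      exact prod_congr rfl fun j _ => by rw [Pi.add_apply, pow_add]
    rw [this]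
    ring

lemma Cls.mono' {K R R' : ℕ} (hR : R ≤ R') {G : ∀ (p : ℕ) [Fact p.Prime], (Fin D → ZMod p) → ℝ} (hG : Cls e K R G) : Cls e K R' G := by
  classical
  obtain ⟨C, c, hC, hc, hG⟩ := hG
  refine ⟨C, fun i p => if i ∈ Idx K R then c i p else 0, hC, fun i p => ?_, fun p _ u => ?_⟩
  · beta_reduce
    split_ifs
    · exact hc i p
    · rw [abs_zero]
      exact hC
  · rw [hG p u]
    have hsub : Idx K R ⊆ Idx K R' := by
      intro i hi
      rw [mem_Idx] at hi ⊢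
      omega
    beta_reduce
    rw [← sum_subset hsub]
    · refine sum_congr rfl fun i hi => ?_
      rw [if_pos hi]
    · intro i _ hi
      rw [if_neg hi, zero_mul]

lemma Cls.const {K : ℕ} (f : ℕ → ℝ) (C : ℝ) (hf : ∀ p, |f p| ≤ C) : Cls e K 0 (fun p _ _ => f p) := by
  classical
  have hC : 0 ≤ C := (abs_nonneg _).trans (hf 0)
  refine ⟨C, fun _ p => f p, hC, fun _ p => hf p, fun p _ u => ?_⟩
  have h1 : Idx K 0 = {0} := by
    ext i
    rw [mem_Idx, mem_singleton]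
    constructor
    · intro h
      funext j
      have h2 : (j + 1 : ℕ) * i j ≤ ∑ j : Fin K, (j + 1 : ℕ) * i j :=
        single_le_sum (f := fun j : Fin K => (j + 1 : ℕ) * i j) (fun _ _ => Nat.zero_le _) (mem_univ j)
      have h3 : i j ≤ (j + 1 : ℕ) * i j := Nat.le_mul_of_pos_left _ (by omega)
      show i j = 0
      omega
    · rintro rfl
      simp
  rw [h1, sum_singleton]
  unfold mono
  simp

lemma Cls.bk {K : ℕ} (j : Fin K) : Cls e K (j + 1) (fun p _ u => Pool.Agent.N842.HS.bk e p (j + 1) u) := by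
  classical
  refine ⟨1, fun i _ => if i = Pi.single j 1 then 1 else 0, zero_le_one, fun i p => ?_, fun p _ u => ?_⟩
  · beta_reduce
    split_ifs <;> simp
  · beta_reduce
    rw [sum_eq_single (Pi.single j 1)]
    · rw [if_pos rfl, one_mul]
      unfold mono
      rw [prod_eq_single j]
      · rw [Pi.single_eq_same, pow_one]
      · intro k _ hk
        rw [Pi.single_eq_of_ne hk, pow_zero]
      · intro h
        exact absurd (mem_univ j) h
    · intro i _ hi
      rw [if_neg hi, zero_mul]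
    · intro h
      exfalso
      apply h
      rw [mem_Idx, sum_eq_single j]
      · rw [Pi.single_eq_same, mul_one]
      · intro k _ hk
        rw [Pi.single_eq_of_ne hk, mul_zero]
      · intro h
        exact absurd (mem_univ j) h

lemma Cls.smul {K R : ℕ} {G : ∀ (p : ℕ) [Fact p.Prime], (Fin D → ZMod p) → ℝ} (hG : Cls e K R G) (f : ℕ → ℝ) (C : ℝ) (hf : ∀ p, |f p| ≤ C) :
    Cls e K R (fun p _ u => f p * G p u) := by
  have h := (Cls.const (e := e) (K := K) f C hf).mul hG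
  rwa [zero_add] at h

lemma Cls.sum {K R : ℕ} {ι : Type} (s : Finset ι) {G : ι → ∀ (p : ℕ) [Fact p.Prime], (Fin D → ZMod p) → ℝ} (hG : ∀ i ∈ s, Cls e K R (G i)) :
    Cls e K R (fun p _ u => ∑ i ∈ s, G i p u) := by
  classical
  induction s using Finset.induction_on with
  | empty =>
    simp only [sum_empty]
    exact (Cls.const (fun _ => 0) 0 (fun _ => by simp)).mono' (Nat.zero_le _)
  | insert a s ha ih =>
    simp only [sum_insert ha]
    exact (hG a (mem_insert_self a s)).add (ih fun i hi => hG i (mem_insert_of_mem hi))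

lemma Cls.pow {K R : ℕ} {G : ∀ (p : ℕ) [Fact p.Prime], (Fin D → ZMod p) → ℝ} (hG : Cls e K R G) (n : ℕ) :
    Cls e K (n * R) (fun p _ u => G p u ^ n) := by
  induction n with
  | zero =>
    simp only [pow_zero, Nat.zero_mul]
    exact Cls.const (fun _ => 1) 1 (fun _ => by simp)
  | succ n ih =>
    have h := ih.mul hG
    have e1 : (n + 1) * R = n * R + R := by ring
    rw [e1]
    exact h.congr fun p _ u => by ring

variable (e)

/-- the means of the polynomials are bounded -/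
lemma cls_mean (hN : 2 ≤ N) (hd : 0 < d) {K R : ℕ} (hR : R ≤ d) {G : ∀ (p : ℕ) [Fact p.Prime], (Fin D → ZMod p) → ℝ} (hG : Cls e K R G) :
    ∃ B : ℝ, 0 ≤ B ∧ ∀ (p : ℕ) [Fact p.Prime], |(∑ u : Fin D → ZMod p, G p u) / (p : ℝ) ^ D| ≤ B := by
  classical
  obtain ⟨C, c, hC, hc, hG⟩ := hG
  have hch : ∀ i : Fin K → ℕ, ∃ B : ℝ, 0 ≤ B ∧ (i ∈ Idx K R → ∀ (p : ℕ) [Fact p.Prime],
      |(∑ u : Fin D → ZMod p, mono e p i u) / (p : ℝ) ^ D| ≤ B) := by
    intro i
    by_cases hi : i ∈ Idx K R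
    · obtain ⟨B, hB0, hB⟩ := momk e hN hd i (((mem_Idx K R i).1 hi).trans hR)
      refine ⟨B + |∏ j : Fin K, (normal (i j) * ((j + 1 : ℕ) : ℝ) ^ (i j / 2))|, by positivity, fun _ p _ => ?_⟩
      have h1 := hB p
      have h2 : B / Real.sqrt p ≤ B := div_le_self hB0 (sqp1 p)
      have h3 := abs_add_le ((∑ u : Fin D → ZMod p, ∏ j : Fin K, bk e p (j + 1) u ^ i j) / (p : ℝ) ^ D -
        ∏ j : Fin K, (normal (i j) * ((j + 1 : ℕ) : ℝ) ^ (i j / 2))) (∏ j : Fin K, (normal (i j) * ((j + 1 : ℕ) : ℝ) ^ (i j / 2)))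
      rw [sub_add_cancel] at h3
      unfold mono
      linarith
    · exact ⟨0, le_rfl, fun h => absurd h hi⟩
  choose B hB0 hB using hch
  refine ⟨∑ i ∈ Idx K R, C * B i, sum_nonneg fun i _ => mul_nonneg hC (hB0 i), fun p _ => ?_⟩
  have h1 : (∑ u : Fin D → ZMod p, G p u) / (p : ℝ) ^ D = ∑ i ∈ Idx K R, c i p * ((∑ u : Fin D → ZMod p, mono e p i u) / (p : ℝ) ^ D) := by
    rw [sum_congr rfl (fun u _ => hG p u), sum_comm, sum_div]
    refine sum_congr rfl fun i _ => ?_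
    rw [← mul_sum, mul_div_assoc]
  rw [h1]
  refine (abs_sum_le_sum_abs _ _).trans (sum_le_sum fun i hi => ?_)
  rw [abs_mul]
  exact mul_le_mul (hc i p) (hB i hi p) (abs_nonneg _) hC

/-- the weights -/
noncomputable def wdl (N p k δ : ℕ) : ℝ := (Real.sqrt p ^ δ / Real.sqrt p ^ k) ^ (N - 1)

lemma wdl_le (hN : 2 ≤ N) (p : ℕ) [hp : Fact p.Prime] (k δ : ℕ) (hδ : δ < k) : |wdl N p k δ| ≤ 1 / Real.sqrt p := by
  have hs := sqp1 p
  have hs0 : 0 < Real.sqrt p := by linarith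
  obtain ⟨c, hc⟩ : ∃ c, k = δ + (c + 1) := ⟨k - δ - 1, by omega⟩
  unfold wdl
  rw [abs_of_nonneg (by positivity)]
  have e1 : Real.sqrt p ^ δ / Real.sqrt p ^ k = 1 / Real.sqrt p ^ (c + 1) := by
    rw [hc, pow_add]
    field_simp
  rw [e1, div_pow, one_pow, ← pow_mul]
  apply one_div_le_one_div_of_le hs0
  apply le_self_pow₀ hs
  exact Nat.mul_ne_zero (by omega) (by omega)

lemma pdiv (k : ℕ) (hk : k ≠ 0) : ∀ δ ∈ k.properDivisors, δ ≠ 0 ∧ δ < k ∧ (2 * δ = k ∨ 3 * δ ≤ k) := by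
  intro δ h
  have h' := Nat.mem_properDivisors.1 h
  have hδ0 : δ ≠ 0 := fun h0 => hk (by rw [h0] at h'; exact Nat.eq_zero_of_zero_dvd h'.1)
  refine ⟨hδ0, h'.2, ?_⟩
  obtain ⟨c, hc⟩ := h'.1
  have hc0 : c ≠ 0 := by rintro rfl; omega
  have hc1 : c ≠ 1 := by rintro rfl; omega
  by_cases hc2 : c = 2
  · left
    rw [hc, hc2]
    ring
  · right
    have : 3 ≤ c := by omega
    calc 3 * δ = δ * 3 := mul_comm _ _
      _ ≤ δ * c := Nat.mul_le_mul_left δ this
      _ = k := hc.symm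

lemma mdl_err (hN : 2 ≤ N) (p : ℕ) [hp : Fact p.Prime] (k : ℕ) (hk : k ≠ 0) : ∀ δ ∈ k.properDivisors,
    |mdl N p k δ - if 2 * δ = k then (1 : ℝ) else 0| ≤ (δ + 1) / Real.sqrt p := by
  intro δ hδ
  have hs := sqp1 p
  have hs0 : 0 < Real.sqrt p := by linarith
  have h2 : Real.sqrt p ^ 2 = p := Real.sq_sqrt (Nat.cast_nonneg p)
  obtain ⟨hδ0, hlt, hor⟩ := pdiv k hk δ hδ
  obtain ⟨m, hm⟩ : ∃ m, N = m + 2 := ⟨N - 2, by omega⟩
  obtain ⟨A, hA⟩ : ∃ A : ℝ, A = (δ : ℝ) * ((CP p N δ).card : ℝ) := ⟨_, rfl⟩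
  have hA0 : 0 ≤ A := by rw [hA]; positivity
  have hAle := card_cp_le p N δ hδ0
  have hAerr := card_cp_err p N δ hδ0
  rw [← hA] at hAle hAerr
  have hmd : mdl N p k δ = A * (1 / (p : ℝ) ^ δ - 1 / (p : ℝ) ^ k) / (Real.sqrt p ^ k) ^ (N - 1) := by
    unfold mdl
    rw [hA]
  rw [hmd]
  obtain ⟨t, ht⟩ : ∃ t : ℝ, t = Real.sqrt p ^ δ := ⟨_, rfl⟩
  have htp : Real.sqrt p ≤ t := by rw [ht]; exact le_self_pow₀ hs hδ0
  have ht1 : 1 ≤ t := by linarith
  have ht0 : 0 < t := by linarith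
  have hpt : (p : ℝ) ^ δ = t ^ 2 := by rw [ht, ← pow_mul, mul_comm, pow_mul, h2]
  rw [← ht] at hAerr
  rw [hpt] at hAle hAerr ⊢
  rcases hor with h2δ | h3δ
  · rw [if_pos h2δ]
    have hpk : (p : ℝ) ^ k = (t ^ 2) ^ 2 := by rw [← h2δ, ← hpt]; ring
    have hsk : Real.sqrt p ^ k = t ^ 2 := by rw [← h2δ, ht]; ring
    rw [hpk, hsk]
    have e1 : A * (1 / t ^ 2 - 1 / (t ^ 2) ^ 2) / (t ^ 2) ^ (N - 1) = A / (t ^ 2) ^ N * (1 - 1 / t ^ 2) := by
      rw [hm, Nat.add_sub_assoc (by norm_num)]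
      have : t ≠ 0 := ht0.ne'
      field_simp
      ring
    rw [e1]
    have htN : (0 : ℝ) < (t ^ 2) ^ N := by positivity
    have e2 : A / (t ^ 2) ^ N ≤ 1 := (div_le_one htN).2 hAle
    have e3 : 1 - A / (t ^ 2) ^ N ≤ δ / Real.sqrt p := by
      have e4 : 1 - A / (t ^ 2) ^ N = -(A - (t ^ 2) ^ N) / (t ^ 2) ^ N := by
        field_simp
        ring
      have e5 : -(A - (t ^ 2) ^ N) ≤ δ * t ^ N := (neg_le_abs _).trans hAerr
      rw [e4, div_le_div_iff₀ htN hs0]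
      have e6 : (t ^ 2) ^ N = t ^ N * t ^ N := by ring
      have e7 : Real.sqrt p ≤ t ^ N := htp.trans (le_self_pow₀ ht1 (by omega))
      calc -(A - (t ^ 2) ^ N) * Real.sqrt p ≤ (δ * t ^ N) * Real.sqrt p := mul_le_mul_of_nonneg_right e5 hs0.le
        _ ≤ (δ * t ^ N) * t ^ N := mul_le_mul_of_nonneg_left e7 (by positivity)
        _ = δ * (t ^ 2) ^ N := by rw [e6]; ring
    have e8 : 1 / t ^ 2 ≤ 1 / Real.sqrt p := by
      apply one_div_le_one_div_of_le hs0
      nlinarith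
    have e9 : 0 ≤ 1 / t ^ 2 := by positivity
    have e10 : 0 ≤ A / (t ^ 2) ^ N := by positivity
    have e11 : (δ + 1 : ℝ) / Real.sqrt p = δ / Real.sqrt p + 1 / Real.sqrt p := by ring
    rw [e11, abs_sub_comm, abs_of_nonneg (by nlinarith)]
    nlinarith
  · rw [if_neg (by omega), sub_zero]
    obtain ⟨c, hc⟩ : ∃ c, k = 2 * δ + (c + 1) := ⟨k - 2 * δ - 1, by omega⟩
    obtain ⟨v, hv⟩ : ∃ v : ℝ, v = Real.sqrt p ^ (c + 1) := ⟨_, rfl⟩
    have hv0 : 0 < v := by rw [hv]; positivity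
    have hvs : Real.sqrt p ≤ v := by rw [hv]; exact le_self_pow₀ hs (by omega)
    have hsk : Real.sqrt p ^ k = t ^ 2 * v := by rw [hc, hv, ht, pow_add]; ring
    have hp0 : (0 : ℝ) < p := by exact_mod_cast hp.out.pos
    have hinv : 0 ≤ 1 / (p : ℝ) ^ k := by positivity
    have hinv2 : 1 / (p : ℝ) ^ k ≤ 1 / t ^ 2 := by
      rw [← hpt]
      apply one_div_le_one_div_of_le (by positivity)
      exact pow_le_pow_right₀ (by exact_mod_cast hp.out.one_lt.le) hlt.le
    rw [hsk, abs_of_nonneg (div_nonneg (mul_nonneg hA0 (by linarith)) (by positivity))]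
    have e1 : A * (1 / t ^ 2 - 1 / (p : ℝ) ^ k) / (t ^ 2 * v) ^ (N - 1) ≤ A * (1 / t ^ 2) / (t ^ 2 * v) ^ (N - 1) := by
      apply div_le_div_of_nonneg_right _ (by positivity)
      apply mul_le_mul_of_nonneg_left _ hA0
      linarith
    have e2 : A * (1 / t ^ 2) / (t ^ 2 * v) ^ (N - 1) ≤ 1 / v ^ (N - 1) := by
      have e3 : A * (1 / t ^ 2) / (t ^ 2 * v) ^ (N - 1) = (A / (t ^ 2) ^ N) * (1 / v ^ (N - 1)) := by
        rw [hm, Nat.add_sub_assoc (by norm_num)]
        have : t ≠ 0 := ht0.ne'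
        field_simp
        ring
      rw [e3]
      apply mul_le_of_le_one_left (by positivity)
      exact (div_le_one (by positivity)).2 hAle
    have e4 : 1 / v ^ (N - 1) ≤ 1 / Real.sqrt p := by
      apply one_div_le_one_div_of_le hs0
      exact hvs.trans (le_self_pow₀ (by linarith) (by omega))
    have e5 : 1 / Real.sqrt p ≤ (δ + 1) / Real.sqrt p := by
      apply div_le_div_of_nonneg_right _ hs0.le
      have : (0 : ℝ) ≤ δ := Nat.cast_nonneg _
      linarith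
    linarith

lemma etak_sum (k : ℕ) (hk : k ≠ 0) : etak k = ∑ δ ∈ k.properDivisors, if 2 * δ = k then (1 : ℝ) else 0 := by
  classical
  by_cases hk2 : Even k
  · obtain ⟨j, hj⟩ := hk2
    have hjm : j ∈ k.properDivisors := by
      rw [Nat.mem_properDivisors]
      exact ⟨⟨2, by omega⟩, by omega⟩
    rw [sum_eq_single j]
    · rw [if_pos (by omega)]
      unfold etak
      rw [if_pos ⟨j, hj⟩]
    · intro d _ hdj
      rw [if_neg (by omega)]
    · exact fun h => absurd hjm h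
  · unfold etak
    rw [if_neg hk2]
    symm
    apply sum_eq_zero
    intro d _
    rw [if_neg]
    intro h
    exact hk2 ⟨d, by omega⟩

/-- the number of points as a combination of the sums over the closed points -/
lemma rem_pt (hN : 2 ≤ N) (p : ℕ) [hp : Fact p.Prime] (k : ℕ) (hk : k ≠ 0) (u : Fin D → ZMod p) : Sk e p k u =
    (bk e p k u + etak k) + ∑ δ ∈ k.properDivisors, (bk e p δ u * wdl N p k δ + (mdl N p k δ - if 2 * δ = k then (1 : ℝ) else 0)) := by
  have hs0 : 0 < Real.sqrt p := by have := sqp1 p; linarith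
  rw [Sk_eq e p (by omega) k hk u, ← Nat.insert_self_properDivisors hk, sum_insert (by simp)]
  have e1 : bk e p k u * (Real.sqrt p ^ k / Real.sqrt p ^ k) ^ (N - 1) + mdl N p k k = bk e p k u := by
    unfold mdl
    rw [div_self (by positivity), one_pow, sub_self]
    ring
  rw [e1, etak_sum k hk]
  unfold wdl
  have e2 : ∀ δ, bk e p δ u * (Real.sqrt p ^ δ / Real.sqrt p ^ k) ^ (N - 1) + (mdl N p k δ - if 2 * δ = k then (1 : ℝ) else 0) =
      (bk e p δ u * (Real.sqrt p ^ δ / Real.sqrt p ^ k) ^ (N - 1) + mdl N p k δ) - if 2 * δ = k then (1 : ℝ) else 0 := fun δ => by ring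
  simp only [e2]
  rw [sum_sub_distrib]
  ring

/-- the leading part of the trace -/
noncomputable def tr0 (p : ℕ) [Fact p.Prime] (k : ℕ) (u : Fin D → ZMod p) : ℝ := (-1) ^ (N - 1) * (bk e p k u + etak k)

lemma etak_le (k : ℕ) : |etak k| ≤ 1 := by
  unfold etak
  split_ifs <;> simp

lemma tr0_cls {K : ℕ} (j : Fin K) : Cls e K (j + 1) (fun p _ u => tr0 e p (j + 1) u) := by
  have h1 : Cls e K (j + 1) (fun p _ _ => etak (j + 1)) :=
    (Cls.const (fun _ => etak (j + 1)) 1 (fun _ => etak_le _)).mono' (Nat.zero_le _)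
  have h2 := ((Cls.bk (e := e) j).add h1).smul (fun _ => (-1) ^ (N - 1)) 1 (fun _ => by simp)
  exact h2.congr fun p _ u => rfl

/-- the error of the trace, multiplied by `p ^ (1 / 2)` -/
lemma trk_err (hN : 2 ≤ N) (hd : 0 < d) {K : ℕ} (j : Fin K) : Cls e K (j + 1) (fun p _ u => Real.sqrt p * (trk e p (j + 1) u - tr0 e p (j + 1) u)) := by
  classical
  obtain ⟨k, hk⟩ : ∃ k : ℕ, k = (j : ℕ) + 1 := ⟨_, rfl⟩
  have hk0 : k ≠ 0 := by omega
  obtain ⟨F, hF⟩ : ∃ F : ℕ → ℕ → ℝ, F = fun δ p => if h : p.Prime then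
    (haveI : Fact p.Prime := ⟨h⟩; Real.sqrt p * wdl N p k δ) else 0 := ⟨_, rfl⟩
  obtain ⟨H, hH⟩ : ∃ H : ℕ → ℕ → ℝ, H = fun δ p => if h : p.Prime then
    (haveI : Fact p.Prime := ⟨h⟩; Real.sqrt p * (mdl N p k δ - if 2 * δ = k then (1 : ℝ) else 0)) else 0 := ⟨_, rfl⟩
  obtain ⟨I, hI⟩ : ∃ I : ℕ → ℝ, I = fun p => if h : p.Prime then
    (haveI : Fact p.Prime := ⟨h⟩; Real.sqrt p * ((infp N d p k - ∑ i ∈ range (N - 1), ((p : ℝ) ^ k) ^ i) / (Real.sqrt p ^ k) ^ (N - 1))) else 0 := ⟨_, rfl⟩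
  have hF1 : ∀ δ ∈ k.properDivisors, ∀ p, |F δ p| ≤ 1 := by
    intro δ hδ p
    rw [hF]
    show |if h : p.Prime then (haveI : Fact p.Prime := ⟨h⟩; Real.sqrt p * wdl N p k δ) else 0| ≤ 1
    split_ifs with h
    · have : Fact p.Prime := ⟨h⟩
      have hs0 : 0 < Real.sqrt p := by have := sqp1 p; linarith
      have h1 := wdl_le hN p k δ (pdiv k hk0 δ hδ).2.1
      rw [abs_mul, abs_of_pos hs0]
      calc Real.sqrt p * |wdl N p k δ| ≤ Real.sqrt p * (1 / Real.sqrt p) := mul_le_mul_of_nonneg_left h1 hs0.le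
        _ = 1 := by field_simp
    · simp
  have hH1 : ∀ δ ∈ k.properDivisors, ∀ p, |H δ p| ≤ δ + 1 := by
    intro δ hδ p
    rw [hH]
    show |if h : p.Prime then (haveI : Fact p.Prime := ⟨h⟩; Real.sqrt p * (mdl N p k δ - if 2 * δ = k then (1 : ℝ) else 0)) else 0| ≤ δ + 1
    by_cases h : p.Prime
    · rw [dif_pos h]
      have : Fact p.Prime := ⟨h⟩
      have hs0 : 0 < Real.sqrt p := by have := sqp1 p; linarith
      have h1 := mdl_err hN p k hk0 δ hδ
      rw [abs_mul, abs_of_pos hs0]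
      refine (mul_le_mul_of_nonneg_left h1 hs0.le).trans (le_of_eq ?_)
      field_simp
    · rw [dif_neg h, abs_zero]
      positivity
  have hI1 : ∀ p, |I p| ≤ 2 * (d : ℝ) ^ N := by
    intro p
    rw [hI]
    show |if h : p.Prime then (haveI : Fact p.Prime := ⟨h⟩; Real.sqrt p * ((infp N d p k - ∑ i ∈ range (N - 1), ((p : ℝ) ^ k) ^ i) / (Real.sqrt p ^ k) ^ (N - 1))) else 0| ≤ _
    split_ifs with h
    · have : Fact p.Prime := ⟨h⟩
      have hs0 : 0 < Real.sqrt p := by have := sqp1 p; linarith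
      have h1 := inf_err (N := N) (d := d) p hd hN k hk0
      rw [abs_mul, abs_of_pos hs0]
      refine (mul_le_mul_of_nonneg_left h1 hs0.le).trans (le_of_eq ?_)
      field_simp
    · rw [abs_zero]
      positivity
  have hterm : ∀ δ ∈ k.properDivisors, Cls e K k (fun p _ u => F δ p * bk e p δ u + H δ p) := by
    intro δ hδ
    obtain ⟨hδ0, hlt, _⟩ := pdiv k hk0 δ hδ
    obtain ⟨i, hi⟩ : ∃ i : ℕ, δ = i + 1 := ⟨δ - 1, by omega⟩
    have hiK : i < K := by have := j.2; omega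
    have h1 : Cls e K δ (fun p _ u => bk e p δ u) := by
      have := Cls.bk (e := e) (⟨i, hiK⟩ : Fin K)
      rw [hi]
      exact this
    have h2 := (h1.smul (F δ) 1 (hF1 δ hδ)).mono' hlt.le
    have h3 : Cls e K k (fun p _ _ => H δ p) := (Cls.const (H δ) (δ + 1) (hH1 δ hδ)).mono' (Nat.zero_le _)
    exact h2.add h3
  have h4 := Cls.sum k.properDivisors hterm
  have h5 : Cls e K k (fun p _ _ => I p) := (Cls.const I _ hI1).mono' (Nat.zero_le _)
  have h6 := (h4.add h5).smul (fun _ => (-1) ^ (N - 1)) 1 (fun _ => by simp)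
  rw [← hk]
  refine h6.congr fun p hp u => ?_
  have h7 := rem_pt e hN p k hk0 u
  have h8 := trk_eq e p hN k hk0 u
  rw [h8, h7]
  unfold tr0
  rw [hI, hF, hH]
  simp only [dif_pos hp.out]
  have h9 : ∑ x ∈ k.properDivisors, (Real.sqrt p * wdl N p k x * bk e p x u + Real.sqrt p * (mdl N p k x - if 2 * x = k then (1 : ℝ) else 0)) =
      Real.sqrt p * ∑ δ ∈ k.properDivisors, (bk e p δ u * wdl N p k δ + (mdl N p k δ - if 2 * δ = k then (1 : ℝ) else 0)) := by
    rw [mul_sum]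
    exact sum_congr rfl fun δ _ => by ring
  rw [h9]
  ring

end

end Pool.Agent.N842.HS
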