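import Pool.Agent.N842.HS.NFW

/-!
# The prime ideals of a number field and the homomorphisms to prime fields
-/

set_option autoImplicit false

namespace Pool.Agent.N842.HS

open Finset NumberField IsDedekindDomain

section
variable {K : Type} [Field K] [NumberField K]

/-- the kernel of a homomorphism to a prime field -/
noncomputable def hv {p : ℕ} [hp : Fact p.Prime] (φ : 𝓞 K →+* ZMod p) : HeightOneSpectrum (𝓞 K) where
  asIdeal := RingHom.ker φ
  isPrime := RingHom.ker_isPrime φ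
  ne_bot := by
    intro h
    have h1 : (p : 𝓞 K) ∈ RingHom.ker φ := by
      rw [RingHom.mem_ker, map_natCast, ZMod.natCast_self]
    rw [h, Ideal.mem_bot] at h1
    exact hp.out.ne_zero (by exact_mod_cast h1)

lemma hv_asIdeal {p : ℕ} [Fact p.Prime] (φ : 𝓞 K →+* ZMod p) : (hv φ).asIdeal = RingHom.ker φ := rfl

lemma norm_card (v : HeightOneSpectrum (𝓞 K)) : Ideal.absNorm v.asIdeal = Nat.card (𝓞 K ⧸ v.asIdeal) := by
  rw [Ideal.absNorm_apply, Submodule.cardQuot_apply]

lemma absNorm_hv {p : ℕ} [Fact p.Prime] (φ : 𝓞 K →+* ZMod p) : Ideal.absNorm (hv φ).asIdeal = p := by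
  rw [norm_card, hv_asIdeal]
  have e : (𝓞 K ⧸ RingHom.ker φ) ≃+* ZMod p :=
    RingHom.quotientKerEquivOfSurjective (ZMod.ringHom_surjective φ)
  rw [Nat.card_congr e.toEquiv, Nat.card_zmod]

lemma hv_inj {p : ℕ} [hp : Fact p.Prime] (φ ψ : 𝓞 K →+* ZMod p) (h : hv φ = hv ψ) : φ = ψ := by
  have h1 : RingHom.ker φ = RingHom.ker ψ := congrArg HeightOneSpectrum.asIdeal h
  ext x
  have h2 : x - ((φ x).val : 𝓞 K) ∈ RingHom.ker φ := by
    rw [RingHom.mem_ker, map_sub, map_natCast, ZMod.natCast_zmod_val, sub_self]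
  rw [h1, RingHom.mem_ker, map_sub, map_natCast, ZMod.natCast_zmod_val, sub_eq_zero] at h2
  exact h2.symm

lemma res_char (v : HeightOneSpectrum (𝓞 K)) : ∃ p f : ℕ, p.Prime ∧ 1 ≤ f ∧ Ideal.absNorm v.asIdeal = p ^ f ∧ (p : 𝓞 K) ∈ v.asIdeal := by
  have : v.asIdeal.IsMaximal := v.isMaximal
  let _ : Field (𝓞 K ⧸ v.asIdeal) := Ideal.Quotient.field v.asIdeal
  have hfin : Finite (𝓞 K ⧸ v.asIdeal) := Ideal.finiteQuotientOfFreeOfNeBot _ v.ne_bot
  have : Fintype (𝓞 K ⧸ v.asIdeal) := Fintype.ofFinite _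
  obtain ⟨p, hp⟩ := CharP.exists (𝓞 K ⧸ v.asIdeal)
  obtain ⟨n, hn1, hn2⟩ := FiniteField.card (𝓞 K ⧸ v.asIdeal) p
  refine ⟨p, n, hn1, n.2, ?_, ?_⟩
  · rw [norm_card, Nat.card_eq_fintype_card, hn2]
  · rw [← Ideal.Quotient.eq_zero_iff_mem, map_natCast]
    exact CharP.cast_eq_zero _ p

lemma hv_surj (v : HeightOneSpectrum (𝓞 K)) (p : ℕ) [hp : Fact p.Prime] (hv' : Ideal.absNorm v.asIdeal = p) :
    ∃ φ : 𝓞 K →+* ZMod p, hv φ = v := by
  have : v.asIdeal.IsMaximal := v.isMaximal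
  let _ : Field (𝓞 K ⧸ v.asIdeal) := Ideal.Quotient.field v.asIdeal
  have hfin : Finite (𝓞 K ⧸ v.asIdeal) := Ideal.finiteQuotientOfFreeOfNeBot _ v.ne_bot
  have : Fintype (𝓞 K ⧸ v.asIdeal) := Fintype.ofFinite _
  have hc : Fintype.card (𝓞 K ⧸ v.asIdeal) = p := by
    rw [← Nat.card_eq_fintype_card, ← norm_card, hv']
  have e : ZMod p ≃+* (𝓞 K ⧸ v.asIdeal) := ZMod.ringEquivOfPrime _ hp.out hc
  refine ⟨(e.symm : (𝓞 K ⧸ v.asIdeal) →+* ZMod p).comp (Ideal.Quotient.mk v.asIdeal), ?_⟩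
  apply HeightOneSpectrum.ext
  rw [hv_asIdeal]
  ext x
  rw [RingHom.mem_ker, RingHom.comp_apply]
  show e.symm (Ideal.Quotient.mk v.asIdeal x) = 0 ↔ x ∈ v.asIdeal
  rw [map_eq_zero_iff _ e.symm.injective, Ideal.Quotient.eq_zero_iff_mem]

variable (K) in
lemma prime_above (p : ℕ) (hp : p.Prime) (S : Finset (HeightOneSpectrum (𝓞 K))) (hS : ∀ v ∈ S, (p : 𝓞 K) ∈ v.asIdeal) :
    S.card ≤ Module.finrank ℤ (𝓞 K) := by
  classical
  have h1 : ∏ v ∈ S, v.asIdeal ∣ Ideal.span {(p : 𝓞 K)} := by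
    rw [← prod_image (s := S) (g := fun v : HeightOneSpectrum (𝓞 K) => v.asIdeal) (f := fun I => I) (fun a _ b _ hab => HeightOneSpectrum.ext hab)]
    apply Finset.prod_primes_dvd
    · intro I hI
      obtain ⟨v, _, rfl⟩ := mem_image.1 hI
      exact v.prime
    · intro I hI
      obtain ⟨v, hv1, rfl⟩ := mem_image.1 hI
      rw [Ideal.dvd_span_singleton]
      exact hS v hv1
  have h2 : ∏ v ∈ S, Ideal.absNorm v.asIdeal ∣ Ideal.absNorm (Ideal.span {(p : 𝓞 K)}) := by
    rw [← map_prod]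
    exact Ideal.absNorm_dvd_absNorm_of_le (Ideal.le_of_dvd h1)
  have h3 : Ideal.absNorm (Ideal.span {(p : 𝓞 K)}) = p ^ Module.finrank ℤ (𝓞 K) := by
    rw [Ideal.absNorm_span_singleton, ← map_natCast (algebraMap ℤ (𝓞 K)) p, Algebra.norm_algebraMap, Int.natAbs_pow, Int.natAbs_natCast]
  have h4 : ∀ v ∈ S, p ≤ Ideal.absNorm v.asIdeal := by
    intro v hv1
    obtain ⟨q, f, hq, hf, hqf, hqv⟩ := res_char v
    have hpq : q = p := by
      by_contra hne
      have hcop : Nat.Coprime q p := (Nat.coprime_primes hq hp).2 hne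
      have h5 := Nat.Coprime.isCoprime hcop
      obtain ⟨a, b, hab⟩ := h5
      have h6 : (1 : 𝓞 K) ∈ v.asIdeal := by
        have h7 : ((a * q + b * p : ℤ) : 𝓞 K) = 1 := by rw [hab, Int.cast_one]
        rw [← h7]
        push_cast
        exact v.asIdeal.add_mem (v.asIdeal.mul_mem_left _ hqv) (v.asIdeal.mul_mem_left _ (hS v hv1))
      exact v.isPrime.ne_top ((Ideal.eq_top_iff_one _).2 h6)
    rw [hqf, hpq]
    exact Nat.le_self_pow (by omega) p
  have h5 : p ^ S.card ≤ ∏ v ∈ S, Ideal.absNorm v.asIdeal := by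
    rw [← prod_const]
    exact prod_le_prod' h4
  have h6 : p ^ S.card ≤ p ^ Module.finrank ℤ (𝓞 K) := by
    rw [← h3]
    refine h5.trans (Nat.le_of_dvd ?_ h2)
    rw [h3]
    exact pow_pos hp.pos _
  exact (Nat.pow_le_pow_iff_right hp.one_lt).1 h6

variable (K) in
lemma finite_le (T : ℕ) : {v : HeightOneSpectrum (𝓞 K) | Ideal.absNorm v.asIdeal ≤ T}.Finite := by
  have h := Ideal.finite_setOfPred_absNorm_le (S := 𝓞 K) T
  refine Set.Finite.of_finite_image (f := fun v : HeightOneSpectrum (𝓞 K) => v.asIdeal) (h.subset ?_) ?_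
  · rintro I ⟨v, hv1, rfl⟩
    exact hv1
  · intro a _ b _ hab
    exact HeightOneSpectrum.ext hab

variable (K) in
/-- the prime ideals of bounded norm -/
noncomputable def VT (T : ℕ) : Finset (HeightOneSpectrum (𝓞 K)) := (finite_le K T).toFinset

lemma mem_VT (T : ℕ) (v : HeightOneSpectrum (𝓞 K)) : v ∈ VT K T ↔ Ideal.absNorm v.asIdeal ≤ T := by
  unfold VT
  rw [Set.Finite.mem_toFinset]
  exact Iff.rfl

variable (K) in
/-- the number of the prime ideals of higher degree -/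
lemma card_high (T : ℕ) : ((VT K T).filter (fun v => ¬ (Ideal.absNorm v.asIdeal).Prime)).card ≤ Module.finrank ℤ (𝓞 K) * Nat.sqrt T := by
  classical
  choose P f hP hf hPf hPv using res_char (K := K)
  have h1 : ∀ v ∈ (VT K T).filter (fun v => ¬ (Ideal.absNorm v.asIdeal).Prime), P v ∈ Finset.Icc 1 (Nat.sqrt T) := by
    intro v hv1
    rw [mem_filter, mem_VT] at hv1
    rw [Finset.mem_Icc]
    refine ⟨(hP v).pos, ?_⟩
    rw [Nat.le_sqrt']
    have h2 : 2 ≤ f v := by
      by_contra hcon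
      have h3 : f v = 1 := by
        have := hf v
        omega
      apply hv1.2
      rw [hPf v, h3, pow_one]
      exact hP v
    refine le_trans ?_ hv1.1
    rw [hPf v]
    exact Nat.pow_le_pow_right (hP v).pos h2
  have h2 := card_le_mul_card_image_of_maps_to h1 (Module.finrank ℤ (𝓞 K)) (fun p hp => by
    by_cases hp' : p.Prime
    · refine prime_above K p hp' _ fun v hv1 => ?_
      rw [mem_filter] at hv1
      rw [← hv1.2]
      exact hPv v
    · have h3 : (((VT K T).filter (fun v => ¬ (Ideal.absNorm v.asIdeal).Prime)).filter (fun v => P v = p)) = ∅ := by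
        rw [filter_eq_empty_iff]
        intro v _ h
        rw [← h] at hp'
        exact hp' (hP v)
      rw [h3, card_empty]
      exact Nat.zero_le _)
  rw [Nat.card_Icc, Nat.add_sub_cancel] at h2
  exact h2

/-- **the sums over the prime ideals of degree one** -/
theorem sum_deg1 (T : ℕ) (F : HeightOneSpectrum (𝓞 K) → ℝ) :
    ∑ v ∈ (VT K T).filter (fun v => (Ideal.absNorm v.asIdeal).Prime), F v =
      ∑ k ∈ range (Nat.primeCounting T), ∑ᶠ φ : (e : Fin 1) → (𝓞 K →+* ZMod (Nat.nth Nat.Prime (k + e))), F (hv (φ 0)) := by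
  classical
  have hfin : ∀ k : ℕ, Finite ((e : Fin 1) → (𝓞 K →+* ZMod (Nat.nth Nat.Prime (k + e)))) := by
    intro k
    have : ∀ e : Fin 1, Finite (𝓞 K →+* ZMod (Nat.nth Nat.Prime (k + e))) := fun e => hom_finite (𝓞 K) _
    exact Pi.finite
  have hft : ∀ k : ℕ, Nonempty (Fintype ((e : Fin 1) → (𝓞 K →+* ZMod (Nat.nth Nat.Prime (k + e))))) := fun k => ⟨Fintype.ofFinite _⟩
  have hft2 : ∀ k : ℕ, Fintype ((e : Fin 1) → (𝓞 K →+* ZMod (Nat.nth Nat.Prime (k + e)))) := fun k => (hft k).some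
  simp only [finsum_eq_sum_of_fintype]
  have hcount : ∀ k : ℕ, k < Nat.primeCounting T ↔ Nat.nth Nat.Prime k ≤ T := by
    intro k
    unfold Nat.primeCounting Nat.primeCounting'
    constructor
    · intro h
      exact Nat.lt_succ_iff.1 (Nat.nth_lt_of_lt_count h)
    · intro h
      by_contra hcon
      push Not at hcon
      have h2 : T + 1 ≤ Nat.nth Nat.Prime k := by
        by_contra h3
        push Not at h3
        have h4 : Nat.count Nat.Prime (Nat.nth Nat.Prime k) < Nat.count Nat.Prime (T + 1) :=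
          Nat.count_strict_mono (Nat.prime_nth_prime k) h3
        have h5 : Nat.count Nat.Prime (Nat.nth Nat.Prime k) = k := Nat.primeCounting'_nth_eq k
        omega
      omega
  rw [← sum_sigma (range (Nat.primeCounting T)) (fun k => (univ : Finset ((e : Fin 1) → (𝓞 K →+* ZMod (Nat.nth Nat.Prime (k + e))))))
    (fun z => F (hv (z.2 0)))]
  symm
  refine sum_bij (fun z _ => hv (z.2 0)) ?_ ?_ ?_ ?_
  · intro z hz
    rw [mem_sigma, mem_range, hcount] at hz
    rw [mem_filter, mem_VT, absNorm_hv]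
    exact ⟨hz.1, Nat.prime_nth_prime _⟩
  · intro z _ z' _ h
    obtain ⟨k, φ⟩ := z
    obtain ⟨k', φ'⟩ := z'
    have h1 : Nat.nth Nat.Prime (k + ((0 : Fin 1) : ℕ)) = Nat.nth Nat.Prime (k' + ((0 : Fin 1) : ℕ)) := by
      have h2 := congrArg (fun v : HeightOneSpectrum (𝓞 K) => Ideal.absNorm v.asIdeal) h
      beta_reduce at h2
      rw [absNorm_hv, absNorm_hv] at h2
      exact h2
    have h2 := Nat.nth_injective Nat.infinite_setOfPred_prime h1
    have h3 : k = k' := by simpa using h2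
    subst h3
    have h4 := hv_inj _ _ h
    have h5 : φ = φ' := by
      funext e
      have he : e = 0 := Subsingleton.elim _ _
      subst he
      exact h4
    rw [h5]
  · intro v hv1
    rw [mem_filter, mem_VT] at hv1
    obtain ⟨k, hk⟩ : ∃ k, Nat.nth Nat.Prime k = Ideal.absNorm v.asIdeal := ⟨Nat.count Nat.Prime (Ideal.absNorm v.asIdeal), Nat.nth_count hv1.2⟩
    obtain ⟨φ, hφ⟩ := hv_surj v (Nat.nth Nat.Prime k) hk.symm
    refine ⟨⟨k, fun e => ?_⟩, ?_, ?_⟩
    · exact (by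
        have he : (e : ℕ) = 0 := by omega
        rw [he]
        exact φ)
    · rw [mem_sigma, mem_range, hcount, hk]
      exact ⟨hv1.1, mem_univ _⟩
    · exact hφ
  · intro z _
    rfl

end

end Pool.Agent.N842.HS
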