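import Pool.Agent.N842.HS.Momk

/-!
# The numbers of points and the sums over the closed points
-/

set_option autoImplicit false

namespace Pool.Agent.N842.HS

open Finset MvPolynomial
open Pool.Agent.Y57.FD.Mom (normal)
open Pool.Agent.N842.ST (gfFin card_gf normal_nonneg)

attribute [local instance] gfFin

open Classical in
/-- the shift of the mean -/
noncomputable def etak (k : ℕ) : ℝ := if Even k then 1 else 0

section
variable {N d D : ℕ} (e : Fin D ≃ Mon N d)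

/-- the normalised number of points over the field with `p ^ k` elements -/
noncomputable def Sk (p : ℕ) [Fact p.Prime] (k : ℕ) (u : Fin D → ZMod p) : ℝ :=
  (∑ y : Fin N → GaloisField p k, nux (GaloisField p k) (aeval y (fpl p e u))) / (Real.sqrt p ^ k) ^ N

open Classical in
lemma nux_gf (p : ℕ) [Fact p.Prime] (k : ℕ) (hk : k ≠ 0) (z : GaloisField p k) : nux (GaloisField p k) z =
    Real.sqrt p ^ k * ((if z = 0 then 1 else 0) - 1 / (p : ℝ) ^ k) := by
  unfold nux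
  rw [sqrt_card p k hk, card_gf p k hk]
  push_cast
  rfl

lemma Sk_count (p : ℕ) [hp : Fact p.Prime] (hN : 1 ≤ N) (k : ℕ) (hk : k ≠ 0) (u : Fin D → ZMod p) :
    Sk e p k u = ((Nat.card {y : Fin N → GaloisField p k // aeval y (fpl p e u) = 0} : ℝ) - ((p : ℝ) ^ k) ^ (N - 1)) / (Real.sqrt p ^ k) ^ (N - 1) := by
  classical
  have hs0 : 0 < Real.sqrt p := by have := sqp1 p; linarith
  have hp0 : (0 : ℝ) < p := by exact_mod_cast hp.out.pos
  have h2 : Real.sqrt p ^ 2 = p := Real.sq_sqrt (Nat.cast_nonneg p)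
  unfold Sk
  obtain ⟨m, rfl⟩ : ∃ m, N = m + 1 := ⟨N - 1, by omega⟩
  have h1 : ∀ y : Fin (m + 1) → GaloisField p k, nux (GaloisField p k) (aeval y (fpl p e u)) =
      Real.sqrt p ^ k * (if aeval y (fpl p e u) = 0 then 1 else 0) - Real.sqrt p ^ k * (1 / (p : ℝ) ^ k) := by
    intro y
    rw [nux_gf p k hk, mul_sub]
  rw [sum_congr rfl (fun y _ => h1 y), sum_sub_distrib, ← mul_sum, sum_boole, sum_const, card_univ, Fintype.card_fun, Fintype.card_fin,
    card_gf p k hk, nsmul_eq_mul, Nat.add_sub_cancel, Nat.card_eq_fintype_card, Fintype.card_subtype]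
  push_cast
  obtain ⟨s, hs⟩ : ∃ s : ℝ, s = Real.sqrt p ^ k := ⟨_, rfl⟩
  have hspos : 0 < s := by rw [hs]; positivity
  have hps : (p : ℝ) ^ k = s ^ 2 := by rw [hs, ← pow_mul, mul_comm, pow_mul, h2]
  rw [← hs, hps]
  rw [div_eq_div_iff (by positivity) (by positivity)]
  field_simp
  ring

/-- the mean of the contribution of the closed points of degree `δ` -/
noncomputable def mdl (N p : ℕ) [Fact p.Prime] (k δ : ℕ) : ℝ :=
  (δ : ℝ) * ((CP p N δ).card : ℝ) * (1 / (p : ℝ) ^ δ - 1 / (p : ℝ) ^ k) / (Real.sqrt p ^ k) ^ (N - 1)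

lemma Sk_eq (p : ℕ) [hp : Fact p.Prime] (hN : 1 ≤ N) (k : ℕ) (hk : k ≠ 0) (u : Fin D → ZMod p) :
    Sk e p k u = ∑ δ ∈ k.divisors, (bk e p δ u * (Real.sqrt p ^ δ / Real.sqrt p ^ k) ^ (N - 1) + mdl N p k δ) := by
  classical
  have hs0 : 0 < Real.sqrt p := by have := sqp1 p; linarith
  have hp0 : (0 : ℝ) < p := by exact_mod_cast hp.out.pos
  have h1 := sum_pts p N k hk (fun y => nux (GaloisField p k) (aeval y (fpl p e u)))
    (fun δ P => Real.sqrt p ^ k * ((if aeval (rp p N δ P) (fpl p e u) = 0 then 1 else 0) - 1 / (p : ℝ) ^ k)) (by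
      intro δ hδ P hP y hy
      show nux (GaloisField p k) (aeval y (fpl p e u)) = _
      rw [nux_gf p k hk]
      have e1 : aeval y (fpl p e u) = 0 ↔ aeval (rp p N δ P) (fpl p e u) = 0 := by
        rw [← mem_kr, hy, ← mem_kr, kr_rp p N δ P hP]
      by_cases h : aeval y (fpl p e u) = 0
      · rw [if_pos h, if_pos (e1.1 h)]
      · rw [if_neg h, if_neg (fun h2 => h (e1.2 h2))])
  unfold Sk
  rw [h1, sum_div]
  refine sum_congr rfl fun δ hδ => ?_
  have hδ' := (Nat.mem_divisors.1 hδ).1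
  have hδ0 : δ ≠ 0 := fun h => hk (by rw [h] at hδ'; exact Nat.eq_zero_of_zero_dvd hδ')
  have h2 : ∀ P ∈ CP p N δ, Real.sqrt p ^ k * ((if aeval (rp p N δ P) (fpl p e u) = 0 then 1 else 0) - 1 / (p : ℝ) ^ k) =
      Real.sqrt p ^ k / Real.sqrt p ^ δ * nux (GaloisField p δ) (aeval (rp p N δ P) (fpl p e u)) +
        Real.sqrt p ^ k * (1 / (p : ℝ) ^ δ - 1 / (p : ℝ) ^ k) := by
    intro P _
    rw [nux_gf p δ hδ0]
    have : (Real.sqrt p ^ δ) ≠ 0 := by positivity
    field_simp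
    ring
  rw [sum_congr rfl h2, sum_add_distrib, ← mul_sum, sum_const, nsmul_eq_mul]
  unfold bk mdl Gk
  obtain ⟨m, rfl⟩ : ∃ m, N = m + 1 := ⟨N - 1, by omega⟩
  rw [Nat.add_sub_cancel]
  obtain ⟨s, hs⟩ : ∃ s : ℝ, s = Real.sqrt p ^ k := ⟨_, rfl⟩
  obtain ⟨t, ht⟩ : ∃ t : ℝ, t = Real.sqrt p ^ δ := ⟨_, rfl⟩
  have hspos : 0 < s := by rw [hs]; positivity
  have htpos : 0 < t := by rw [ht]; positivity
  rw [← hs, ← ht]
  rw [div_pow]
  field_simp
  ring

/-- the bound of the mean of the absolute value -/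
lemma mean_bk (hN : 2 ≤ N) (hd : 0 < d) (δ : ℕ) (hδ : δ ≠ 0) (hδd : 2 * δ ≤ d) : ∃ C : ℝ, 0 ≤ C ∧ ∀ (p : ℕ) [Fact p.Prime],
    (∑ u : Fin D → ZMod p, |bk e p δ u|) / (p : ℝ) ^ D ≤ C := by
  classical
  obtain ⟨i, rfl⟩ : ∃ i, δ = i + 1 := ⟨δ - 1, by omega⟩
  obtain ⟨C, hC0, hC⟩ := momk e hN hd (n := i + 1) (fun j => if j = Fin.last i then 2 else 0) (by
    rw [sum_eq_single (Fin.last i)]
    · simp only [Fin.val_last, if_true]
      omega
    · intro j _ hj
      rw [if_neg hj, mul_zero]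
    · intro h
      exact absurd (mem_univ _) h)
  have hn2 := normal_nonneg 2
  refine ⟨(1 + (normal 2 * ((i + 1 : ℕ) : ℝ) + C)) / 2, by positivity, fun p hp => ?_⟩
  have h1 := hC p
  have e1 : ∀ u : Fin D → ZMod p, ∏ j : Fin (i + 1), bk e p (j + 1) u ^ (if j = Fin.last i then 2 else 0) = bk e p (i + 1) u ^ 2 := by
    intro u
    rw [prod_eq_single (Fin.last i)]
    · simp
    · intro j _ hj
      rw [if_neg hj, pow_zero]
    · intro h
      exact absurd (mem_univ _) h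
  have e2 : ∏ j : Fin (i + 1), (normal (if j = Fin.last i then 2 else 0) * ((j + 1 : ℕ) : ℝ) ^ ((if j = Fin.last i then 2 else 0) / 2)) =
      normal 2 * ((i + 1 : ℕ) : ℝ) := by
    rw [prod_eq_single (Fin.last i)]
    · simp
    · intro j _ hj
      rw [if_neg hj]
      simp [Pool.Agent.N842.ST.normal_zero]
    · intro h
      exact absurd (mem_univ _) h
  simp only [e1, e2] at h1
  have hp0 : (0 : ℝ) < p := by exact_mod_cast hp.out.pos
  have hs := sqp1 p
  have hpD : (0 : ℝ) < (p : ℝ) ^ D := by positivity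
  have h2 : (∑ u : Fin D → ZMod p, bk e p (i + 1) u ^ 2) / (p : ℝ) ^ D ≤ normal 2 * ((i + 1 : ℕ) : ℝ) + C := by
    have := (abs_le.1 h1).2
    have e3 : C / Real.sqrt p ≤ C := div_le_self hC0 hs
    linarith
  have h3 : (∑ u : Fin D → ZMod p, |bk e p (i + 1) u|) / (p : ℝ) ^ D ≤ (1 + (∑ u : Fin D → ZMod p, bk e p (i + 1) u ^ 2) / (p : ℝ) ^ D) / 2 := by
    have e4 : (1 + (∑ u : Fin D → ZMod p, bk e p (i + 1) u ^ 2) / (p : ℝ) ^ D) / 2 =
        (∑ u : Fin D → ZMod p, (1 + bk e p (i + 1) u ^ 2) / 2) / (p : ℝ) ^ D := by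
      rw [← sum_div, sum_add_distrib, sum_const, card_univ, Fintype.card_fun, Fintype.card_fin, ZMod.card, nsmul_eq_mul, mul_one]
      push_cast
      field_simp
    rw [e4]
    apply div_le_div_of_nonneg_right _ hpD.le
    refine sum_le_sum fun u _ => ?_
    have := sq_abs (bk e p (i + 1) u)
    nlinarith [sq_nonneg (|bk e p (i + 1) u| - 1)]
  linarith

/-- **the numbers of points and the closed points** -/
theorem rem (hN : 2 ≤ N) (hd : 0 < d) (k : ℕ) (hk : k ≠ 0) (hkd : k ≤ d) : ∃ C : ℝ, 0 ≤ C ∧ ∀ (p : ℕ) [Fact p.Prime],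
    (∑ u : Fin D → ZMod p, |Sk e p k u - (bk e p k u + etak k)|) / (p : ℝ) ^ D ≤ C / Real.sqrt p := by
  classical
  have hch : ∀ δ : ℕ, ∃ C : ℝ, 0 ≤ C ∧ (δ ∈ k.properDivisors → ∀ (p : ℕ) [Fact p.Prime],
      (∑ u : Fin D → ZMod p, |bk e p δ u|) / (p : ℝ) ^ D ≤ C) := by
    intro δ
    by_cases h : δ ∈ k.properDivisors
    · have h' := Nat.mem_properDivisors.1 h
      have hδ0 : δ ≠ 0 := fun h0 => hk (by rw [h0] at h'; exact Nat.eq_zero_of_zero_dvd h'.1)
      obtain ⟨c, hc⟩ := h'.1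
      have hc2 : 2 ≤ c := by
        by_contra hcon
        have : c ≤ 1 := by omega
        have : δ * c ≤ δ * 1 := Nat.mul_le_mul_left δ this
        omega
      have h2δ : 2 * δ ≤ k := by
        calc 2 * δ = δ * 2 := mul_comm _ _
          _ ≤ δ * c := Nat.mul_le_mul_left δ hc2
          _ = k := hc.symm
      obtain ⟨C, hC0, hC⟩ := mean_bk e hN hd δ hδ0 (h2δ.trans hkd)
      exact ⟨C, hC0, fun _ => hC⟩
    · exact ⟨0, le_rfl, fun h' => absurd h' h⟩
  choose C hC0 hC using hch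
  refine ⟨∑ δ ∈ k.properDivisors, (C δ + (δ + 1)), sum_nonneg fun δ _ => add_nonneg (hC0 δ) (by positivity), fun p hp => ?_⟩
  have hp0 : (0 : ℝ) < p := by exact_mod_cast hp.out.pos
  have hs := sqp1 p
  have hs0 : 0 < Real.sqrt p := by linarith
  have hpD : (0 : ℝ) < (p : ℝ) ^ D := by positivity
  have h2 : Real.sqrt p ^ 2 = p := Real.sq_sqrt (Nat.cast_nonneg p)
  obtain ⟨w, hw⟩ : ∃ w : ℕ → ℝ, w = fun δ => (Real.sqrt p ^ δ / Real.sqrt p ^ k) ^ (N - 1) := ⟨_, rfl⟩
  -- the shift as a sum over the proper divisors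
  have heta : etak k = ∑ δ ∈ k.properDivisors, if 2 * δ = k then (1 : ℝ) else 0 := by
    by_cases hk2 : Even k
    · obtain ⟨j, hj⟩ := hk2
      have hjm : j ∈ k.properDivisors := by
        rw [Nat.mem_properDivisors]
        exact ⟨⟨2, by omega⟩, by omega⟩
      rw [sum_eq_single j]
      · rw [if_pos (by omega)]
        unfold etak
        rw [if_pos ⟨j, hj⟩]
      · intro d _ hdj
        rw [if_neg (by omega)]
      · exact fun h => absurd hjm h
    · unfold etak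
      rw [if_neg hk2]
      symm
      apply sum_eq_zero
      intro d _
      rw [if_neg]
      intro h
      exact hk2 ⟨d, by omega⟩
  have h1 : ∀ u : Fin D → ZMod p, Sk e p k u - (bk e p k u + etak k) =
      ∑ δ ∈ k.properDivisors, (bk e p δ u * w δ + (mdl N p k δ - if 2 * δ = k then (1 : ℝ) else 0)) := by
    intro u
    rw [Sk_eq e p (by omega) k hk u, ← Nat.insert_self_properDivisors hk, sum_insert (by simp)]
    have e1 : bk e p k u * (Real.sqrt p ^ k / Real.sqrt p ^ k) ^ (N - 1) + mdl N p k k = bk e p k u := by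
      unfold mdl
      rw [div_self (by positivity), one_pow, sub_self]
      ring
    rw [e1, heta, hw]
    have e2 : ∀ δ, bk e p δ u * (Real.sqrt p ^ δ / Real.sqrt p ^ k) ^ (N - 1) + (mdl N p k δ - if 2 * δ = k then (1 : ℝ) else 0) =
        (bk e p δ u * (Real.sqrt p ^ δ / Real.sqrt p ^ k) ^ (N - 1) + mdl N p k δ) - if 2 * δ = k then (1 : ℝ) else 0 := fun δ => by ring
    simp only [e2]
    rw [sum_sub_distrib]
    ring
  have hdiv : ∀ δ ∈ k.properDivisors, δ ≠ 0 ∧ δ < k ∧ (2 * δ = k ∨ 3 * δ ≤ k) := by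
    intro δ h
    have h' := Nat.mem_properDivisors.1 h
    have hδ0 : δ ≠ 0 := fun h0 => hk (by rw [h0] at h'; exact Nat.eq_zero_of_zero_dvd h'.1)
    refine ⟨hδ0, h'.2, ?_⟩
    obtain ⟨c, hc⟩ := h'.1
    have hc0 : c ≠ 0 := by rintro rfl; omega
    have hc1 : c ≠ 1 := by rintro rfl; omega
    by_cases hc2 : c = 2
    · left
      rw [hc, hc2]
      ring
    · right
      have : 3 ≤ c := by omega
      calc 3 * δ = δ * 3 := mul_comm _ _
        _ ≤ δ * c := Nat.mul_le_mul_left δ this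
        _ = k := hc.symm
  have hw0 : ∀ δ, 0 ≤ w δ := by
    intro δ
    rw [hw]
    positivity
  have hw1 : ∀ δ ∈ k.properDivisors, w δ ≤ 1 / Real.sqrt p := by
    intro δ hδ
    obtain ⟨_, hlt, _⟩ := hdiv δ hδ
    obtain ⟨c, hc⟩ : ∃ c, k = δ + (c + 1) := ⟨k - δ - 1, by omega⟩
    rw [hw]
    show (Real.sqrt p ^ δ / Real.sqrt p ^ k) ^ (N - 1) ≤ 1 / Real.sqrt p
    have e1 : Real.sqrt p ^ δ / Real.sqrt p ^ k = 1 / Real.sqrt p ^ (c + 1) := by
      rw [hc, pow_add]
      field_simp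
    rw [e1, div_pow, one_pow, ← pow_mul]
    apply one_div_le_one_div_of_le hs0
    apply le_self_pow₀ hs
    have : 1 ≤ N - 1 := by omega
    exact Nat.mul_ne_zero (by omega) (by omega)
  -- the means
  have hm : ∀ δ ∈ k.properDivisors, |mdl N p k δ - if 2 * δ = k then (1 : ℝ) else 0| ≤ (δ + 1) / Real.sqrt p := by
    intro δ hδ
    obtain ⟨hδ0, hlt, hor⟩ := hdiv δ hδ
    obtain ⟨m, hm⟩ : ∃ m, N = m + 2 := ⟨N - 2, by omega⟩
    obtain ⟨A, hA⟩ : ∃ A : ℝ, A = (δ : ℝ) * ((CP p N δ).card : ℝ) := ⟨_, rfl⟩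
    have hA0 : 0 ≤ A := by rw [hA]; positivity
    have hAle := card_cp_le p N δ hδ0
    have hAerr := card_cp_err p N δ hδ0
    rw [← hA] at hAle hAerr
    have hmd : mdl N p k δ = A * (1 / (p : ℝ) ^ δ - 1 / (p : ℝ) ^ k) / (Real.sqrt p ^ k) ^ (N - 1) := by
      unfold mdl
      rw [hA]
    rw [hmd]
    obtain ⟨t, ht⟩ : ∃ t : ℝ, t = Real.sqrt p ^ δ := ⟨_, rfl⟩
    have htp : Real.sqrt p ≤ t := by rw [ht]; exact le_self_pow₀ hs hδ0
    have ht1 : 1 ≤ t := by linarith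
    have ht0 : 0 < t := by linarith
    have hpt : (p : ℝ) ^ δ = t ^ 2 := by rw [ht, ← pow_mul, mul_comm, pow_mul, h2]
    rw [← ht] at hAerr
    rw [hpt] at hAle hAerr ⊢
    rcases hor with h2δ | h3δ
    · rw [if_pos h2δ]
      have hpk : (p : ℝ) ^ k = (t ^ 2) ^ 2 := by rw [← h2δ, ← hpt]; ring
      have hsk : Real.sqrt p ^ k = t ^ 2 := by rw [← h2δ, ht]; ring
      rw [hpk, hsk]
      have e1 : A * (1 / t ^ 2 - 1 / (t ^ 2) ^ 2) / (t ^ 2) ^ (N - 1) = A / (t ^ 2) ^ N * (1 - 1 / t ^ 2) := by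
        rw [hm, Nat.add_sub_assoc (by norm_num)]
        have : t ≠ 0 := ht0.ne'
        field_simp
        ring
      rw [e1]
      have htN : (0 : ℝ) < (t ^ 2) ^ N := by positivity
      have e2 : A / (t ^ 2) ^ N ≤ 1 := (div_le_one htN).2 hAle
      have e3 : 1 - A / (t ^ 2) ^ N ≤ δ / Real.sqrt p := by
        have e4 : 1 - A / (t ^ 2) ^ N = -(A - (t ^ 2) ^ N) / (t ^ 2) ^ N := by
          field_simp
          ring
        have e5 : -(A - (t ^ 2) ^ N) ≤ δ * t ^ N := (neg_le_abs _).trans hAerr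
        rw [e4, div_le_div_iff₀ htN hs0]
        have e6 : (t ^ 2) ^ N = t ^ N * t ^ N := by ring
        have e7 : Real.sqrt p ≤ t ^ N := htp.trans (le_self_pow₀ ht1 (by omega))
        calc -(A - (t ^ 2) ^ N) * Real.sqrt p ≤ (δ * t ^ N) * Real.sqrt p := mul_le_mul_of_nonneg_right e5 hs0.le
          _ ≤ (δ * t ^ N) * t ^ N := mul_le_mul_of_nonneg_left e7 (by positivity)
          _ = δ * (t ^ 2) ^ N := by rw [e6]; ring
      have e8 : 1 / t ^ 2 ≤ 1 / Real.sqrt p := by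
        apply one_div_le_one_div_of_le hs0
        nlinarith
      have e9 : 0 ≤ 1 / t ^ 2 := by positivity
      have e10 : 0 ≤ A / (t ^ 2) ^ N := by positivity
      have e11 : (δ + 1 : ℝ) / Real.sqrt p = δ / Real.sqrt p + 1 / Real.sqrt p := by ring
      rw [e11, abs_sub_comm, abs_of_nonneg (by nlinarith)]
      nlinarith
    · rw [if_neg (by omega), sub_zero]
      obtain ⟨c, hc⟩ : ∃ c, k = 2 * δ + (c + 1) := ⟨k - 2 * δ - 1, by omega⟩
      obtain ⟨v, hv⟩ : ∃ v : ℝ, v = Real.sqrt p ^ (c + 1) := ⟨_, rfl⟩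
      have hv0 : 0 < v := by rw [hv]; positivity
      have hvs : Real.sqrt p ≤ v := by rw [hv]; exact le_self_pow₀ hs (by omega)
      have hsk : Real.sqrt p ^ k = t ^ 2 * v := by rw [hc, hv, ht, pow_add]; ring
      have hinv : 0 ≤ 1 / (p : ℝ) ^ k := by positivity
      have hinv2 : 1 / (p : ℝ) ^ k ≤ 1 / t ^ 2 := by
        rw [← hpt]
        apply one_div_le_one_div_of_le (by positivity)
        exact pow_le_pow_right₀ (by exact_mod_cast hp.out.one_lt.le) hlt.le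
      rw [hsk, abs_of_nonneg (div_nonneg (mul_nonneg hA0 (by linarith)) (by positivity))]
      have e1 : A * (1 / t ^ 2 - 1 / (p : ℝ) ^ k) / (t ^ 2 * v) ^ (N - 1) ≤ A * (1 / t ^ 2) / (t ^ 2 * v) ^ (N - 1) := by
        apply div_le_div_of_nonneg_right _ (by positivity)
        apply mul_le_mul_of_nonneg_left _ hA0
        linarith
      have e2 : A * (1 / t ^ 2) / (t ^ 2 * v) ^ (N - 1) ≤ 1 / v ^ (N - 1) := by
        have e3 : A * (1 / t ^ 2) / (t ^ 2 * v) ^ (N - 1) = (A / (t ^ 2) ^ N) * (1 / v ^ (N - 1)) := by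
          rw [hm, Nat.add_sub_assoc (by norm_num)]
          have : t ≠ 0 := ht0.ne'
          field_simp
          ring
        rw [e3]
        apply mul_le_of_le_one_left (by positivity)
        exact (div_le_one (by positivity)).2 hAle
      have e4 : 1 / v ^ (N - 1) ≤ 1 / Real.sqrt p := by
        apply one_div_le_one_div_of_le hs0
        exact hvs.trans (le_self_pow₀ (by linarith) (by omega))
      have e5 : 1 / Real.sqrt p ≤ (δ + 1) / Real.sqrt p := by
        apply div_le_div_of_nonneg_right _ hs0.le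
        have : (0 : ℝ) ≤ δ := Nat.cast_nonneg _
        linarith
      linarith
  -- the conclusion
  have h3 : ∀ u : Fin D → ZMod p, |Sk e p k u - (bk e p k u + etak k)| ≤
      ∑ δ ∈ k.properDivisors, (|bk e p δ u| * (1 / Real.sqrt p) + (δ + 1) / Real.sqrt p) := by
    intro u
    rw [h1 u]
    refine (abs_sum_le_sum_abs _ _).trans (sum_le_sum fun δ hδ => ?_)
    refine (abs_add_le _ _).trans (add_le_add ?_ (hm δ hδ))
    rw [abs_mul, abs_of_nonneg (hw0 δ)]
    exact mul_le_mul_of_nonneg_left (hw1 δ hδ) (abs_nonneg _)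
  have h4 : (∑ u : Fin D → ZMod p, |Sk e p k u - (bk e p k u + etak k)|) / (p : ℝ) ^ D ≤
      ∑ δ ∈ k.properDivisors, ((∑ u : Fin D → ZMod p, |bk e p δ u|) / (p : ℝ) ^ D * (1 / Real.sqrt p) + (δ + 1) / Real.sqrt p) := by
    have e1 : ∑ δ ∈ k.properDivisors, ((∑ u : Fin D → ZMod p, |bk e p δ u|) / (p : ℝ) ^ D * (1 / Real.sqrt p) + (δ + 1) / Real.sqrt p) =
        (∑ u : Fin D → ZMod p, ∑ δ ∈ k.properDivisors, (|bk e p δ u| * (1 / Real.sqrt p) + (δ + 1) / Real.sqrt p)) / (p : ℝ) ^ D := by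
      rw [sum_comm, sum_div]
      refine sum_congr rfl fun δ _ => ?_
      rw [sum_add_distrib, ← sum_mul, sum_const, card_univ, Fintype.card_fun, Fintype.card_fin, ZMod.card, nsmul_eq_mul]
      push_cast
      field_simp
    rw [e1]
    exact div_le_div_of_nonneg_right (sum_le_sum fun u _ => h3 u) hpD.le
  refine h4.trans ?_
  rw [sum_div]
  refine sum_le_sum fun δ hδ => ?_
  have e1 := hC δ hδ p
  have e2 : (C δ + (δ + 1)) / Real.sqrt p = C δ * (1 / Real.sqrt p) + (δ + 1) / Real.sqrt p := by ring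
  rw [e2]
  have e3 : (∑ u : Fin D → ZMod p, |bk e p δ u|) / (p : ℝ) ^ D * (1 / Real.sqrt p) ≤ C δ * (1 / Real.sqrt p) :=
    mul_le_mul_of_nonneg_right e1 (by positivity)
  linarith

end

end Pool.Agent.N842.HS
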