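import Pool.Agent.N842.HS.PrmG
import Pool.Agent.N842.HS.Trc

/-!
# Surfaces over number fields
-/

set_option autoImplicit false

namespace Pool.Agent.N842.HS

open Finset NumberField IsDedekindDomain MvPolynomial
open Pool.Agent.Y57.FD (digit exceptions)

section
variable {N d D : ℕ} (e : Fin D ≃ Mon N d)

/-- the polynomial with the coefficients `u` -/
noncomputable def pgl {κ : Type} [Field κ] (u : Fin D → κ) : MvPolynomial (Fin N) κ :=
  ∑ i, X i ^ d + ∑ k, C (u k) * ∏ i, X i ^ ((e k).1 i : ℕ)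

lemma pgl_map {κ κ' : Type} [Field κ] [Field κ'] (σ : κ →+* κ') (u : Fin D → κ) : map σ (pgl e u) = pgl e (fun k => σ (u k)) := by
  unfold pgl
  simp only [map_add, map_sum, map_mul, map_prod, map_pow, map_X, map_C]

lemma eval_pgl {κ κ' : Type} [Field κ] [Field κ'] (σ : κ →+* κ') (P : MvPolynomial (Fin N) κ) (x : Fin N → κ) :
    eval (fun i => σ (x i)) (map σ P) = σ (eval x P) := by
  rw [eval_map]
  have h := eval₂_comp_left σ (RingHom.id κ) x P
  rw [RingHom.comp_id] at h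
  exact h.symm

/-- the number of the points -/
noncomputable def pts (κ : Type) [Field κ] (u : Fin D → κ) : ℝ :=
  (Nat.card {x : Fin N → κ // eval x (pgl e u) = 0} : ℝ) + ((Nat.card {x : Fin N → κ // ∑ i, x i ^ d = 0} : ℝ) - 1) / ((Nat.card κ : ℝ) - 1)

lemma pts_congr {κ κ' : Type} [Field κ] [Field κ'] (σ : κ ≃+* κ') (u : Fin D → κ) : pts e κ' (fun k => σ (u k)) = pts e κ u := by
  unfold pts
  have h1 : Nat.card {x : Fin N → κ' // eval x (pgl e (fun k => σ (u k))) = 0} = Nat.card {x : Fin N → κ // eval x (pgl e u) = 0} := by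
    symm
    refine Nat.card_congr (Equiv.subtypeEquiv (Equiv.arrowCongr (Equiv.refl _) σ.toEquiv) fun x => ?_)
    have h := eval_pgl (σ : κ →+* κ') (pgl e u) x
    rw [pgl_map] at h
    have h' : eval (fun i => σ (x i)) (pgl e (fun k => σ (u k))) = σ (eval x (pgl e u)) := h
    show eval x (pgl e u) = 0 ↔ eval (fun i => σ (x i)) (pgl e (fun k => σ (u k))) = 0
    rw [h', map_eq_zero_iff _ σ.injective]
  have h2 : Nat.card {x : Fin N → κ' // ∑ i, x i ^ d = 0} = Nat.card {x : Fin N → κ // ∑ i, x i ^ d = 0} := by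
    symm
    refine Nat.card_congr (Equiv.subtypeEquiv (Equiv.arrowCongr (Equiv.refl _) σ.toEquiv) fun x => ?_)
    show ∑ i, x i ^ d = 0 ↔ ∑ i, (σ (x i)) ^ d = 0
    rw [← map_eq_zero_iff _ σ.injective, map_sum]
    simp only [map_pow]
  have h3 : Nat.card κ' = Nat.card κ := (Nat.card_congr σ.toEquiv).symm
  rw [h1, h2, h3]

/-- smoothness -/
def Smv (κ : Type) [Field κ] (u : Fin D → κ) : Prop :=
  (d : κ) ≠ 0 ∧ ¬ ∃ x : Fin N → AlgebraicClosure κ, eval x (pgl e (fun k => algebraMap κ (AlgebraicClosure κ) (u k))) = 0 ∧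
    ∀ i, eval x (pderiv i (pgl e (fun k => algebraMap κ (AlgebraicClosure κ) (u k)))) = 0

lemma Smv_half {κ κ' : Type} [Field κ] [Field κ'] (σ : κ ≃+* κ') (u : Fin D → κ) (h : Smv e κ' (fun k => σ (u k))) : Smv e κ u := by
  obtain ⟨h1, h2⟩ := h
  refine ⟨fun h3 => h1 ?_, fun ⟨x, h3, h4⟩ => h2 ?_⟩
  · rw [← map_natCast σ d, h3, map_zero]
  · let τ := IsAlgClosure.equivOfEquiv (AlgebraicClosure κ) (AlgebraicClosure κ') σ
    have hτ : ∀ k, τ (algebraMap κ (AlgebraicClosure κ) (u k)) = algebraMap κ' (AlgebraicClosure κ') (σ (u k)) := fun k =>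
      IsAlgClosure.equivOfEquiv_algebraMap _ _ σ (u k)
    have hP : pgl e (fun k => algebraMap κ' (AlgebraicClosure κ') (σ (u k))) =
        map (τ : AlgebraicClosure κ →+* AlgebraicClosure κ') (pgl e (fun k => algebraMap κ (AlgebraicClosure κ) (u k))) := by
      rw [pgl_map]
      congr 1
      funext k
      exact (hτ k).symm
    refine ⟨fun i => (τ : AlgebraicClosure κ →+* AlgebraicClosure κ') (x i), ?_, fun i => ?_⟩
    · rw [hP, eval_pgl, h3, map_zero]
    · rw [hP, pderiv_map, eval_pgl, h4 i, map_zero]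

lemma Smv_congr {κ κ' : Type} [Field κ] [Field κ'] (σ : κ ≃+* κ') (u : Fin D → κ) : Smv e κ' (fun k => σ (u k)) ↔ Smv e κ u := by
  refine ⟨Smv_half e σ u, fun h => ?_⟩
  apply Smv_half e σ.symm (fun k => σ (u k))
  simp only [RingEquiv.symm_apply_apply]
  exact h

lemma Smv_zmod (p : ℕ) [Fact p.Prime] (u : Fin D → ZMod p) : Smv e (ZMod p) u ↔ ¬ p ∣ d ∧ ¬ Sing e p u := by
  unfold Smv Sing
  rw [Ne, ZMod.natCast_eq_zero_iff]
  exact Iff.rfl

/-- the normalised trace -/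
noncomputable def trv (κ : Type) [Field κ] (u : Fin D → κ) : ℝ :=
  (-1) ^ (N - 1) * ((pts e κ u - ∑ i ∈ range N, (Nat.card κ : ℝ) ^ i) / Real.sqrt (Nat.card κ) ^ (N - 1))

lemma trv_congr {κ κ' : Type} [Field κ] [Field κ'] (σ : κ ≃+* κ') (u : Fin D → κ) : trv e κ' (fun k => σ (u k)) = trv e κ u := by
  unfold trv
  rw [pts_congr, (Nat.card_congr σ.toEquiv).symm]

lemma aeval_fpl (p : ℕ) [Fact p.Prime] (k : ℕ) (u : Fin D → ZMod p) (x : Fin N → GaloisField p k) :
    aeval x (fpl p e u) = eval x (pgl e (fun i => algebraMap (ZMod p) (GaloisField p k) (u i))) := by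
  unfold fpl lowp pgl
  rw [map_add, map_add, map_sum, map_sum, map_sum, map_sum]
  congr 1
  · refine sum_congr rfl fun i _ => ?_
    rw [map_pow, map_pow, aeval_X, eval_X]
  · refine sum_congr rfl fun k _ => ?_
    rw [aeval_monomial, map_mul, eval_C, map_prod, Finsupp.prod_fintype _ _ (fun _ => pow_zero _)]
    congr 1
    refine prod_congr rfl fun i _ => ?_
    rw [map_pow, eval_X]
    rfl

lemma trv_zmod (p : ℕ) [hp : Fact p.Prime] (u : Fin D → ZMod p) : trv e (ZMod p) u = trk e p 1 u := by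
  have h1 := trv_congr e (GaloisField.equivZmodP p).symm.toRingEquiv u
  rw [← h1]
  unfold trv trk pts infp
  have hc : (Nat.card (GaloisField p 1) : ℝ) = (p : ℝ) ^ 1 := by
    rw [GaloisField.card p 1 one_ne_zero]
    push_cast
    rfl
  have h2 : ∀ i, (GaloisField.equivZmodP p).symm.toRingEquiv (u i) = algebraMap (ZMod p) (GaloisField p 1) (u i) := fun i =>
    (GaloisField.equivZmodP p).symm.commutes (u i)
  simp only [h2, hc, aeval_fpl]
  rw [Real.sqrt_eq_rpow, Real.sqrt_eq_rpow, pow_one, pow_one]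

end

section
variable {K : Type} [Field K] [NumberField K] {N d D g : ℕ} (e : Fin D ≃ Mon N d)

/-- the residue field -/
def Res (v : HeightOneSpectrum (𝓞 K)) : Type := 𝓞 K ⧸ v.asIdeal

noncomputable instance resField (v : HeightOneSpectrum (𝓞 K)) : Field (Res v) :=
  haveI : v.asIdeal.IsMaximal := v.isMaximal
  Ideal.Quotient.field v.asIdeal

/-- the reduction -/
noncomputable def rho (v : HeightOneSpectrum (𝓞 K)) : 𝓞 K →+* Res v := Ideal.Quotient.mk v.asIdeal

lemma card_Res (v : HeightOneSpectrum (𝓞 K)) : Nat.card (Res v) = Ideal.absNorm v.asIdeal := (norm_card v).symm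

/-- the residue field of a kernel -/
lemma res_iso {p : ℕ} [Fact p.Prime] (φ : 𝓞 K →+* ZMod p) : ∃ σ : Res (hv φ) ≃+* ZMod p, ∀ a, σ (rho (hv φ) a) = φ a := by
  have e : (𝓞 K ⧸ RingHom.ker φ) ≃+* ZMod p := RingHom.quotientKerEquivOfSurjective (ZMod.ringHom_surjective φ)
  exact ⟨RingHom.quotientKerEquivOfSurjective (ZMod.ringHom_surjective φ), fun a => rfl⟩

open Classical in
/-- the indicator function of the good primes -/
noncomputable def F0 (v : HeightOneSpectrum (𝓞 K)) (c : Fin D → 𝓞 K) : ℝ := if Smv e (Res v) (fun k => rho v (c k)) then 1 else 0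

open Classical in
/-- the truncated traces -/
noncomputable def F1 (η : ℝ) (v : HeightOneSpectrum (𝓞 K)) (c : Fin D → 𝓞 K) : ℝ :=
  if Smv e (Res v) (fun k => rho v (c k)) ∧ |trv e (Res v) (fun k => rho v (c k))| ≤ (Nat.card (Res v) : ℝ) ^ η then
    trv e (Res v) (fun k => rho v (c k)) else 0

/-- the exponents of the first trace -/
def one (d : ℕ) [NeZero d] : Fin d → ℕ := fun j => if j = 0 then 1 else 0

lemma smv_hv {p : ℕ} [Fact p.Prime] (φ : 𝓞 K →+* ZMod p) (c : Fin D → 𝓞 K) :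
    Smv e (Res (hv φ)) (fun k => rho (hv φ) (c k)) ↔ ¬ p ∣ d ∧ ¬ Sing e p (fun k => φ (c k)) := by
  obtain ⟨σ, hσ⟩ := res_iso φ
  rw [← Smv_congr e σ, ← Smv_zmod]
  simp only [hσ]

lemma trv_hv {p : ℕ} [Fact p.Prime] (φ : 𝓞 K →+* ZMod p) (c : Fin D → 𝓞 K) :
    trv e (Res (hv φ)) (fun k => rho (hv φ) (c k)) = trk e p 1 (fun k => φ (c k)) := by
  obtain ⟨σ, hσ⟩ := res_iso φ
  rw [← trv_congr e σ, ← trv_zmod]
  simp only [hσ]

lemma F0_hv (η : ℝ) (hη : 0 ≤ η) {p : ℕ} [hp : Fact p.Prime] (φ : 𝓞 K →+* ZMod p) (c : Fin D → 𝓞 K) :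
    F0 e (hv φ) c = Ft e (fun _ : Fin d => 0) η p (fun k => φ (c k)) := by
  classical
  unfold F0 Ft
  have h1 : Yk e (fun _ : Fin d => 0) p (fun k => φ (c k)) = 1 := by
    unfold Yk
    simp
  have h2 : (1 : ℝ) ≤ (p : ℝ) ^ η := Real.one_le_rpow (by exact_mod_cast hp.out.one_lt.le) hη
  rw [h1]
  refine if_congr ?_ rfl rfl
  rw [smv_hv, abs_one]
  constructor
  · exact fun h => ⟨h.1, h.2, h2⟩
  · exact fun h => ⟨h.1, h.2.1⟩

lemma F1_hv [NeZero d] (η : ℝ) {p : ℕ} [hp : Fact p.Prime] (φ : 𝓞 K →+* ZMod p) (c : Fin D → 𝓞 K) :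
    F1 e η (hv φ) c = Ft e (one d) η p (fun k => φ (c k)) := by
  classical
  unfold F1 Ft
  have h1 : Yk e (one d) p (fun k => φ (c k)) = trv e (Res (hv φ)) (fun k => rho (hv φ) (c k)) := by
    unfold Yk one
    rw [trv_hv]
    rw [prod_eq_single (0 : Fin d)]
    · rw [if_pos rfl, pow_one]
      rfl
    · intro j _ hj
      rw [if_neg hj, pow_zero]
    · intro h
      exact absurd (mem_univ _) h
  rw [h1]
  refine if_congr ?_ rfl rfl
  rw [smv_hv, card_Res, absNorm_hv, and_assoc]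

end

end Pool.Agent.N842.HS
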