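import Pool.Agent.N842.HS.NFW
import Pool.Agent.N842.ST.Gauss
import Pool.Agent.N842.ST.Conv

/-!
# Curves over number fields
-/

set_option autoImplicit false

namespace Pool.Agent.N842.HS

open Finset
open Pool.Agent.TH894.NE (mean box mem_box)
open Pool.Agent.TH894.NF (pr pr_prime)
open Pool.Agent.Y57.FD (digit exceptions)
open Pool.Agent.N842.ST (gfFin card_gf)

/-- the function of the residue classes -/
noncomputable def lift {D : ℕ} (F : ℕ → (Fin D → ℕ) → ℝ) (p : ℕ) [Fact p.Prime] (u : Fin D → ZMod p) : ℝ := F p (fun i => (u i).val)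

lemma lift_mean {D : ℕ} (F : ℕ → (Fin D → ℕ) → ℝ) (p : ℕ) [hp : Fact p.Prime] (hF : ∀ m, F p m = F p (fun i => m i % p)) :
    (∑ u : Fin D → ZMod p, lift F p u) / (p : ℝ) ^ D = mean D p (F p) := by
  have h1 := Pool.Agent.N842.ST.mean_eq_av p (fun u : Fin D → ZMod p => lift F p u)
  have h2 : (fun m : Fin D → ℕ => lift F p (fun k => (m k : ZMod p))) = F p := by
    funext m
    unfold lift
    simp only [ZMod.val_natCast]
    exact (hF m).symm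
  rw [h2] at h1
  rw [h1]
  rfl

section
variable {R : Type} [CommRing R]

open Classical in
/-- **Periodic functions over number fields.** -/
theorem genL [Module.Finite ℤ R] (b g D s : ℕ) (ω : Fin g → R) (hω : (1 : R) ∈ Submodule.span ℤ (Set.range ω)) (hb : 2 ≤ b) (hD : 1 ≤ D * g) (hs : 1 ≤ s)
    (δ : ℝ) (hδ : 0 < δ) (A B : ℕ) {Θ : Type} (Q : Finset Θ)
    (F : Θ → ℕ → (Fin D → ℕ) → ℝ) (M : Θ → ℕ → ℝ)
    (hper : ∀ θ ∈ Q, ∀ p, p.Prime → ∀ m, F θ p m = F θ p (fun j => m j % p))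
    (hbd : ∀ θ ∈ Q, ∃ C : ℝ, ∀ p : ℕ, p.Prime → (∀ m, |F θ p m| ≤ C) ∧ |M θ p| ≤ C)
    (hmean : ∀ θ ∈ Q, ∃ C : ℝ, 0 ≤ C ∧ ∀ p, p.Prime → |mean D p (F θ p) - M θ p| ≤ C / Real.sqrt p) :
    ∃ c : ℝ, 0 < c ∧ ∃ y₀ : ℕ, ∀ (K r : Fin (D * g) → ℕ) (y : ℕ), (∀ i, 2 * r i ≤ K i) → y₀ ≤ y →
    ∀ N' : Fin (D * g) → ℕ, (∀ i, N' i < b ^ K i) →
    ∀ f : Fin (D * g) → ℕ → ℕ, (∀ i j, f i j < b ∧ f i j ≠ digit b j (N' i)) →
    ∀ W : ℕ → Set ((k : ℕ) → ((e : Fin s) → (R →+* ZMod (Nat.nth Nat.Prime (k + e)))) → ℝ), (∀ x, (W x).Finite ∧ (W x).ncard ≤ x ^ B) →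
      (∀ x, ∀ w ∈ W x, ∀ k φ, |w k φ| ≤ 1) →
    ∀ E : (Fin (D * g) → ℕ) → Prop,
    (∀ m : Fin (D * g) → ℕ, (∀ x : ℕ, y ≤ x → (∀ i, (x : ℝ) ≤ Real.exp (c * r i)) → ∀ w ∈ W x, ∀ q : Fin s → Θ, (∀ e, q e ∈ Q) →
      |∑ k ∈ range x, ∑ᶠ φ : (e : Fin s) → (R →+* ZMod (Nat.nth Nat.Prime (k + e))),
          w k φ * (∏ e : Fin s, lift (F (q e)) (Nat.nth Nat.Prime (k + e)) (fun j => φ e (cf ω m j)) - ∏ e : Fin s, M (q e) (Nat.nth Nat.Prime (k + e)))| ≤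
        Real.sqrt (max 1 (∑ k ∈ range x, ∑ᶠ φ : (e : Fin s) → (R →+* ZMod (Nat.nth Nat.Prime (k + e))), w k φ ^ 2)) * (x : ℝ) ^ δ) → E m) →
    (exceptions b K r N' f E : ℝ) ≤ 1 / (y : ℝ) ^ A * ∏ i, ((K i).choose (r i) : ℝ) := by
  obtain ⟨c, hc, y₀, hg⟩ := genRW b g D s ω hω hb hD hs δ hδ A B Q (fun θ p _ u => lift (F θ) p u) M 0 le_rfl
    (fun θ hθ => by
      obtain ⟨C, hC⟩ := hbd θ hθ
      refine ⟨C, (abs_nonneg _).trans (hC 2 Nat.prime_two).2, fun p hp => ?_⟩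
      rw [Real.rpow_zero, mul_one]
      exact ⟨fun u => (hC p hp.out).1 _, (hC p hp.out).2⟩)
    (fun θ hθ => by
      obtain ⟨C, hC0, hC⟩ := hmean θ hθ
      refine ⟨C, hC0, fun p hp => ?_⟩
      rw [lift_mean (F θ) p (hper θ hθ p hp.out)]
      exact hC p hp.out)
  refine ⟨c, hc, y₀, fun K r y hrK hy N' hN' f hf W hW hW1 E hE => ?_⟩
  refine hg K r y hrK hy N' hN' f hf W hW hW1 E fun m hm => ?_
  refine hE m fun x hyx hxr w hw q hq => ?_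
  have h1 := hm x hyx hxr w hw q hq
  rw [mul_zero, zero_add] at h1
  exact h1

end

/-- the number of the points, for coefficients in the field with `p` elements -/
lemma card_pointsu (l p : ℕ) [hp : Fact p.Prime] (k : ℕ) {D : ℕ} (u : Fin D → ZMod p) :
    Nat.card {P : GaloisField p k × GaloisField p k // P.2 ^ l = P.1 ^ D + ∑ i, algebraMap (ZMod p) (GaloisField p k) (u i) * P.1 ^ (i : ℕ)} =
    Nat.card {P : GaloisField p k × GaloisField p k // P.2 ^ l = P.1 ^ D + ∑ i, (((u i).val : ℕ) : GaloisField p k) * P.1 ^ (i : ℕ)} := by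
  have h1 : ∀ i, algebraMap (ZMod p) (GaloisField p k) (u i) = (((u i).val : ℕ) : GaloisField p k) := by
    intro i
    conv_lhs => rw [← ZMod.natCast_zmod_val (u i)]
    rw [map_natCast]
  simp only [h1]

end Pool.Agent.N842.HS
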